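import Mathlib

set_option autoImplicit false

open Set Filter Topology

namespace Pool.Agent.Run7.h118

/-- A continuous gauge dominating prescribed scales. -/
theorem exists_gauge (c : ℕ → ℝ) (hc : ∀ n, 0 < c n) :
    ∃ θ : ℝ → ℝ, Continuous θ ∧ θ 0 = 0 ∧ (∀ d, 0 ≤ θ d) ∧
      ∀ d, 0 < d → (1 ≤ θ d ∨ ∃ n : ℕ, d < c n ∧ (1 / 2 : ℝ) ^ n ≤ θ d) := by
  set ρ : ℕ → ℝ := fun n => min (c n) ((1 / 2 : ℝ) ^ n) with hρ
  have hρpos : ∀ n, 0 < ρ n := fun n => lt_min (hc n) (by positivity)
  have hsum : Summable (fun n : ℕ => (2 : ℝ) * (1 / 2 : ℝ) ^ n) :=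
    (summable_geometric_of_lt_one (by norm_num) (by norm_num)).mul_left 2
  have hterm0 : ∀ (n : ℕ) (d : ℝ), 0 ≤ 2 * (1 / 2 : ℝ) ^ n * min 1 (|d| / ρ n) := by
    intro n d
    have : 0 ≤ min 1 (|d| / ρ n) := le_min (by norm_num) (div_nonneg (abs_nonneg _) (hρpos n).le)
    positivity
  have hterm1 : ∀ (n : ℕ) (d : ℝ), 2 * (1 / 2 : ℝ) ^ n * min 1 (|d| / ρ n) ≤ 2 * (1 / 2 : ℝ) ^ n := by
    intro n d
    have h1 : min 1 (|d| / ρ n) ≤ 1 := min_le_left _ _
    have h2 : (0 : ℝ) ≤ 2 * (1 / 2 : ℝ) ^ n := by positivity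
    calc 2 * (1 / 2 : ℝ) ^ n * min 1 (|d| / ρ n) ≤ 2 * (1 / 2 : ℝ) ^ n * 1 :=
          mul_le_mul_of_nonneg_left h1 h2
      _ = _ := by ring
  have hsummable : ∀ d : ℝ, Summable (fun n : ℕ => 2 * (1 / 2 : ℝ) ^ n * min 1 (|d| / ρ n)) :=
    fun d => Summable.of_nonneg_of_le (fun n => hterm0 n d) (fun n => hterm1 n d) hsum
  refine ⟨fun d => ∑' n : ℕ, 2 * (1 / 2 : ℝ) ^ n * min 1 (|d| / ρ n), ?_, ?_, ?_, ?_⟩
  · refine continuous_tsum (fun n => ?_) hsum (fun n d => ?_)
    · exact (continuous_const.mul (continuous_const.min (continuous_abs.div_const _)))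
    · rw [Real.norm_eq_abs, abs_of_nonneg (hterm0 n d)]
      exact hterm1 n d
  · simp
  · intro d
    exact tsum_nonneg (fun n => hterm0 n d)
  · intro d hd
    have hlim : Tendsto (fun n : ℕ => (1 / 2 : ℝ) ^ n) atTop (𝓝 0) :=
      tendsto_pow_atTop_nhds_zero_of_lt_one (by norm_num) (by norm_num)
    have hex : ∃ n, ρ n ≤ d := by
      obtain ⟨n, hn⟩ := ((hlim.eventually (gt_mem_nhds hd))).exists
      exact ⟨n, (min_le_right _ _).trans hn.le⟩
    classical
    set m := Nat.find hex with hm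
    have hmspec : ρ m ≤ d := Nat.find_spec hex
    have hval : 2 * (1 / 2 : ℝ) ^ m ≤ ∑' n : ℕ, 2 * (1 / 2 : ℝ) ^ n * min 1 (|d| / ρ n) := by
      have h1 : min 1 (|d| / ρ m) = 1 := by
        apply min_eq_left
        rw [le_div_iff₀ (hρpos m), one_mul, abs_of_pos hd]
        exact hmspec
      have h2 := (hsummable d).le_tsum m (fun j _ => hterm0 j d)
      rw [h1, mul_one] at h2
      exact h2
    rcases Nat.eq_zero_or_pos m with h0 | hpos
    · left
      rw [h0] at hval
      norm_num at hval ⊢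
      linarith
    · right
      refine ⟨m - 1, ?_, ?_⟩
      · have hlt : ¬ (ρ (m - 1) ≤ d) := Nat.find_min hex (by omega)
        exact (not_le.mp hlt).trans_le (min_le_left _ _)
      · obtain ⟨j, hj⟩ : ∃ j, m = j + 1 := ⟨m - 1, by omega⟩
        rw [hj] at hval ⊢
        simp only [Nat.add_sub_cancel]
        rw [pow_succ] at hval
        linarith

/-- **No-return criterion.** Let `A` be a closed nonempty subset of a compact metric space `X` and
`k : X × [0,1] → X` continuous such that `k b 0 = b` on `A`, the track of a point of `A` never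
returns after leaving, and `k x 1 ≠ x` off `A`.  Then `A` is the fixed point set of a self-map. -/
theorem engine {X : Type*} [MetricSpace X] [CompactSpace X] {A : Set X} (hA : IsClosed A)
    (hne : A.Nonempty) (k : X → ℝ → X) (hk : Continuous fun p : X × ℝ => k p.1 p.2)
    (h0 : ∀ b ∈ A, k b 0 = b)
    (hret : ∀ b ∈ A, ∀ t ∈ Icc (0 : ℝ) 1, k b t = b → ∀ s ∈ Icc (0 : ℝ) t, k b s = b)
    (h1 : ∀ x, x ∉ A → k x 1 ≠ x) :
    ∃ f : X → X, Continuous f ∧ ∀ x, f x = x ↔ x ∈ A := by
  classical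
  have hkx : ∀ x : X, Continuous (k x) := fun x => hk.comp (Continuous.prodMk_right x)
  -- Step 1
  have unif : ∀ ε > (0 : ℝ), ∃ δ > (0 : ℝ), ∀ x, Metric.infDist x A < δ →
      ∀ t ∈ Icc (0 : ℝ) 1, (t = 0 ∨ k x t = x) → ∀ s ∈ Icc (0 : ℝ) t, dist (k x s) x < ε := by
    intro ε hε
    set Z : Set (X × ℝ × ℝ) := {p | p.2.1 ∈ Icc (0 : ℝ) 1 ∧ (p.2.1 = 0 ∨ k p.1 p.2.1 = p.1) ∧
      p.2.2 ∈ Icc (0 : ℝ) p.2.1 ∧ ε ≤ dist (k p.1 p.2.2) p.1} with hZ
    have c1 : Continuous (fun p : X × ℝ × ℝ => k p.1 p.2.1) :=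
      hk.comp (continuous_fst.prodMk (continuous_fst.comp continuous_snd))
    have c2 : Continuous (fun p : X × ℝ × ℝ => k p.1 p.2.2) :=
      hk.comp (continuous_fst.prodMk (continuous_snd.comp continuous_snd))
    have hZc : IsClosed Z := by
      have e1 : IsClosed {p : X × ℝ × ℝ | p.2.1 ∈ Icc (0 : ℝ) 1} :=
        isClosed_Icc.preimage (continuous_fst.comp continuous_snd)
      have e2 : IsClosed {p : X × ℝ × ℝ | p.2.1 = 0 ∨ k p.1 p.2.1 = p.1} :=
        (isClosed_eq (continuous_fst.comp continuous_snd) continuous_const).union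
          (isClosed_eq c1 continuous_fst)
      have e3 : IsClosed {p : X × ℝ × ℝ | p.2.2 ∈ Icc (0 : ℝ) p.2.1} :=
        (isClosed_le continuous_const (continuous_snd.comp continuous_snd)).inter
          (isClosed_le (continuous_snd.comp continuous_snd) (continuous_fst.comp continuous_snd))
      have e4 : IsClosed {p : X × ℝ × ℝ | ε ≤ dist (k p.1 p.2.2) p.1} :=
        isClosed_le continuous_const (c2.dist continuous_fst)
      exact e1.inter (e2.inter (e3.inter e4))
    have hZK : IsCompact Z := by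
      refine IsCompact.of_isClosed_subset
        (isCompact_univ.prod ((isCompact_Icc (a := (0 : ℝ)) (b := 1)).prod
          (isCompact_Icc (a := (0 : ℝ)) (b := 1)))) hZc ?_
      rintro ⟨x, t, s⟩ ⟨ht, -, hs, -⟩
      exact ⟨mem_univ _, ht, ⟨hs.1, hs.2.trans ht.2⟩⟩
    have hK : IsCompact (Prod.fst '' Z) := hZK.image continuous_fst
    have hKA : ∀ x ∈ Prod.fst '' Z, x ∉ A := by
      rintro _ ⟨⟨x, t, s⟩, ⟨ht, hor, hs, hd⟩, rfl⟩ hx
      simp only at ht hor hs hd hx
      have : k x s = x := by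
        rcases hor with h | h
        · have hs0 : s = 0 := by
            rw [h] at hs
            exact le_antisymm hs.2 hs.1
          rw [hs0]
          exact h0 x hx
        · exact hret x hx t ht h s hs
      rw [this, dist_self] at hd
      linarith
    rcases (Prod.fst '' Z).eq_empty_or_nonempty with hemp | hnon
    · refine ⟨1, one_pos, fun x _ t ht hor s hs => ?_⟩
      by_contra hcon
      have : x ∈ Prod.fst '' Z := ⟨(x, t, s), ⟨ht, hor, hs, not_lt.mp hcon⟩, rfl⟩
      rw [hemp] at this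
      exact this
    · obtain ⟨x0, hx0, hmin⟩ := hK.exists_isMinOn hnon
        (Metric.continuous_infDist_pt A).continuousOn
      refine ⟨Metric.infDist x0 A, ?_, fun x hx t ht hor s hs => ?_⟩
      · exact (hA.notMem_iff_infDist_pos hne).mp (hKA x0 hx0)
      · by_contra hcon
        have hxm : x ∈ Prod.fst '' Z := ⟨(x, t, s), ⟨ht, hor, hs, not_lt.mp hcon⟩, rfl⟩
        have := hmin hxm
        simp only [mem_ofPred_eq] at this
        linarith
  -- Step 2
  have hpow : ∀ n : ℕ, (0 : ℝ) < (1 / 2 : ℝ) ^ n := fun n => by positivity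
  choose c hcpos hcspec using fun n : ℕ => unif ((1 / 2 : ℝ) ^ n) (hpow n)
  obtain ⟨θ, hθc, hθ0, hθnn, hθ⟩ := exists_gauge c hcpos
  -- Step 3
  obtain ⟨D, hD⟩ : ∃ D : ℝ, ∀ x y : X, dist x y ≤ D :=
    ⟨Metric.diam (univ : Set X), fun x y =>
      Metric.dist_le_diam_of_mem isCompact_univ.isBounded (mem_univ _) (mem_univ _)⟩
  have hD0 : 0 ≤ D := by
    obtain ⟨b, _⟩ := hne
    have := hD b b
    rwa [dist_self] at this
  set e : X → ℝ := fun x => θ (Metric.infDist x A) * (1 + D) with he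
  have hec : Continuous e := (hθc.comp (Metric.continuous_infDist_pt A)).mul continuous_const
  have he0 : ∀ b ∈ A, e b = 0 := by
    intro b hb
    simp only [he]
    rw [Metric.infDist_zero_of_mem hb, hθ0, zero_mul]
  have henn : ∀ x, 0 ≤ e x := fun x => mul_nonneg (hθnn _) (by linarith)
  have hbound : ∀ x, x ∉ A → ∀ t ∈ Icc (0 : ℝ) 1, (t = 0 ∨ k x t = x) →
      ∀ s ∈ Icc (0 : ℝ) t, dist (k x s) x < e x := by
    intro x hx t ht hor s hs
    have hd : 0 < Metric.infDist x A := (hA.notMem_iff_infDist_pos hne).mp hx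
    rcases hθ _ hd with h | ⟨n, hn1, hn2⟩
    · calc dist (k x s) x ≤ D := hD _ _
        _ < 1 * (1 + D) := by linarith
        _ ≤ e x := mul_le_mul_of_nonneg_right h (by linarith)
    · calc dist (k x s) x < (1 / 2 : ℝ) ^ n := hcspec n x hn1 t ht hor s hs
        _ ≤ θ (Metric.infDist x A) * 1 := by rw [mul_one]; exact hn2
        _ ≤ e x := mul_le_mul_of_nonneg_left (by linarith) (hθnn _)
  -- Step 4
  obtain ⟨τ, hτ⟩ : ∃ τ : C((Aᶜ : Set X), ℝ), ∀ y : (Aᶜ : Set X), τ y ∈
      {t : ℝ | t ∈ Icc (0 : ℝ) 1 ∧ (∀ s ∈ Icc t 1, k y s ≠ y) ∧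
        ∀ s ∈ Icc (0 : ℝ) t, dist (k (y : X) s) y < e y} := by
    apply exists_continuous_forall_mem_convex_of_local_const
    · intro y
      apply OrdConnected.convex
      constructor
      rintro t1 ⟨ht1, hr1, _⟩ t2 ⟨ht2, _, hd2⟩ t ⟨h1t, ht2'⟩
      exact ⟨⟨ht1.1.trans h1t, ht2'.trans ht2.2⟩, fun s hs => hr1 s ⟨h1t.trans hs.1, hs.2⟩,
        fun s hs => hd2 s ⟨hs.1, hs.2.trans ht2'⟩⟩
    · intro y
      have hy : (y : X) ∉ A := y.2
      -- last return time
      obtain ⟨t0, ht0, ht01, hlast, hor⟩ : ∃ t0 ∈ Icc (0 : ℝ) 1, t0 < 1 ∧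
          (∀ s ∈ Ioc t0 1, k (y : X) s ≠ y) ∧ (t0 = 0 ∨ k (y : X) t0 = y) := by
        set R : Set ℝ := {s | s ∈ Icc (0 : ℝ) 1 ∧ k (y : X) s = y} with hR
        have hRc : IsCompact R :=
          isCompact_Icc.inter_right (isClosed_eq (hkx y) continuous_const)
        rcases R.eq_empty_or_nonempty with hemp | hnon
        · refine ⟨0, ⟨le_rfl, zero_le_one⟩, zero_lt_one, fun s hs hks => ?_, Or.inl rfl⟩
          have : s ∈ R := ⟨⟨hs.1.le, hs.2⟩, hks⟩
          rw [hemp] at this
          exact this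
        · obtain ⟨t0, ht0R, ht0max⟩ := hRc.exists_isGreatest hnon
          have hlt : t0 < 1 := by
            rcases lt_or_eq_of_le ht0R.1.2 with h | h
            · exact h
            · exfalso
              have := ht0R.2
              rw [h] at this
              exact h1 y hy this
          refine ⟨t0, ht0R.1, hlt, fun s hs hks => ?_, Or.inr ht0R.2⟩
          have : s ∈ R := ⟨⟨ht0R.1.1.trans hs.1.le, hs.2⟩, hks⟩
          exact absurd (ht0max this) (not_le.mpr hs.1)
      have hb0 : ∀ s ∈ Icc (0 : ℝ) t0, dist (k (y : X) s) y < e y :=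
        hbound y hy t0 ht0 hor
      -- choose t slightly larger
      obtain ⟨t, htt0, ht1, hbt⟩ : ∃ t, t0 < t ∧ t ≤ 1 ∧
          ∀ s ∈ Icc (0 : ℝ) t, dist (k (y : X) s) y < e y := by
        have hcont : Continuous (fun s => dist (k (y : X) s) y) :=
          (hkx y).dist continuous_const
        have hev : ∀ᶠ s in 𝓝 t0, dist (k (y : X) s) y < e y :=
          hcont.continuousAt.eventually (gt_mem_nhds (hb0 t0 ⟨ht0.1, le_rfl⟩))
        obtain ⟨η, hη, hηs⟩ := Metric.eventually_nhds_iff.mp hev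
        refine ⟨min 1 (t0 + η / 2), lt_min ht01 (by linarith), min_le_left _ _, ?_⟩
        intro s hs
        rcases le_or_gt s t0 with h | h
        · exact hb0 s ⟨hs.1, h⟩
        · apply hηs
          rw [Real.dist_eq, abs_of_pos (by linarith)]
          have := hs.2.trans (min_le_right _ _)
          linarith
      refine ⟨t, ?_⟩
      have ht0' : 0 ≤ t := ht0.1.trans htt0.le
      have hev1 : ∀ᶠ z : (Aᶜ : Set X) in 𝓝 y, ∀ s ∈ Icc t 1, k (z : X) s ≠ z := by
        apply isCompact_Icc.eventually_forall_of_forall_eventually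
        intro s hs
        have hne' : k (y : X) s ≠ y := hlast s ⟨htt0.trans_le hs.1, hs.2⟩
        have hopen : IsOpen {p : (Aᶜ : Set X) × ℝ | k (p.1 : X) p.2 ≠ p.1} :=
          isOpen_ne_fun (hk.comp ((continuous_subtype_val.comp continuous_fst).prodMk
            continuous_snd)) (continuous_subtype_val.comp continuous_fst)
        exact hopen.mem_nhds hne'
      have hev2 : ∀ᶠ z : (Aᶜ : Set X) in 𝓝 y, ∀ s ∈ Icc (0 : ℝ) t,
          dist (k (z : X) s) z < e z := by
        apply isCompact_Icc.eventually_forall_of_forall_eventually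
        intro s hs
        have hlt' := hbt s hs
        have hopen : IsOpen {p : (Aᶜ : Set X) × ℝ | dist (k (p.1 : X) p.2) p.1 < e p.1} :=
          isOpen_lt ((hk.comp ((continuous_subtype_val.comp continuous_fst).prodMk
            continuous_snd)).dist (continuous_subtype_val.comp continuous_fst))
            (hec.comp (continuous_subtype_val.comp continuous_fst))
        exact hopen.mem_nhds hlt'
      filter_upwards [hev1, hev2] with z hz1 hz2
      exact ⟨⟨ht0', ht1⟩, hz1, hz2⟩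
  -- Step 5
  set f : X → X := fun x => if h : x ∈ A then x else k x (τ ⟨x, h⟩) with hf
  have hfA : ∀ x ∈ A, f x = x := fun x hx => by simp only [hf, dif_pos hx]
  have hfn : ∀ x (h : x ∉ A), f x = k x (τ ⟨x, h⟩) := fun x h => by simp only [hf, dif_neg h]
  have hdist : ∀ x, dist (f x) x ≤ e x := by
    intro x
    by_cases h : x ∈ A
    · rw [hfA x h, dist_self]
      exact henn x
    · rw [hfn x h]
      obtain ⟨⟨ht0, _⟩, _, hd⟩ := hτ ⟨x, h⟩
      exact (hd _ ⟨ht0, le_rfl⟩).le
  refine ⟨f, ?_, ?_⟩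
  · rw [continuous_iff_continuousAt]
    intro x
    by_cases h : x ∈ A
    · have hz : Tendsto (fun z => dist (f z) z) (𝓝 x) (𝓝 0) := by
        refine squeeze_zero (fun _ => dist_nonneg) hdist ?_
        have := hec.tendsto x
        rwa [he0 x h] at this
      have : Tendsto f (𝓝 x) (𝓝 x) := (tendsto_iff_of_dist hz).mpr tendsto_id
      rw [ContinuousAt, hfA x h]
      exact this
    · have hon : ContinuousOn f Aᶜ := by
        rw [continuousOn_iff_continuous_domRestrict]
        have : (Aᶜ).domRestrict f = fun y : (Aᶜ : Set X) => k (y : X) (τ y) := by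
          ext y
          show f (y : X) = k (y : X) (τ y)
          rw [hfn y y.2]
        rw [this]
        exact hk.comp (continuous_subtype_val.prodMk τ.continuous)
      exact hon.continuousAt (hA.isOpen_compl.mem_nhds h)
  · intro x
    constructor
    · intro hx
      by_contra h
      rw [hfn x h] at hx
      obtain ⟨⟨_, ht1⟩, hr, _⟩ := hτ ⟨x, h⟩
      exact hr _ ⟨le_rfl, ht1⟩ hx
    · exact hfA x

end Pool.Agent.Run7.h118
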