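import Mathlib
import Pool.Agent.Run7.h118.Engine

set_option autoImplicit false

open Set Filter Topology

namespace Pool.Agent.Run7.h118

/-- Convex combination in the Hilbert cube. -/
noncomputable def seg (p q : ℕ → unitInterval) (s : ℝ) : ℕ → unitInterval :=
  fun i => projIcc (0 : ℝ) 1 zero_le_one ((1 - s) * (p i : ℝ) + s * (q i : ℝ))

theorem seg_zero (p q : ℕ → unitInterval) : seg p q 0 = p := by
  ext i
  simp [seg]

theorem seg_one (p q : ℕ → unitInterval) : seg p q 1 = q := by
  ext i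
  simp [seg]

theorem seg_self (p : ℕ → unitInterval) (s : ℝ) : seg p p s = p := by
  funext i
  have h : (1 - s) * (p i : ℝ) + s * (p i : ℝ) = (p i : ℝ) := by ring
  simp only [seg, h]
  exact projIcc_val _ _

theorem continuous_seg : Continuous fun z : ((ℕ → unitInterval) × (ℕ → unitInterval)) × ℝ =>
    seg z.1.1 z.1.2 z.2 := by
  refine continuous_pi fun i => ?_
  refine continuous_projIcc.comp ?_
  have h1 : Continuous fun z : ((ℕ → unitInterval) × (ℕ → unitInterval)) × ℝ => (z.1.1 i : ℝ) :=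
    continuous_subtype_val.comp ((continuous_apply i).comp (continuous_fst.comp continuous_fst))
  have h2 : Continuous fun z : ((ℕ → unitInterval) × (ℕ → unitInterval)) × ℝ => (z.1.2 i : ℝ) :=
    continuous_subtype_val.comp ((continuous_apply i).comp (continuous_snd.comp continuous_fst))
  exact ((continuous_const.sub continuous_snd).mul h1).add (continuous_snd.mul h2)

/-- Clamping to the unit interval. -/
noncomputable def clamp (s : ℝ) : ℝ := max 0 (min 1 s)

theorem continuous_clamp : Continuous clamp :=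
  continuous_const.max (continuous_const.min continuous_id)

theorem clamp_mem (s : ℝ) : clamp s ∈ Icc (0 : ℝ) 1 :=
  ⟨le_max_left _ _, max_le zero_le_one (min_le_left _ _)⟩

theorem clamp_eq {s : ℝ} (hs : s ∈ Icc (0 : ℝ) 1) : clamp s = s := by
  unfold clamp
  rw [min_eq_right hs.2, max_eq_right hs.1]

/-- Concatenation of two homotopies. -/
noncomputable def conc {X : Type*} (k1 k2 : X → ℝ → X) (x : X) (s : ℝ) : X :=
  open Classical in if s ≤ 1 / 2 then k1 x (2 * s) else k2 x (2 * s - 1)

theorem continuous_conc {X : Type*} [TopologicalSpace X] (k1 k2 : X → ℝ → X)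
    (h1 : Continuous fun p : X × ℝ => k1 p.1 p.2) (h2 : Continuous fun p : X × ℝ => k2 p.1 p.2)
    (h : ∀ x, k1 x 1 = k2 x 0) : Continuous fun p : X × ℝ => conc k1 k2 p.1 p.2 := by
  unfold conc
  refine Continuous.if_le ?_ ?_ continuous_snd continuous_const ?_
  · exact h1.comp (continuous_fst.prodMk (continuous_const.mul continuous_snd))
  · exact h2.comp (continuous_fst.prodMk ((continuous_const.mul continuous_snd).sub
      continuous_const))
  · rintro ⟨x, s⟩ hs
    simp only at hs
    simp only [hs]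
    norm_num
    exact h x

theorem conc_zero {X : Type*} (k1 k2 : X → ℝ → X) (x : X) : conc k1 k2 x 0 = k1 x 0 := by
  unfold conc
  rw [if_pos (by norm_num)]
  norm_num

theorem conc_one {X : Type*} (k1 k2 : X → ℝ → X) (x : X) : conc k1 k2 x 1 = k2 x 1 := by
  unfold conc
  rw [if_neg (by norm_num)]
  norm_num

/-- The track of `γ` never comes back to `b` after leaving it. -/
def NR {X : Type*} (γ : ℝ → X) (b : X) : Prop :=
  ∀ t ∈ Icc (0 : ℝ) 1, γ t = b → ∀ s ∈ Icc (0 : ℝ) t, γ s = b

theorem nr_conc {X : Type*} (k1 k2 : X → ℝ → X) (b : X)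
    (h1 : NR (k1 b) b) (h2 : k1 b 1 ≠ b → ∀ t ∈ Icc (0 : ℝ) 1, k2 b t ≠ b)
    (h3 : k1 b 1 = b → NR (k2 b) b) : NR (conc k1 k2 b) b := by
  intro t ht hb s hs
  unfold conc at hb ⊢
  by_cases h : t ≤ 1 / 2
  · rw [if_pos h] at hb
    rw [if_pos (hs.2.trans h)]
    exact h1 (2 * t) ⟨by linarith [ht.1], by linarith⟩ hb (2 * s) ⟨by linarith [hs.1],
      by linarith [hs.2]⟩
  · rw [if_neg h] at hb
    have hmem : 2 * t - 1 ∈ Icc (0 : ℝ) 1 := ⟨by linarith [not_le.mp h], by linarith [ht.2]⟩
    have hk : k1 b 1 = b := by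
      by_contra hne
      exact h2 hne _ hmem hb
    by_cases h' : s ≤ 1 / 2
    · rw [if_pos h']
      exact h1 1 ⟨zero_le_one, le_rfl⟩ hk (2 * s) ⟨by linarith [hs.1], by linarith⟩
    · rw [if_neg h']
      exact h3 hk _ hmem hb _ ⟨by linarith [not_le.mp h'], by linarith [hs.2]⟩

/-- A compact ANR in the Hilbert cube is locally equiconnected. -/
theorem lec_of_anr {X U : Set (ℕ → unitInterval)} (hU : IsOpen U) (hXU : X ⊆ U)
    {r : (ℕ → unitInterval) → (ℕ → unitInterval)} (hr : ContinuousOn r U) (hm : MapsTo r U X)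
    (hid : ∀ x ∈ X, r x = x) :
    ∃ (O : Set (X × X)) (l : X → X → ℝ → X), IsOpen O ∧ (∀ p, (p, p) ∈ O) ∧
      ContinuousOn (fun z : (X × X) × ℝ => l z.1.1 z.1.2 z.2) (O ×ˢ univ) ∧
      (∀ p q, l p q 0 = p) ∧ (∀ p q, (p, q) ∈ O → l p q 1 = q) ∧ (∀ p s, l p p s = p) := by
  classical
  have hcs : Continuous fun z : (X × X) × ℝ =>
      seg (z.1.1 : ℕ → unitInterval) (z.1.2 : ℕ → unitInterval) (clamp z.2) :=
    continuous_seg.comp (((continuous_subtype_val.comp (continuous_fst.comp continuous_fst)).prodMk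
      (continuous_subtype_val.comp (continuous_snd.comp continuous_fst))).prodMk
      (continuous_clamp.comp continuous_snd))
  set O : Set (X × X) := {z | ∀ s ∈ Icc (0 : ℝ) 1,
    seg (z.1 : ℕ → unitInterval) (z.2 : ℕ → unitInterval) (clamp s) ∈ U} with hO
  have hOall : ∀ z ∈ O, ∀ s : ℝ, seg (z.1 : ℕ → unitInterval) (z.2 : ℕ → unitInterval)
      (clamp s) ∈ U := by
    intro z hz s
    have := hz (clamp s) (clamp_mem s)
    rwa [clamp_eq (clamp_mem s)] at this
  have hOopen : IsOpen O := by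
    rw [isOpen_iff_mem_nhds]
    intro z hz
    have : ∀ᶠ w in 𝓝 z, ∀ s ∈ Icc (0 : ℝ) 1,
        seg (w.1 : ℕ → unitInterval) (w.2 : ℕ → unitInterval) (clamp s) ∈ U := by
      apply isCompact_Icc.eventually_forall_of_forall_eventually
      intro s hs
      exact (hU.preimage hcs).mem_nhds (hz s hs)
    exact this
  set l : X → X → ℝ → X := fun p q s => if h : (p, q) ∈ O then
    ⟨r (seg (p : ℕ → unitInterval) (q : ℕ → unitInterval) (clamp s)), hm (hOall (p, q) h s)⟩
    else p with hl
  have hlpos : ∀ p q (h : (p, q) ∈ O) (s : ℝ), l p q s = ⟨r (seg (p : ℕ → unitInterval)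
      (q : ℕ → unitInterval) (clamp s)), hm (hOall (p, q) h s)⟩ := by
    intro p q h s
    simp only [hl, dif_pos h]
  have hdiag : ∀ p : X, (p, p) ∈ O := by
    intro p s _
    simp only
    rw [seg_self]
    exact hXU p.2
  have hc0 : clamp 0 = 0 := clamp_eq ⟨le_rfl, zero_le_one⟩
  have hc1 : clamp 1 = 1 := clamp_eq ⟨zero_le_one, le_rfl⟩
  refine ⟨O, l, hOopen, hdiag, ?_, ?_, ?_, ?_⟩
  · have hval : ContinuousOn (fun z : (X × X) × ℝ => (l z.1.1 z.1.2 z.2 : ℕ → unitInterval))
        (O ×ˢ univ) := by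
      have : ContinuousOn (fun z : (X × X) × ℝ => r (seg (z.1.1 : ℕ → unitInterval)
          (z.1.2 : ℕ → unitInterval) (clamp z.2))) (O ×ˢ univ) :=
        hr.comp hcs.continuousOn (fun z hz => hOall z.1 hz.1 z.2)
      refine this.congr ?_
      rintro ⟨⟨p, q⟩, s⟩ ⟨hz, _⟩
      simp only
      rw [hlpos p q hz s]
    rw [continuousOn_iff_continuous_domRestrict] at hval ⊢
    exact continuous_induced_rng.mpr hval
  · intro p q
    by_cases h : (p, q) ∈ O
    · rw [hlpos p q h]
      apply Subtype.ext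
      simp only
      rw [hc0, seg_zero]
      exact hid _ p.2
    · simp only [hl, dif_neg h]
  · intro p q h
    rw [hlpos p q h]
    apply Subtype.ext
    simp only
    rw [hc1, seg_one]
    exact hid _ q.2
  · intro p s
    rw [hlpos p p (hdiag p)]
    apply Subtype.ext
    simp only
    rw [seg_self]
    exact hid _ p.2

end Pool.Agent.Run7.h118
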