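import Mathlib
import Pool.Agent.Run7.h118.Base

set_option autoImplicit false

open Set Filter Topology

namespace Pool.Agent.Run7.h118

/-- In a locally equiconnected compactum a free contraction can be made relative to a point. -/
theorem rel_contraction {X : Type*} [MetricSpace X] [CompactSpace X] {O : Set (X × X)}
    {l : X → X → ℝ → X} (hO : IsOpen O) (hdiag : ∀ p, (p, p) ∈ O)
    (hl : ContinuousOn (fun z : (X × X) × ℝ => l z.1.1 z.1.2 z.2) (O ×ˢ univ))
    (hl0 : ∀ p q, l p q 0 = p) (hl1 : ∀ p q, (p, q) ∈ O → l p q 1 = q) (hls : ∀ p s, l p p s = p)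
    (K : X → ℝ → X) (hK : Continuous fun p : X × ℝ => K p.1 p.2) (hK0 : ∀ x, K x 0 = x) (c : X)
    (hK1 : ∀ x, K x 1 = c) (a : X) :
    ∃ κ : X → ℝ → X, Continuous (fun p : X × ℝ => κ p.1 p.2) ∧ (∀ x, κ x 0 = x) ∧
      (∀ x, κ x 1 = a) ∧ ∀ s, κ a s = a := by
  have hNa : ∀ᶠ x in 𝓝 a, ∀ u ∈ Icc (0 : ℝ) 1, (K x u, K a u) ∈ O := by
    apply isCompact_Icc.eventually_forall_of_forall_eventually
    intro u _
    have hc : Continuous fun z : X × ℝ => (K z.1 z.2, K a z.2) :=
      hK.prodMk (hK.comp (continuous_const.prodMk continuous_snd))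
    exact (hO.preimage hc).mem_nhds (hdiag (K a u))
  obtain ⟨δ, hδ, hball⟩ := Metric.eventually_nhds_iff.mp hNa
  set μ : X → ℝ := fun x => max 0 (1 - dist x a / δ) with hμ
  have hμc : Continuous μ :=
    continuous_const.max (continuous_const.sub ((continuous_id.dist continuous_const).div_const _))
  have hμa : μ a = 1 := by simp [hμ]
  have hμ0 : ∀ x, 0 ≤ μ x := fun x => le_max_left _ _
  have hμ1 : ∀ x, μ x ≤ 1 := fun x => max_le zero_le_one (by
    have : 0 ≤ dist x a / δ := by positivity
    linarith)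
  have hmem : ∀ x, (K x (1 - μ x), K a (1 - μ x)) ∈ O := by
    intro x
    rcases lt_or_ge (dist x a) δ with h | h
    · exact hball h _ ⟨by linarith [hμ1 x], by linarith [hμ0 x]⟩
    · have : μ x = 0 := by
        simp only [hμ]
        apply max_eq_left
        rw [sub_nonpos, le_div_iff₀ hδ, one_mul]
        exact h
      rw [this, sub_zero, hK1, hK1]
      exact hdiag c
  set k1 : X → ℝ → X := fun x s => K x (s * (1 - μ x)) with hk1
  set k2 : X → ℝ → X := fun x s => l (K x (1 - μ x)) (K a (1 - μ x)) s with hk2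
  set k3 : X → ℝ → X := fun x s => K a ((1 - s) * (1 - μ x)) with hk3
  have c1 : Continuous fun p : X × ℝ => k1 p.1 p.2 :=
    hK.comp (continuous_fst.prodMk (continuous_snd.mul
      (continuous_const.sub (hμc.comp continuous_fst))))
  have c2 : Continuous fun p : X × ℝ => k2 p.1 p.2 := by
    have hin : Continuous fun p : X × ℝ =>
        (((K p.1 (1 - μ p.1), K a (1 - μ p.1)), p.2) : (X × X) × ℝ) :=
      ((hK.comp (continuous_fst.prodMk (continuous_const.sub (hμc.comp continuous_fst)))).prodMk
        (hK.comp (continuous_const.prodMk (continuous_const.sub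
          (hμc.comp continuous_fst))))).prodMk continuous_snd
    exact hl.comp_continuous hin (fun p => ⟨hmem p.1, mem_univ _⟩)
  have c3 : Continuous fun p : X × ℝ => k3 p.1 p.2 :=
    hK.comp (continuous_const.prodMk ((continuous_const.sub continuous_snd).mul
      (continuous_const.sub (hμc.comp continuous_fst))))
  have h12 : ∀ x, k1 x 1 = k2 x 0 := by
    intro x
    simp only [hk1, hk2, one_mul, hl0]
  have h23 : ∀ x, conc k1 k2 x 1 = k3 x 0 := by
    intro x
    rw [conc_one]
    simp only [hk2, hk3, sub_zero, one_mul]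
    exact hl1 _ _ (hmem x)
  refine ⟨conc (conc k1 k2) k3, continuous_conc _ _ (continuous_conc _ _ c1 c2 h12) c3 h23,
    ?_, ?_, ?_⟩
  · intro x
    rw [conc_zero, conc_zero]
    simp only [hk1, zero_mul, hK0]
  · intro x
    rw [conc_one]
    simp only [hk3, sub_self, zero_mul, hK0]
  · intro s
    have e1 : ∀ s, k1 a s = a := by
      intro s
      simp only [hk1, hμa, sub_self, mul_zero, hK0]
    have e2 : ∀ s, k2 a s = a := by
      intro s
      simp only [hk2, hμa, sub_self, hK0, hls]
    have e3 : ∀ s, k3 a s = a := by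
      intro s
      simp only [hk3, hμa, sub_self, mul_zero, hK0]
    unfold conc
    split_ifs
    · exact e1 _
    · exact e2 _
    · exact e3 _

/-- Spaces which contract, through a nested continuous family of retractions, onto a subset with
the homotopical complete invariance property. -/
theorem nested_retraction {X : Type*} [MetricSpace X] [CompactSpace X]
    (hκ : ∀ a : X, ∃ κ : X → ℝ → X, Continuous (fun p : X × ℝ => κ p.1 p.2) ∧
      (∀ x, κ x 0 = x) ∧ (∀ x, κ x 1 = a) ∧ ∀ s, κ a s = a)
    (S : Set X) (R : ℝ → X → X) (hR : Continuous fun p : X × ℝ => R p.2 p.1)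
    (hR0 : ∀ x, R 0 x = x) (hR1 : ∀ x, R 1 x ∈ S) (hRS : ∀ x ∈ S, R 1 x = x)
    (hRR : ∀ s t, 0 ≤ s → s ≤ t → t ≤ 1 → ∀ x, R s (R t x) = R t x)
    {A : Set X} (hS : (A ∩ S).Nonempty → ∃ G : S → ℝ → S,
      Continuous (fun p : S × ℝ => G p.1 p.2) ∧ (∀ x, G x 0 = x) ∧
      (∀ x, G x 1 = x ↔ (x : X) ∈ A ∩ S) ∧
        ∀ x : S, (x : X) ∈ A ∩ S → ∀ s ∈ Icc (0 : ℝ) 1, G x s = x)
    (hA : IsClosed A) (hne : A.Nonempty) :
    ∃ f : X → X, Continuous f ∧ ∀ x, f x = x ↔ x ∈ A := by
  have hRx : ∀ x : X, Continuous fun t : ℝ => R t x :=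
    fun x => hR.comp (Continuous.prodMk_right x)
  have hRt : ∀ t : ℝ, Continuous (R t) := fun t => hR.comp (Continuous.prodMk_left t)
  have hScl : IsClosed S := by
    have : S = {x | R 1 x = x} := by
      ext x
      exact ⟨fun h => hRS x h, fun h => by
        have h' : R 1 x = x := h
        rw [← h']
        exact hR1 x⟩
    rw [this]
    exact isClosed_eq (hRt 1) continuous_id
  -- nestedness of the fixed sets
  have hnest : ∀ x s t, 0 ≤ s → s ≤ t → t ≤ 1 → R t x = x → R s x = x := by
    intro x s t hs hst ht hx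
    have := hRR s t hs hst ht x
    rwa [hx] at this
  rcases (A ∩ S).eq_empty_or_nonempty with hemp | hnon
  · -- Case 2: `A` misses `S`
    set Tm : Set ℝ := {t | t ∈ Icc (0 : ℝ) 1 ∧ ∃ a ∈ A, R t a = a} with hTm
    have hTmc : IsCompact Tm := by
      have hcl : IsClosed {p : X × ℝ | p.1 ∈ A ∧ R p.2 p.1 = p.1} :=
        (hA.preimage continuous_fst).inter (isClosed_eq hR continuous_fst)
      have hcomp : IsCompact ((univ ×ˢ Icc (0 : ℝ) 1) ∩ {p : X × ℝ | p.1 ∈ A ∧ R p.2 p.1 = p.1}) :=
        (isCompact_univ.prod isCompact_Icc).inter_right hcl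
      have himg := hcomp.image continuous_snd
      have : Prod.snd '' ((univ ×ˢ Icc (0 : ℝ) 1) ∩ {p : X × ℝ | p.1 ∈ A ∧ R p.2 p.1 = p.1})
          = Tm := by
        ext t
        constructor
        · rintro ⟨⟨x, u⟩, ⟨⟨_, hu⟩, hx, hRu⟩, rfl⟩
          exact ⟨hu, x, hx, hRu⟩
        · rintro ⟨ht, x, hx, hRu⟩
          exact ⟨(x, t), ⟨⟨mem_univ _, ht⟩, hx, hRu⟩, rfl⟩
      rwa [this] at himg
    have hTmne : Tm.Nonempty := by
      obtain ⟨a, ha⟩ := hne
      exact ⟨0, ⟨le_rfl, zero_le_one⟩, a, ha, hR0 a⟩
    obtain ⟨τ, ⟨hτI, a, haA, haτ⟩, hτmax⟩ := hTmc.exists_isGreatest hTmne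
    have hτ1 : τ < 1 := by
      rcases lt_or_eq_of_le hτI.2 with h | h
      · exact h
      · exfalso
        rw [h] at haτ
        have : a ∈ A ∩ S := ⟨haA, by rw [← haτ]; exact hR1 a⟩
        rw [hemp] at this
        exact this
    -- beyond time `τ` the images avoid `A`
    have hav : ∀ t, τ < t → t ≤ 1 → ∀ y, ∀ b ∈ A, R t y ≠ b := by
      intro t ht ht1 y b hb heq
      have h0t : 0 ≤ t := hτI.1.trans ht.le
      have : R t b = b := by
        have := hRR t t h0t le_rfl ht1 y
        rwa [heq] at this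
      exact absurd (hτmax ⟨⟨h0t, ht1⟩, b, hb, this⟩) (not_le.mpr ht)
    have hstay : ∀ t, 0 ≤ t → t ≤ τ → R t a = a :=
      fun t h0 ht => hnest a t τ h0 ht hτI.2 haτ
    obtain ⟨κ, hκc, hκ0, hκ1, hκa⟩ := hκ a
    set m : X → ℝ := fun x => τ + (1 - τ) * min 1 (dist x a) with hm
    have hmc : Continuous m := continuous_const.add (continuous_const.mul
      (continuous_const.min (continuous_id.dist continuous_const)))
    have hma : m a = τ := by simp [hm]
    have hm1 : ∀ x, m x ≤ 1 := by
      intro x
      have h1 : min 1 (dist x a) ≤ 1 := min_le_left _ _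
      have : (1 - τ) * min 1 (dist x a) ≤ (1 - τ) * 1 :=
        mul_le_mul_of_nonneg_left h1 (by linarith)
      simp only [hm]
      linarith
    have hmτ : ∀ x, x ≠ a → τ < m x := by
      intro x hx
      have : 0 < min 1 (dist x a) := lt_min one_pos (dist_pos.mpr hx)
      have : 0 < (1 - τ) * min 1 (dist x a) := mul_pos (by linarith) this
      simp only [hm]
      linarith
    have hm0 : ∀ x, 0 ≤ m x := by
      intro x
      by_cases h : x = a
      · rw [h, hma]; exact hτI.1
      · exact hτI.1.trans (hmτ x h).le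
    set k1 : X → ℝ → X := fun x s => R (s * m x) x with hk1
    set k2 : X → ℝ → X := fun x s => R (m x) (κ x s) with hk2
    set k3 : X → ℝ → X := fun x s => R ((1 - s) * m x) a with hk3
    have c1 : Continuous fun p : X × ℝ => k1 p.1 p.2 :=
      hR.comp (continuous_fst.prodMk (continuous_snd.mul (hmc.comp continuous_fst)))
    have c2 : Continuous fun p : X × ℝ => k2 p.1 p.2 :=
      hR.comp (hκc.prodMk (hmc.comp continuous_fst))
    have c3 : Continuous fun p : X × ℝ => k3 p.1 p.2 :=
      hR.comp (continuous_const.prodMk ((continuous_const.sub continuous_snd).mul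
        (hmc.comp continuous_fst)))
    have h12 : ∀ x, k1 x 1 = k2 x 0 := by
      intro x
      simp only [hk1, hk2, one_mul, hκ0]
    have h23 : ∀ x, conc k1 k2 x 1 = k3 x 0 := by
      intro x
      rw [conc_one]
      simp only [hk2, hk3, sub_zero, one_mul, hκ1]
    refine engine hA hne (conc (conc k1 k2) k3)
      (continuous_conc _ _ (continuous_conc _ _ c1 c2 h12) c3 h23) ?_ ?_ ?_
    · intro b _
      rw [conc_zero, conc_zero]
      simp only [hk1, zero_mul, hR0]
    · intro b hb
      by_cases hba : b = a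
      · -- constant track
        subst hba
        have e1 : ∀ s ∈ Icc (0 : ℝ) 1, k1 b s = b := by
          intro s hs
          simp only [hk1, hma]
          exact hstay _ (mul_nonneg hs.1 hτI.1) (by nlinarith [hs.2, hτI.1])
        have e2 : ∀ s, k2 b s = b := by
          intro s
          simp only [hk2, hma, hκa]
          exact haτ
        have e3 : ∀ s ∈ Icc (0 : ℝ) 1, k3 b s = b := by
          intro s hs
          simp only [hk3, hma]
          exact hstay _ (mul_nonneg (by linarith [hs.2]) hτI.1) (by nlinarith [hs.1, hτI.1])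
        have e12 : ∀ s ∈ Icc (0 : ℝ) 1, conc k1 k2 b s = b := by
          intro s hs
          unfold conc
          split_ifs with h
          · exact e1 _ ⟨by linarith [hs.1], by linarith⟩
          · exact e2 _
        intro t ht _ s hs
        have hs1 : s ≤ 1 := hs.2.trans ht.2
        change conc (conc k1 k2) k3 b s = b
        unfold conc
        by_cases h : s ≤ 1 / 2
        · rw [if_pos h]
          exact e12 (2 * s) ⟨by linarith [hs.1], by linarith⟩
        · rw [if_neg h]
          exact e3 _ ⟨by linarith [not_le.mp h], by linarith⟩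
      · have hmb := hmτ b hba
        have hm0' : 0 < m b := hτI.1.trans_lt hmb
        have n1 : NR (k1 b) b := by
          intro t ht hbt s hs
          simp only [hk1] at hbt ⊢
          refine hnest b (s * m b) (t * m b) (mul_nonneg hs.1 (hm0 b))
            (mul_le_mul_of_nonneg_right hs.2 (hm0 b)) ?_ hbt
          nlinarith [ht.2, hm1 b, hm0 b, ht.1]
        have n1' : k1 b 1 ≠ b := by
          simp only [hk1, one_mul]
          exact hav (m b) hmb (hm1 b) b b hb
        have n2 : ∀ t ∈ Icc (0 : ℝ) 1, k2 b t ≠ b := by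
          intro t _
          simp only [hk2]
          exact hav (m b) hmb (hm1 b) _ b hb
        have n3 : ∀ t ∈ Icc (0 : ℝ) 1, k3 b t ≠ b := by
          intro t ht
          simp only [hk3]
          have hnn : 0 ≤ (1 - t) * m b := mul_nonneg (by linarith [ht.2]) (hm0 b)
          have hle1 : (1 - t) * m b ≤ 1 := by nlinarith [ht.1, hm1 b, hm0 b]
          rcases le_or_gt ((1 - t) * m b) τ with h | h
          · rw [hstay _ hnn h]
            exact fun h => hba h.symm
          · exact hav _ h hle1 a b hb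
        have n12 : NR (conc k1 k2 b) b :=
          nr_conc k1 k2 b n1 (fun _ => n2) (fun h => absurd h n1')
        have hfin : NR (conc (conc k1 k2) k3 b) b := by
          refine nr_conc (conc k1 k2) k3 b n12 (fun _ => n3) (fun h => ?_)
          exfalso
          rw [conc_one] at h
          exact n2 1 ⟨zero_le_one, le_rfl⟩ h
        exact hfin
    · intro x hx
      rw [conc_one]
      simp only [hk3, sub_self, zero_mul, hR0]
      intro h
      exact hx (h ▸ haA)
  · -- Case 1: `A` meets `S`
    obtain ⟨G, hGc, hG0, hG1, hGB⟩ := hS hnon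
    set k2 : X → ℝ → X := fun x s => (G ⟨R 1 x, hR1 x⟩ s : X) with hk2
    set k1 : X → ℝ → X := fun x s => R s x with hk1
    have c2 : Continuous fun p : X × ℝ => k2 p.1 p.2 :=
      continuous_subtype_val.comp (hGc.comp ((((hRt 1).comp continuous_fst).subtype_mk
        (fun p => hR1 p.1)).prodMk continuous_snd))
    have h12 : ∀ x, k1 x 1 = k2 x 0 := by
      intro x
      simp only [hk1, hk2, hG0]
    refine engine hA hne (conc k1 k2) (continuous_conc _ _ hR c2 h12) ?_ ?_ ?_
    · intro b _
      rw [conc_zero]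
      exact hR0 b
    · intro b hb
      have hkey : NR (conc k1 k2 b) b := by
        refine nr_conc k1 k2 b ?_ ?_ ?_
        · intro t ht hbt s hs
          exact hnest b s t hs.1 hs.2 ht.2 hbt
        · intro hne1 t _ heq
          apply hne1
          have hbS : b ∈ S := by
            rw [← heq]
            exact (G ⟨R 1 b, hR1 b⟩ t).2
          exact hRS b hbS
        · intro h1 t ht _ s hs
          have hbS : b ∈ S := by
            have : R 1 b = b := h1
            rw [← this]
            exact hR1 b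
          have hpt : (⟨R 1 b, hR1 b⟩ : S) = ⟨b, hbS⟩ := Subtype.ext h1
          simp only [hk2]
          rw [hpt, hGB ⟨b, hbS⟩ ⟨hb, hbS⟩ s ⟨hs.1, hs.2.trans ht.2⟩]
      exact hkey
    · intro x hx
      rw [conc_one]
      intro h
      have hxS : x ∈ S := by
        rw [← h]
        exact (G ⟨R 1 x, hR1 x⟩ 1).2
      have hpt : (⟨R 1 x, hR1 x⟩ : S) = ⟨x, hxS⟩ := Subtype.ext (hRS x hxS)
      simp only [hk2] at h
      rw [hpt] at h
      have := (hG1 ⟨x, hxS⟩).mp (Subtype.ext h)
      exact hx this.1

end Pool.Agent.Run7.h118
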