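import Mathlib

set_option autoImplicit false

open Set Filter Topology Metric MeasureTheory

namespace Pool.Agent.Run7.h118

variable {E : Type*} [NormedAddCommGroup E] [NormedSpace ℝ E] [FiniteDimensional ℝ E]

/-- General position on a sphere. -/
theorem gp_sphere (v : E → E) (hv : Continuous v) (c : E) {ρ : ℝ} (hρ : 0 < ρ) {ε : ℝ}
    (hε : 0 < ε) : ∃ g : E → E, Continuous g ∧ (∀ w, ‖g w - v w‖ < ε) ∧
      ∀ w ∈ sphere c ρ, g w ≠ 0 := by
  borelize E
  obtain ⟨g, hg, hgv, -⟩ := hv.exists_contDiff_approx (ε := fun _ => ε / 2) 1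
    continuous_const (fun _ => by linarith)
  set μ : Measure E := Measure.addHaar
  have h0 : μ (g '' sphere c ρ) = 0 :=
    addHaar_image_eq_zero_of_differentiableOn_of_addHaar_eq_zero μ
      (hg.differentiable (by norm_num)).differentiableOn
      (Measure.addHaar_sphere_of_ne_zero μ c hρ.ne')
  have hpos : 0 < μ (ball (0 : E) (ε / 2)) := measure_ball_pos μ 0 (by linarith)
  have hex : ∃ p ∈ ball (0 : E) (ε / 2), p ∉ g '' sphere c ρ := by
    by_contra hcon
    push Not at hcon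
    have : μ (ball (0 : E) (ε / 2)) ≤ μ (g '' sphere c ρ) := measure_mono hcon
    rw [h0] at this
    exact absurd (lt_of_lt_of_le hpos this) (lt_irrefl 0)
  obtain ⟨p, hp, hpn⟩ := hex
  refine ⟨fun w => g w - p, hg.continuous.sub continuous_const, fun w => ?_, fun w hw h => ?_⟩
  · have h1 : ‖g w - v w‖ < ε / 2 := by
      have := hgv w
      rwa [dist_eq_norm] at this
    have h2 : ‖p‖ < ε / 2 := by simpa using hp
    calc ‖g w - p - v w‖ = ‖(g w - v w) - p‖ := by congr 1; abel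
      _ ≤ ‖g w - v w‖ + ‖p‖ := norm_sub_le _ _
      _ < ε := by linarith
  · exact hpn ⟨w, hw, sub_eq_zero.mp h⟩

/-- `v'` is obtained from `v` by changing it on a compact subset of `O`. -/
def Mod (O : Set E) (v v' : E → E) : Prop :=
  Continuous v' ∧ ∃ Y : Set E, IsCompact Y ∧ Y ⊆ O ∧ ∀ w, w ∉ Y → v' w = v w

omit [NormedSpace ℝ E] [FiniteDimensional ℝ E] in
theorem Mod.trans {O : Set E} {v v' v'' : E → E} (h : Mod O v v') (h' : Mod O v' v'') :
    Mod O v v'' := by
  obtain ⟨_, Y, hY, hYO, hYe⟩ := h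
  obtain ⟨hc, Y', hY', hYO', hYe'⟩ := h'
  refine ⟨hc, Y ∪ Y', hY.union hY', union_subset hYO hYO', fun w hw => ?_⟩
  rw [mem_union, not_or] at hw
  rw [hYe' w hw.2, hYe w hw.1]

omit [NormedSpace ℝ E] [FiniteDimensional ℝ E] in
theorem Mod.refl {O : Set E} {v : E → E} (h : Continuous v) : Mod O v v :=
  ⟨h, ∅, isCompact_empty, empty_subset _, fun _ _ => rfl⟩

omit [NormedSpace ℝ E] [FiniteDimensional ℝ E] in
theorem Mod.mono {O O' : Set E} {v v' : E → E} (h : Mod O v v') (hO : O ⊆ O') :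
    Mod O' v v' := by
  obtain ⟨hc, Y, hY, hYO, hYe⟩ := h
  exact ⟨hc, Y, hY, hYO.trans hO, hYe⟩

/-- Basic step: gather the zeros in a ball at its centre. -/
theorem basic_step (v : E → E) (hv : Continuous v) {O : Set E} (hO : IsOpen O) {D : Set E}
    (hD : IsCompact D) (c z : E) {ρ : ℝ} (hρ : 0 < ρ) (hC : closedBall c ρ ⊆ O)
    (hz : z ∈ ball c ρ) (hvD : ∀ w ∈ D, w ≠ z → v w ≠ 0) :
    ∃ v', Mod O v v' ∧ ∀ w ∈ D ∪ closedBall c ρ, w ≠ c → v' w ≠ 0 := by
  classical
  have : ProperSpace E := FiniteDimensional.proper ℝ E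
  -- margin
  obtain ⟨δ, hδ, hδO⟩ : ∃ δ > 0, closedBall c (ρ + δ) ⊆ O := by
    obtain ⟨δ, hδ, hsub⟩ := (isCompact_closedBall c ρ).exists_cthickening_subset_open hO hC
    refine ⟨δ, hδ, ?_⟩
    rwa [cthickening_closedBall hδ.le hρ.le, add_comm] at hsub
  -- lower bound on the part of `D` outside the ball
  obtain ⟨m, hm, hmD⟩ : ∃ m > 0, ∀ w ∈ D, w ∉ ball c ρ → m ≤ ‖v w‖ := by
    have hD' : IsCompact (D \ ball c ρ) := hD.diff isOpen_ball
    rcases (D \ ball c ρ).eq_empty_or_nonempty with he | hne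
    · refine ⟨1, one_pos, fun w hw hwb => ?_⟩
      have : w ∈ D \ ball c ρ := ⟨hw, hwb⟩
      rw [he] at this
      exact absurd this (notMem_empty w)
    · obtain ⟨w0, hw0, hmin⟩ := hD'.exists_isMinOn hne hv.norm.continuousOn
      refine ⟨‖v w0‖, norm_pos_iff.mpr (hvD w0 hw0.1 ?_), fun w hw hwb => hmin ⟨hw, hwb⟩⟩
      intro h
      exact hw0.2 (h ▸ hz)
  obtain ⟨g, hgc, hgv, hgS⟩ := gp_sphere v hv c hρ hm
  set χ : E → ℝ := fun w => max 0 (1 - |‖w - c‖ - ρ| / δ) with hχ
  have hχc : Continuous χ := continuous_const.max (continuous_const.sub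
    ((continuous_abs.comp ((continuous_id.sub continuous_const).norm.sub
      continuous_const)).div_const _))
  have hχ0 : ∀ w, 0 ≤ χ w := fun w => le_max_left _ _
  have hχ1 : ∀ w, χ w ≤ 1 := fun w => max_le zero_le_one (by
    have : 0 ≤ |‖w - c‖ - ρ| / δ := by positivity
    linarith)
  have hχS : ∀ w, ‖w - c‖ = ρ → χ w = 1 := by
    intro w hw
    simp [hχ, hw]
  have hχout : ∀ w, ρ + δ < ‖w - c‖ → χ w = 0 := by
    intro w hw
    simp only [hχ]
    apply max_eq_left
    rw [sub_nonpos, le_div_iff₀ hδ, one_mul]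
    rw [abs_of_nonneg (by linarith)]
    linarith
  set v1 : E → E := fun w => v w + χ w • (g w - v w) with hv1
  have hv1c : Continuous v1 := hv.add (hχc.smul (hgc.sub hv))
  have hv1S : ∀ w, ‖w - c‖ = ρ → v1 w ≠ 0 := by
    intro w hw
    simp only [hv1, hχS w hw, one_smul, add_sub_cancel]
    exact hgS w (by rw [mem_sphere, dist_eq_norm]; exact hw)
  have hv1D : ∀ w ∈ D, w ∉ ball c ρ → v1 w ≠ 0 := by
    intro w hw hwb h
    have h1 : ‖χ w • (g w - v w)‖ < m := by
      rw [norm_smul, Real.norm_eq_abs, abs_of_nonneg (hχ0 w)]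
      calc χ w * ‖g w - v w‖ ≤ 1 * ‖g w - v w‖ :=
            mul_le_mul_of_nonneg_right (hχ1 w) (norm_nonneg _)
        _ < m := by rw [one_mul]; exact hgv w
    have h2 : v w = -(χ w • (g w - v w)) := eq_neg_of_add_eq_zero_left h
    have h3 := hmD w hw hwb
    rw [h2, norm_neg] at h3
    linarith
  -- the cone
  set φ : E → E := fun w => (‖w - c‖ / ρ) • v1 (c + (ρ / ‖w - c‖) • (w - c)) with hφ
  obtain ⟨M, hM⟩ : ∃ M : ℝ, ∀ y ∈ sphere c ρ, ‖v1 y‖ ≤ M :=
    (isCompact_sphere c ρ).exists_bound_of_continuousOn hv1c.continuousOn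
  have hysph : ∀ w, w ≠ c → c + (ρ / ‖w - c‖) • (w - c) ∈ sphere c ρ := by
    intro w hw
    have hpos : 0 < ‖w - c‖ := norm_pos_iff.mpr (sub_ne_zero.mpr hw)
    rw [mem_sphere, dist_eq_norm, add_sub_cancel_left, norm_smul, Real.norm_eq_abs,
      abs_of_pos (div_pos hρ hpos), div_mul_cancel₀ _ hpos.ne']
  have hφc : Continuous φ := by
    rw [continuous_iff_continuousAt]
    intro w
    by_cases hw : w = c
    · rw [hw]
      have hφ0 : φ c = 0 := by simp [hφ]
      rw [ContinuousAt, hφ0]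
      have hb : ∀ w, ‖φ w‖ ≤ (‖w - c‖ / ρ) * |M| := by
        intro w
        by_cases hwc : w = c
        · rw [hwc, hφ0]
          simp
        · simp only [hφ]
          rw [norm_smul, Real.norm_eq_abs, abs_of_nonneg (div_nonneg (norm_nonneg _) hρ.le)]
          exact mul_le_mul_of_nonneg_left ((hM _ (hysph w hwc)).trans (le_abs_self M))
            (div_nonneg (norm_nonneg _) hρ.le)
      have hlim : Tendsto (fun w : E => (‖w - c‖ / ρ) * |M|) (𝓝 c) (𝓝 0) := by
        have : Continuous fun w : E => (‖w - c‖ / ρ) * |M| :=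
          ((continuous_id.sub continuous_const).norm.div_const _).mul continuous_const
        have h := this.tendsto c
        simpa using h
      exact squeeze_zero_norm hb hlim
    · have hpos : 0 < ‖w - c‖ := norm_pos_iff.mpr (sub_ne_zero.mpr hw)
      have h1 : ContinuousAt (fun w : E => ‖w - c‖) w :=
        (continuous_id.sub continuous_const).norm.continuousAt
      have h2 : ContinuousAt (fun w : E => ρ / ‖w - c‖) w := continuousAt_const.div h1 hpos.ne'
      have h3 : ContinuousAt (fun w : E => c + (ρ / ‖w - c‖) • (w - c)) w :=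
        continuousAt_const.add (h2.smul (continuous_id.sub continuous_const).continuousAt)
      exact (h1.div_const _).smul (hv1c.continuousAt.comp h3)
  have hφS : ∀ w, ‖w - c‖ = ρ → φ w = v1 w := by
    intro w hw
    simp only [hφ, hw, div_self hρ.ne', one_smul, add_sub_cancel]
  have hφne : ∀ w, w ≠ c → φ w ≠ 0 := by
    intro w hw h
    have hpos : 0 < ‖w - c‖ := norm_pos_iff.mpr (sub_ne_zero.mpr hw)
    rcases smul_eq_zero.mp h with h' | h'
    · exact absurd h' (div_pos hpos hρ).ne'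
    · have hy := hysph w hw
      rw [mem_sphere, dist_eq_norm] at hy
      exact hv1S _ hy h'
  set v' : E → E := fun w => if ‖w - c‖ ≤ ρ then φ w else v1 w with hv'
  have hv'c : Continuous v' :=
    Continuous.if_le hφc hv1c (continuous_id.sub continuous_const).norm continuous_const
      (fun w hw => hφS w hw)
  refine ⟨v', ⟨hv'c, closedBall c (ρ + δ), isCompact_closedBall _ _, hδO, fun w hw => ?_⟩, ?_⟩
  · rw [mem_closedBall, dist_eq_norm, not_le] at hw
    simp only [hv', if_neg (not_le.mpr (show ρ < ‖w - c‖ by linarith)), hv1, hχout w hw,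
      zero_smul, add_zero]
  · intro w hw hwc
    by_cases h : ‖w - c‖ ≤ ρ
    · simp only [hv', if_pos h]
      exact hφne w hwc
    · simp only [hv', if_neg h]
      rcases hw with hw | hw
      · refine hv1D w hw ?_
        rw [mem_ball, dist_eq_norm]
        exact fun h' => h h'.le
      · rw [mem_closedBall, dist_eq_norm] at hw
        exact absurd hw h

/-- Moving an isolated exceptional point along a preconnected set. -/
theorem move_zero {O : Set E} (hO : IsOpen O) {D : Set E} (hD : IsCompact D) {P : Set E}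
    (hP : IsPreconnected P) (hPO : P ⊆ O) {x z : E} (hx : x ∈ P) (hz : z ∈ P)
    (v : E → E) (hv : Continuous v) (hvD : ∀ w ∈ D, w ≠ x → v w ≠ 0) :
    ∃ v', Mod O v v' ∧ ∀ w ∈ D, w ≠ z → v' w ≠ 0 := by
  have key := hP.induction₂' (fun x y => ∀ v : E → E, Continuous v → (∀ w ∈ D, w ≠ x → v w ≠ 0) →
    ∃ v', Mod O v v' ∧ ∀ w ∈ D, w ≠ y → v' w ≠ 0) ?_ ?_ hx hz
  · exact key v hv hvD
  · intro x hx
    obtain ⟨δ, hδ, hδO⟩ := Metric.isOpen_iff.mp hO x (hPO hx)
    have hball : ball x (δ / 3) ∈ 𝓝[P] x := mem_nhdsWithin_of_mem_nhds (ball_mem_nhds x (by linarith))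
    filter_upwards [hball] with y hy
    have hyx : dist y x < δ / 3 := hy
    constructor
    · intro v hv hvD
      obtain ⟨v', h1, h2⟩ := basic_step v hv hO hD y x (ρ := δ / 3) (by linarith)
        (fun w hw => hδO (by
          rw [mem_closedBall] at hw
          rw [mem_ball]
          calc dist w x ≤ dist w y + dist y x := dist_triangle _ _ _
            _ < δ := by linarith)) (by rw [mem_ball, dist_comm]; exact hyx) hvD
      exact ⟨v', h1, fun w hw hwy => h2 w (Or.inl hw) hwy⟩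
    · intro v hv hvD
      obtain ⟨v', h1, h2⟩ := basic_step v hv hO hD x y (ρ := δ / 3) (by linarith)
        (fun w hw => hδO (by
          rw [mem_closedBall] at hw
          rw [mem_ball]
          linarith)) hy hvD
      exact ⟨v', h1, fun w hw hwy => h2 w (Or.inl hw) hwy⟩
  · intro x y z _ _ _ hxy hyz v hv hvD
    obtain ⟨v', h1, h2⟩ := hxy v hv hvD
    obtain ⟨v'', h3, h4⟩ := hyz v' h1.1 h2
    exact ⟨v'', h1.trans h3, h4⟩

/-- Clearing the zeros from a compact set `T`. -/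
theorem stage {O : Set E} (hO : IsOpen O) {T : Set E} (hT : IsCompact T) (v : E → E)
    (hv : Continuous v)
    (hJ : ∀ x ∈ T, v x = 0 → x ∈ O ∧ ∃ P ⊆ O, IsPreconnected P ∧ x ∈ P ∧ ∃ z ∈ P, z ∉ T) :
    ∃ v', Mod O v v' ∧ ∀ w ∈ T, v' w ≠ 0 := by
  set Z : Set E := {x | x ∈ T ∧ v x = 0} with hZ
  have hZc : IsCompact Z := hT.inter_right (isClosed_eq hv continuous_const)
  obtain ⟨V, hVo, hZV, hV⟩ : ∃ V : Set E, IsOpen V ∧ Z ⊆ V ∧ ∀ D, IsCompact D → D ⊆ T →
      ∀ v : E → E, Continuous v → (∀ w ∈ D, v w ≠ 0) → ∃ v', Mod O v v' ∧ ∃ D', IsCompact D' ∧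
        D' ⊆ T ∧ D ⊆ D' ∧ V ∩ T ⊆ D' ∧ ∀ w ∈ D', v' w ≠ 0 := by
    refine hZc.induction_on (p := fun s => ∃ V : Set E, IsOpen V ∧ s ⊆ V ∧ ∀ D, IsCompact D →
      D ⊆ T → ∀ v : E → E, Continuous v → (∀ w ∈ D, v w ≠ 0) → ∃ v', Mod O v v' ∧
        ∃ D', IsCompact D' ∧ D' ⊆ T ∧ D ⊆ D' ∧ V ∩ T ⊆ D' ∧ ∀ w ∈ D', v' w ≠ 0) ?_ ?_ ?_ ?_
    · exact ⟨∅, isOpen_empty, empty_subset _, fun D hD hDT v hv hvD =>
        ⟨v, Mod.refl hv, D, hD, hDT, subset_rfl, by simp, hvD⟩⟩
    · rintro s t hst ⟨V, hVo, htV, hV⟩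
      exact ⟨V, hVo, hst.trans htV, hV⟩
    · rintro s t ⟨V, hVo, hsV, hV⟩ ⟨V', hVo', htV', hV'⟩
      refine ⟨V ∪ V', hVo.union hVo', union_subset_union hsV htV', fun D hD hDT v hv hvD => ?_⟩
      obtain ⟨v1, hm1, D1, hD1, hD1T, hDD1, hVD1, hv1⟩ := hV D hD hDT v hv hvD
      obtain ⟨v2, hm2, D2, hD2, hD2T, hDD2, hVD2, hv2⟩ := hV' D1 hD1 hD1T v1 hm1.1 hv1
      refine ⟨v2, hm1.trans hm2, D2, hD2, hD2T, hDD1.trans hDD2, ?_, hv2⟩
      rw [union_inter_distrib_right]
      exact union_subset (hVD1.trans hDD2) hVD2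
    · rintro x ⟨hxT, hx0⟩
      obtain ⟨hxO, P, hPO, hP, hxP, z, hzP, hzT⟩ := hJ x hxT hx0
      obtain ⟨δ, hδ, hδO⟩ := Metric.isOpen_iff.mp hO x hxO
      have : ProperSpace E := FiniteDimensional.proper ℝ E
      refine ⟨ball x (δ / 2), mem_nhdsWithin_of_mem_nhds (ball_mem_nhds x (by linarith)),
        ball x (δ / 2), isOpen_ball, subset_rfl, fun D hD hDT v hv hvD => ?_⟩
      obtain ⟨v1, hm1, hv1⟩ := basic_step v hv hO hD x x (ρ := δ / 2) (by linarith)
        ((closedBall_subset_ball (by linarith)).trans hδO) (mem_ball_self (by linarith))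
        (fun w hw _ => hvD w hw)
      obtain ⟨v2, hm2, hv2⟩ := move_zero hO (hD.union (isCompact_closedBall x (δ / 2))) hP hPO
        hxP hzP v1 hm1.1 hv1
      refine ⟨v2, hm1.trans hm2, D ∪ (closedBall x (δ / 2) ∩ T),
        hD.union ((isCompact_closedBall x (δ / 2)).inter hT),
        union_subset hDT inter_subset_right, subset_union_left, ?_, ?_⟩
      · exact (inter_subset_inter_left _ ball_subset_closedBall).trans subset_union_right
      · intro w hw
        have hwT : w ∈ T := by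
          rcases hw with hw | hw
          · exact hDT hw
          · exact hw.2
        refine hv2 w ?_ (fun h => hzT (h ▸ hwT))
        rcases hw with hw | hw
        · exact Or.inl hw
        · exact Or.inr hw.1
  obtain ⟨v', hm, D', -, -, hDD', hVD', hv'⟩ := hV (T \ V) (hT.diff hVo) sdiff_subset v hv
    (fun w hw h => hw.2 (hZV ⟨hw.1, h⟩))
  refine ⟨v', hm, fun w hw => hv' w ?_⟩
  by_cases h : w ∈ V
  · exact hVD' ⟨h, hw⟩
  · exact hDD' ⟨hw, h⟩

end Pool.Agent.Run7.h118
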