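import Mathlib
import Pool.Agent.Run7.h118.Sweep

set_option autoImplicit false

open Set Filter Topology Metric

namespace Pool.Agent.Run7.h118

variable {E : Type*} [NormedAddCommGroup E] [NormedSpace ℝ E] [FiniteDimensional ℝ E]

/-- Sweeping all zeros out of an exhaustion. -/
theorem sweep_seq {N : Set E} (hN : IsOpen N) (K : ℕ → Set E) (hK : ∀ j, IsCompact (K j))
    (hKm : ∀ j, K j ⊆ K (j + 1)) (hK1 : K 1 = ∅) (v0 : E → E) (hv0 : Continuous v0)
    (hv0N : ∀ j, ∀ w ∈ K j, w ∉ N → v0 w ≠ 0)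
    (hNC : ∀ j, ∀ w ∈ N, w ∈ K (j + 2) → w ∉ K (j + 1) →
      ∃ P ⊆ N \ K j, IsPreconnected P ∧ w ∈ P ∧ ∃ z ∈ P, z ∉ K (j + 2)) :
    ∃ v : ℕ → E → E, (∀ j, Continuous (v j)) ∧ (∀ j, ∀ w, w ∉ N → v j w = v0 w) ∧
      (∀ j, ∀ w ∈ K (j + 1), v j w ≠ 0) ∧ (∀ j, ∀ w ∈ K j, v (j + 1) w = v j w) := by
  have step : ∀ (j : ℕ) (v : {v : E → E // Continuous v ∧ (∀ w, w ∉ N → v w = v0 w) ∧
      ∀ w ∈ K (j + 1), v w ≠ 0}), ∃ v' : {v : E → E // Continuous v ∧
        (∀ w, w ∉ N → v w = v0 w) ∧ ∀ w ∈ K (j + 1 + 1), v w ≠ 0},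
        ∀ w ∈ K j, v'.1 w = v.1 w := by
    rintro j ⟨v, hv, hvN, hvK⟩
    have hO : IsOpen (N \ K j) := hN.sdiff (hK j).isClosed
    obtain ⟨v', ⟨hv', Y, hY, hYO, hYe⟩, hv'T⟩ := stage hO (hK (j + 2)) v hv (by
      intro x hx hx0
      have hxN : x ∈ N := by
        by_contra h
        rw [hvN x h] at hx0
        exact hv0N _ x hx h hx0
      have hxK : x ∉ K (j + 1) := fun h => hvK x h hx0
      refine ⟨⟨hxN, fun h => hxK (hKm j h)⟩, ?_⟩
      exact hNC j x hxN hx hxK)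
    refine ⟨⟨v', hv', fun w hw => ?_, hv'T⟩, fun w hw => ?_⟩
    · rw [hYe w (fun h => hw (hYO h).1), hvN w hw]
    · exact hYe w (fun h => (hYO h).2 hw)
  choose F hF using step
  let seq : ∀ j : ℕ, {v : E → E // Continuous v ∧ (∀ w, w ∉ N → v w = v0 w) ∧
      ∀ w ∈ K (j + 1), v w ≠ 0} := fun j =>
    Nat.rec (motive := fun j => {v : E → E // Continuous v ∧ (∀ w, w ∉ N → v w = v0 w) ∧
      ∀ w ∈ K (j + 1), v w ≠ 0})
      ⟨v0, hv0, fun _ _ => rfl, fun w hw => by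
        have hw' : w ∈ K 1 := hw
        rw [hK1] at hw'
        exact absurd hw' (notMem_empty w)⟩ (fun j v => F j v) j
  exact ⟨fun j => (seq j).1, fun j => (seq j).2.1, fun j => (seq j).2.2.1,
    fun j => (seq j).2.2.2, fun j => hF j (seq j)⟩

/-- The limit of the sweeping process. -/
theorem sweep_limit {N : Set E} (hN : IsOpen N) (K : ℕ → Set E) (hK : ∀ j, IsCompact (K j))
    (hKm : ∀ j, K j ⊆ K (j + 1)) (hK1 : K 1 = ∅) (v0 : E → E) (hv0 : Continuous v0)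
    (hv0N : ∀ j, ∀ w ∈ K j, w ∉ N → v0 w ≠ 0)
    (hNC : ∀ j, ∀ w ∈ N, w ∈ K (j + 2) → w ∉ K (j + 1) →
      ∃ P ⊆ N \ K j, IsPreconnected P ∧ w ∈ P ∧ ∃ z ∈ P, z ∉ K (j + 2)) :
    ∃ v : E → E, (∀ w, w ∉ N → v w = v0 w) ∧ (∀ j, ∀ w ∈ K j, v w ≠ 0) ∧
      ∀ (S : Set E) (w : E) (j : ℕ), w ∈ K j → K j ∈ 𝓝[S] w → ContinuousWithinAt v S w := by
  classical
  obtain ⟨v, hvc, hvN, hvK, hvs⟩ := sweep_seq hN K hK hKm hK1 v0 hv0 hv0N hNC
  have hmono : Monotone K := monotone_nat_of_le_succ hKm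
  have hconst : ∀ i j, i ≤ j → ∀ w ∈ K i, v j w = v i w := by
    intro i j hij w hw
    induction j, hij using Nat.le_induction with
    | base => rfl
    | succ m him ih =>
      rw [hvs m w (hmono him hw), ih]
  set vl : E → E := fun w => if h : ∃ j, w ∈ K j then v (Nat.find h) w else v0 w with hvl
  have hval : ∀ j, ∀ w ∈ K j, vl w = v j w := by
    intro j w hw
    have h : ∃ j, w ∈ K j := ⟨j, hw⟩
    simp only [hvl, dif_pos h]
    exact (hconst _ _ (Nat.find_min' h hw) w (Nat.find_spec h)).symm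
  refine ⟨vl, ?_, ?_, ?_⟩
  · intro w hw
    by_cases h : ∃ j, w ∈ K j
    · simp only [hvl, dif_pos h]
      exact hvN _ w hw
    · simp only [hvl, dif_neg h]
  · intro j w hw
    rw [hval j w hw]
    exact hvK j w (hKm j hw)
  · intro S w j hw hKS
    have h1 : ContinuousWithinAt (v j) S w := (hvc j).continuousWithinAt
    refine h1.congr_of_eventuallyEq ?_ (hval j w hw)
    filter_upwards [hKS] with y hy
    exact hval j y hy

omit [NormedSpace ℝ E] [FiniteDimensional ℝ E] in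
/-- Truncating a path just before it reaches a closed set. -/
theorem trunc_path {B : Set E} (hB : IsClosed B) (γ : ℝ → E) (hγ : Continuous γ)
    (h0 : γ 0 ∉ B) (h1 : γ 1 ∈ B) {ε : ℝ} (hε : 0 < ε) :
    ∃ τ ∈ Icc (0 : ℝ) 1, (∀ s ∈ Icc (0 : ℝ) τ, γ s ∉ B) ∧ infDist (γ τ) B < ε := by
  set T : Set ℝ := {s | s ∈ Icc (0 : ℝ) 1 ∧ γ s ∈ B} with hT
  have hTc : IsCompact T := isCompact_Icc.inter_right (hB.preimage hγ)
  obtain ⟨t, ⟨htI, htB⟩, htmin⟩ := hTc.exists_isLeast ⟨1, ⟨zero_le_one, le_rfl⟩, h1⟩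
  have htpos : 0 < t := by
    rcases lt_or_eq_of_le htI.1 with h | h
    · exact h
    · exact absurd (h ▸ htB) h0
  have hcont : Continuous fun s => infDist (γ s) B := (continuous_infDist_pt B).comp hγ
  have hev : ∀ᶠ s in 𝓝 t, infDist (γ s) B < ε := by
    have h0' : infDist (γ t) B < ε := by
      rw [infDist_zero_of_mem htB]
      exact hε
    exact (hcont.continuousAt (x := t)).eventually (gt_mem_nhds h0')
  obtain ⟨δ, hδ, hδs⟩ := Metric.eventually_nhds_iff.mp hev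
  refine ⟨max 0 (t - δ / 2), ⟨le_max_left _ _, max_le zero_le_one (by linarith [htI.2])⟩, ?_, ?_⟩
  · intro s hs hsB
    have hlt : s < t := hs.2.trans_lt (max_lt htpos (by linarith))
    exact absurd (htmin ⟨⟨hs.1, hlt.le.trans htI.2⟩, hsB⟩) (not_le.mpr hlt)
  · apply hδs
    rw [Real.dist_eq, abs_lt]
    constructor
    · have : t - δ / 2 ≤ max 0 (t - δ / 2) := le_max_right _ _
      linarith
    · have : max 0 (t - δ / 2) < t := max_lt htpos (by linarith)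
      linarith

end Pool.Agent.Run7.h118
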