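import Mathlib
import Pool.Agent.Run7.h118.SweepInf

set_option autoImplicit false

open Set Filter Topology Metric

namespace Pool.Agent.Run7.h118

variable {E : Type*} [NormedAddCommGroup E] [NormedSpace ℝ E] [FiniteDimensional ℝ E]

/-- Let `r` retract a compact neighbourhood `W0` of the path connected compactum `X` onto `X` and
let `AX ⊆ X` be closed and nonempty.  The field `w ↦ r w - w` can be modified in an arbitrarily
small neighbourhood of `X \ AX` to a field without zeros on `W0 \ AX`. -/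
theorem exists_field {X W0 AX O : Set E} (hX : IsCompact X) (hXpc : IsPathConnected X)
    (hW0 : IsCompact W0) (hXW : X ⊆ interior W0) (r : E → E) (hr : Continuous r)
    (hrW : ∀ w ∈ W0, r w ∈ X) (hrX : ∀ x ∈ X, r x = x) (hO : IsOpen O) (hOW : O ⊆ W0)
    (hAX : IsClosed AX) (hAXX : AX ⊆ X) (hAXne : AX.Nonempty) (hAXO : ∀ x ∈ AX, x ∉ O)
    (hXO : ∀ x ∈ X, x ∉ AX → x ∈ O) :
    ∃ (N : Set E) (v : E → E), IsOpen N ∧ N ⊆ O ∧ (∀ x ∈ X, x ∉ AX → x ∈ N) ∧
      (∀ w, w ∉ N → v w = r w - w) ∧ (∀ w ∈ W0, w ∉ AX → v w ≠ 0) ∧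
      (∀ w ∈ W0, w ∉ AX → ContinuousWithinAt v W0 w) := by
  classical
  have : ProperSpace E := FiniteDimensional.proper ℝ E
  have hAXc : IsCompact AX := hX.of_isClosed_subset hAX hAXX
  have hOcne : (Oᶜ).Nonempty := by
    obtain ⟨a, ha⟩ := hAXne
    exact ⟨a, hAXO a ha⟩
  set R : E → ℝ := fun x => (1 / 2) * infDist x Oᶜ with hR
  have hRpos : ∀ x ∈ X, x ∉ AX → 0 < R x := by
    intro x hx hxA
    have : 0 < infDist x Oᶜ :=
      (hO.isClosed_compl.notMem_iff_infDist_pos hOcne).mp (fun h => h (hXO x hx hxA))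
    simp only [hR]
    linarith
  have hRle : ∀ x, R x ≤ (1 / 2) * infDist x AX := by
    intro x
    have : infDist x Oᶜ ≤ infDist x AX :=
      infDist_le_infDist_of_subset (fun y hy => hAXO y hy) hAXne
    simp only [hR]
    linarith
  set N : Set E := ⋃ x ∈ X \ AX, ball x (R x) with hN
  have hNo : IsOpen N := isOpen_biUnion fun x _ => isOpen_ball
  have hballN : ∀ x ∈ X, x ∉ AX → ball x (R x) ⊆ N := by
    intro x hx hxA
    exact subset_biUnion_of_mem (u := fun x => ball x (R x)) ⟨hx, hxA⟩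
  have hxN : ∀ x ∈ X, x ∉ AX → x ∈ N :=
    fun x hx hxA => hballN x hx hxA (mem_ball_self (hRpos x hx hxA))
  have hNmem : ∀ w ∈ N, ∃ x ∈ X, x ∉ AX ∧ w ∈ ball x (R x) := by
    intro w hw
    simp only [hN, mem_iUnion] at hw
    obtain ⟨x, ⟨hx, hxA⟩, hwx⟩ := hw
    exact ⟨x, hx, hxA, hwx⟩
  have hNO : N ⊆ O := by
    intro w hw
    obtain ⟨x, hx, hxA, hwx⟩ := hNmem w hw
    by_contra h
    have h1 : infDist x Oᶜ ≤ dist x w := infDist_le_dist_of_mem h
    have h2 : dist w x < R x := hwx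
    have h3 := hRpos x hx hxA
    rw [dist_comm] at h2
    simp only [hR] at h2 h3
    linarith
  -- distance estimates
  have hd1 : ∀ w x, w ∈ ball x (R x) → infDist x AX ≤ 2 * infDist w AX := by
    intro w x hw
    have h1 : infDist x AX ≤ infDist w AX + dist x w := infDist_le_infDist_add_dist
    have h2 : dist w x < R x := hw
    have h3 := hRle x
    rw [dist_comm] at h2
    linarith
  have hd2 : ∀ w x, w ∈ ball x (R x) → infDist w AX ≤ (3 / 2) * infDist x AX := by
    intro w x hw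
    have h1 : infDist w AX ≤ infDist x AX + dist w x := infDist_le_infDist_add_dist
    have h2 : dist w x < R x := hw
    have h3 := hRle x
    linarith
  -- global connections
  have halpha : ∀ w ∈ N, ∀ ε > 0, ∃ P ⊆ N, IsPreconnected P ∧ w ∈ P ∧
      ∃ z ∈ P, infDist z AX < ε := by
    intro w hw ε hε
    obtain ⟨x, hx, hxA, hwx⟩ := hNmem w hw
    obtain ⟨a, ha⟩ := hAXne
    obtain ⟨γ, hγ⟩ := hXpc.joinedIn x hx a (hAXX ha)
    obtain ⟨τ, hτ, hτA, hτε⟩ := trunc_path hAX γ.extend γ.continuous_extend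
      (by rw [γ.extend_zero]; exact hxA) (by rw [γ.extend_one]; exact ha) hε
    have hγX : ∀ s, γ.extend s ∈ X := by
      intro s
      have : γ.extend s ∈ range γ := by
        rw [← γ.extend_range]
        exact mem_range_self s
      obtain ⟨t, ht⟩ := this
      rw [← ht]
      exact hγ t
    refine ⟨ball x (R x) ∪ γ.extend '' Icc 0 τ, ?_, ?_, Or.inl hwx, γ.extend τ,
      Or.inr ⟨τ, ⟨hτ.1, le_rfl⟩, rfl⟩, hτε⟩
    · refine union_subset (hballN x hx hxA) ?_
      rintro _ ⟨s, hs, rfl⟩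
      exact hxN _ (hγX s) (hτA s hs)
    · refine IsPreconnected.union x (mem_ball_self (hRpos x hx hxA)) ?_
        (convex_ball x (R x)).isPreconnected
        (isPreconnected_Icc.image _ γ.continuous_extend.continuousOn)
      exact ⟨0, ⟨le_rfl, hτ.1⟩, γ.extend_zero⟩
  -- local connections
  have hgamma : ∀ η > 0, ∃ η' > 0, ∀ w ∈ N, infDist w AX < η' → ∀ ε > 0,
      ∃ P ⊆ N, (∀ p ∈ P, infDist p AX < η) ∧ IsPreconnected P ∧ w ∈ P ∧
        ∃ z ∈ P, infDist z AX < ε := by
    intro η hη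
    obtain ⟨δ0, hδ0, hδ0W⟩ := hX.exists_thickening_subset_open isOpen_interior hXW
    have huc : UniformContinuousOn r W0 := hW0.uniformContinuousOn_of_continuous hr.continuousOn
    obtain ⟨δ1, hδ1, hδ1r⟩ := Metric.uniformContinuousOn_iff.mp huc η hη
    refine ⟨min (η / 3) (min (δ0 / 2) (δ1 / 2)), lt_min (by linarith)
      (lt_min (by linarith) (by linarith)), fun w hw hwη ε hε => ?_⟩
    have hw1 : infDist w AX < η / 3 := hwη.trans_le (min_le_left _ _)
    have hw2 : infDist w AX < δ0 / 2 :=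
      hwη.trans_le ((min_le_right _ _).trans (min_le_left _ _))
    have hw3 : infDist w AX < δ1 / 2 :=
      hwη.trans_le ((min_le_right _ _).trans (min_le_right _ _))
    obtain ⟨x, hx, hxA, hwx⟩ := hNmem w hw
    have hx2 := hd1 w x hwx
    obtain ⟨a, ha, hda⟩ := hAXc.exists_infDist_eq_dist hAXne x
    have hdist : dist x a < δ0 := by rw [← hda]; linarith
    have hdist1 : dist x a < δ1 := by rw [← hda]; linarith
    set q : ℝ → E := fun τ => a + (1 - τ) • (x - a) with hq
    have hqc : Continuous q :=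
      continuous_const.add ((continuous_const.sub continuous_id).smul continuous_const)
    have hq0 : q 0 = x := by simp [hq]
    have hq1 : q 1 = a := by simp [hq]
    have hqd : ∀ τ ∈ Icc (0 : ℝ) 1, dist (q τ) a ≤ dist x a := by
      intro τ hτ
      simp only [hq]
      rw [dist_eq_norm, dist_eq_norm, add_sub_cancel_left, norm_smul, Real.norm_eq_abs,
        abs_of_nonneg (by linarith [hτ.2])]
      have := norm_nonneg (x - a)
      nlinarith [hτ.1]
    have haX : a ∈ X := hAXX ha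
    have hqW : ∀ τ ∈ Icc (0 : ℝ) 1, q τ ∈ W0 := by
      intro τ hτ
      apply interior_subset
      apply hδ0W
      rw [mem_thickening_iff]
      exact ⟨a, haX, (hqd τ hτ).trans_lt hdist⟩
    have haW : a ∈ W0 := interior_subset (hXW haX)
    obtain ⟨τ, hτ, hτA, hτε⟩ := trunc_path hAX (fun τ => r (q τ)) (hr.comp hqc)
      (by simp only [hq0, hrX x hx]; exact hxA) (by simp only [hq1, hrX a haX]; exact ha) hε
    have hsI : ∀ s ∈ Icc (0 : ℝ) τ, s ∈ Icc (0 : ℝ) 1 := fun s hs => ⟨hs.1, hs.2.trans hτ.2⟩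
    refine ⟨ball x (R x) ∪ (fun τ => r (q τ)) '' Icc 0 τ, ?_, ?_, ?_, Or.inl hwx, r (q τ),
      Or.inr ⟨τ, ⟨hτ.1, le_rfl⟩, rfl⟩, hτε⟩
    · refine union_subset (hballN x hx hxA) ?_
      rintro _ ⟨s, hs, rfl⟩
      exact hxN _ (hrW _ (hqW s (hsI s hs))) (hτA s hs)
    · rintro p (hp | ⟨s, hs, rfl⟩)
      · have := hd2 p x hp
        linarith
      · have h1 : infDist (r (q s)) AX ≤ dist (r (q s)) a := infDist_le_dist_of_mem ha
        have h2 : dist (r (q s)) (r a) < η := hδ1r (q s) (hqW s (hsI s hs)) a haW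
          ((hqd s (hsI s hs)).trans_lt hdist1)
        rw [hrX a haX] at h2
        exact h1.trans_lt h2
    · refine IsPreconnected.union x (mem_ball_self (hRpos x hx hxA)) ?_
        (convex_ball x (R x)).isPreconnected
        (isPreconnected_Icc.image _ (hr.comp hqc).continuousOn)
      exact ⟨0, ⟨le_rfl, hτ.1⟩, by simp only [hq0, hrX x hx]⟩
  -- the scales
  choose G hGpos hG using hgamma
  let rho : ℕ → {x : ℝ // 0 < x} := fun j =>
    Nat.rec (motive := fun _ => {x : ℝ // 0 < x}) ⟨1, one_pos⟩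
      (fun _ x => ⟨min (G x.1 x.2) (x.1 / 2), lt_min (hGpos x.1 x.2) (by linarith [x.2])⟩) j
  have hrhoS : ∀ j, (rho (j + 1)).1 = min (G (rho j).1 (rho j).2) ((rho j).1 / 2) := fun j => rfl
  have hrhopos : ∀ j, 0 < (rho j).1 := fun j => (rho j).2
  have hrho_half : ∀ j, (rho (j + 1)).1 ≤ (rho j).1 / 2 := fun j => by
    rw [hrhoS]
    exact min_le_right _ _
  have hrho_le : ∀ j, (rho (j + 1)).1 ≤ (rho j).1 := fun j => by
    linarith [hrho_half j, hrhopos j]
  have hrho_pow : ∀ j, (rho j).1 ≤ (1 / 2 : ℝ) ^ j := by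
    intro j
    induction j with
    | zero => exact le_of_eq (by simp [rho])
    | succ m ih =>
      rw [pow_succ]
      linarith [hrho_half m]
  have hrho_lim : ∀ δ > 0, ∃ j, (rho j).1 < δ := by
    intro δ hδ
    obtain ⟨j, hj⟩ := exists_pow_lt_of_lt_one hδ (show (1 / 2 : ℝ) < 1 by norm_num)
    exact ⟨j, (hrho_pow j).trans_lt hj⟩
  let K : ℕ → Set E := fun j => match j with
    | 0 => ∅
    | 1 => ∅
    | (j + 2) => {w | w ∈ W0 ∧ (rho j).1 ≤ infDist w AX}
  have hK0 : K 0 = ∅ := rfl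
  have hK1 : K 1 = ∅ := rfl
  have hK2 : ∀ j, K (j + 2) = {w | w ∈ W0 ∧ (rho j).1 ≤ infDist w AX} := fun j => rfl
  have hKc : ∀ j, IsCompact (K j) := by
    intro j
    match j with
    | 0 => exact isCompact_empty
    | 1 => exact isCompact_empty
    | (j + 2) =>
      rw [hK2]
      exact hW0.inter_right (isClosed_le continuous_const (continuous_infDist_pt AX))
  have hKm : ∀ j, K j ⊆ K (j + 1) := by
    intro j
    match j with
    | 0 => exact empty_subset _
    | 1 => exact empty_subset _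
    | (j + 2) =>
      rintro w ⟨hw, hwd⟩
      exact ⟨hw, (hrho_le j).trans hwd⟩
  have hKA : ∀ j, ∀ w ∈ K j, w ∈ W0 ∧ w ∉ AX := by
    intro j w hw
    match j, hw with
    | (j + 2), hw =>
      refine ⟨hw.1, fun h => ?_⟩
      have := hw.2
      rw [infDist_zero_of_mem h] at this
      linarith [hrhopos j]
  have hKcover : ∀ w ∈ W0, w ∉ AX → ∃ j, w ∈ K j ∧ K j ∈ 𝓝[W0] w := by
    intro w hw hwA
    have hpos : 0 < infDist w AX := (hAX.notMem_iff_infDist_pos hAXne).mp hwA
    obtain ⟨j, hj⟩ := hrho_lim _ hpos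
    refine ⟨j + 2, ⟨hw, hj.le⟩, ?_⟩
    have hopen : IsOpen {y | (rho j).1 < infDist y AX} :=
      isOpen_lt continuous_const (continuous_infDist_pt AX)
    filter_upwards [self_mem_nhdsWithin, mem_nhdsWithin_of_mem_nhds (hopen.mem_nhds hj)] with y hy1 hy2
    exact ⟨hy1, le_of_lt hy2⟩
  have hNW : N ⊆ W0 := hNO.trans hOW
  obtain ⟨v, hvN, hvK, hvc⟩ := sweep_limit hNo K hKc hKm hK1 (fun w => r w - w)
    (hr.sub continuous_id) (by
      intro j w hw hwN h
      obtain ⟨hwW, hwA⟩ := hKA j w hw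
      have hrw : r w = w := sub_eq_zero.mp h
      have hwX : w ∈ X := hrw ▸ hrW w hwW
      exact hwN (hxN w hwX hwA)) (by
      intro j w hwN hw2 hw1
      match j with
      | 0 =>
        obtain ⟨P, hPN, hP, hwP, z, hzP, hz⟩ := halpha w hwN _ (hrhopos 0)
        refine ⟨P, fun p hp => ⟨hPN hp, fun h => ?_⟩, hP, hwP, z, hzP, fun h => ?_⟩
        · rw [hK0] at h
          exact h
        · exact absurd h.2 (not_le.mpr hz)
      | 1 =>
        obtain ⟨P, hPN, hP, hwP, z, hzP, hz⟩ := halpha w hwN _ (hrhopos 1)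
        refine ⟨P, fun p hp => ⟨hPN hp, fun h => ?_⟩, hP, hwP, z, hzP, fun h => ?_⟩
        · rw [hK1] at h
          exact h
        · exact absurd h.2 (not_le.mpr hz)
      | (i + 2) =>
        have hwd : infDist w AX < (rho (i + 1)).1 := by
          by_contra hcon
          exact hw1 ⟨hNW hwN, not_lt.mp hcon⟩
        have hwd' : infDist w AX < G (rho i).1 (rho i).2 := by
          rw [hrhoS] at hwd
          exact hwd.trans_le (min_le_left _ _)
        obtain ⟨P, hPN, hPd, hP, hwP, z, hzP, hz⟩ := hG (rho i).1 (rho i).2 w hwN hwd' _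
          (hrhopos (i + 2))
        refine ⟨P, fun p hp => ⟨hPN hp, fun h => ?_⟩, hP, hwP, z, hzP, fun h => ?_⟩
        · exact absurd h.2 (not_le.mpr (hPd p hp))
        · exact absurd h.2 (not_le.mpr hz))
  refine ⟨N, v, hNo, hNO, hxN, hvN, ?_, ?_⟩
  · intro w hw hwA
    obtain ⟨j, hj, -⟩ := hKcover w hw hwA
    exact hvK j w hj
  · intro w hw hwA
    obtain ⟨j, hj, hj'⟩ := hKcover w hw hwA
    exact hvc W0 w j hj hj'

end Pool.Agent.Run7.h118
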