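import Mathlib
import Pool.Agent.Run7.h118.Field

set_option autoImplicit false

open Set Filter Topology Metric

namespace Pool.Agent.Run7.h118

variable {E : Type*} [NormedAddCommGroup E] [NormedSpace ℝ E]

/-- Radial truncation at norm `b`. -/
noncomputable def tr (b : ℝ) (p : E) : E := (min 1 (max 0 b / ‖p‖)) • p

omit [NormedSpace ℝ E] in
theorem tr_coef_nonneg (b : ℝ) (p : E) : 0 ≤ min 1 (max 0 b / ‖p‖) :=
  le_min zero_le_one (div_nonneg (le_max_left _ _) (norm_nonneg _))

theorem norm_tr_le (b : ℝ) (p : E) : ‖tr b p‖ ≤ ‖p‖ := by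
  unfold tr
  rw [norm_smul, Real.norm_eq_abs, abs_of_nonneg (tr_coef_nonneg b p)]
  calc min 1 (max 0 b / ‖p‖) * ‖p‖ ≤ 1 * ‖p‖ :=
        mul_le_mul_of_nonneg_right (min_le_left _ _) (norm_nonneg _)
    _ = ‖p‖ := one_mul _

theorem norm_tr_le' (b : ℝ) (p : E) : ‖tr b p‖ ≤ max 0 b := by
  unfold tr
  rw [norm_smul, Real.norm_eq_abs, abs_of_nonneg (tr_coef_nonneg b p)]
  rcases eq_or_ne p 0 with h | h
  · rw [h, norm_zero, mul_zero]
    exact le_max_left _ _
  · have hp : 0 < ‖p‖ := norm_pos_iff.mpr h
    calc min 1 (max 0 b / ‖p‖) * ‖p‖ ≤ (max 0 b / ‖p‖) * ‖p‖ :=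
          mul_le_mul_of_nonneg_right (min_le_right _ _) hp.le
      _ = max 0 b := div_mul_cancel₀ _ hp.ne'

theorem tr_eq {b : ℝ} {p : E} (h : ‖p‖ ≤ b) : tr b p = p := by
  unfold tr
  rcases eq_or_ne p 0 with h0 | h0
  · rw [h0, smul_zero]
  · have hp : 0 < ‖p‖ := norm_pos_iff.mpr h0
    have : 1 ≤ max 0 b / ‖p‖ := by
      rw [le_div_iff₀ hp, one_mul]
      exact h.trans (le_max_right _ _)
    rw [min_eq_left this, one_smul]

theorem continuous_tr : Continuous fun z : ℝ × E => tr z.1 z.2 := by
  rw [continuous_iff_continuousAt]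
  rintro ⟨b, p⟩
  by_cases h : p = 0
  · rw [h]
    have h0 : tr b (0 : E) = 0 := by simp [tr]
    rw [ContinuousAt]
    simp only [h0]
    refine squeeze_zero_norm (a := fun z : ℝ × E => ‖z.2‖) (fun z => norm_tr_le z.1 z.2) ?_
    have : Continuous fun z : ℝ × E => ‖z.2‖ := continuous_snd.norm
    have h := this.tendsto (b, (0 : E))
    simpa using h
  · have hp : ‖p‖ ≠ 0 := norm_ne_zero_iff.mpr h
    unfold tr
    have h1 : ContinuousAt (fun z : ℝ × E => max 0 z.1 / ‖z.2‖) (b, p) :=
      ((continuous_const.max continuous_fst).continuousAt).div continuous_snd.norm.continuousAt hp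
    exact (continuousAt_const.min h1).smul continuous_snd.continuousAt

variable [FiniteDimensional ℝ E]

/-- **Core theorem.** -/
theorem core_product {X W0 Y : Set E} (hX : IsCompact X) (hXpc : IsPathConnected X)
    (hW0 : IsCompact W0) (hXW : X ⊆ interior W0) (r : E → E) (hr : Continuous r)
    (hrW : ∀ w ∈ W0, r w ∈ X) (hrX : ∀ x ∈ X, r x = x) (hY : Convex ℝ Y) {c : E} {ε : ℝ}
    (hε : 0 < ε) (hcY : closedBall c ε ⊆ Y) {A : Set (E × E)} (hA : IsClosed A)
    (hAXY : A ⊆ X ×ˢ Y) (hAne : A.Nonempty) :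
    ∃ f : E × E → E × E, Continuous f ∧ MapsTo f (X ×ˢ Y) (X ×ˢ Y) ∧
      ∀ p ∈ X ×ˢ Y, f p = p ↔ p ∈ A := by
  classical
  obtain ⟨⟨xa, sa⟩, haA⟩ := id hAne
  obtain ⟨hxa, hsa⟩ : xa ∈ X ∧ sa ∈ Y := hAXY haA
  have hXW0 : X ⊆ W0 := hXW.trans interior_subset
  -- the scale `κ`
  obtain ⟨κ, hκ, hκX⟩ : ∃ κ : ℝ, 0 < κ ∧ ∀ x ∈ X, κ * ‖x - xa‖ ≤ 1 := by
    obtain ⟨M, hM⟩ := hX.exists_bound_of_continuousOn
      (f := fun x => x - xa) (continuous_id.sub continuous_const).continuousOn
    refine ⟨1 / (|M| + 1), by positivity, fun x hx => ?_⟩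
    rw [div_mul_eq_mul_div, one_mul, div_le_one (by positivity)]
    exact (hM x hx).trans ((le_abs_self M).trans (by linarith))
  set ρ : E → E := fun w => sa + (κ * ‖r w - xa‖) • (c - sa) + (κ * ε / 2) • (w - xa) with hρ
  have hρc : Continuous ρ := (continuous_const.add ((continuous_const.mul
    (hr.sub continuous_const).norm).smul continuous_const)).add
    ((continuous_id.sub continuous_const).const_smul _)
  have hρY : ∀ w ∈ W0, ‖w - r w‖ ≤ ‖r w - xa‖ → ρ w ∈ Y := by
    intro w hw hwr
    rcases eq_or_ne (r w) xa with h | h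
    · have hwxa : w = xa := by
        rw [h, sub_self, norm_zero] at hwr
        exact sub_eq_zero.mp (norm_le_zero_iff.mp hwr)
      simp only [hρ, hwxa, hrX xa hxa, sub_self, norm_zero, mul_zero, zero_smul, smul_zero,
        add_zero]
      exact hsa
    · have hd : 0 < ‖r w - xa‖ := norm_pos_iff.mpr (sub_ne_zero.mpr h)
      set d : ℝ := ‖r w - xa‖ with hdd
      have hκ1 : κ * d ≤ 1 := hκX _ (hrW w hw)
      have hκ0 : 0 ≤ κ * d := by positivity
      have hin : c + (ε / (2 * d)) • (w - xa) ∈ Y := by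
        apply hcY
        rw [mem_closedBall, dist_eq_norm, add_sub_cancel_left, norm_smul, Real.norm_eq_abs,
          abs_of_pos (by positivity)]
        have h1 : ‖w - xa‖ ≤ 2 * d := by
          calc ‖w - xa‖ = ‖(w - r w) + (r w - xa)‖ := by congr 1; abel
            _ ≤ ‖w - r w‖ + ‖r w - xa‖ := norm_add_le _ _
            _ ≤ 2 * d := by linarith
        calc ε / (2 * d) * ‖w - xa‖ ≤ ε / (2 * d) * (2 * d) :=
              mul_le_mul_of_nonneg_left h1 (by positivity)
          _ = ε := div_mul_cancel₀ _ (by positivity)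
      have heq : ρ w = (1 - κ * d) • sa + (κ * d) • (c + (ε / (2 * d)) • (w - xa)) := by
        simp only [hρ]
        rw [smul_add, smul_smul]
        have : κ * d * (ε / (2 * d)) = κ * ε / 2 := by field_simp
        rw [this, sub_smul, one_smul, smul_sub]
        abel
      rw [heq]
      exact hY hsa hin (by linarith) hκ0 (by ring)
  set e : E → E × E := fun w => (r w, ρ w) with he
  have hec : Continuous e := hr.prodMk hρc
  have hexa : e xa = (xa, sa) := by
    simp only [he, hρ, hrX xa hxa, sub_self, norm_zero, mul_zero, zero_smul, smul_zero, add_zero]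
  set ι : E × E → E := fun p =>
    xa + (2 / (κ * ε)) • (p.2 - sa - (κ * ‖p.1 - xa‖) • (c - sa)) with hι
  have hιc : Continuous ι := continuous_const.add (((continuous_snd.sub continuous_const).sub
    ((continuous_const.mul (continuous_fst.sub continuous_const).norm).smul
      continuous_const)).const_smul _)
  have hιe : ∀ w, ι (e w) = w := by
    intro w
    simp only [hι, he, hρ]
    have h1 : sa + (κ * ‖r w - xa‖) • (c - sa) + (κ * ε / 2) • (w - xa) - sa -
        (κ * ‖r w - xa‖) • (c - sa) = (κ * ε / 2) • (w - xa) := by abel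
    rw [h1, smul_smul]
    have h2 : 2 / (κ * ε) * (κ * ε / 2) = 1 := by field_simp
    rw [h2, one_smul, add_sub_cancel]
  -- the pinched neighbourhood
  set Wo : Set E := {w | w ∈ interior W0 ∧ ‖w - r w‖ < ‖r w - xa‖} with hWo
  have hWoo : IsOpen Wo := isOpen_interior.inter
    (isOpen_lt (continuous_id.sub hr).norm (hr.sub continuous_const).norm)
  have hWone : (Woᶜ).Nonempty := by
    refine ⟨xa, fun h => ?_⟩
    have := h.2
    rw [hrX xa hxa, sub_self, norm_zero] at this
    exact lt_irrefl 0 this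
  set ζ : E → ℝ := fun x => (1 / 2) * infDist x Woᶜ with hζ
  have hζc : Continuous ζ := continuous_const.mul (continuous_infDist_pt _)
  set ζ' : E → ℝ := fun w => min (ζ (r w)) (infDist (e w) A) with hζ'
  have hζ'c : Continuous ζ' := (hζc.comp hr).min ((continuous_infDist_pt A).comp hec)
  have hζnn : ∀ x, 0 ≤ ζ x := fun x => mul_nonneg (by norm_num) infDist_nonneg
  have hζ'nn : ∀ w, 0 ≤ ζ' w := fun w => le_min (hζnn _) infDist_nonneg
  set O : Set E := {w | w ∈ Wo ∧ 4 * ‖w - r w‖ < ζ' w} with hO
  have hOo : IsOpen O := hWoo.inter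
    (isOpen_lt (continuous_const.mul (continuous_id.sub hr).norm) hζ'c)
  have hOW : O ⊆ W0 := fun w hw => interior_subset hw.1.1
  have hOint : O ⊆ interior W0 := fun w hw => hw.1.1
  set AX : Set E := {x | x ∈ X ∧ e x ∈ A} with hAX
  have hAXcl : IsClosed AX := hX.isClosed.inter (hA.preimage hec)
  have hAXX : AX ⊆ X := fun x hx => hx.1
  have hxaAX : xa ∈ AX := ⟨hxa, by rw [hexa]; exact haA⟩
  have hAXO : ∀ x ∈ AX, x ∉ O := by
    intro x hx hxO
    have h1 : ζ' x ≤ 0 := (min_le_right _ _).trans (infDist_zero_of_mem hx.2).le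
    have h2 : 4 * ‖x - r x‖ < ζ' x := hxO.2
    have := norm_nonneg (x - r x)
    linarith
  have hXO : ∀ x ∈ X, x ∉ AX → x ∈ O := by
    intro x hx hxA
    have hxe : e x ∉ A := fun h => hxA ⟨hx, h⟩
    have hxne : x ≠ xa := fun h => hxA (h ▸ hxaAX)
    have hxWo : x ∈ Wo := by
      refine ⟨hXW hx, ?_⟩
      rw [hrX x hx, sub_self, norm_zero]
      exact norm_pos_iff.mpr (sub_ne_zero.mpr hxne)
    refine ⟨hxWo, ?_⟩
    rw [hrX x hx, sub_self, norm_zero, mul_zero]
    refine lt_min ?_ ?_
    · rw [hrX x hx]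
      have : 0 < infDist x Woᶜ :=
        (hWoo.isClosed_compl.notMem_iff_infDist_pos hWone).mp (fun h => h hxWo)
      simp only [hζ]
      linarith
    · exact (hA.notMem_iff_infDist_pos hAne).mp hxe
  obtain ⟨N, v, hN, hNO, hXN, hvN, hvne, hvc⟩ := exists_field hX hXpc hW0 hXW r hr hrW hrX hOo
    hOW hAXcl hAXX ⟨xa, hxaAX⟩ hAXO hXO
  have hNW : N ⊆ W0 := hNO.trans hOW
  have hNA : ∀ w ∈ N, w ∉ AX := fun w hw h => hAXO w h (hNO hw)
  -- the displacement
  set lam : E → ℝ := fun w => min 1 ((‖w - r w‖ + ζ' w / 2) / ‖v w‖) with hlam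
  set Φ : E → E := fun w => lam w • v w + (w - r w) with hΦ
  set F : E → E := fun w => if w ∈ N then Φ w else 0 with hF
  have hlamnn : ∀ w, 0 ≤ lam w := fun w => le_min zero_le_one (div_nonneg
    (add_nonneg (norm_nonneg _) (by linarith [hζ'nn w])) (norm_nonneg _))
  have hFle : ∀ w, ‖F w‖ ≤ ζ' w := by
    intro w
    by_cases hw : w ∈ N
    · simp only [hF, if_pos hw, hΦ]
      have h1 : ‖lam w • v w‖ ≤ ‖w - r w‖ + ζ' w / 2 := by
        rw [norm_smul, Real.norm_eq_abs, abs_of_nonneg (hlamnn w)]
        have hv : 0 < ‖v w‖ := norm_pos_iff.mpr (hvne w (hNW hw) (hNA w hw))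
        calc lam w * ‖v w‖ ≤ ((‖w - r w‖ + ζ' w / 2) / ‖v w‖) * ‖v w‖ :=
              mul_le_mul_of_nonneg_right (min_le_right _ _) hv.le
          _ = _ := div_mul_cancel₀ _ hv.ne'
      have h2 : 4 * ‖w - r w‖ < ζ' w := (hNO hw).2
      calc ‖lam w • v w + (w - r w)‖ ≤ ‖lam w • v w‖ + ‖w - r w‖ := norm_add_le _ _
        _ ≤ ζ' w := by linarith
    · simp only [hF, if_neg hw, norm_zero]
      exact hζ'nn w
  have hFne : ∀ w ∈ W0, e w ∉ A → F w ≠ w - r w := by
    intro w hw hwA h
    by_cases hwN : w ∈ N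
    · simp only [hF, if_pos hwN, hΦ] at h
      have h0 : lam w • v w = 0 := by
        have := sub_eq_zero.mpr h
        simpa using this
      rcases smul_eq_zero.mp h0 with h' | h'
      · have hpos : 0 < lam w := by
          have h2 : 4 * ‖w - r w‖ < ζ' w := (hNO hwN).2
          have h3 := norm_nonneg (w - r w)
          have hv : 0 < ‖v w‖ := norm_pos_iff.mpr (hvne w (hNW hwN) (hNA w hwN))
          exact lt_min one_pos (div_pos (by linarith) hv)
        exact hpos.ne' h'
      · exact hvne w hw (hNA w hwN) h'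
    · simp only [hF, if_neg hwN] at h
      have hrw : r w = w := (sub_eq_zero.mp h.symm).symm
      have hwX : w ∈ X := hrw ▸ hrW w hw
      exact hwN (hXN w hwX (fun h => hwA h.2))
  have hFc : Continuous F := by
    rw [continuous_iff_continuousAt]
    intro w
    by_cases hwN : w ∈ N
    · have hvc' : ContinuousAt v w :=
        (hvc w (hNW hwN) (hNA w hwN)).continuousAt
          (mem_interior_iff_mem_nhds.mp (hOint (hNO hwN)))
      have hv : ‖v w‖ ≠ 0 := norm_ne_zero_iff.mpr (hvne w (hNW hwN) (hNA w hwN))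
      have hlc : ContinuousAt lam w :=
        continuousAt_const.min ((((continuous_id.sub hr).norm.add
          (hζ'c.div_const _)).continuousAt).div hvc'.norm hv)
      have hΦc : ContinuousAt Φ w := (hlc.smul hvc').add (continuous_id.sub hr).continuousAt
      refine hΦc.congr ?_
      filter_upwards [hN.mem_nhds hwN] with y hy
      simp only [hF, if_pos hy]
    · have hFw : F w = 0 := by simp only [hF, if_neg hwN]
      rw [ContinuousAt, hFw]
      rcases eq_or_lt_of_le (hζ'nn w) with hz | hz
      · refine squeeze_zero_norm hFle ?_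
        have := hζ'c.tendsto w
        rwa [← hz] at this
      · by_cases hwW : w ∈ W0
        · have hweA : e w ∉ A := by
            intro h
            have : ζ' w ≤ 0 := (min_le_right _ _).trans (infDist_zero_of_mem h).le
            linarith
          have hwAX : w ∉ AX := fun h => hweA h.2
          have hvw := hvne w hwW hwAX
          have hvc' := hvc w hwW hwAX
          have hlc : ContinuousWithinAt lam W0 w :=
            continuousWithinAt_const.min ((((continuous_id.sub hr).norm.add
              (hζ'c.div_const _)).continuousWithinAt).div hvc'.norm (norm_ne_zero_iff.mpr hvw))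
          have hΦc : ContinuousWithinAt Φ W0 w :=
            (hlc.smul hvc').add (continuous_id.sub hr).continuousWithinAt
          have hvw0 : v w = r w - w := hvN w hwN
          have hΦw : Φ w = 0 := by
            have hn : ‖v w‖ = ‖w - r w‖ := by rw [hvw0, norm_sub_rev]
            have hpos : 0 < ‖w - r w‖ := by rw [← hn]; exact norm_pos_iff.mpr hvw
            have hl1 : lam w = 1 := by
              simp only [hlam]
              apply min_eq_left
              rw [hn, le_div_iff₀ hpos, one_mul]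
              linarith [hζ'nn w]
            simp only [hΦ, hl1, one_smul, hvw0]
            abel
          rw [Metric.tendsto_nhds]
          intro δ hδ
          have hev : ∀ᶠ y in 𝓝[W0] w, dist (Φ y) 0 < δ := by
            have := hΦc.tendsto
            rw [hΦw] at this
            exact Metric.tendsto_nhds.mp this δ hδ
          rw [eventually_nhdsWithin_iff] at hev
          filter_upwards [hev] with y hy
          by_cases hyN : y ∈ N
          · simp only [hF, if_pos hyN]
            exact hy (hNW hyN)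
          · simp only [hF, if_neg hyN, dist_self]
            exact hδ
        · have hopen : IsOpen (W0ᶜ) := hW0.isClosed.isOpen_compl
          refine tendsto_const_nhds.congr' ?_
          filter_upwards [hopen.mem_nhds hwW] with y hy
          have hyN : y ∉ N := fun h => hy (hNW h)
          simp only [hF, if_neg hyN]
  -- the map
  set b : E × E → ℝ := fun p => min (ζ p.1) (infDist p A) with hb
  have hbc : Continuous b := (hζc.comp continuous_fst).min (continuous_infDist_pt A)
  set Δ : E × E → E := fun p => tr (b p) (F (ι p)) with hΔ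
  have hΔc : Continuous Δ := continuous_tr.comp (hbc.prodMk (hFc.comp hιc))
  set T : E × E → ℝ := fun p => min 1 (infDist p A) with hT
  have hTc : Continuous T := continuous_const.min (continuous_infDist_pt A)
  have hT0 : ∀ p, 0 ≤ T p := fun p => le_min zero_le_one infDist_nonneg
  have hT1 : ∀ p, T p ≤ 1 := fun p => min_le_left _ _
  set f : E × E → E × E := fun p =>
    (r (p.1 + Δ p), (1 - T p) • p.2 + T p • ρ (p.1 + Δ p)) with hf
  have hG : Continuous fun p : E × E => p.1 + Δ p := continuous_fst.add hΔc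
  have hfc : Continuous f := (hr.comp hG).prodMk
    (((continuous_const.sub hTc).smul continuous_snd).add (hTc.smul (hρc.comp hG)))
  have hbnn : ∀ p, 0 ≤ b p := fun p => le_min (hζnn _) infDist_nonneg
  have hwW : ∀ p ∈ X ×ˢ Y, p.1 + Δ p ∈ W0 ∧
      ‖(p.1 + Δ p) - r (p.1 + Δ p)‖ ≤ ‖r (p.1 + Δ p) - xa‖ := by
    rintro ⟨x, s⟩ ⟨hx, hs⟩
    simp only
    have hΔle : ‖Δ (x, s)‖ ≤ (1 / 2) * infDist x Woᶜ := by
      have h1 := norm_tr_le' (b (x, s)) (F (ι (x, s)))
      rw [max_eq_right (hbnn _)] at h1
      exact h1.trans (min_le_left _ _)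
    by_cases h : x + Δ (x, s) ∈ Wo
    · exact ⟨interior_subset h.1, h.2.le⟩
    · have h1 : infDist x Woᶜ ≤ dist x (x + Δ (x, s)) := infDist_le_dist_of_mem h
      rw [dist_eq_norm, sub_add_cancel_left, norm_neg] at h1
      have h2 : infDist x Woᶜ ≤ 0 := by linarith
      have h3 : ‖Δ (x, s)‖ ≤ 0 := by linarith
      have h4 : Δ (x, s) = 0 := norm_le_zero_iff.mp h3
      rw [h4, add_zero, hrX x hx, sub_self, norm_zero]
      exact ⟨hXW0 hx, norm_nonneg _⟩
  refine ⟨f, hfc, ?_, ?_⟩
  · intro p hp
    obtain ⟨h1, h2⟩ := hwW p hp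
    refine ⟨hrW _ h1, ?_⟩
    exact hY hp.2 (hρY _ h1 h2) (by linarith [hT1 p]) (hT0 p) (by ring)
  · intro p hp
    constructor
    · intro hfp
      by_contra hpA
      have hTpos : 0 < T p := lt_min one_pos ((hA.notMem_iff_infDist_pos hAne).mp hpA)
      set w : E := p.1 + Δ p with hw
      have h1 : r w = p.1 := congrArg Prod.fst hfp
      have h2 : (1 - T p) • p.2 + T p • ρ w = p.2 := congrArg Prod.snd hfp
      have h3 : ρ w = p.2 := by
        have : T p • (ρ w - p.2) = 0 := by
          rw [smul_sub, sub_eq_zero]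
          have h4 : T p • ρ w = p.2 - (1 - T p) • p.2 := eq_sub_of_add_eq' h2
          rw [h4, sub_smul, one_smul]
          abel
        rcases smul_eq_zero.mp this with h | h
        · exact absurd h hTpos.ne'
        · exact sub_eq_zero.mp h
      have hep : e w = p := Prod.ext h1 h3
      have hιp : ι p = w := by rw [← hep, hιe]
      have hbp : b p = ζ' w := by
        simp only [hb, hζ']
        rw [← hep]
      have hΔp : Δ p = F w := by
        simp only [hΔ]
        rw [hιp, hbp]
        exact tr_eq (hFle w)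
      obtain ⟨hwW0, -⟩ := hwW p hp
      refine hFne w hwW0 (by rw [hep]; exact hpA) ?_
      have : w = r w + F w := by rw [h1, ← hΔp]
      rw [eq_sub_iff_add_eq, add_comm]
      exact this.symm
    · intro hpA
      have hi : infDist p A = 0 := infDist_zero_of_mem hpA
      have hTp : T p = 0 := by
        simp only [hT, hi]
        exact min_eq_right zero_le_one
      have hbp : b p = 0 := by
        simp only [hb, hi]
        exact min_eq_right (hζnn _)
      have hΔp : Δ p = 0 := by
        have h1 := norm_tr_le' (b p) (F (ι p))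
        rw [hbp, max_self] at h1
        simp only [hΔ]
        rw [hbp]
        exact norm_le_zero_iff.mp h1
      simp only [hf, hTp, hΔp, add_zero, sub_zero, one_smul, zero_smul, hrX p.1 hp.1]

end Pool.Agent.Run7.h118
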