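import Mathlib
import Pool.Agent.Run7.h118.Base

set_option autoImplicit false

open Set Filter Topology

namespace Pool.Agent.Run7.h118

/-- Extension of a homotopy given on a closed subset of a compact ANR. -/
theorem total_extension {X U : Set (ℕ → unitInterval)} (hX : IsClosed X) (hU : IsOpen U)
    (hXU : X ⊆ U) {r : (ℕ → unitInterval) → (ℕ → unitInterval)} (hr : ContinuousOn r U)
    (hm : MapsTo r U X) (hid : ∀ x ∈ X, r x = x) {A : Set X} (hA : IsClosed A)
    (F : X → X) (hF : Continuous F) (K : C(A × unitInterval, X)) (hK1 : ∀ b : A, K (b, 1) = F b) :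
    ∃ k : X → ℝ → X, Continuous (fun p : X × ℝ => k p.1 p.2) ∧
      (∀ b : A, ∀ s : unitInterval, k b s = K (b, s)) ∧ ∀ x, k x 1 = F x := by
  classical
  have : CompactSpace X := isCompact_iff_compactSpace.mp hX.isCompact
  set e : X × unitInterval → (ℕ → unitInterval) := fun p =>
    if h : p.1 ∈ A then (K (⟨p.1, h⟩, p.2) : ℕ → unitInterval) else F p.1 with he
  set E : Set (X × unitInterval) := (A ×ˢ univ) ∪ (univ ×ˢ {1}) with hE
  have hEc : IsClosed E := (hA.prod isClosed_univ).union (isClosed_univ.prod isClosed_singleton)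
  have he1 : ContinuousOn e (A ×ˢ univ) := by
    rw [continuousOn_iff_continuous_domRestrict]
    have hmap : Continuous fun p : (A ×ˢ (univ : Set unitInterval) : Set (X × unitInterval)) =>
        ((⟨p.1.1, p.2.1⟩ : A), p.1.2) :=
      (Continuous.subtype_mk (continuous_fst.comp continuous_subtype_val) _).prodMk
        (continuous_snd.comp continuous_subtype_val)
    have := continuous_subtype_val.comp (K.continuous.comp hmap)
    convert this using 1
    ext p
    have hp : p.1.1 ∈ A := p.2.1
    show (e p.1 _ : ℝ) = _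
    simp only [he, dif_pos hp]
    rfl
  have he2 : ContinuousOn e (univ ×ˢ {1}) := by
    have : ContinuousOn (fun p : X × unitInterval => (F p.1 : ℕ → unitInterval))
        (univ ×ˢ {1}) := (continuous_subtype_val.comp (hF.comp continuous_fst)).continuousOn
    refine this.congr ?_
    rintro ⟨x, t⟩ ⟨_, ht⟩
    rw [mem_singleton_iff] at ht
    simp only at ht
    simp only [he, ht]
    split_ifs with h
    · rw [hK1]
    · rfl
  have heE : ContinuousOn e E :=
    he1.union_of_isClosed he2 (hA.prod isClosed_univ) (isClosed_univ.prod isClosed_singleton)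
  obtain ⟨g, hg⟩ := ContinuousMap.exists_restrict_eq hEc ⟨E.domRestrict e,
    continuousOn_iff_continuous_domRestrict.mp heE⟩
  have hgE : ∀ p ∈ E, g p = e p := by
    intro p hp
    have := congrArg (fun φ : C(E, ℕ → unitInterval) => φ ⟨p, hp⟩) hg
    exact this
  have hgA : ∀ (b : A) (s : unitInterval), g ((b : X), s) = K (b, s) := by
    intro b s
    rw [hgE _ (Or.inl ⟨b.2, mem_univ _⟩)]
    simp only [he, dif_pos b.2]
  have hg1 : ∀ x : X, g (x, 1) = F x := by
    intro x
    have hx1 : (x, (1 : unitInterval)) ∈ E := Or.inr ⟨mem_univ _, mem_singleton _⟩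
    rw [hgE _ hx1]
    simp only [he]
    split_ifs with h
    · rw [hK1]
    · rfl
  set N : Set X := {x | ∀ s : unitInterval, g (x, s) ∈ U} with hN
  have hNopen : IsOpen N := by
    rw [isOpen_iff_mem_nhds]
    intro x hx
    have hev : ∀ᶠ y in 𝓝 x, ∀ s ∈ (univ : Set unitInterval), g (y, s) ∈ U := by
      apply isCompact_univ.eventually_forall_of_forall_eventually
      intro s _
      exact (hU.preimage g.continuous).mem_nhds (hx s)
    filter_upwards [hev] with y hy s
    exact hy s (mem_univ _)
  have hAN : A ⊆ N := by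
    intro x hx s
    rw [hgA ⟨x, hx⟩ s]
    exact hXU (K (⟨x, hx⟩, s)).2
  obtain ⟨ν, hν0, hν1, hνI⟩ := exists_continuous_zero_one_of_isClosed hA hNopen.isClosed_compl
    (disjoint_compl_right_iff_subset.mpr hAN)
  set σ : X × ℝ → unitInterval := fun p => ⟨max (clamp p.2) (ν p.1),
    le_max_of_le_left (clamp_mem _).1, max_le (clamp_mem _).2 (hνI _).2⟩ with hσ
  have hσc : Continuous σ := Continuous.subtype_mk
    ((continuous_clamp.comp continuous_snd).max (ν.continuous.comp continuous_fst)) _
  have hmem : ∀ p : X × ℝ, g (p.1, σ p) ∈ U := by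
    intro p
    by_cases h : p.1 ∈ N
    · exact h _
    · have h1 : ν p.1 = 1 := hν1 h
      have : σ p = 1 := by
        apply Subtype.ext
        simp only [hσ, h1]
        exact max_eq_right (clamp_mem _).2
      rw [this, hg1]
      exact hXU (F p.1).2
  refine ⟨fun x s => ⟨r (g (x, σ (x, s))), hm (hmem (x, s))⟩, ?_, ?_, ?_⟩
  · refine Continuous.subtype_mk ?_ _
    exact hr.comp_continuous (g.continuous.comp (continuous_fst.prodMk hσc)) hmem
  · intro b s
    apply Subtype.ext
    have hs : σ ((b : X), (s : ℝ)) = s := by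
      apply Subtype.ext
      have : ν (b : X) = 0 := hν0 b.2
      simp only [hσ, this, clamp_eq s.2]
      exact max_eq_left s.2.1
    simp only [hs, hgA]
    exact hid _ (K (b, s)).2
  · intro x
    apply Subtype.ext
    have hs : σ (x, (1 : ℝ)) = 1 := by
      apply Subtype.ext
      simp only [hσ, clamp_eq (⟨zero_le_one, le_rfl⟩ : (1 : ℝ) ∈ Icc (0 : ℝ) 1)]
      exact max_eq_left (hνI _).2
    simp only [hs, hg1]
    exact hid _ (F x).2

end Pool.Agent.Run7.h118
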