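import Mathlib
import Pool.Agent.Run7.h118.Base

set_option autoImplicit false

open Set Filter Topology

namespace Pool.Agent.Run7.h118

/-- Baire category perturbation: if the part of `A` outside `B` is thin, a homotopy relative to `B`
can be perturbed so that no point of `A \ B` is ever mapped to itself at intermediate times. -/
theorem thin_homotopy {X : Type*} [MetricSpace X] [CompactSpace X] {O : Set (X × X)}
    {l : X → X → ℝ → X} (hO : IsOpen O) (hdiag : ∀ p, (p, p) ∈ O)
    (hl : ContinuousOn (fun z : (X × X) × ℝ => l z.1.1 z.1.2 z.2) (O ×ˢ univ))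
    (hl0 : ∀ p q, l p q 0 = p) (hl1 : ∀ p q, (p, q) ∈ O → l p q 1 = q) (hls : ∀ p s, l p p s = p)
    {A B : Set X} (hA : IsClosed A) (hB : IsClosed B) (F : X → X)
    (K0 : C(A × unitInterval, X))
    (h00 : ∀ b : A, K0 (b, 0) = b) (h01 : ∀ b : A, K0 (b, 1) = F b)
    (h0B : ∀ b : A, (b : X) ∈ B → ∀ t, K0 (b, t) = b)
    (hthin : ∀ C : Set X, IsClosed C → C ⊆ A \ B → ∀ L : X × unitInterval → X,
      ContinuousOn L (C ×ˢ univ) → ∀ N : Set (X × X), IsOpen N → (∀ p, (p, p) ∈ N) →
      ∃ L' : X × unitInterval → X, ContinuousOn L' (C ×ˢ univ) ∧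
        (∀ p ∈ C ×ˢ (univ : Set unitInterval), (L p, L' p) ∈ N) ∧ ∀ c ∈ C, ∀ t, L' (c, t) ≠ c) :
    ∃ K : C(A × unitInterval, X), (∀ b : A, K (b, 0) = b) ∧ (∀ b : A, K (b, 1) = F b) ∧
      (∀ b : A, (b : X) ∈ B → ∀ t, K (b, t) = b) ∧
      ∀ b : A, (b : X) ∉ B → ∀ t : unitInterval, t ≠ 0 → t ≠ 1 → K (b, t) ≠ b := by
  classical
  have : CompactSpace A := isCompact_iff_compactSpace.mp hA.isCompact
  -- a function vanishing exactly on `B`
  obtain ⟨v, hvc, hv0, hvB⟩ : ∃ v : X → ℝ, Continuous v ∧ (∀ x, 0 ≤ v x) ∧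
      ∀ x, v x = 0 ↔ x ∈ B := by
    rcases B.eq_empty_or_nonempty with h | h
    · refine ⟨fun _ => 1, continuous_const, fun _ => zero_le_one, fun x => ?_⟩
      simp [h]
    · exact ⟨fun x => Metric.infDist x B, Metric.continuous_infDist_pt B,
        fun x => Metric.infDist_nonneg, fun x => (hB.mem_iff_infDist_zero h).symm⟩
  set w : A × unitInterval → ℝ := fun p => min (v p.1) (min (p.2 : ℝ) (1 - (p.2 : ℝ))) with hw
  have hwc : Continuous w := (hvc.comp (continuous_subtype_val.comp continuous_fst)).min
    ((continuous_subtype_val.comp continuous_snd).min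
      (continuous_const.sub (continuous_subtype_val.comp continuous_snd)))
  -- the space of admissible homotopies
  set M : Set C(A × unitInterval, X) := {K | (∀ b : A, K (b, 0) = b) ∧ (∀ b : A, K (b, 1) = F b) ∧
      ∀ b : A, (b : X) ∈ B → ∀ t, K (b, t) = b} with hM
  have hMcl : IsClosed M := by
    have e : ∀ p : A × unitInterval, Continuous fun K : C(A × unitInterval, X) => K p :=
      fun p => continuous_eval_const p
    have i1 : IsClosed {K : C(A × unitInterval, X) | ∀ b : A, K (b, 0) = b} := by
      simp only [ofPred_forall]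
      exact isClosed_iInter fun b => isClosed_eq (e _) continuous_const
    have i2 : IsClosed {K : C(A × unitInterval, X) | ∀ b : A, K (b, 1) = F b} := by
      simp only [ofPred_forall]
      exact isClosed_iInter fun b => isClosed_eq (e _) continuous_const
    have i3 : IsClosed {K : C(A × unitInterval, X) | ∀ b : A, (b : X) ∈ B → ∀ t, K (b, t) = b} := by
      simp only [ofPred_forall]
      exact isClosed_iInter fun b => isClosed_iInter fun _ => isClosed_iInter fun t =>
        isClosed_eq (e _) continuous_const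
    exact i1.inter (i2.inter i3)
  have hK0M : K0 ∈ M := ⟨h00, h01, h0B⟩
  have : CompleteSpace M := hMcl.isComplete.completeSpace_coe
  have hρ : ∀ n : ℕ, (0 : ℝ) < 1 / ((n : ℝ) + 1) := fun n => by positivity
  set W : ℕ → Set M := fun n => {K | ∀ p : A × unitInterval, 1 / ((n : ℝ) + 1) ≤ w p →
    (K : C(A × unitInterval, X)) p ≠ p.1} with hW
  have hWopen : ∀ n, IsOpen (W n) := by
    intro n
    rw [Metric.isOpen_iff]
    intro K hK
    set Cn : Set (A × unitInterval) := {p | 1 / ((n : ℝ) + 1) ≤ w p} with hCn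
    have hCnc : IsCompact Cn := (isClosed_le continuous_const hwc).isCompact
    rcases Cn.eq_empty_or_nonempty with he | hne
    · refine ⟨1, one_pos, fun K' _ p hp => ?_⟩
      have : p ∈ Cn := hp
      rw [he] at this
      exact absurd this (notMem_empty p)
    · have hdc : Continuous fun p : A × unitInterval =>
          dist ((K : C(A × unitInterval, X)) p) (p.1 : X) :=
        (K : C(A × unitInterval, X)).continuous.dist (continuous_subtype_val.comp continuous_fst)
      obtain ⟨p0, hp0, hmin⟩ := hCnc.exists_isMinOn hne hdc.continuousOn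
      refine ⟨dist ((K : C(A × unitInterval, X)) p0) (p0.1 : X), dist_pos.mpr (hK p0 hp0), ?_⟩
      intro K' hK' p hp heq
      have h1 : dist ((K' : C(A × unitInterval, X)) p) ((K : C(A × unitInterval, X)) p) <
          dist ((K : C(A × unitInterval, X)) p0) (p0.1 : X) :=
        (ContinuousMap.dist_apply_le_dist p).trans_lt hK'
      have h2 : dist ((K : C(A × unitInterval, X)) p0) (p0.1 : X) ≤
          dist ((K : C(A × unitInterval, X)) p) (p.1 : X) := hmin hp
      rw [heq, dist_comm] at h1
      linarith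
  have hWdense : ∀ n, Dense (W n) := by
    intro n
    rw [Metric.dense_iff]
    rintro ⟨K, hKM⟩ ε hε
    obtain ⟨hK0, hK1, hKB⟩ := hKM
    set ρ : ℝ := 1 / ((n : ℝ) + 1) with hρn
    have hρpos : 0 < ρ := hρ n
    set C : Set X := {x | x ∈ A ∧ ρ / 2 ≤ v x} with hC
    have hCcl : IsClosed C := hA.inter (isClosed_le continuous_const hvc)
    have hCAB : C ⊆ A \ B := by
      rintro x ⟨hxA, hx⟩
      refine ⟨hxA, fun hxB => ?_⟩
      rw [(hvB x).mpr hxB] at hx
      linarith
    set N : Set (X × X) := {z | z ∈ O ∧ ∀ s ∈ Icc (0 : ℝ) 1, dist (l z.1 z.2 s) z.1 < ε} with hN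
    have hNopen : IsOpen N := by
      rw [isOpen_iff_mem_nhds]
      rintro z ⟨hzO, hz⟩
      have hev : ∀ᶠ y in 𝓝 z, ∀ s ∈ Icc (0 : ℝ) 1, dist (l y.1 y.2 s) y.1 < ε := by
        apply isCompact_Icc.eventually_forall_of_forall_eventually
        intro s hs
        have hca : ContinuousAt (fun z : (X × X) × ℝ => l z.1.1 z.1.2 z.2) (z, s) :=
          hl.continuousAt ((hO.prod isOpen_univ).mem_nhds ⟨hzO, mem_univ _⟩)
        have hcd : ContinuousAt (fun z : (X × X) × ℝ => dist (l z.1.1 z.1.2 z.2) z.1.1) (z, s) :=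
          hca.dist (continuous_fst.comp continuous_fst).continuousAt
        exact hcd.eventually (gt_mem_nhds (hz s hs))
      filter_upwards [hO.mem_nhds hzO, hev] with y hy1 hy2
      exact ⟨hy1, hy2⟩
    have hNdiag : ∀ p, (p, p) ∈ N := fun p => ⟨hdiag p, fun s _ => by
      simp only
      rw [hls, dist_self]
      exact hε⟩
    set L : X × unitInterval → X := fun p => if h : p.1 ∈ A then K (⟨p.1, h⟩, p.2) else p.1 with hL
    have hLc : ContinuousOn L (C ×ˢ univ) := by
      have hLA : ContinuousOn L (A ×ˢ univ) := by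
        rw [continuousOn_iff_continuous_domRestrict]
        have hmap : Continuous fun p : (A ×ˢ (univ : Set unitInterval) : Set (X × unitInterval)) =>
            ((⟨p.1.1, p.2.1⟩ : A), p.1.2) :=
          (Continuous.subtype_mk (continuous_fst.comp continuous_subtype_val) _).prodMk
            (continuous_snd.comp continuous_subtype_val)
        have := K.continuous.comp hmap
        convert this using 1
        ext p
        have hp : p.1.1 ∈ A := p.2.1
        show L p.1 = _
        simp only [hL, dif_pos hp]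
        rfl
      exact hLA.mono (prod_mono (fun x hx => hx.1) subset_rfl)
    obtain ⟨L', hL'c, hL'N, hL'ne⟩ := hthin C hCcl hCAB L hLc N hNopen hNdiag
    set θ : A × unitInterval → ℝ := fun p => clamp ((w p - ρ / 2) / (ρ / 2)) with hθ
    have hθc : Continuous θ :=
      continuous_clamp.comp ((hwc.sub continuous_const).div_const _)
    have hθ0 : ∀ p, w p ≤ ρ / 2 → θ p = 0 := by
      intro p hp
      simp only [hθ, clamp]
      apply max_eq_left
      apply (min_le_right _ _).trans
      exact div_nonpos_of_nonpos_of_nonneg (by linarith) (by linarith)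
    have hθ1 : ∀ p, ρ ≤ w p → θ p = 1 := by
      intro p hp
      simp only [hθ, clamp]
      have : 1 ≤ (w p - ρ / 2) / (ρ / 2) := by
        rw [le_div_iff₀ (by linarith)]
        linarith
      rw [min_eq_left this, max_eq_right zero_le_one]
    have hLval : ∀ p : A × unitInterval, L ((p.1 : X), p.2) = K p := by
      intro p
      simp only [hL, dif_pos p.1.2]
    have hNmem : ∀ p : A × unitInterval, ρ / 2 ≤ v p.1 → (K p, L' ((p.1 : X), p.2)) ∈ N := by
      intro p hp
      have := hL'N ((p.1 : X), p.2) ⟨⟨p.1.2, hp⟩, mem_univ _⟩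
      rwa [hLval] at this
    set K' : A × unitInterval → X := fun p =>
      if ρ / 2 ≤ v p.1 then l (K p) (L' ((p.1 : X), p.2)) (θ p) else K p with hK'
    have hK'c : Continuous K' := by
      refine continuous_if_le continuous_const
        (hvc.comp (continuous_subtype_val.comp continuous_fst)) ?_ K.continuous.continuousOn ?_
      · have hin : ContinuousOn (fun p : A × unitInterval =>
            (((K p, L' ((p.1 : X), p.2)), θ p) : (X × X) × ℝ)) {p | ρ / 2 ≤ v p.1} := by
          refine (K.continuous.continuousOn.prodMk ?_).prodMk hθc.continuousOn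
          refine hL'c.comp (((continuous_subtype_val.comp continuous_fst).prodMk
            continuous_snd).continuousOn) ?_
          intro p hp
          exact ⟨⟨p.1.2, hp⟩, mem_univ _⟩
        exact hl.comp hin (fun p hp => ⟨(hNmem p hp).1, mem_univ _⟩)
      · intro p hp
        have : w p ≤ ρ / 2 := by
          rw [hp]
          exact min_le_left _ _
        rw [hθ0 p this, hl0]
    have hK'eq : ∀ p, w p ≤ ρ / 2 → K' p = K p := by
      intro p hp
      simp only [hK']
      split_ifs
      · rw [hθ0 p hp, hl0]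
      · rfl
    refine ⟨⟨⟨K', hK'c⟩, ?_, ?_, ?_⟩, ?_, ?_⟩
    · intro b
      show K' (b, 0) = b
      rw [hK'eq, hK0]
      have : w (b, 0) ≤ 0 := (min_le_right _ _).trans ((min_le_left _ _).trans (by simp))
      linarith
    · intro b
      show K' (b, 1) = F b
      rw [hK'eq, hK1]
      have : w (b, 1) ≤ 0 := (min_le_right _ _).trans ((min_le_right _ _).trans (by simp))
      linarith
    · intro b hb t
      show K' (b, t) = b
      rw [hK'eq, hKB b hb]
      have : w (b, t) ≤ 0 := (min_le_left _ _).trans (by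
        have := (hvB (b : X)).mpr hb
        exact this.le)
      linarith
    · rw [Metric.mem_ball]
      show dist (⟨K', hK'c⟩ : C(A × unitInterval, X)) K < ε
      rw [ContinuousMap.dist_lt_iff hε]
      intro p
      show dist (K' p) (K p) < ε
      simp only [hK']
      split_ifs with h
      · exact (hNmem p h).2 _ (clamp_mem _)
      · rw [dist_self]; exact hε
    · intro p hp
      show K' p ≠ p.1
      have hvp : ρ / 2 ≤ v p.1 := by
        have : ρ ≤ v p.1 := hp.trans (min_le_left _ _)
        linarith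
      simp only [hK']
      rw [if_pos hvp, hθ1 p hp, hl1 _ _ (hNmem p hvp).1]
      exact hL'ne p.1 ⟨p.1.2, hvp⟩ p.2
  have hD := dense_iInter_of_isOpen_nat hWopen hWdense
  have : Nonempty M := ⟨⟨K0, hK0M⟩⟩
  obtain ⟨⟨K, hKM⟩, hK⟩ := hD.nonempty
  refine ⟨K, hKM.1, hKM.2.1, hKM.2.2, fun b hb t ht0 ht1 => ?_⟩
  have hwpos : 0 < w (b, t) := by
    have hvpos : 0 < v b := lt_of_le_of_ne (hv0 _) (fun h => hb ((hvB _).mp h.symm))
    have ht0' : (0 : ℝ) < t := lt_of_le_of_ne t.2.1 (fun h => ht0 (Subtype.ext h.symm))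
    have ht1' : (t : ℝ) < 1 := lt_of_le_of_ne t.2.2 (fun h => ht1 (Subtype.ext h))
    exact lt_min hvpos (lt_min ht0' (by linarith))
  obtain ⟨n, hn⟩ := exists_nat_one_div_lt hwpos
  exact (mem_iInter.mp hK n) (b, t) hn.le

end Pool.Agent.Run7.h118
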