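import Pool.Agent.Run7.h118.TDEnv

set_option autoImplicit false

open Set Filter Topology

/-! Plane domains which meet every vertical line in an interval: the approximating data. -/

namespace Pool.Agent.Run7.h118.TG.Loc

open Pool.Agent.Run7.h118.TG

variable {D : Set ℂ} {B : ℝ}

/-- The reflected set. -/
def rf (D : Set ℂ) : Set ℂ := {z | (⟨z.re, -z.im⟩ : ℂ) ∈ D}

/-- The lower envelope. -/
noncomputable def dn (D : Set ℂ) (k x : ℝ) : ℝ := -up (rf D) k x

theorem cont_refl : Continuous (fun z : ℂ => (⟨z.re, -z.im⟩ : ℂ)) :=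
  cont_mk Complex.continuous_re Complex.continuous_im.neg

theorem mem_rf {x y : ℝ} : (⟨x, y⟩ : ℂ) ∈ rf D ↔ (⟨x, -y⟩ : ℂ) ∈ D := Iff.rfl

theorem Nd.rf (h : Nd D B) : Nd (rf D) B where
  op := h.op.preimage cont_refl
  bd z hz := by
    have := h.bd _ hz
    simpa using this
  strip z hz := h.strip (⟨z.re, -z.im⟩ : ℂ) hz
  sec x h0 h1 := by
    obtain ⟨y, hy⟩ := h.sec x h0 h1
    exact ⟨-y, by rw [mem_rf, neg_neg]; exact hy⟩
  conv x y1 y2 y h1 h2 h3 h4 := h.conv x (-y2) (-y1) (-y) h2 h1 (by linarith) (by linarith)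

theorem refl_refl (z : ℂ) : (⟨(⟨z.re, -z.im⟩ : ℂ).re, -(⟨z.re, -z.im⟩ : ℂ).im⟩ : ℂ) = z := by
  apply Complex.ext <;> simp

theorem rf_rf : Loc.rf (Loc.rf D) = D := by
  ext z
  show (⟨(⟨z.re, -z.im⟩ : ℂ).re, -(⟨z.re, -z.im⟩ : ℂ).im⟩ : ℂ) ∈ D ↔ z ∈ D
  rw [refl_refl]

theorem closure_rf {z : ℂ} (hz : z ∈ closure (Loc.rf D)) : (⟨z.re, -z.im⟩ : ℂ) ∈ closure D :=
  map_mem_closure (f := fun z : ℂ => (⟨z.re, -z.im⟩ : ℂ)) cont_refl hz fun _ h => h

theorem frontier_rf (h : Nd D B) {z : ℂ} (hz : z ∈ frontier (Loc.rf D)) :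
    (⟨z.re, -z.im⟩ : ℂ) ∈ frontier D := by
  rw [h.rf.op.frontier_eq] at hz
  rw [h.op.frontier_eq]
  exact ⟨closure_rf hz.1, hz.2⟩

theorem dist_refl (z w : ℂ) : dist (⟨z.re, -z.im⟩ : ℂ) (⟨w.re, -w.im⟩ : ℂ) = dist z w := by
  rw [Complex.dist_eq, Complex.dist_eq, Complex.norm_eq_sqrt_sq_add_sq,
    Complex.norm_eq_sqrt_sq_add_sq]
  congr 1
  simp only [Complex.sub_re, Complex.sub_im]
  ring

theorem Nd.infDist_rf (h : Nd D B) (hne : (frontier (Loc.rf D)).Nonempty) (z : ℂ) :
    Metric.infDist (⟨z.re, -z.im⟩ : ℂ) (frontier D) ≤ Metric.infDist z (frontier (Loc.rf D)) := by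
  refine le_of_forall_pos_le_add fun ε hε => ?_
  obtain ⟨w, hw, hd⟩ := (Metric.infDist_lt_iff hne).1
    (show Metric.infDist z (frontier (Loc.rf D)) < Metric.infDist z (frontier (Loc.rf D)) + ε by
      linarith)
  refine (Metric.infDist_le_dist_of_mem (frontier_rf h hw)).trans ?_
  rw [dist_refl]
  exact hd.le

theorem Nd.front_ne (h : Nd D B) : (frontier D).Nonempty := by
  obtain ⟨y, hy⟩ := h.sec (1 / 2) (by norm_num) (by norm_num)
  obtain ⟨s, -, hs⟩ := front_hor h.op hy (t := 2) (fun h1 => by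
    have := (h.strip _ h1).2
    simp only at this
    linarith)
  exact ⟨_, hs⟩

theorem Nd.dn_le (h : Nd D B) {k : ℝ} (hk : 0 ≤ k) (x : ℝ) : dn D k x ≤ B := by
  have := h.rf.up_ge hk x
  unfold dn
  linarith

theorem Nd.dn_ge (h : Nd D B) {k : ℝ} (hk : 0 ≤ k) {x : ℝ} (h0 : 0 < x) (h1 : x < 1) :
    -B ≤ dn D k x := by
  have h2 := h.rf.up_le_top hk h0 h1
  have h3 := h.rf.top_le h0 h1
  unfold dn
  linarith

theorem Nd.up_le_B (h : Nd D B) {k : ℝ} (hk : 0 ≤ k) {x : ℝ} (h0 : 0 < x) (h1 : x < 1) :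
    up D k x ≤ B := (h.up_le_top hk h0 h1).trans (h.top_le h0 h1)

theorem Nd.dn_cont (h : Nd D B) {k : ℝ} (hk : 0 ≤ k) : Continuous (dn D k) :=
  (h.rf.up_cont hk).neg

/-- A point between the envelopes belongs to the domain. -/
theorem Nd.between (h : Nd D B) {k x y : ℝ} (hk : 0 ≤ k) (h0 : 0 < x) (h1 : x < 1)
    (h2 : dn D k x < y) (h3 : y < up D k x) : (⟨x, y⟩ : ℂ) ∈ D := by
  obtain ⟨y0, hy0⟩ := h.sec x h0 h1
  rcases le_total y0 y with h4 | h4
  · exact h.mem_of hy0 h4 (lt_of_lt_of_le h3 (h.up_le_top hk h0 h1))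
  · have h5 : (⟨x, -y⟩ : ℂ) ∈ Loc.rf D := by
      refine h.rf.mem_of (y0 := -y0) (by rw [mem_rf, neg_neg]; exact hy0) (by linarith) ?_
      refine lt_of_lt_of_le ?_ (h.rf.up_le_top hk h0 h1)
      unfold dn at h2
      linarith
    rw [mem_rf, neg_neg] at h5
    exact h5

theorem Nd.between_cl (h : Nd D B) {k x y : ℝ} (hk : 0 ≤ k) (h0 : 0 < x) (h1 : x < 1)
    (hlt : dn D k x < up D k x) (h2 : dn D k x ≤ y) (h3 : y ≤ up D k x) :
    (⟨x, y⟩ : ℂ) ∈ closure D := by
  have h4 : y ∈ closure (Ioo (dn D k x) (up D k x)) := by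
    rw [closure_Ioo hlt.ne]; exact ⟨h2, h3⟩
  exact map_mem_closure (cont_vert x) h4 fun s hs => h.between hk h0 h1 hs.1 hs.2

theorem Nd.near_up (h : Nd D B) {k x : ℝ} (hk : 1 ≤ k) (h0 : 0 < x) (h1 : x < 1)
    (hlt : dn D k x < up D k x) :
    Metric.infDist (⟨x, up D k x⟩ : ℂ) (frontier D) ≤ (2 * B + 2) / k :=
  h.up_near hk h0 h1 (h.between (k := k) (y := (dn D k x + up D k x) / 2) (by linarith) h0 h1
    (by linarith) (by linarith)) (by linarith)

theorem Nd.near_dn (h : Nd D B) {k x : ℝ} (hk : 1 ≤ k) (h0 : 0 < x) (h1 : x < 1)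
    (hlt : dn D k x < up D k x) :
    Metric.infDist (⟨x, dn D k x⟩ : ℂ) (frontier D) ≤ (2 * B + 2) / k := by
  have h2 := h.between (k := k) (y := (dn D k x + up D k x) / 2) (by linarith) h0 h1
    (by linarith) (by linarith)
  have h3 := h.rf.up_near hk h0 h1 (y0 := -((dn D k x + up D k x) / 2))
    (by rw [mem_rf, neg_neg]; exact h2) (by unfold dn at hlt ⊢; linarith)
  exact (h.infDist_rf h.rf.front_ne ⟨x, up (Loc.rf D) k x⟩).trans h3

/-- The envelopes are uniformly separated away from the ends. -/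
theorem Nd.gap (h : Nd D B) {ρ : ℝ} (hρ : 0 < ρ) :
    ∃ k1 > 0, ∃ η > 0, ∀ k, k1 ≤ k → ∀ a ∈ Icc ρ (1 - ρ), ∀ b ∈ Icc ρ (1 - ρ), |a - b| ≤ η →
      η ≤ up D k b - dn D k a := by
  have hcomp : IsCompact (Icc ρ (1 - ρ)) := isCompact_Icc
  have hcov : ∃ n : ℕ, Icc ρ (1 - ρ) ⊆ {x : ℝ | 0 < up D n x - dn D n x} := by
    refine hcomp.elim_directed_cover (fun n : ℕ => {x : ℝ | 0 < up D n x - dn D n x}) ?_ ?_ ?_
    · intro n
      exact isOpen_lt continuous_const
        ((h.up_cont (Nat.cast_nonneg n)).sub (h.dn_cont (Nat.cast_nonneg n)))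
    · intro x hx
      obtain ⟨y, hy⟩ := h.sec x (by linarith [hx.1]) (by linarith [hx.2])
      obtain ⟨k1, hk1, hu⟩ := h.up_large hy
      obtain ⟨k2, hk2, hd⟩ := h.rf.up_large (x := x) (y := -y) (by rw [mem_rf, neg_neg]; exact hy)
      obtain ⟨n, hn⟩ := exists_nat_ge (max k1 k2)
      have e1 := h.up_mono hk1.le ((le_max_left k1 k2).trans hn) x
      have e2 := h.rf.up_mono hk2.le ((le_max_right k1 k2).trans hn) x
      refine mem_iUnion.2 ⟨n, ?_⟩
      show 0 < up D n x - dn D n x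
      unfold dn
      linarith
    · intro i j
      refine ⟨max i j, fun x hx => ?_, fun x hx => ?_⟩
      · have hi : ((i : ℕ) : ℝ) ≤ ((max i j : ℕ) : ℝ) := by exact_mod_cast le_max_left i j
        have e1 := h.up_mono (Nat.cast_nonneg i) hi x
        have e2 := h.rf.up_mono (Nat.cast_nonneg i) hi x
        change 0 < up D i x - dn D i x at hx
        show 0 < up D (max i j : ℕ) x - dn D (max i j : ℕ) x
        unfold dn at hx ⊢
        linarith
      · have hj : ((j : ℕ) : ℝ) ≤ ((max i j : ℕ) : ℝ) := by exact_mod_cast le_max_right i j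
        have e1 := h.up_mono (Nat.cast_nonneg j) hj x
        have e2 := h.rf.up_mono (Nat.cast_nonneg j) hj x
        change 0 < up D j x - dn D j x at hx
        show 0 < up D (max i j : ℕ) x - dn D (max i j : ℕ) x
        unfold dn at hx ⊢
        linarith
  obtain ⟨n, hn⟩ := hcov
  have hn0 : (0:ℝ) ≤ n := Nat.cast_nonneg n
  rcases (Icc ρ (1 - ρ)).eq_empty_or_nonempty with he | hne
  · refine ⟨1, one_pos, 1, one_pos, fun k _ a ha => ?_⟩
    rw [he] at ha
    exact absurd ha (notMem_empty a)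
  have hc : ContinuousOn (fun x => up D n x - dn D n x) (Icc ρ (1 - ρ)) :=
    ((h.up_cont hn0).sub (h.dn_cont hn0)).continuousOn
  obtain ⟨x0, hx0, hmin⟩ := hcomp.exists_isMinOn hne hc
  have hm : 0 < up D n x0 - dn D n x0 := hn hx0
  set m := up D n x0 - dn D n x0 with hmdef
  refine ⟨n + 1, by positivity, m / (n + 2), by positivity, fun k hk a ha b hb hab => ?_⟩
  have h1 : m ≤ up D n a - dn D n a := hmin ha
  have h2 := h.up_lip hn0 a b
  have h3 := h.up_mono hn0 (show (n : ℝ) ≤ k by linarith) b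
  have h4 := h.rf.up_mono hn0 (show (n : ℝ) ≤ k by linarith) a
  have h5 : (n : ℝ) * |a - b| ≤ n * (m / (n + 2)) := mul_le_mul_of_nonneg_left hab hn0
  have h6 : n * (m / (n + 2)) + 2 * (m / (n + 2)) = m := by field_simp
  have h7 : 0 < m / ((n : ℝ) + 2) := by positivity
  unfold dn at h1 ⊢
  linarith

/-- Near the two ends the whole domain is near its boundary. -/
theorem Nd.ends (h : Nd D B) {ε : ℝ} (hε : 0 < ε) :
    ∃ δ > 0, ∀ z ∈ closure D, (z.re ≤ δ ∨ 1 - δ ≤ z.re) → Metric.infDist z (frontier D) < ε := by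
  have hb : Bornology.IsBounded D := by
    refine (Metric.isBounded_iff_subset_closedBall 0).2 ⟨1 + B, fun z hz => ?_⟩
    rw [mem_closedBall_zero_iff]
    refine (Complex.norm_le_abs_re_add_abs_im z).trans ?_
    have h1 := h.strip z hz
    have h2 := h.bd z hz
    rw [abs_of_pos h1.1]
    linarith
  have hcl : IsCompact (closure D) := hb.isCompact_closure
  set A : Set ℂ := closure D ∩ {z | ε ≤ Metric.infDist z (frontier D)} with hA
  have hAc : IsCompact A := hcl.inter_right
    (isClosed_le continuous_const (Metric.continuous_infDist_pt _))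
  have hstrip : ∀ z ∈ A, 0 < z.re ∧ z.re < 1 := by
    rintro z ⟨h1, h2⟩
    by_contra hcon
    have h3 : z ∉ D := fun h4 => hcon (h.strip z h4)
    have h4 : z ∈ frontier D := by rw [h.op.frontier_eq]; exact ⟨h1, h3⟩
    have h5 : ε ≤ Metric.infDist z (frontier D) := h2
    rw [Metric.infDist_zero_of_mem h4] at h5
    linarith
  rcases A.eq_empty_or_nonempty with he | hne
  · refine ⟨1, one_pos, fun z hz _ => ?_⟩
    by_contra hcon
    push Not at hcon
    have : z ∈ A := ⟨hz, hcon⟩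
    rw [he] at this
    exact this
  · obtain ⟨z1, hz1, hmin⟩ := hAc.exists_isMinOn hne Complex.continuous_re.continuousOn
    obtain ⟨z2, hz2, hmax⟩ := hAc.exists_isMaxOn hne Complex.continuous_re.continuousOn
    have p1 := (hstrip z1 hz1).1
    have p2 := (hstrip z2 hz2).2
    refine ⟨min (z1.re / 2) ((1 - z2.re) / 2), lt_min (by linarith) (by linarith),
      fun z hz hor => ?_⟩
    by_contra hcon
    push Not at hcon
    have hzA : z ∈ A := ⟨hz, hcon⟩
    have q1 : z1.re ≤ z.re := hmin hzA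
    have q2 : z.re ≤ z2.re := hmax hzA
    have q3 : min (z1.re / 2) ((1 - z2.re) / 2) ≤ z1.re / 2 := min_le_left _ _
    have q4 : min (z1.re / 2) ((1 - z2.re) / 2) ≤ (1 - z2.re) / 2 := min_le_right _ _
    rcases hor with h1 | h1 <;> linarith

/-- The weight near the ends. -/
noncomputable def lam (δ x : ℝ) : ℝ := max 0 (min 1 (min (x / δ) ((1 - x) / δ)))

/-- The clamp to the middle. -/
noncomputable def mid (δ x : ℝ) : ℝ := max δ (min x (1 - δ))

theorem lam_cont (δ : ℝ) : Continuous (lam δ) := by unfold lam; fun_prop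

theorem mid_cont (δ : ℝ) : Continuous (mid δ) := by unfold mid; fun_prop

theorem lam_nonneg (δ x : ℝ) : 0 ≤ lam δ x := le_max_left _ _

theorem lam_le_one (δ x : ℝ) : lam δ x ≤ 1 := max_le zero_le_one (min_le_left _ _)

theorem lam_left {δ x : ℝ} (hδ : 0 < δ) (hx : x ≤ 0) : lam δ x = 0 := by
  unfold lam
  apply max_eq_left
  refine (min_le_right _ _).trans ((min_le_left _ _).trans ?_)
  exact div_nonpos_of_nonpos_of_nonneg hx hδ.le

theorem lam_right {δ x : ℝ} (hδ : 0 < δ) (hx : 1 ≤ x) : lam δ x = 0 := by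
  unfold lam
  apply max_eq_left
  refine (min_le_right _ _).trans ((min_le_right _ _).trans ?_)
  exact div_nonpos_of_nonpos_of_nonneg (by linarith) hδ.le

theorem lam_pos {δ x : ℝ} (hδ : 0 < δ) (h0 : 0 < x) (h1 : x < 1) : 0 < lam δ x := by
  unfold lam
  exact lt_max_of_lt_right (lt_min one_pos (lt_min (div_pos h0 hδ) (div_pos (by linarith) hδ)))

theorem lam_mid {δ x : ℝ} (hδ : 0 < δ) (h0 : δ ≤ x) (h1 : x ≤ 1 - δ) : lam δ x = 1 := by
  unfold lam
  have e1 : 1 ≤ x / δ := by rw [le_div_iff₀ hδ]; linarith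
  have e2 : 1 ≤ (1 - x) / δ := by rw [le_div_iff₀ hδ]; linarith
  rw [min_eq_left (le_min e1 e2)]
  exact max_eq_right zero_le_one

theorem mid_mem {δ x : ℝ} (hδ1 : δ ≤ 1 / 2) : mid δ x ∈ Icc δ (1 - δ) := by
  unfold mid
  exact ⟨le_max_left _ _, max_le (by linarith) (min_le_right _ _)⟩

theorem mid_eq {δ x : ℝ} (h0 : δ ≤ x) (h1 : x ≤ 1 - δ) : mid δ x = x := by
  unfold mid
  rw [min_eq_left h1, max_eq_right h0]

theorem mid_left {δ x : ℝ} (hδ1 : δ ≤ 1 / 2) (h0 : x ≤ δ) : mid δ x = δ := by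
  unfold mid
  rw [min_eq_left (by linarith), max_eq_left h0]

theorem mid_right {δ x : ℝ} (hδ1 : δ ≤ 1 / 2) (h0 : 1 - δ ≤ x) : mid δ x = 1 - δ := by
  unfold mid
  rw [min_eq_right h0, max_eq_right (by linarith)]

/-- The data approximating the boundary of the domain. -/
theorem Nd.exists_dat (h : Nd D B) {k δ T : ℝ} (hk : 0 ≤ k) (hδ : 0 < δ) (hδ1 : δ ≤ 1 / 2)
    (hT : 0 < T) (hgap : ∀ x ∈ Icc δ (1 - δ), dn D k x < up D k x) :
    ∃ E : Dat, E.T = T ∧ E.Y = 2 * B ∧ ∀ x,
      E.f x = (up D k (mid δ x) + dn D k (mid δ x)) / 2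
        - lam δ x * ((up D k (mid δ x) - dn D k (mid δ x)) / 2) ∧
      E.f x + E.w x = (up D k (mid δ x) + dn D k (mid δ x)) / 2
        + lam δ x * ((up D k (mid δ x) - dn D k (mid δ x)) / 2) := by
  have cu := h.up_cont hk
  have cd := h.dn_cont hk
  have cm := mid_cont δ
  have cl := lam_cont δ
  have hin : ∀ x, 0 < mid δ x ∧ mid δ x < 1 := fun x => by
    have := mid_mem (x := x) hδ1
    exact ⟨by linarith [this.1], by linarith [this.2]⟩
  have hg : ∀ x, 0 < up D k (mid δ x) - dn D k (mid δ x) := fun x => by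
    have := hgap _ (mid_mem (x := x) hδ1)
    linarith
  have hB := h.B_nonneg
  refine ⟨{ f := fun x => (up D k (mid δ x) + dn D k (mid δ x)) / 2
              - lam δ x * ((up D k (mid δ x) - dn D k (mid δ x)) / 2)
            w := fun x => lam δ x * (up D k (mid δ x) - dn D k (mid δ x))
            T := T
            Y := 2 * B
            hf := by fun_prop
            hw := by fun_prop
            hT := hT
            w0 := fun x hx => by rw [lam_left hδ hx, zero_mul]
            w1 := fun x hx => by rw [lam_right hδ hx, zero_mul]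
            wpos := fun x h0 h1 => mul_pos (lam_pos hδ h0 h1) (hg x)
            fY := fun x => by
              have a1 := h.up_le_B hk (hin x).1 (hin x).2
              have a2 := h.dn_ge hk (hin x).1 (hin x).2
              have a3 := h.up_ge hk (mid δ x)
              have a4 := h.dn_le hk (mid δ x)
              have a5 := lam_nonneg δ x
              have a6 := lam_le_one δ x
              have a7 := hg x
              have a8 : lam δ x * ((up D k (mid δ x) - dn D k (mid δ x)) / 2)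
                  ≤ 1 * ((up D k (mid δ x) - dn D k (mid δ x)) / 2) :=
                mul_le_mul_of_nonneg_right a6 (by linarith)
              have a9 : 0 ≤ lam δ x * ((up D k (mid δ x) - dn D k (mid δ x)) / 2) :=
                mul_nonneg a5 (by linarith)
              rw [abs_le]; constructor <;> linarith
            wY := fun x => by
              have a1 := h.up_le_B hk (hin x).1 (hin x).2
              have a2 := h.dn_ge hk (hin x).1 (hin x).2
              have a5 := lam_nonneg δ x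
              have a6 := lam_le_one δ x
              have a7 := hg x
              have a8 : lam δ x * (up D k (mid δ x) - dn D k (mid δ x))
                  ≤ 1 * (up D k (mid δ x) - dn D k (mid δ x)) :=
                mul_le_mul_of_nonneg_right a6 a7.le
              rw [abs_of_nonneg (mul_nonneg a5 a7.le)]
              linarith }, rfl, rfl, fun x => ⟨rfl, ?_⟩⟩
  show (up D k (mid δ x) + dn D k (mid δ x)) / 2
      - lam δ x * ((up D k (mid δ x) - dn D k (mid δ x)) / 2)
      + lam δ x * (up D k (mid δ x) - dn D k (mid δ x)) = _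
  ring

end Pool.Agent.Run7.h118.TG.Loc
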