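import Pool.Agent.Run7.h118.TMFinal

set_option autoImplicit false

open Set Filter Topology

/-! Plane domains which meet every vertical line in an interval: the upper envelope. -/

namespace Pool.Agent.Run7.h118.TG.Loc

open Pool.Agent.Run7.h118.TG

/-- The normalised form of a domain convex in the vertical direction. -/
structure Nd (D : Set ℂ) (B : ℝ) : Prop where
  op : IsOpen D
  bd : ∀ z ∈ D, |z.im| ≤ B
  strip : ∀ z ∈ D, 0 < z.re ∧ z.re < 1
  sec : ∀ x : ℝ, 0 < x → x < 1 → ∃ y : ℝ, (⟨x, y⟩ : ℂ) ∈ D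
  conv : ∀ x y1 y2 y : ℝ, (⟨x, y1⟩ : ℂ) ∈ D → (⟨x, y2⟩ : ℂ) ∈ D → y1 ≤ y → y ≤ y2 →
    (⟨x, y⟩ : ℂ) ∈ D

/-- The upper end of the section. -/
noncomputable def top (D : Set ℂ) (x : ℝ) : ℝ := sSup {y : ℝ | (⟨x, y⟩ : ℂ) ∈ D}

/-- The upper envelope, a Lipschitz function below `top`. -/
noncomputable def up (D : Set ℂ) (k x : ℝ) : ℝ := ⨅ t : Ioo (0:ℝ) 1, (top D t + k * |x - t|)

variable {D : Set ℂ} {B : ℝ}

theorem Nd.B_nonneg (h : Nd D B) : 0 ≤ B := by
  obtain ⟨y, hy⟩ := h.sec (1 / 2) (by norm_num) (by norm_num)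
  exact (abs_nonneg _).trans (h.bd _ hy)

theorem Nd.bddAbove (h : Nd D B) (x : ℝ) : BddAbove {y : ℝ | (⟨x, y⟩ : ℂ) ∈ D} :=
  ⟨B, fun _ hy => (abs_le.1 (h.bd _ hy)).2⟩

theorem Nd.le_top (h : Nd D B) {x y : ℝ} (hy : (⟨x, y⟩ : ℂ) ∈ D) : y ≤ top D x :=
  le_csSup (h.bddAbove x) hy

theorem cont_vert (x : ℝ) : Continuous (fun y : ℝ => (⟨x, y⟩ : ℂ)) :=
  cont_mk continuous_const continuous_id

theorem cont_hor (y : ℝ) : Continuous (fun x : ℝ => (⟨x, y⟩ : ℂ)) :=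
  cont_mk continuous_id continuous_const

/-- Points of an open set have a square neighbourhood. -/
theorem Nd.nhd (h : Nd D B) {x y : ℝ} (hy : (⟨x, y⟩ : ℂ) ∈ D) :
    ∃ r > 0, ∀ t s : ℝ, |t - x| < r → |s - y| < r → (⟨t, s⟩ : ℂ) ∈ D := by
  obtain ⟨ε, hε, hb⟩ := Metric.isOpen_iff.1 h.op _ hy
  refine ⟨ε / 2, by positivity, fun t s ht hs => hb ?_⟩
  rw [Metric.mem_ball]
  refine lt_of_le_of_lt (dist_le_re_im _ _) ?_
  show |t - x| + |s - y| < ε
  linarith

theorem Nd.lt_top (h : Nd D B) {x y : ℝ} (hy : (⟨x, y⟩ : ℂ) ∈ D) : y < top D x := by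
  obtain ⟨r, hr, hb⟩ := h.nhd hy
  have h1 : (⟨x, y + r / 2⟩ : ℂ) ∈ D := hb x (y + r / 2) (by rw [sub_self, abs_zero]; exact hr)
    (by rw [add_sub_cancel_left, abs_of_pos (by positivity)]; linarith)
  have := h.le_top h1
  linarith

theorem Nd.top_le (h : Nd D B) {x : ℝ} (hx0 : 0 < x) (hx1 : x < 1) : top D x ≤ B := by
  obtain ⟨y, hy⟩ := h.sec x hx0 hx1
  exact csSup_le ⟨y, hy⟩ fun s hs => (abs_le.1 (h.bd _ hs)).2

theorem Nd.le_top' (h : Nd D B) {x : ℝ} (hx0 : 0 < x) (hx1 : x < 1) : -B ≤ top D x := by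
  obtain ⟨y, hy⟩ := h.sec x hx0 hx1
  exact (abs_le.1 (h.bd _ hy)).1.trans (h.le_top hy)

/-- The section is an interval. -/
theorem Nd.mem_of (h : Nd D B) {x y y0 : ℝ} (h0 : (⟨x, y0⟩ : ℂ) ∈ D) (h1 : y0 ≤ y)
    (h2 : y < top D x) : (⟨x, y⟩ : ℂ) ∈ D := by
  obtain ⟨s, hs, hys⟩ := exists_lt_of_lt_csSup ⟨y0, h0⟩ h2
  exact h.conv x y0 s y h0 hs h1 hys.le

theorem Nd.closure_of (h : Nd D B) {x y y0 : ℝ} (h0 : (⟨x, y0⟩ : ℂ) ∈ D) (h1 : y0 ≤ y)
    (h2 : y ≤ top D x) : (⟨x, y⟩ : ℂ) ∈ closure D := by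
  have hlt := h.lt_top h0
  have h3 : y ∈ closure (Ico y0 (top D x)) := by
    rw [closure_Ico hlt.ne]; exact ⟨h1, h2⟩
  exact map_mem_closure (cont_vert x) h3 fun s hs => h.mem_of h0 hs.1 hs.2

theorem Nd.up_bdd (h : Nd D B) {k : ℝ} (hk : 0 ≤ k) (x : ℝ) :
    BddBelow (range fun t : Ioo (0:ℝ) 1 => top D t + k * |x - t|) := by
  refine ⟨-B, ?_⟩
  rintro _ ⟨t, rfl⟩
  have h1 := h.le_top' t.2.1 t.2.2
  have h2 : 0 ≤ k * |x - t| := mul_nonneg hk (abs_nonneg _)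
  simp only
  linarith

theorem Nd.up_le (h : Nd D B) {k : ℝ} (hk : 0 ≤ k) (x : ℝ) {t : ℝ} (h0 : 0 < t) (h1 : t < 1) :
    up D k x ≤ top D t + k * |x - t| :=
  ciInf_le (h.up_bdd hk x) (⟨t, h0, h1⟩ : Ioo (0:ℝ) 1)

instance : Nonempty (Ioo (0:ℝ) 1) := ⟨⟨1 / 2, by norm_num, by norm_num⟩⟩

theorem Nd.le_up (h : Nd D B) {k x c : ℝ}
    (hc : ∀ t : ℝ, 0 < t → t < 1 → c ≤ top D t + k * |x - t|) : c ≤ up D k x :=
  le_ciInf fun t => hc t t.2.1 t.2.2

theorem Nd.up_ge (h : Nd D B) {k : ℝ} (hk : 0 ≤ k) (x : ℝ) : -B ≤ up D k x :=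
  h.le_up fun t h0 h1 => by
    have h2 := h.le_top' h0 h1
    have h3 : 0 ≤ k * |x - t| := mul_nonneg hk (abs_nonneg _)
    linarith

theorem Nd.up_le_top (h : Nd D B) {k : ℝ} (hk : 0 ≤ k) {x : ℝ} (h0 : 0 < x) (h1 : x < 1) :
    up D k x ≤ top D x := by
  have := h.up_le hk x h0 h1
  rwa [sub_self, abs_zero, mul_zero, add_zero] at this

theorem Nd.up_mono (h : Nd D B) {k k' : ℝ} (hk : 0 ≤ k) (hkk : k ≤ k') (x : ℝ) :
    up D k x ≤ up D k' x :=
  h.le_up fun t h0 h1 => by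
    have h2 := h.up_le hk x h0 h1
    have h3 : k * |x - t| ≤ k' * |x - t| := mul_le_mul_of_nonneg_right hkk (abs_nonneg _)
    linarith

theorem Nd.up_lip (h : Nd D B) {k : ℝ} (hk : 0 ≤ k) (x x' : ℝ) :
    up D k x ≤ up D k x' + k * |x - x'| := by
  have : up D k x - k * |x - x'| ≤ up D k x' := h.le_up fun t h0 h1 => by
    have h2 := h.up_le hk x h0 h1
    have h3 : |x - t| ≤ |x - x'| + |x' - t| := abs_sub_le x x' t
    have h4 := mul_le_mul_of_nonneg_left h3 hk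
    linarith
  linarith

theorem Nd.up_lip' (h : Nd D B) {k : ℝ} (hk : 0 ≤ k) (x x' : ℝ) :
    |up D k x - up D k x'| ≤ k * |x - x'| := by
  have h1 := h.up_lip hk x x'
  have h2 := h.up_lip hk x' x
  rw [abs_sub_comm x' x] at h2
  rw [abs_le]; constructor <;> linarith

theorem Nd.up_cont (h : Nd D B) {k : ℝ} (hk : 0 ≤ k) : Continuous (up D k) := by
  have : LipschitzWith (Real.toNNReal k) (up D k) := LipschitzWith.of_dist_le_mul fun x y => by
    rw [Real.dist_eq, Real.dist_eq, Real.coe_toNNReal _ hk]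
    exact h.up_lip' hk x y
  exact this.continuous

/-- The envelopes approach the upper end of the section. -/
theorem Nd.up_large (h : Nd D B) {x y : ℝ} (hy : (⟨x, y⟩ : ℂ) ∈ D) :
    ∃ k > 0, y < up D k x := by
  obtain ⟨r, hr, hb⟩ := h.nhd hy
  have hB := h.B_nonneg
  have hyB := (abs_le.1 (h.bd _ hy)).2
  simp only at hyB
  refine ⟨(2 * B + r) / r, by positivity, ?_⟩
  have : y + r / 2 ≤ up D ((2 * B + r) / r) x := h.le_up fun t h0 h1 => by
    rcases lt_or_ge |t - x| r with h2 | h2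
    · have h3 := h.le_top (hb t (y + r / 2) h2
        (by rw [add_sub_cancel_left, abs_of_pos (by positivity)]; linarith))
      have h4 : 0 ≤ (2 * B + r) / r * |x - t| := by positivity
      linarith
    · have h3 := h.le_top' h0 h1
      have h4 : (2 * B + r) / r * r ≤ (2 * B + r) / r * |x - t| := by
        rw [abs_sub_comm] at h2
        exact mul_le_mul_of_nonneg_left h2 (by positivity)
      rw [div_mul_cancel₀ _ hr.ne'] at h4
      linarith
  linarith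

/-- On a horizontal segment between a point of `D` and a point outside there is a boundary point. -/
theorem front_hor (ho : IsOpen D) {x t y : ℝ} (h1 : (⟨x, y⟩ : ℂ) ∈ D) (h2 : (⟨t, y⟩ : ℂ) ∉ D) :
    ∃ s : ℝ, |s - x| ≤ |t - x| ∧ (⟨s, y⟩ : ℂ) ∈ frontier D := by
  by_contra hcon
  push Not at hcon
  have hc := cont_hor y
  have key : uIcc x t ⊆ (fun s : ℝ => (⟨s, y⟩ : ℂ)) ⁻¹' D := by
    refine isPreconnected_uIcc.subset_left_of_subset_union (v := (fun s : ℝ => (⟨s, y⟩ : ℂ)) ⁻¹'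
      (closure D)ᶜ) (ho.preimage hc) (isClosed_closure.isOpen_compl.preimage hc) ?_ ?_ ?_
    · rw [Set.disjoint_left]
      intro s hs hs'
      exact hs' (subset_closure hs)
    · intro s hs
      by_cases h3 : (⟨s, y⟩ : ℂ) ∈ D
      · exact Or.inl h3
      · right
        intro h4
        refine hcon s ?_ ?_
        · exact abs_sub_left_of_mem_uIcc hs
        · rw [ho.frontier_eq]; exact ⟨h4, h3⟩
    · exact ⟨x, left_mem_uIcc, h1⟩
  exact h2 (key right_mem_uIcc)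

/-- The graph of the envelope is near the boundary. -/
theorem Nd.up_near (h : Nd D B) {k x y0 : ℝ} (hk : 1 ≤ k) (hx0 : 0 < x) (hx1 : x < 1)
    (h0 : (⟨x, y0⟩ : ℂ) ∈ D) (h1 : y0 ≤ up D k x) :
    Metric.infDist (⟨x, up D k x⟩ : ℂ) (frontier D) ≤ (2 * B + 2) / k := by
  have hB := h.B_nonneg
  have hk0 : 0 < k := by linarith
  have hle := h.up_le_top hk0.le hx0 hx1
  rcases hle.eq_or_lt with h2 | h2
  · have h3 : (⟨x, up D k x⟩ : ℂ) ∈ frontier D := by
      rw [h.op.frontier_eq]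
      refine ⟨h.closure_of h0 h1 hle, fun h4 => ?_⟩
      have := h.lt_top h4
      linarith
    rw [Metric.infDist_zero_of_mem h3]
    positivity
  · set η : ℝ := min (1 / k) ((top D x - up D k x) / 2) with hη
    have hη0 : 0 < η := lt_min (by positivity) (by linarith)
    have hη1 : η ≤ 1 / k := min_le_left _ _
    have hη2 : η ≤ (top D x - up D k x) / 2 := min_le_right _ _
    obtain ⟨⟨t, ht0, ht1⟩, ht⟩ := exists_lt_of_ciInf_lt
      (show (⨅ t : Ioo (0:ℝ) 1, (top D t + k * |x - t|)) < up D k x + η from by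
        change up D k x < up D k x + η
        linarith)
    simp only at ht
    have hkx : 0 ≤ k * |x - t| := mul_nonneg hk0.le (abs_nonneg _)
    have hmem : (⟨x, up D k x + η⟩ : ℂ) ∈ D := h.mem_of h0 (by linarith) (by linarith)
    have hnot : (⟨t, up D k x + η⟩ : ℂ) ∉ D := fun h5 => by
      have := h.le_top h5
      linarith
    obtain ⟨s, hs, hfr⟩ := front_hor h.op hmem hnot
    have h6 : k * |t - x| ≤ 2 * B + η := by
      have e1 := h.le_top' ht0 ht1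
      have e2 := h.top_le hx0 hx1
      rw [abs_sub_comm]
      linarith
    have h7 : |t - x| ≤ (2 * B + 1) / k := by
      rw [le_div_iff₀ hk0]
      have : 1 / k ≤ 1 := by
        rw [div_le_one hk0]; exact hk
      linarith
    refine (Metric.infDist_le_dist_of_mem hfr).trans ((dist_le_re_im _ _).trans ?_)
    show |x - s| + |up D k x - (up D k x + η)| ≤ (2 * B + 2) / k
    rw [sub_add_cancel_left, abs_neg, abs_of_pos hη0, abs_sub_comm]
    have : (2 * B + 2) / k = (2 * B + 1) / k + 1 / k := by ring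
    linarith

end Pool.Agent.Run7.h118.TG.Loc
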