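import Pool.Agent.Run7.h118.TDMain

set_option autoImplicit false

open Set Filter Topology

/-! Rectangles in the boundary of a plane domain convex in one direction. -/

namespace Pool.Agent.Run7.h118.TG.Loc

open Pool.Agent.Run7.h118.TG

/-- Rectangles of every shape in the boundary of a bounded domain convex in one direction. -/
theorem domain {D : Set ℂ} (ho : IsOpen D) (hb : Bornology.IsBounded D) (hne : D.Nonempty)
    (hc : IsPreconnected D) {w : ℂ} (hw : w ≠ 0)
    (hsec : ∀ x : ℝ, IsPreconnected {z : ℂ | z ∈ D ∧ (w * z).re = x}) {θ : ℝ} (h0 : 0 < θ)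
    (hπ : θ < Real.pi) :
    ∃ z d : ℂ, d ≠ 0 ∧ z + d ∈ frontier D ∧ z - d ∈ frontier D ∧
      z + Complex.exp (θ * Complex.I) * d ∈ frontier D ∧
      z - Complex.exp (θ * Complex.I) * d ∈ frontier D := by
  have hLc : Continuous (fun z : ℂ => (w * z).re) := Complex.continuous_re.comp (by fun_prop)
  set X : Set ℝ := (fun z : ℂ => (w * z).re) '' D with hX
  obtain ⟨R, hR⟩ := hb.exists_norm_le
  have hXb : ∀ x ∈ X, |x| ≤ ‖w‖ * R := by
    rintro _ ⟨z, hz, rfl⟩
    refine (Complex.abs_re_le_norm _).trans ?_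
    rw [norm_mul]
    exact mul_le_mul_of_nonneg_left (hR z hz) (norm_nonneg _)
  have hXne : X.Nonempty := hne.image _
  have hbb : BddBelow X := ⟨-(‖w‖ * R), fun x hx => (abs_le.1 (hXb x hx)).1⟩
  have hba : BddAbove X := ⟨‖w‖ * R, fun x hx => (abs_le.1 (hXb x hx)).2⟩
  set a : ℝ := sInf X with ha
  set b : ℝ := sSup X with hbdef
  have hmove : ∀ z ∈ D, ∃ ε : ℝ, 0 < ε ∧ z + (ε : ℂ) / w ∈ D ∧ z - (ε : ℂ) / w ∈ D := by
    intro z hz
    obtain ⟨ε, hε, hball⟩ := Metric.isOpen_iff.1 ho z hz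
    have hwn : 0 < ‖w‖ := norm_pos_iff.2 hw
    have hn : ‖((ε * ‖w‖ / 2 : ℝ) : ℂ) / w‖ = ε / 2 := by
      rw [norm_div, Complex.norm_real, Real.norm_eq_abs, abs_of_pos (by positivity)]
      field_simp
    refine ⟨ε * ‖w‖ / 2, by positivity, hball ?_, hball ?_⟩
    · rw [Metric.mem_ball, dist_eq_norm, add_sub_cancel_left, hn]
      linarith
    · rw [Metric.mem_ball, dist_eq_norm, sub_sub_cancel_left, norm_neg, hn]
      linarith
  have hstr : ∀ z ∈ D, a < (w * z).re ∧ (w * z).re < b := by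
    intro z hz
    obtain ⟨ε, hε, h1, h2⟩ := hmove z hz
    have e1 : (w * (z + (ε : ℂ) / w)).re = (w * z).re + ε := by
      rw [mul_add, mul_div_cancel₀ _ hw, Complex.add_re, Complex.ofReal_re]
    have e2 : (w * (z - (ε : ℂ) / w)).re = (w * z).re - ε := by
      rw [mul_sub, mul_div_cancel₀ _ hw, Complex.sub_re, Complex.ofReal_re]
    have h3 : (w * (z + (ε : ℂ) / w)).re ≤ b := le_csSup hba (mem_image_of_mem _ h1)
    have h4 : a ≤ (w * (z - (ε : ℂ) / w)).re := csInf_le hbb (mem_image_of_mem _ h2)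
    rw [e1] at h3
    rw [e2] at h4
    constructor <;> linarith
  have hab : a < b := by
    obtain ⟨z, hz⟩ := hne
    have := hstr z hz
    linarith [this.1, this.2]
  have hord : OrdConnected X := (hc.image _ hLc.continuousOn).ordConnected
  have hatt : ∀ x, a < x → x < b → ∃ z ∈ D, (w * z).re = x := by
    intro x hx1 hx2
    obtain ⟨p, hp, hpx⟩ := exists_lt_of_csInf_lt hXne hx1
    obtain ⟨q, hq, hqx⟩ := exists_lt_of_lt_csSup hXne hx2
    exact hord.out hp hq ⟨hpx.le, hqx.le⟩
  have hba' : 0 < b - a := by linarith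
  have hbaC : ((b - a : ℝ) : ℂ) ≠ 0 := by exact_mod_cast hba'.ne'
  set φ : ℂ → ℂ := fun ζ => (((b - a : ℝ) : ℂ) * ζ + a) / w with hφ
  set ψ : ℂ → ℂ := fun z => (w * z - a) / ((b - a : ℝ) : ℂ) with hψ
  have hφc : Continuous φ := by simp only [hφ]; fun_prop
  have hψc : Continuous ψ := by simp only [hψ]; fun_prop
  have hφψ : ∀ z, φ (ψ z) = z := by
    intro z
    simp only [hφ, hψ]
    field_simp
    ring
  have hψφ : ∀ z, ψ (φ z) = z := by
    intro z
    simp only [hφ, hψ]
    field_simp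
    ring
  have hre : ∀ ζ, (w * φ ζ).re = (b - a) * ζ.re + a := by
    intro ζ
    simp only [hφ]
    rw [mul_div_cancel₀ _ hw, Complex.add_re, Complex.re_ofReal_mul, Complex.ofReal_re]
  have hψre : ∀ z, (ψ z).re = ((w * z).re - a) / (b - a) := by
    intro z
    simp only [hψ]
    rw [Complex.div_ofReal_re, Complex.sub_re, Complex.ofReal_re]
  set D' : Set ℂ := φ ⁻¹' D with hD'
  have hN : Nd D' ((‖w‖ * R + |a|) / (b - a)) :=
    { op := ho.preimage hφc
      bd := fun ζ hζ => by
        have h1 : ζ = ψ (φ ζ) := (hψφ ζ).symm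
        have h2 : ‖ζ‖ ≤ (‖w‖ * R + |a|) / (b - a) := by
          rw [h1]
          simp only [hψ]
          rw [norm_div, Complex.norm_real, Real.norm_eq_abs, abs_of_pos hba']
          refine div_le_div_of_nonneg_right ?_ hba'.le
          refine (norm_sub_le _ _).trans ?_
          rw [norm_mul, Complex.norm_real, Real.norm_eq_abs]
          have := mul_le_mul_of_nonneg_left (hR (φ ζ) hζ) (norm_nonneg w)
          linarith
        exact (Complex.abs_im_le_norm _).trans h2
      strip := fun ζ hζ => by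
        obtain ⟨h1, h2⟩ := hstr (φ ζ) hζ
        rw [hre] at h1 h2
        constructor
        · by_contra hcon
          push Not at hcon
          nlinarith [mul_nonneg hba'.le (neg_nonneg.2 hcon)]
        · by_contra hcon
          push Not at hcon
          nlinarith [mul_nonneg hba'.le (sub_nonneg.2 hcon)]
      sec := fun x hx0 hx1 => by
        obtain ⟨z, hz, hzx⟩ := hatt ((b - a) * x + a) (by nlinarith [mul_pos hba' hx0])
          (by nlinarith [mul_pos hba' (sub_pos.2 hx1)])
        refine ⟨(ψ z).im, ?_⟩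
        have h1 : (⟨x, (ψ z).im⟩ : ℂ) = ψ z := by
          apply Complex.ext
          · show x = (ψ z).re
            rw [hψre, hzx, add_sub_cancel_right, mul_div_cancel_left₀ _ hba'.ne']
          · rfl
        rw [h1]
        show φ (ψ z) ∈ D
        rw [hφψ]
        exact hz
      conv := fun x y1 y2 y h1 h2 h3 h4 => by
        have hS : IsPreconnected ((fun z => (ψ z).im) '' {z : ℂ | z ∈ D ∧
            (w * z).re = (b - a) * x + a}) :=
          (hsec _).image _ (Complex.continuous_im.comp hψc).continuousOn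
        have hm : ∀ s : ℝ, (⟨x, s⟩ : ℂ) ∈ D' → s ∈ ((fun z => (ψ z).im) '' {z : ℂ | z ∈ D ∧
            (w * z).re = (b - a) * x + a}) := fun s hs =>
          ⟨φ ⟨x, s⟩, ⟨hs, hre _⟩, by simp only [hψφ]⟩
        obtain ⟨z, ⟨hz, hzx⟩, hzy⟩ := hS.ordConnected.out (hm y1 h1) (hm y2 h2) ⟨h3, h4⟩
        have h5 : (⟨x, y⟩ : ℂ) = ψ z := by
          apply Complex.ext
          · show x = (ψ z).re
            rw [hψre, hzx, add_sub_cancel_right, mul_div_cancel_left₀ _ hba'.ne']
          · exact hzy.symm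
        rw [h5]
        show φ (ψ z) ∈ D
        rw [hφψ]
        exact hz }
  have hfr : ∀ ζ ∈ frontier D', φ ζ ∈ frontier D := by
    intro ζ hζ
    rw [hN.op.frontier_eq] at hζ
    rw [ho.frontier_eq]
    exact ⟨map_mem_closure hφc hζ.1 (fun z hz => hz), hζ.2⟩
  have hsin : 0 < Real.sin θ := Real.sin_pos_of_pos_of_lt_pi h0 hπ
  have hcos : Real.cos θ < 1 := by
    have h1 := Real.sin_sq_add_cos_sq θ
    nlinarith [Real.neg_one_le_cos θ, Real.cos_le_one θ]
  obtain ⟨m, u, v, yW, yZ, yA, yB, huv, e1, e2, e3, k1, k2, k3, k4⟩ :=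
    Nd.limit hN (T := (1 - Real.cos θ) / Real.sin θ) (div_pos (by linarith) hsin)
  obtain ⟨z, d, hd, r1, r2, r3, r4⟩ := rect_complex h0 hπ rfl (m := m) huv e1 e2 e3
  refine ⟨(((b - a : ℝ) : ℂ) * z + a) / w, ((b - a : ℝ) : ℂ) * d / w,
    div_ne_zero (mul_ne_zero hbaC hd) hw, ?_, ?_, ?_, ?_⟩
  · convert hfr _ k2 using 1
    simp only [hφ]; rw [← r1]; ring
  · convert hfr _ k1 using 1
    simp only [hφ]; rw [← r2]; ring
  · convert hfr _ k4 using 1
    simp only [hφ]; rw [← r3]; ring
  · convert hfr _ k3 using 1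
    simp only [hφ]; rw [← r4]; ring

/-- A component of the complement of a closed set has its frontier in the set. -/
theorem frontier_comp {K : Set ℂ} (hK : IsClosed K) (O : ℂ) :
    frontier (connectedComponentIn Kᶜ O) ⊆ K := by
  have hop : IsOpen (connectedComponentIn Kᶜ O) := hK.isOpen_compl.connectedComponentIn
  intro z hz
  rw [hop.frontier_eq] at hz
  by_contra hzK
  have hz2 : z ∈ Kᶜ := hzK
  have hop2 : IsOpen (connectedComponentIn Kᶜ z) := hK.isOpen_compl.connectedComponentIn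
  obtain ⟨y, hy1, hy2⟩ := mem_closure_iff.1 hz.1 _ hop2 (mem_connectedComponentIn hz2)
  have h1 := connectedComponentIn_eq hy1
  have h2 := connectedComponentIn_eq hy2
  apply hz.2
  rw [h2, ← h1]
  exact mem_connectedComponentIn hz2

end Pool.Agent.Run7.h118.TG.Loc
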