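import Pool.Agent.Run7.h118.TDDat

set_option autoImplicit false

open Set Filter Topology

/-! Plane domains which meet every vertical line in an interval: rectangles in the boundary. -/

namespace Pool.Agent.Run7.h118.TG.Loc

open Pool.Agent.Run7.h118.TG

variable {D : Set ℂ} {B : ℝ}

/-- The graphs of the data are near the boundary. -/
theorem Nd.near_dat (h : Nd D B) {k δ l : ℝ} (hk : 1 ≤ k) (hδ : 0 < δ) (hδ1 : δ ≤ 1 / 2)
    (hδl : δ ≤ l) (hkl : (2 * B + 2) / k ≤ l)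
    (hgap : ∀ x ∈ Icc δ (1 - δ), dn D k x < up D k x)
    (hend : ∀ z ∈ closure D, (z.re ≤ δ ∨ 1 - δ ≤ z.re) → Metric.infDist z (frontier D) < l)
    {E : Dat} (hE : ∀ x, E.f x = (up D k (mid δ x) + dn D k (mid δ x)) / 2
        - lam δ x * ((up D k (mid δ x) - dn D k (mid δ x)) / 2) ∧
      E.f x + E.w x = (up D k (mid δ x) + dn D k (mid δ x)) / 2
        + lam δ x * ((up D k (mid δ x) - dn D k (mid δ x)) / 2)) {a y : ℝ} (ho : On E a y) :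
    Metric.infDist (⟨a, y⟩ : ℂ) (frontier D) ≤ 2 * l ∧ |y| ≤ B := by
  obtain ⟨a0, a1, hy⟩ := ho
  have hk0 : 0 ≤ k := by linarith
  have hm := mid_mem (x := a) hδ1
  have m0 : 0 < mid δ a := by linarith [hm.1]
  have m1 : mid δ a < 1 := by linarith [hm.2]
  have hg := hgap _ hm
  have l0 := lam_nonneg δ a
  have l1 := lam_le_one δ a
  obtain ⟨e1, e2⟩ := hE a
  have h1 : lam δ a * ((up D k (mid δ a) - dn D k (mid δ a)) / 2)
      ≤ 1 * ((up D k (mid δ a) - dn D k (mid δ a)) / 2) :=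
    mul_le_mul_of_nonneg_right l1 (by linarith)
  have h2 : 0 ≤ lam δ a * ((up D k (mid δ a) - dn D k (mid δ a)) / 2) :=
    mul_nonneg l0 (by linarith)
  have y1 : dn D k (mid δ a) ≤ y := by rcases hy with hy | hy <;> linarith
  have y2 : y ≤ up D k (mid δ a) := by rcases hy with hy | hy <;> linarith
  have b1 := h.up_le_B hk0 m0 m1
  have b2 := h.dn_ge hk0 m0 m1
  refine ⟨?_, abs_le.2 ⟨by linarith, by linarith⟩⟩
  have side : ∀ c : ℝ, mid δ a = c → (c ≤ δ ∨ 1 - δ ≤ c) → |a - c| ≤ l →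
      Metric.infDist (⟨a, y⟩ : ℂ) (frontier D) ≤ 2 * l := by
    intro c hc hor hac
    rw [hc] at y1 y2 m0 m1 hg
    have h3 := hend (⟨c, y⟩ : ℂ) (h.between_cl hk0 m0 m1 hg y1 y2) hor
    have h4 : Metric.infDist (⟨a, y⟩ : ℂ) (frontier D)
        ≤ Metric.infDist (⟨c, y⟩ : ℂ) (frontier D) + dist (⟨a, y⟩ : ℂ) (⟨c, y⟩ : ℂ) :=
      Metric.infDist_le_infDist_add_dist
    have h5 : dist (⟨a, y⟩ : ℂ) (⟨c, y⟩ : ℂ) ≤ |a - c| + |y - y| := dist_le_re_im _ _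
    rw [sub_self, abs_zero, add_zero] at h5
    linarith
  rcases le_total a δ with h3 | h3
  · exact side δ (mid_left hδ1 h3) (Or.inl le_rfl) (abs_le.2 ⟨by linarith, by linarith⟩)
  rcases le_total (1 - δ) a with h4 | h4
  · exact side (1 - δ) (mid_right hδ1 h4) (Or.inr le_rfl) (abs_le.2 ⟨by linarith, by linarith⟩)
  have e3 : mid δ a = a := mid_eq h3 h4
  have e4 : lam δ a = 1 := lam_mid hδ h3 h4
  rw [e3, e4] at e1 e2
  rw [e3] at m0 m1 hg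
  have hl0 : 0 ≤ l := by linarith
  rcases hy with hy | hy
  · have h5 : y = dn D k a := by rw [hy, e1]; ring
    rw [h5]
    have := h.near_dn hk m0 m1 hg
    linarith
  · have h5 : y = up D k a := by rw [hy, e2]; ring
    rw [h5]
    have := h.near_up hk m0 m1 hg
    linarith

/-- Approximate rectangles of a definite size. -/
theorem Nd.step (h : Nd D B) {T : ℝ} (hT : 0 < T) :
    ∃ ρ' > 0, ∃ L > 0, ∀ l, 0 < l → l ≤ L → ∃ m u v yW yZ yA yB : ℝ,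
      |m| ≤ 1 ∧ |u| ≤ 1 ∧ |v| ≤ 1 ∧ |yW| ≤ B ∧ |yZ| ≤ B ∧ |yA| ≤ B ∧ |yB| ≤ B ∧
      ρ' ≤ max |u| |v| ∧ yW + yZ = yA + yB ∧
      yZ - yW + (T * (u + v) - 1 / T * (u - v)) = 0 ∧
      yA - yB + (T * (u + v) + 1 / T * (u - v)) = 0 ∧
      Metric.infDist (⟨m - u, yW⟩ : ℂ) (frontier D) ≤ 2 * l ∧
      Metric.infDist (⟨m + u, yZ⟩ : ℂ) (frontier D) ≤ 2 * l ∧
      Metric.infDist (⟨m - v, yA⟩ : ℂ) (frontier D) ≤ 2 * l ∧
      Metric.infDist (⟨m + v, yB⟩ : ℂ) (frontier D) ≤ 2 * l := by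
  have hB := h.B_nonneg
  obtain ⟨k1, hk1, η1, hη1, hgap1⟩ := h.gap (ρ := 1 / 4) (by norm_num)
  set r0 : ℝ := min (1 / 4) (η1 / 2) with hr0
  have hr00 : 0 < r0 := lt_min (by norm_num) (by positivity)
  have hr1 : r0 ≤ 1 / 4 := min_le_left _ _
  have hr2 : r0 ≤ η1 / 2 := min_le_right _ _
  obtain ⟨c0, hc0, hcrit⟩ := exists_crit (T := T) (Y := 2 * B) (w0 := η1) (r0 := r0)
    hT (by linarith) hη1 hr00 (by linarith)
  obtain ⟨ρ, hρ, hρ1, hρ2⟩ := exists_rho (T := T) (Y := 2 * B) (c := c0) hT (by linarith) hc0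
  obtain ⟨k2, hk2, η2, hη2, hgap2⟩ := h.gap (ρ := 3 * ρ / 4) (by positivity)
  set κ : ℝ := 2 + 2 * (T + 1 / T) with hκ
  have hκ0 : 0 < κ := by positivity
  set ρ' : ℝ := min (ρ / 4) (η2 / (2 * κ)) with hρ'
  have hρ'0 : 0 < ρ' := lt_min (by positivity) (by positivity)
  have hρ'1 : ρ' ≤ ρ / 4 := min_le_left _ _
  have hρ'2 : κ * ρ' ≤ η2 / 2 := by
    have : ρ' ≤ η2 / (2 * κ) := min_le_right _ _
    rw [le_div_iff₀ (by positivity)] at this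
    linarith
  refine ⟨ρ', hρ'0, 1, one_pos, fun l hl0 _ => ?_⟩
  obtain ⟨δ0, hδ0, hend0⟩ := h.ends hl0
  set δ : ℝ := min (min δ0 l) (min (1 / 4) (3 * ρ / 4)) with hδ
  have hδp : 0 < δ := lt_min (lt_min hδ0 hl0) (lt_min (by norm_num) (by positivity))
  have hδ1 : δ ≤ δ0 := (min_le_left _ _).trans (min_le_left _ _)
  have hδ2 : δ ≤ l := (min_le_left _ _).trans (min_le_right _ _)
  have hδ3 : δ ≤ 1 / 4 := (min_le_right _ _).trans (min_le_left _ _)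
  have hδ4 : δ ≤ 3 * ρ / 4 := (min_le_right _ _).trans (min_le_right _ _)
  obtain ⟨k3, hk3, η3, hη3, hgap3⟩ := h.gap hδp
  set k : ℝ := max (max k1 k2) (max k3 (max 1 ((2 * B + 2) / l))) with hk
  have kk1 : k1 ≤ k := (le_max_left _ _).trans (le_max_left _ _)
  have kk2 : k2 ≤ k := (le_max_right _ _).trans (le_max_left _ _)
  have kk3 : k3 ≤ k := (le_max_left _ _).trans (le_max_right _ _)
  have kk4 : 1 ≤ k := (le_max_left _ _).trans ((le_max_right _ _).trans (le_max_right _ _))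
  have kk5 : (2 * B + 2) / l ≤ k :=
    (le_max_right _ _).trans ((le_max_right _ _).trans (le_max_right _ _))
  have kk6 : (2 * B + 2) / k ≤ l := by
    rw [div_le_iff₀ (by linarith)]
    rw [div_le_iff₀ hl0] at kk5
    linarith
  have hgap : ∀ x ∈ Icc δ (1 - δ), dn D k x < up D k x := fun x hx => by
    have := hgap3 k kk3 x hx x hx (by rw [sub_self, abs_zero]; exact hη3.le)
    linarith
  have hend : ∀ z ∈ closure D, (z.re ≤ δ ∨ 1 - δ ≤ z.re) →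
      Metric.infDist z (frontier D) < l := fun z hz hor => hend0 z hz (by
    rcases hor with h1 | h1
    · exact Or.inl (h1.trans hδ1)
    · exact Or.inr (by linarith))
  obtain ⟨E, hET, hEY, hE⟩ := h.exists_dat (k := k) (T := T) (by linarith) hδp (by linarith) hT hgap
  have hfw : ∀ x ∈ Icc δ (1 - δ), E.f x = dn D k x ∧ E.f x + E.w x = up D k x := by
    intro x hx
    obtain ⟨e1, e2⟩ := hE x
    rw [mid_eq hx.1 hx.2, lam_mid hδp hx.1 hx.2] at e1 e2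
    exact ⟨by rw [e1]; ring, by rw [e2]; ring⟩
  obtain ⟨x, hx, hS1, hS2⟩ := hcrit E (1 / 2) hET hEY (by linarith) (by linarith) (by
    intro s t hs ht
    obtain ⟨s1, s2⟩ := abs_le.1 hs
    obtain ⟨t1, t2⟩ := abs_le.1 ht
    rw [(hfw (1 / 2 + s) ⟨by linarith, by linarith⟩).2,
      (hfw (1 / 2 - t) ⟨by linarith, by linarith⟩).1]
    exact hgap1 k kk1 _ ⟨by linarith, by linarith⟩ _ ⟨by linarith, by linarith⟩
      (abs_le.2 ⟨by linarith, by linarith⟩))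
  have hnear : ∀ a y, On E a y → Metric.infDist (⟨a, y⟩ : ℂ) (frontier D) ≤ 2 * l ∧ |y| ≤ B :=
    fun a y ho => h.near_dat kk4 hδp (by linarith) hδ2 kk6 hgap hend hE ho
  obtain ⟨huv, yW, yZ, yA, yB, oW, oZ, oA, oB, e1, e2, e3, hmix⟩ := hx.rect
  rw [hET] at e2 e3
  have hM0 := M_nonneg x
  have hxL := hx.hL
  have hxR := hx.hR
  have huM : |x.2.1| ≤ M x := le_max_left _ _
  have hvM : |x.2.2.1| ≤ M x := le_max_right _ _
  refine ⟨x.1, x.2.1, x.2.2.1, yW, yZ, yA, yB, abs_le.2 ⟨by linarith, by linarith⟩,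
    by linarith, by linarith, (hnear _ _ oW).2, (hnear _ _ oZ).2, (hnear _ _ oA).2,
    (hnear _ _ oB).2, ?_, e1, e2, e3, (hnear _ _ oW).1, (hnear _ _ oZ).1, (hnear _ _ oA).1,
    (hnear _ _ oB).1⟩
  change ρ' ≤ M x
  by_contra hcon
  push Not at hcon
  obtain ⟨hm1, hm2⟩ := not_ends hx (ρ := ρ) (c := c0) (by linarith) hρ1
    (by rw [hET, hEY]; exact hρ2) hS1 hS2
  obtain ⟨u1, u2⟩ := abs_le.1 huM
  obtain ⟨v1, v2⟩ := abs_le.1 hvM
  have hTT : 0 ≤ 1 / T := by positivity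
  have hsum : |x.2.1 + x.2.2.1| ≤ 2 * ρ' := abs_le.2 ⟨by linarith, by linarith⟩
  have hdif : |x.2.1 - x.2.2.1| ≤ 2 * ρ' := abs_le.2 ⟨by linarith, by linarith⟩
  have t1 : |T * (x.2.1 + x.2.2.1)| ≤ 2 * T * ρ' := by
    rw [abs_mul, abs_of_pos hT]
    have := mul_le_mul_of_nonneg_left hsum hT.le
    linarith
  have t2 : |1 / T * (x.2.1 - x.2.2.1)| ≤ 2 * (1 / T) * ρ' := by
    rw [abs_mul, abs_of_nonneg hTT]
    have := mul_le_mul_of_nonneg_left hdif hTT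
    linarith
  obtain ⟨t1a, t1b⟩ := abs_le.1 t1
  obtain ⟨t2a, t2b⟩ := abs_le.1 t2
  have hκe : κ * ρ' = 2 * ρ' + (2 * T * ρ' + 2 * (1 / T) * ρ') := by rw [hκ]; ring
  have hTρ : 0 ≤ 2 * T * ρ' + 2 * (1 / T) * ρ' := by positivity
  have hm : ∀ a b y y' : ℝ, a ∈ Icc (3 * ρ / 4) (1 - 3 * ρ / 4) →
      b ∈ Icc (3 * ρ / 4) (1 - 3 * ρ / 4) → |a - b| ≤ 2 * ρ' → y = E.f a →
      y' = E.f b + E.w b → |y - y'| ≤ 2 * T * ρ' + 2 * (1 / T) * ρ' → False := by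
    intro a b y y' ha hb hab hy hy' hyy
    rw [(hfw a ⟨by linarith [ha.1], by linarith [ha.2]⟩).1] at hy
    rw [(hfw b ⟨by linarith [hb.1], by linarith [hb.2]⟩).2] at hy'
    have h1 := hgap2 k kk2 a ha b hb (by linarith)
    obtain ⟨y1, -⟩ := abs_le.1 hyy
    linarith
  rcases hmix with ⟨q1, q2⟩ | ⟨q1, q2⟩ | ⟨q1, q2⟩ | ⟨q1, q2⟩
  · exact hm _ _ _ _ ⟨by linarith, by linarith⟩ ⟨by linarith, by linarith⟩
      (abs_le.2 ⟨by linarith, by linarith⟩) q1 q2 (abs_le.2 ⟨by linarith, by linarith⟩)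
  · exact hm _ _ _ _ ⟨by linarith, by linarith⟩ ⟨by linarith, by linarith⟩
      (abs_le.2 ⟨by linarith, by linarith⟩) q1 q2 (abs_le.2 ⟨by linarith, by linarith⟩)
  · exact hm _ _ _ _ ⟨by linarith, by linarith⟩ ⟨by linarith, by linarith⟩
      (abs_le.2 ⟨by linarith, by linarith⟩) q1 q2 (abs_le.2 ⟨by linarith, by linarith⟩)
  · exact hm _ _ _ _ ⟨by linarith, by linarith⟩ ⟨by linarith, by linarith⟩
      (abs_le.2 ⟨by linarith, by linarith⟩) q1 q2 (abs_le.2 ⟨by linarith, by linarith⟩)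

/-- The limit of the approximate rectangles. -/
theorem Nd.limit (h : Nd D B) {T : ℝ} (hT : 0 < T) :
    ∃ m u v yW yZ yA yB : ℝ, ¬(u = 0 ∧ v = 0) ∧ yW + yZ = yA + yB ∧
      yZ - yW + (T * (u + v) - 1 / T * (u - v)) = 0 ∧
      yA - yB + (T * (u + v) + 1 / T * (u - v)) = 0 ∧
      (⟨m - u, yW⟩ : ℂ) ∈ frontier D ∧ (⟨m + u, yZ⟩ : ℂ) ∈ frontier D ∧
      (⟨m - v, yA⟩ : ℂ) ∈ frontier D ∧ (⟨m + v, yB⟩ : ℂ) ∈ frontier D := by
  obtain ⟨ρ, hρ, L, hL, hstep⟩ := h.step hT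
  set C : Set ℂ := frontier D with hC
  set R : Set P7 := Icc (-1:ℝ) 1 ×ˢ Icc (-1:ℝ) 1 ×ˢ Icc (-1:ℝ) 1 ×ˢ Icc (-B) B ×ˢ
    Icc (-B) B ×ˢ Icc (-B) B ×ˢ Icc (-B) B with hR
  have hRc : IsCompact R := isCompact_Icc.prod (isCompact_Icc.prod (isCompact_Icc.prod
    (isCompact_Icc.prod (isCompact_Icc.prod (isCompact_Icc.prod isCompact_Icc)))))
  set E : Set P7 := {z | ρ ≤ max |z.2.1| |z.2.2.1|} ∩
    ({z | z.2.2.2.1 + z.2.2.2.2.1 = z.2.2.2.2.2.1 + z.2.2.2.2.2.2} ∩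
    ({z | z.2.2.2.2.1 - z.2.2.2.1 + (T * (z.2.1 + z.2.2.1) - 1 / T * (z.2.1 - z.2.2.1)) = 0} ∩
    {z | z.2.2.2.2.2.1 - z.2.2.2.2.2.2 + (T * (z.2.1 + z.2.2.1)
      + 1 / T * (z.2.1 - z.2.2.1)) = 0})) with hE
  have hEc : IsClosed E := by
    refine IsClosed.inter ?_ (IsClosed.inter ?_ (IsClosed.inter ?_ ?_))
    · exact isClosed_le continuous_const (by fun_prop)
    · exact isClosed_eq (by fun_prop) (by fun_prop)
    · exact isClosed_eq (by fun_prop) (by fun_prop)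
    · exact isClosed_eq (by fun_prop) (by fun_prop)
  have hK : IsCompact (R ∩ E) := hRc.inter_right hEc
  set Δ : P7 → ℝ := fun z => Metric.infDist (⟨z.1 - z.2.1, z.2.2.2.1⟩ : ℂ) C
    + Metric.infDist (⟨z.1 + z.2.1, z.2.2.2.2.1⟩ : ℂ) C
    + Metric.infDist (⟨z.1 - z.2.2.1, z.2.2.2.2.2.1⟩ : ℂ) C
    + Metric.infDist (⟨z.1 + z.2.2.1, z.2.2.2.2.2.2⟩ : ℂ) C with hΔ
  have hΔc : Continuous Δ := by
    have i : Continuous (fun z : ℂ => Metric.infDist z C) := Metric.continuous_infDist_pt C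
    refine Continuous.add (Continuous.add (Continuous.add ?_ ?_) ?_) ?_
    · exact i.comp (cont_mk (by fun_prop) (by fun_prop))
    · exact i.comp (cont_mk (by fun_prop) (by fun_prop))
    · exact i.comp (cont_mk (by fun_prop) (by fun_prop))
    · exact i.comp (cont_mk (by fun_prop) (by fun_prop))
  have hsmall : ∀ l, 0 < l → l ≤ L → ∃ z ∈ R ∩ E, Δ z ≤ 8 * l := by
    intro l hl0 hl1
    obtain ⟨m, u, v, yW, yZ, yA, yB, b1, b2, b3, b4, b5, b6, b7, b8, e1, e2, e3,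
      d1, d2, d3, d4⟩ := hstep l hl0 hl1
    refine ⟨(m, u, v, yW, yZ, yA, yB), ⟨⟨abs_le.1 b1, abs_le.1 b2, abs_le.1 b3, abs_le.1 b4,
      abs_le.1 b5, abs_le.1 b6, abs_le.1 b7⟩, b8, e1, e2, e3⟩, ?_⟩
    show Metric.infDist (⟨m - u, yW⟩ : ℂ) C + Metric.infDist (⟨m + u, yZ⟩ : ℂ) C
      + Metric.infDist (⟨m - v, yA⟩ : ℂ) C + Metric.infDist (⟨m + v, yB⟩ : ℂ) C ≤ 8 * l
    linarith
  obtain ⟨z0, hz0, -⟩ := hsmall L hL le_rfl
  obtain ⟨z, hz, hmin⟩ := hK.exists_isMinOn ⟨z0, hz0⟩ hΔc.continuousOn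
  have hnn : ∀ w : ℂ, 0 ≤ Metric.infDist w C := fun w => Metric.infDist_nonneg
  have hz0' : Δ z ≤ 0 := by
    by_contra hcon
    push Not at hcon
    obtain ⟨y, hy, hy'⟩ := hsmall (min L (Δ z / 16)) (lt_min hL (by positivity))
      (min_le_left _ _)
    have h1 : Δ z ≤ Δ y := hmin hy
    have h2 : min L (Δ z / 16) ≤ Δ z / 16 := min_le_right _ _
    linarith
  obtain ⟨m, u, v, yW, yZ, yA, yB⟩ := z
  obtain ⟨-, h8, e1, e2, e3⟩ := hz
  have h1 := hnn (⟨m - u, yW⟩ : ℂ)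
  have h2 := hnn (⟨m + u, yZ⟩ : ℂ)
  have h3 := hnn (⟨m - v, yA⟩ : ℂ)
  have h4 := hnn (⟨m + v, yB⟩ : ℂ)
  change Metric.infDist (⟨m - u, yW⟩ : ℂ) C + Metric.infDist (⟨m + u, yZ⟩ : ℂ) C
      + Metric.infDist (⟨m - v, yA⟩ : ℂ) C + Metric.infDist (⟨m + v, yB⟩ : ℂ) C ≤ 0 at hz0'
  have fin : ∀ w : ℂ, Metric.infDist w C ≤ 0 → w ∈ C := by
    intro w hw
    exact (isClosed_frontier.mem_iff_infDist_zero h.front_ne).2 (le_antisymm hw (hnn w))
  refine ⟨m, u, v, yW, yZ, yA, yB, ?_, e1, e2, e3, fin _ (by linarith), fin _ (by linarith),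
    fin _ (by linarith), fin _ (by linarith)⟩
  rintro ⟨hu, hv⟩
  change ρ ≤ max |u| |v| at h8
  rw [hu, hv] at h8
  simp at h8
  linarith

end Pool.Agent.Run7.h118.TG.Loc
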