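import Mathlib

set_option autoImplicit false

open Set Filter Topology

/-! Upper directional rates (in the sense of Clarke) of functions on a normed space. -/

namespace Pool.Agent.Run7.h118.TG

variable {E : Type*} [NormedAddCommGroup E] [NormedSpace ℝ E]

/-- The upper rate of growth of `φ` near `x` in the direction `d` is at most `ρ`. -/
def Cl (φ : E → ℝ) (x d : E) (ρ : ℝ) : Prop :=
  ∀ ε > 0, ∀ᶠ p : E × ℝ in 𝓝 (x, (0:ℝ)), 0 ≤ p.2 →
    φ (p.1 + p.2 • d) ≤ φ p.1 + p.2 * (ρ + ε)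

/-- `l` changes near `x` in the direction `d` at the rate `r` up to `e`. -/
def Rt (l : E → ℝ) (x d : E) (r e : ℝ) : Prop :=
  ContinuousAt l x ∧ ∀ᶠ p : E × ℝ in 𝓝 (x, (0:ℝ)), 0 ≤ p.2 →
    |l (p.1 + p.2 • d) - l p.1 - p.2 * r| ≤ p.2 * e

theorem tendsto_move (x d : E) :
    Tendsto (fun p : E × ℝ => p.1 + p.2 • d) (𝓝 (x, (0:ℝ))) (𝓝 x) := by
  have h : Continuous (fun p : E × ℝ => p.1 + p.2 • d) := by fun_prop
  have := h.tendsto (x, (0:ℝ))
  simpa using this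

theorem tendsto_base (x : E) : Tendsto (fun p : E × ℝ => p.1) (𝓝 (x, (0:ℝ))) (𝓝 x) :=
  continuous_fst.tendsto (x, (0:ℝ))

theorem Cl.mono {φ : E → ℝ} {x d : E} {ρ σ : ℝ} (h : Cl φ x d ρ) (hρ : ρ ≤ σ) : Cl φ x d σ := by
  intro ε hε
  filter_upwards [h ε hε] with p hp h0
  have := hp h0
  have : p.2 * (ρ + ε) ≤ p.2 * (σ + ε) := mul_le_mul_of_nonneg_left (by linarith) h0
  linarith [hp h0]

theorem Cl.congr {φ ψ : E → ℝ} {x d : E} {ρ : ℝ} (h : Cl φ x d ρ) (he : φ =ᶠ[𝓝 x] ψ) :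
    Cl ψ x d ρ := by
  intro ε hε
  filter_upwards [h ε hε, (tendsto_move x d).eventually he, (tendsto_base x).eventually he]
    with p hp h1 h2 h0
  rw [← h1, ← h2]
  exact hp h0

theorem Cl.add {φ ψ : E → ℝ} {x d : E} {ρ σ : ℝ} (h : Cl φ x d ρ) (h' : Cl ψ x d σ) :
    Cl (fun y => φ y + ψ y) x d (ρ + σ) := by
  intro ε hε
  filter_upwards [h (ε / 2) (by linarith), h' (ε / 2) (by linarith)] with p hp hp' h0
  have h1 := hp h0
  have h2 := hp' h0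
  have : p.2 * (ρ + σ + ε) = p.2 * (ρ + ε / 2) + p.2 * (σ + ε / 2) := by ring
  linarith

theorem Cl.sup {φ ψ : E → ℝ} {x d : E} {ρ : ℝ} (h : Cl φ x d ρ) (h' : Cl ψ x d ρ) :
    Cl (fun y => max (φ y) (ψ y)) x d ρ := by
  intro ε hε
  filter_upwards [h ε hε, h' ε hε] with p hp hp' h0
  have h1 := hp h0
  have h2 := hp' h0
  apply max_le
  · linarith [le_max_left (φ p.1) (ψ p.1)]
  · linarith [le_max_right (φ p.1) (ψ p.1)]

theorem Cl.cmul {a κ : E → ℝ} {x d : E} {ρ : ℝ} (ha : ContinuousAt a x) (ha0 : ∀ y, 0 ≤ a y)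
    (had : ∀ y, ∀ s : ℝ, a (y + s • d) = a y) (h : Cl κ x d ρ) :
    Cl (fun y => a y * κ y) x d (a x * ρ) := by
  intro ε hε
  set ε' : ℝ := ε / (a x + 1) with hε'
  have hax : 0 < a x + 1 := by linarith [ha0 x]
  have hε0 : 0 < ε' := div_pos hε hax
  have hlt : a x * (ρ + ε') < a x * ρ + ε := by
    have h1 : ε' * (a x + 1) = ε := by rw [hε']; field_simp
    nlinarith
  have hev : ∀ᶠ y in 𝓝 x, a y * (ρ + ε') < a x * ρ + ε :=
    (ha.mul continuousAt_const).eventually (gt_mem_nhds hlt)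
  filter_upwards [h ε' hε0, (tendsto_base x).eventually hev] with p hp h1 h0
  have h2 := hp h0
  rw [had]
  have h3 : a p.1 * κ (p.1 + p.2 • d) ≤ a p.1 * (κ p.1 + p.2 * (ρ + ε')) :=
    mul_le_mul_of_nonneg_left h2 (ha0 _)
  have h4 : p.2 * (a p.1 * (ρ + ε')) ≤ p.2 * (a x * ρ + ε) :=
    mul_le_mul_of_nonneg_left h1.le h0
  have h5 : a p.1 * (κ p.1 + p.2 * (ρ + ε')) = a p.1 * κ p.1 + p.2 * (a p.1 * (ρ + ε')) := by
    ring
  linarith

theorem Rt.of_eq {l : E → ℝ} {x d : E} {r : ℝ} (hc : Continuous l)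
    (h : ∀ y, ∀ s : ℝ, 0 ≤ s → l (y + s • d) = l y + s * r) : Rt l x d r 0 := by
  refine ⟨hc.continuousAt, Eventually.of_forall fun p h0 => ?_⟩
  rw [h _ _ h0]
  simp

theorem Rt.of_le {l : E → ℝ} {x d : E} {r e : ℝ} (hc : Continuous l)
    (h : ∀ y, ∀ s : ℝ, 0 ≤ s → |l (y + s • d) - l y - s * r| ≤ s * e) : Rt l x d r e :=
  ⟨hc.continuousAt, Eventually.of_forall fun p h0 => h _ _ h0⟩

theorem Rt.congr {l k : E → ℝ} {x d : E} {r e : ℝ} (h : Rt l x d r e) (he : l =ᶠ[𝓝 x] k) :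
    Rt k x d r e := by
  refine ⟨h.1.congr he, ?_⟩
  filter_upwards [h.2, (tendsto_move x d).eventually he, (tendsto_base x).eventually he]
    with p hp h1 h2 h0
  rw [← h1, ← h2]
  exact hp h0

theorem chain {Φ : ℝ → ℝ} {φ₀ : ℝ} {l : E → ℝ} {x d : E} {r e : ℝ}
    (hΦ : HasStrictDerivAt Φ φ₀ (l x)) (h : Rt l x d r e) (he : 0 ≤ e) :
    Cl (fun y => Φ (l y)) x d (φ₀ * r + |φ₀| * e) := by
  intro ε hε
  set c : ℝ := ε / (|r| + e + 1) with hc
  have hden : 0 < |r| + e + 1 := by positivity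
  have hc0 : 0 < c := div_pos hε hden
  have hcm : c * (|r| + e + 1) = ε := by rw [hc]; field_simp
  have hs := hΦ.isLittleO.def hc0
  have ht : Tendsto (fun p : E × ℝ => (l (p.1 + p.2 • d), l p.1)) (𝓝 (x, (0:ℝ)))
      (𝓝 (l x, l x)) := by
    apply Tendsto.prodMk_nhds
    · exact h.1.tendsto.comp (tendsto_move x d)
    · exact h.1.tendsto.comp (tendsto_base x)
  filter_upwards [ht.eventually hs, h.2] with p h1 h2 h0
  have h3 := h2 h0
  simp only [ContinuousLinearMap.toSpanSingleton_apply, smul_eq_mul, Real.norm_eq_abs] at h1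
  set t1 := l (p.1 + p.2 • d)
  set t0 := l p.1
  have hsr : |t1 - t0| ≤ p.2 * (|r| + e) := by
    have e1 : t1 - t0 = (t1 - t0 - p.2 * r) + p.2 * r := by ring
    rw [e1]
    refine (abs_add_le _ _).trans ?_
    rw [abs_mul, abs_of_nonneg h0]
    linarith
  have h4 : Φ t1 - Φ t0 ≤ (t1 - t0) * φ₀ + c * |t1 - t0| := by
    have := (abs_le.1 h1).2
    linarith
  have h5 : (t1 - t0) * φ₀ ≤ p.2 * r * φ₀ + p.2 * e * |φ₀| := by
    have e1 : (t1 - t0) * φ₀ = p.2 * r * φ₀ + (t1 - t0 - p.2 * r) * φ₀ := by ring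
    have e2 : (t1 - t0 - p.2 * r) * φ₀ ≤ |t1 - t0 - p.2 * r| * |φ₀| := by
      rw [← abs_mul]; exact le_abs_self _
    have e3 : |t1 - t0 - p.2 * r| * |φ₀| ≤ p.2 * e * |φ₀| :=
      mul_le_mul_of_nonneg_right h3 (abs_nonneg _)
    linarith
  have h6 : c * |t1 - t0| ≤ p.2 * ε := by
    have : c * |t1 - t0| ≤ c * (p.2 * (|r| + e)) := mul_le_mul_of_nonneg_left hsr hc0.le
    have h7 : c * (p.2 * (|r| + e)) ≤ p.2 * (c * (|r| + e + 1)) := by
      have : 0 ≤ p.2 * c := mul_nonneg h0 hc0.le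
      nlinarith
    rw [hcm] at h7
    linarith
  have e7 : p.2 * (φ₀ * r + |φ₀| * e + ε) = p.2 * r * φ₀ + p.2 * e * |φ₀| + p.2 * ε := by ring
  rw [e7]
  linarith

theorem chain0 {Φ : ℝ → ℝ} {φ₀ : ℝ} {l : E → ℝ} {x d : E} {r : ℝ}
    (hΦ : HasStrictDerivAt Φ φ₀ (l x)) (h : Rt l x d r 0) :
    Cl (fun y => Φ (l y)) x d (φ₀ * r) := by
  have := chain hΦ h le_rfl
  simpa using this

end Pool.Agent.Run7.h118.TG
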