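import Pool.Agent.Run7.h118.TGSurf

set_option autoImplicit false

open Set Filter Topology

/-! Reduction of Jordan curves to two graphs. -/

namespace Pool.Agent.Run7.h118.TG

/-- Two continuous functions `f < g` on `(a, b)`, equal at `a` and `b`: a rectangle of the given
kind with the vertices on the graphs. -/
theorem two_graphs {a b : ℝ} (hab : a < b) {f g : ℝ → ℝ} (hf : ContinuousOn f (Icc a b))
    (hg : ContinuousOn g (Icc a b)) (ha : f a = g a) (hb : f b = g b)
    (hlt : ∀ x ∈ Ioo a b, f x < g x) {θ : ℝ} (h0 : 0 < θ) (hπ : θ < Real.pi) :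
    ∃ z d : ℂ, d ≠ 0 ∧ ∀ p : ℂ, (p = z + d ∨ p = z - d ∨ p = z + Complex.exp (θ * Complex.I) * d ∨
      p = z - Complex.exp (θ * Complex.I) * d) →
      p.re ∈ Icc a b ∧ (p.im = f p.re ∨ p.im = g p.re) := by
  have hL : 0 < b - a := by linarith
  have hsin : 0 < Real.sin θ := Real.sin_pos_of_pos_of_lt_pi h0 hπ
  have hcos : Real.cos θ < 1 := by
    have h1 := Real.sin_sq_add_cos_sq θ
    nlinarith [Real.neg_one_le_cos θ, Real.cos_le_one θ]
  set T : ℝ := (1 - Real.cos θ) / Real.sin θ with hT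
  have hT0 : 0 < T := div_pos (by linarith) hsin
  have hk : ∀ x, a + (b - a) * cl x ∈ Icc a b := fun x => by
    have h1 := cl_nonneg x
    have h2 := cl_le_one x
    constructor
    · nlinarith
    · nlinarith
  have hkc : Continuous (fun x => a + (b - a) * cl x) := by have := cl_cont; fun_prop
  have hfc : Continuous (fun x => f (a + (b - a) * cl x)) := hf.comp_continuous hkc hk
  have hgc : Continuous (fun x => g (a + (b - a) * cl x)) := hg.comp_continuous hkc hk
  obtain ⟨Y1, hY1⟩ : ∃ Y, ∀ x ∈ Icc a b, |f x| ≤ Y := by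
    obtain ⟨Y, hY⟩ := isCompact_Icc.exists_bound_of_continuousOn hf
    exact ⟨Y, fun x hx => hY x hx⟩
  obtain ⟨Y2, hY2⟩ : ∃ Y, ∀ x ∈ Icc a b, |g x| ≤ Y := by
    obtain ⟨Y, hY⟩ := isCompact_Icc.exists_bound_of_continuousOn hg
    exact ⟨Y, fun x hx => hY x hx⟩
  let D : Dat :=
    { f := fun x => f (a + (b - a) * cl x) / (b - a)
      w := fun x => (g (a + (b - a) * cl x) - f (a + (b - a) * cl x)) / (b - a)
      T := T
      Y := (|Y1| + |Y2|) / (b - a)
      hf := hfc.div_const _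
      hw := (hgc.sub hfc).div_const _
      hT := hT0
      w0 := fun x hx => by rw [cl_of_le hx, mul_zero, add_zero, ha, sub_self, zero_div]
      w1 := fun x hx => by
        rw [cl_of_ge hx, mul_one, add_sub_cancel, hb, sub_self, zero_div]
      wpos := fun x hx0 hx1 => by
        rw [cl_of_mem hx0.le hx1.le]
        apply div_pos _ hL
        have : a + (b - a) * x ∈ Ioo a b := by constructor <;> nlinarith
        linarith [hlt _ this]
      fY := fun x => by
        rw [abs_div, abs_of_pos hL]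
        apply div_le_div_of_nonneg_right _ hL.le
        have := hY1 _ (hk x)
        linarith [le_abs_self Y1, abs_nonneg Y2]
      wY := fun x => by
        rw [abs_div, abs_of_pos hL]
        apply div_le_div_of_nonneg_right _ hL.le
        have h1 := abs_le.1 (hY1 _ (hk x))
        have h2 := abs_le.1 (hY2 _ (hk x))
        rw [abs_le]
        constructor <;> linarith [le_abs_self Y1, le_abs_self Y2] }
  have hmain := Dat.main D
  unfold Dat.NoRect at hmain
  push Not at hmain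
  obtain ⟨m, u, v, yW, yZ, yA, yB, huv, oW, oZ, oA, oB, e1, e2, e3, -⟩ := hmain
  have hDT : D.T = T := rfl
  rw [hDT] at e2 e3
  have hcs := Real.sin_sq_add_cos_sq θ
  have hTs : T * Real.sin θ = 1 - Real.cos θ := by rw [hT]; field_simp
  have hTc : (1 / T) * Real.sin θ = 1 + Real.cos θ := by
    have hne : (1 - Real.cos θ) ≠ 0 := by linarith
    have h1 : (1 / T) * (T * Real.sin θ) * Real.sin θ
        = (1 + Real.cos θ) * (1 - Real.cos θ) := by
      have : (1 / T) * (T * Real.sin θ) = Real.sin θ := by field_simp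
      rw [this]; nlinarith
    rw [hTs] at h1
    have h2 : (1 / T * Real.sin θ) * (1 - Real.cos θ)
        = (1 + Real.cos θ) * (1 - Real.cos θ) := by linarith
    exact mul_right_cancel₀ hne h2
  -- points of the graphs
  have on : ∀ x y, D.On x y → ∀ p : ℂ, p.re = a + (b - a) * x → p.im = (b - a) * y →
      p.re ∈ Icc a b ∧ (p.im = f p.re ∨ p.im = g p.re) := by
    intro x y hxy p hp1 hp2
    obtain ⟨x0, x1, hy⟩ := hxy
    have hk' := hk x
    rw [cl_of_mem x0 x1] at hk'
    refine ⟨by rw [hp1]; exact hk', ?_⟩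
    rw [hp1, hp2]
    rcases hy with hy | hy
    · left
      rw [hy]
      show (b - a) * (f (a + (b - a) * cl x) / (b - a)) = _
      rw [cl_of_mem x0 x1]; field_simp
    · right
      rw [hy]
      show (b - a) * (f (a + (b - a) * cl x) / (b - a)
        + (g (a + (b - a) * cl x) - f (a + (b - a) * cl x)) / (b - a)) = _
      rw [cl_of_mem x0 x1]; field_simp; ring
  set d : ℂ := ⟨(b - a) * u, (b - a) * ((yZ - yW) / 2)⟩ with hd
  set z : ℂ := ⟨a + (b - a) * m, (b - a) * ((yZ + yW) / 2)⟩ with hz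
  have hrot : Complex.exp (θ * Complex.I) * d = ⟨(b - a) * v, (b - a) * ((yB - yA) / 2)⟩ := by
    have e4 : yZ - yW = 1 / T * (u - v) - T * (u + v) := by linarith
    have e5 : yB - yA = 1 / T * (u - v) + T * (u + v) := by linarith
    rw [Complex.exp_mul_I, ← Complex.ofReal_cos, ← Complex.ofReal_sin]
    apply Complex.ext
    · simp only [hd, Complex.mul_re, Complex.add_re, Complex.ofReal_re, Complex.ofReal_im,
        Complex.I_re, Complex.I_im, Complex.add_im, Complex.mul_im, e4]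
      linear_combination (b - a) * ((u + v) / 2 * hTs - (u - v) / 2 * hTc)
    · simp only [hd, Complex.mul_re, Complex.add_re, Complex.ofReal_re, Complex.ofReal_im,
        Complex.I_re, Complex.I_im, Complex.add_im, Complex.mul_im, e4, e5]
      have hTT : T * (1 / T) = 1 := by field_simp
      have hs1 : Real.sin θ = T * (1 + Real.cos θ) := by
        have : T * ((1 / T) * Real.sin θ) = T * (1 + Real.cos θ) := by rw [hTc]
        have h2 : T * ((1 / T) * Real.sin θ) = Real.sin θ := by field_simp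
        linarith
      have hs2 : Real.sin θ = 1 / T * (1 - Real.cos θ) := by
        rw [← hTs]; field_simp
      linear_combination (b - a) * ((u + v) / 2 * hs1 + (u - v) / 2 * hs2)
  refine ⟨z, d, ?_, ?_⟩
  · intro hd0
    have h1 : (b - a) * u = 0 := congrArg Complex.re hd0
    have h2 : (⟨(b - a) * v, (b - a) * ((yB - yA) / 2)⟩ : ℂ) = 0 := by
      rw [← hrot, hd0, mul_zero]
    have h3 : (b - a) * v = 0 := congrArg Complex.re h2
    exact huv ((mul_eq_zero.1 h1).resolve_left hL.ne') ((mul_eq_zero.1 h3).resolve_left hL.ne')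
  · intro p hp
    rw [hrot] at hp
    rcases hp with hp | hp | hp | hp
    · apply on _ _ oZ p
      · rw [hp]; simp only [hz, hd, Complex.add_re]; ring
      · rw [hp]; simp only [hz, hd, Complex.add_im]; ring
    · apply on _ _ oW p
      · rw [hp]; simp only [hz, hd, Complex.sub_re]; ring
      · rw [hp]; simp only [hz, hd, Complex.sub_im]; ring
    · apply on _ _ oB p
      · rw [hp]; simp only [hz, Complex.add_re]; ring
      · rw [hp]; simp only [hz, Complex.add_im]; linear_combination (b - a) / 2 * e1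
    · apply on _ _ oA p
      · rw [hp]; simp only [hz, Complex.sub_re]; ring
      · rw [hp]; simp only [hz, Complex.sub_im]; linear_combination (b - a) / 2 * e1

/-- The inverse of an injective continuous function on an interval. -/
theorem exists_inv {X : ℝ → ℝ} {p q a b : ℝ} (hX : Continuous X) (hinj : InjOn X (Icc p q))
    (hmaps : MapsTo X (Icc p q) (Icc a b)) (hsurj : SurjOn X (Icc p q) (Icc a b)) :
    ∃ φ : ℝ → ℝ, ContinuousOn φ (Icc a b) ∧ ∀ x ∈ Icc a b, φ x ∈ Icc p q ∧ X (φ x) = x := by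
  let e0 : Icc p q → Icc a b := fun t => ⟨X t, hmaps t.2⟩
  have hb : Function.Bijective e0 := by
    constructor
    · intro s t hst
      exact Subtype.ext (hinj s.2 t.2 (congrArg Subtype.val hst))
    · intro y
      obtain ⟨t, ht, hty⟩ := hsurj y.2
      exact ⟨⟨t, ht⟩, Subtype.ext hty⟩
  let e := Equiv.ofBijective e0 hb
  have hec : Continuous e := by
    show Continuous e0
    exact Continuous.subtype_mk (hX.comp continuous_subtype_val) _
  let E := hec.homeoOfEquivCompactToT2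
  classical
  refine ⟨fun x => if h : x ∈ Icc a b then (E.symm ⟨x, h⟩ : ℝ) else 0, ?_, ?_⟩
  · rw [continuousOn_iff_continuous_domRestrict]
    have h1 : (Icc a b).domRestrict (fun x => if h : x ∈ Icc a b then (E.symm ⟨x, h⟩ : ℝ) else 0)
        = fun x => ((E.symm x : Icc p q) : ℝ) := by
      funext x
      simp only [Set.domRestrict_apply]
      rw [dif_pos x.2]
    rw [h1]
    exact continuous_subtype_val.comp E.symm.continuous
  · intro x hx
    simp only
    rw [dif_pos hx]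
    refine ⟨(E.symm ⟨x, hx⟩).2, ?_⟩
    have := E.apply_symm_apply ⟨x, hx⟩
    exact congrArg Subtype.val this

/-- Injectivity of the abscissa on an arc. -/
theorem inj_arc {c : ℝ → ℂ} (hc : Continuous c) {s0 : ℝ}
    (h2 : ∀ p ∈ Ico s0 (s0 + 1), ∀ q ∈ Ico s0 (s0 + 1), ∀ r ∈ Ico s0 (s0 + 1),
      (c p).re = (c q).re → (c q).re = (c r).re → p = q ∨ q = r ∨ p = r)
    {a b p q : ℝ} (hs : s0 ≤ p) (hs' : q ≤ s0 + 1)
    (hX : ∀ t, a ≤ (c t).re ∧ (c t).re ≤ b)
    (h3 : ∀ x ∈ Ioo a b, ∃ r ∈ Ico s0 (s0 + 1), r ∉ Ioo p q ∧ (c r).re = x) :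
    InjOn (fun t => (c t).re) (Icc p q) := by
  have hXc : Continuous (fun t => (c t).re) := Complex.continuous_re.comp hc
  have key : ∀ t ∈ Icc p q, ∀ t' ∈ Icc p q, t < t' → (c t).re ≠ (c t').re := by
    intro t ht t' ht' htt' heq
    have hex : ∃ t1 ∈ Ioo t t', (c t1).re ≠ (c t).re := by
      by_contra hcon
      push Not at hcon
      have m1 : t + (t' - t) / 3 ∈ Ioo t t' := by constructor <;> linarith
      have m2 : t + 2 * (t' - t) / 3 ∈ Ioo t t' := by constructor <;> linarith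
      rcases h2 t ⟨by linarith [ht.1], by linarith [ht'.2]⟩ _
        ⟨by linarith [ht.1, m1.1], by linarith [ht'.2, m1.2]⟩ _
        ⟨by linarith [ht.1, m2.1], by linarith [ht'.2, m2.2]⟩
        (hcon _ m1).symm ((hcon _ m1).trans (hcon _ m2).symm) with h | h | h <;> linarith
    obtain ⟨t1, ht1, hne⟩ := hex
    set x' : ℝ := ((c t).re + (c t1).re) / 2 with hx'
    have hx1 : x' ∈ Ioo a b := by
      rcases lt_or_gt_of_ne hne with h | h
      · constructor
        · linarith [(hX t1).1]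
        · linarith [(hX t).2]
      · constructor
        · linarith [(hX t).1]
        · linarith [(hX t1).2]
    obtain ⟨r, hr, hrn, hrx⟩ := h3 x' hx1
    have ivt : ∀ α β : ℝ, α < β → ((c α).re < x' ∧ x' < (c β).re ∨ x' < (c α).re ∧
        (c β).re < x') → ∃ s ∈ Ioo α β, (c s).re = x' := by
      intro α β hαβ h
      rcases h with ⟨h1, h2⟩ | ⟨h1, h2⟩
      · obtain ⟨s, hs, hsx⟩ := intermediate_value_Ioo hαβ.le hXc.continuousOn ⟨h1, h2⟩
        exact ⟨s, hs, hsx⟩
      · obtain ⟨s, hs, hsx⟩ := intermediate_value_Ioo' hαβ.le hXc.continuousOn ⟨h2, h1⟩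
        exact ⟨s, hs, hsx⟩
    obtain ⟨p1, hp1, hp1x⟩ := ivt t t1 ht1.1 (by
      rcases lt_or_gt_of_ne hne with h | h
      · right; constructor <;> linarith
      · left; constructor <;> linarith)
    obtain ⟨p2, hp2, hp2x⟩ := ivt t1 t' ht1.2 (by
      rcases lt_or_gt_of_ne hne with h | h
      · left; constructor <;> linarith
      · right; constructor <;> linarith)
    have i1 : p1 ∈ Ioo p q := ⟨by linarith [ht.1, hp1.1], by linarith [ht'.2, hp1.2, ht1.2]⟩
    have i2 : p2 ∈ Ioo p q := ⟨by linarith [ht.1, hp2.1, ht1.1], by linarith [ht'.2, hp2.2]⟩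
    rcases h2 p1 ⟨by linarith [i1.1], by linarith [i1.2]⟩ p2
      ⟨by linarith [i2.1], by linarith [i2.2]⟩ r hr (hp1x.trans hp2x.symm)
      (hp2x.trans hrx.symm) with h | h | h
    · have := hp1.2; have := hp2.1; linarith
    · exact hrn (h ▸ i2)
    · exact hrn (h ▸ i1)
  intro s hs1 t ht1 hst
  rcases lt_trichotomy s t with h | h | h
  · exact absurd hst (key s hs1 t ht1 h)
  · exact h
  · exact absurd hst.symm (key t ht1 s hs1 h)

theorem inj_shift {c : ℝ → ℂ} (hper : ∀ t, c (t + 1) = c t) (hinj : InjOn c (Ico 0 1)) (s0 : ℝ) :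
    InjOn c (Ico s0 (s0 + 1)) := by
  have hfr : ∀ s, c s = c (Int.fract s) := by
    intro s
    have hperz : Function.Periodic c 1 := hper
    have := hperz.sub_zsmul_eq (x := s) ⌊s⌋
    rw [← this]
    congr 1
    show s - ⌊s⌋ • (1:ℝ) = s - ⌊s⌋
    rw [zsmul_eq_mul, mul_one]
  intro s hs t ht hst
  rw [hfr s, hfr t] at hst
  have h := hinj ⟨Int.fract_nonneg s, Int.fract_lt_one s⟩
    ⟨Int.fract_nonneg t, Int.fract_lt_one t⟩ hst
  have h1 := Int.self_sub_floor s
  have h2 := Int.self_sub_floor t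
  have h3 : s - t = ((⌊s⌋ - ⌊t⌋ : ℤ) : ℝ) := by push_cast; linarith
  have h4 : |s - t| < 1 := by rw [abs_lt]; constructor <;> linarith [hs.1, hs.2, ht.1, ht.2]
  rw [h3] at h4
  have h5 : ⌊s⌋ - ⌊t⌋ = 0 := by
    rw [← Int.abs_lt_one_iff]
    exact_mod_cast h4
  rw [h5] at h3
  simp at h3
  linarith

/-- The theorem for the vertical direction. -/
theorem vertical {c : ℝ → ℂ} (hc : Continuous c) (hper : ∀ t, c (t + 1) = c t)
    (hinj : InjOn c (Ico 0 1))
    (h2 : ∀ p q r : ℂ, p ∈ range c → q ∈ range c → r ∈ range c → p.re = q.re → q.re = r.re →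
      p = q ∨ q = r ∨ p = r) {θ : ℝ} (h0 : 0 < θ) (hπ : θ < Real.pi) :
    ∃ z d : ℂ, d ≠ 0 ∧ z + d ∈ range c ∧ z - d ∈ range c ∧
      z + Complex.exp (θ * Complex.I) * d ∈ range c ∧
      z - Complex.exp (θ * Complex.I) * d ∈ range c := by
  have hXc : Continuous (fun t => (c t).re) := Complex.continuous_re.comp hc
  have hfr : ∀ s s0 : ℝ, c (s0 + Int.fract (s - s0)) = c s := by
    intro s s0
    have hperz : Function.Periodic c 1 := hper
    have := hperz.sub_zsmul_eq (x := s) ⌊s - s0⌋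
    rw [← this]
    congr 1
    rw [zsmul_eq_mul, mul_one]
    have := Int.self_sub_floor (s - s0)
    linarith
  obtain ⟨s0, -, hmin⟩ := isCompact_Icc.exists_isMinOn (nonempty_Icc.2 (zero_le_one (α := ℝ)))
    hXc.continuousOn
  have hs0 : ∀ t, (c s0).re ≤ (c t).re := by
    intro t
    have h := hfr t 0
    rw [← h, zero_add]
    exact hmin (⟨Int.fract_nonneg _, (Int.fract_lt_one _).le⟩ : Int.fract (t - 0) ∈ Icc (0:ℝ) 1)
  obtain ⟨s1', -, hmax⟩ := isCompact_Icc.exists_isMaxOn (nonempty_Icc.2 (zero_le_one (α := ℝ)))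
    hXc.continuousOn
  have hs1' : ∀ t, (c t).re ≤ (c s1').re := by
    intro t
    have h := hfr t 0
    rw [← h, zero_add]
    exact hmax (⟨Int.fract_nonneg _, (Int.fract_lt_one _).le⟩ : Int.fract (t - 0) ∈ Icc (0:ℝ) 1)
  set s1 : ℝ := s0 + Int.fract (s1' - s0) with hs1def
  have hcs1 : c s1 = c s1' := hfr s1' s0
  have hs1 : ∀ t, (c t).re ≤ (c s1).re := fun t => by rw [hcs1]; exact hs1' t
  have hinj' := inj_shift hper hinj s0
  have h2' : ∀ p ∈ Ico s0 (s0 + 1), ∀ q ∈ Ico s0 (s0 + 1), ∀ r ∈ Ico s0 (s0 + 1),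
      (c p).re = (c q).re → (c q).re = (c r).re → p = q ∨ q = r ∨ p = r := by
    intro p hp q hq r hr e1 e2
    rcases h2 (c p) (c q) (c r) ⟨p, rfl⟩ ⟨q, rfl⟩ ⟨r, rfl⟩ e1 e2 with h | h | h
    · exact Or.inl (hinj' hp hq h)
    · exact Or.inr (Or.inl (hinj' hq hr h))
    · exact Or.inr (Or.inr (hinj' hp hr h))
  set a : ℝ := (c s0).re with ha
  set b : ℝ := (c s1).re with hb
  have hab : a < b := by
    rcases (hs0 s1).eq_or_lt with h | h
    · exfalso
      have hconst : ∀ t, (c t).re = a := fun t =>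
        le_antisymm ((hs1 t).trans (le_of_eq h.symm)) (hs0 t)
      rcases h2' s0 ⟨le_rfl, by linarith⟩ (s0 + 1 / 4) ⟨by linarith, by linarith⟩ (s0 + 1 / 2)
        ⟨by linarith, by linarith⟩ (by rw [hconst, hconst]) (by rw [hconst, hconst])
        with h | h | h <;> linarith
    · exact h
  have hs01 : s0 < s1 := by
    have h1 : s0 ≤ s1 := by
      have := Int.fract_nonneg (s1' - s0); rw [hs1def]; linarith
    rcases h1.eq_or_lt with h | h
    · rw [ha, hb, ← h] at hab; exact absurd hab (lt_irrefl _)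
    · exact h
  have hs11 : s1 < s0 + 1 := by
    have := Int.fract_lt_one (s1' - s0); rw [hs1def]; linarith
  have hX : ∀ t, a ≤ (c t).re ∧ (c t).re ≤ b := fun t => ⟨hs0 t, hs1 t⟩
  have hc1 : c (s0 + 1) = c s0 := hper s0
  have ivt1 : ∀ x ∈ Ioo a b, ∃ r ∈ Ioo s0 s1, (c r).re = x := by
    intro x hx
    obtain ⟨r, hr, hrx⟩ := intermediate_value_Ioo hs01.le hXc.continuousOn hx
    exact ⟨r, hr, hrx⟩
  have ivt2 : ∀ x ∈ Ioo a b, ∃ r ∈ Ioo s1 (s0 + 1), (c r).re = x := by
    intro x hx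
    have hx' : x ∈ Ioo ((c (s0 + 1)).re) ((c s1).re) := by rw [hc1]; exact hx
    obtain ⟨r, hr, hrx⟩ := intermediate_value_Ioo' hs11.le hXc.continuousOn hx'
    exact ⟨r, hr, hrx⟩
  have inj1 : InjOn (fun t => (c t).re) (Icc s0 s1) := by
    refine inj_arc hc h2' le_rfl hs11.le hX (fun x hx => ?_)
    obtain ⟨r, hr, hrx⟩ := ivt2 x hx
    exact ⟨r, ⟨by linarith [hr.1], hr.2⟩, fun h => by linarith [h.2, hr.1], hrx⟩
  have inj2 : InjOn (fun t => (c t).re) (Icc s1 (s0 + 1)) := by
    refine inj_arc hc h2' hs01.le le_rfl hX (fun x hx => ?_)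
    obtain ⟨r, hr, hrx⟩ := ivt1 x hx
    exact ⟨r, ⟨hr.1.le, by linarith [hr.2]⟩, fun h => by linarith [h.1, hr.2], hrx⟩
  obtain ⟨φ, hφc, hφ⟩ := exists_inv hXc inj1 (a := a) (b := b) (fun t _ => hX t)
    (intermediate_value_Icc hs01.le hXc.continuousOn)
  obtain ⟨ψ, hψc, hψ⟩ := exists_inv hXc inj2 (a := a) (b := b) (fun t _ => hX t) (by
    have := intermediate_value_Icc' hs11.le hXc.continuousOn
    rw [hc1] at this
    exact this)
  set f : ℝ → ℝ := fun x => (c (φ x)).im with hf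
  set g : ℝ → ℝ := fun x => (c (ψ x)).im with hg
  have hfc : ContinuousOn f (Icc a b) := (Complex.continuous_im.comp hc).comp_continuousOn hφc
  have hgc : ContinuousOn g (Icc a b) := (Complex.continuous_im.comp hc).comp_continuousOn hψc
  have hfa : f a = g a := by
    have m : a ∈ Icc a b := ⟨le_rfl, hab.le⟩
    have e1 : φ a = s0 := inj1 (hφ a m).1 ⟨le_rfl, hs01.le⟩ (hφ a m).2
    have e2 : ψ a = s0 + 1 := inj2 (hψ a m).1 ⟨hs11.le, le_rfl⟩ (by
      simp only; rw [hc1]; exact (hψ a m).2)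
    simp only [hf, hg]; rw [e1, e2, hc1]
  have hfb : f b = g b := by
    have m : b ∈ Icc a b := ⟨hab.le, le_rfl⟩
    have e1 : φ b = s1 := inj1 (hφ b m).1 ⟨hs01.le, le_rfl⟩ (hφ b m).2
    have e2 : ψ b = s1 := inj2 (hψ b m).1 ⟨le_rfl, hs11.le⟩ (hψ b m).2
    simp only [hf, hg]; rw [e1, e2]
  have hne : ∀ x ∈ Ioo a b, f x ≠ g x := by
    intro x hx heq
    have m : x ∈ Icc a b := ⟨hx.1.le, hx.2.le⟩
    have h1 := hφ x m
    have h3 := hψ x m
    have hceq : c (φ x) = c (ψ x) := Complex.ext (h1.2.trans h3.2.symm) heq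
    have l1 : φ x < s1 := by
      rcases h1.1.2.eq_or_lt with h | h
      · have := h1.2; rw [h] at this; linarith [hx.2]
      · exact h
    have l2 : ψ x < s0 + 1 := by
      rcases h3.1.2.eq_or_lt with h | h
      · have := h3.2; rw [h, hc1] at this; linarith [hx.1]
      · exact h
    have := hinj' ⟨h1.1.1, by linarith⟩ ⟨by linarith [h3.1.1], l2⟩ hceq
    linarith [h3.1.1]
  have fin : ∀ z d : ℂ, (∀ p : ℂ, (p = z + d ∨ p = z - d ∨
      p = z + Complex.exp (θ * Complex.I) * d ∨ p = z - Complex.exp (θ * Complex.I) * d) →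
      p.re ∈ Icc a b ∧ (p.im = f p.re ∨ p.im = g p.re)) →
      z + d ∈ range c ∧ z - d ∈ range c ∧ z + Complex.exp (θ * Complex.I) * d ∈ range c ∧
      z - Complex.exp (θ * Complex.I) * d ∈ range c := by
    intro z d h
    have mem : ∀ p : ℂ, p.re ∈ Icc a b ∧ (p.im = f p.re ∨ p.im = g p.re) → p ∈ range c := by
      rintro p ⟨hp, hp' | hp'⟩
      · exact ⟨φ p.re, Complex.ext (hφ _ hp).2 hp'.symm⟩
      · exact ⟨ψ p.re, Complex.ext (hψ _ hp).2 hp'.symm⟩
    exact ⟨mem _ (h _ (Or.inl rfl)), mem _ (h _ (Or.inr (Or.inl rfl))),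
      mem _ (h _ (Or.inr (Or.inr (Or.inl rfl)))), mem _ (h _ (Or.inr (Or.inr (Or.inr rfl))))⟩
  by_cases hsgn : ∃ x ∈ Ioo a b, f x < g x
  · obtain ⟨x0, hx0, hlt0⟩ := hsgn
    have hall : ∀ x ∈ Ioo a b, f x < g x := by
      intro x hx
      by_contra hcon
      have hgt : g x < f x := lt_of_le_of_ne (not_lt.1 hcon) (hne x hx).symm
      obtain ⟨y, hy, hy0⟩ := isPreconnected_Ioo.intermediate_value hx0 hx
        (f := fun t => f t - g t) ((hfc.sub hgc).mono Ioo_subset_Icc_self)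
        (⟨by linarith, by linarith⟩ : (0:ℝ) ∈ Icc (f x0 - g x0) (f x - g x))
      exact hne y hy (by simp only at hy0; linarith)
    obtain ⟨z, d, hd, h⟩ := two_graphs hab hfc hgc hfa hfb hall h0 hπ
    exact ⟨z, d, hd, fin z d h⟩
  · push Not at hsgn
    have hall : ∀ x ∈ Ioo a b, g x < f x := fun x hx =>
      lt_of_le_of_ne (hsgn x hx) (hne x hx).symm
    obtain ⟨z, d, hd, h⟩ := two_graphs hab hgc hfc hfa.symm hfb.symm hall h0 hπ
    exact ⟨z, d, hd, fin z d fun p hp => ⟨(h p hp).1, (h p hp).2.symm⟩⟩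

/-- The theorem for an arbitrary direction. -/
theorem direction {c : ℝ → ℂ} (hc : Continuous c) (hper : ∀ t, c (t + 1) = c t)
    (hinj : InjOn c (Ico 0 1)) {w : ℂ} (hw : w ≠ 0)
    (h2 : ∀ p q r : ℂ, p ∈ range c → q ∈ range c → r ∈ range c → (w * p).re = (w * q).re →
      (w * q).re = (w * r).re → p = q ∨ q = r ∨ p = r) {θ : ℝ} (h0 : 0 < θ)
    (hπ : θ < Real.pi) :
    ∃ z d : ℂ, d ≠ 0 ∧ z + d ∈ range c ∧ z - d ∈ range c ∧
      z + Complex.exp (θ * Complex.I) * d ∈ range c ∧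
      z - Complex.exp (θ * Complex.I) * d ∈ range c := by
  have hc' : Continuous (fun t => w * c t) := by fun_prop
  obtain ⟨z, d, hd, ⟨t1, h1⟩, ⟨t2, h2⟩, ⟨t3, h3⟩, ⟨t4, h4⟩⟩ := vertical hc'
    (fun t => by simp only [hper]) (fun s hs t ht hst => hinj hs ht (mul_left_cancel₀ hw hst))
    (by
      rintro _ _ _ ⟨p, rfl⟩ ⟨q, rfl⟩ ⟨r, rfl⟩ e1 e2
      rcases h2 (c p) (c q) (c r) ⟨p, rfl⟩ ⟨q, rfl⟩ ⟨r, rfl⟩ e1 e2 with h | h | h
      · left; simp only; rw [h]
      · right; left; simp only; rw [h]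
      · right; right; simp only; rw [h]) h0 hπ
  simp only at h1 h2 h3 h4
  refine ⟨z / w, d / w, div_ne_zero hd hw, ⟨t1, ?_⟩, ⟨t2, ?_⟩, ⟨t3, ?_⟩, ⟨t4, ?_⟩⟩
  · field_simp; rw [mul_comm, h1]
  · field_simp; rw [mul_comm, h2]
  · field_simp; rw [mul_comm, h3]
  · field_simp; rw [mul_comm, h4]

end Pool.Agent.Run7.h118.TG
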