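import Pool.Agent.Run7.h118.TGPush

set_option autoImplicit false

open Set Filter Topology intervalIntegral

/-! The data of two graphs and the five-dimensional action function. -/

namespace Pool.Agent.Run7.h118.TG

/-- Two functions `f ≤ f + w`, equal outside `(0, 1)`, and the parameter `T = tan (θ / 2)` of a
rectangle. -/
structure Dat where
  f : ℝ → ℝ
  w : ℝ → ℝ
  T : ℝ
  Y : ℝ
  hf : Continuous f
  hw : Continuous w
  hT : 0 < T
  w0 : ∀ x, x ≤ 0 → w x = 0
  w1 : ∀ x, 1 ≤ x → w x = 0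
  wpos : ∀ x, 0 < x → x < 1 → 0 < w x
  fY : ∀ x, |f x| ≤ Y
  wY : ∀ x, |w x| ≤ Y

namespace Dat

variable (D : Dat)

/-- The antiderivative of `f`. -/
noncomputable def F (x : ℝ) : ℝ := ∫ t in (0:ℝ)..x, D.f t

/-- The antiderivative of `w`. -/
noncomputable def G (x : ℝ) : ℝ := ∫ t in (0:ℝ)..x, D.w t

theorem w_nonneg (x : ℝ) : 0 ≤ D.w x := by
  rcases le_or_gt x 0 with h | h
  · rw [D.w0 x h]
  · rcases le_or_gt 1 x with h1 | h1
    · rw [D.w1 x h1]
    · exact (D.wpos x h h1).le

theorem hasF (x : ℝ) : HasStrictDerivAt D.F (D.f x) x :=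
  D.hf.integral_hasStrictDerivAt 0 x

theorem hasG (x : ℝ) : HasStrictDerivAt D.G (D.w x) x :=
  D.hw.integral_hasStrictDerivAt 0 x

theorem contF : Continuous D.F :=
  continuous_iff_continuousAt.2 fun x => (D.hasF x).hasDerivAt.continuousAt

theorem contG : Continuous D.G :=
  continuous_iff_continuousAt.2 fun x => (D.hasG x).hasDerivAt.continuousAt

theorem G_zero : D.G 0 = 0 := by simp [G]

theorem G_mono : Monotone D.G :=
  monotone_of_hasDerivAt_nonneg (fun x => (D.hasG x).hasDerivAt) (fun x => D.w_nonneg x)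

theorem G_strict : StrictMonoOn D.G (Icc 0 1) := by
  apply strictMonoOn_of_deriv_pos (convex_Icc 0 1) D.contG.continuousOn
  intro x hx
  rw [interior_Icc] at hx
  rw [(D.hasG x).hasDerivAt.deriv]
  exact D.wpos x hx.1 hx.2

theorem G_nonneg {x : ℝ} (hx : 0 ≤ x) : 0 ≤ D.G x := by
  have := D.G_mono hx
  rwa [D.G_zero] at this

theorem G_neg {x : ℝ} (hx : x ≤ 0) : D.G x = 0 := by
  have h : ∀ y ∈ Icc x 0, D.G y = D.G x := by
    apply constant_of_derivWithin_zero
    · intro y _
      exact (D.hasG y).hasDerivAt.differentiableAt.differentiableWithinAt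
    · intro y hy
      have hu : UniqueDiffWithinAt ℝ (Icc x 0) y :=
        uniqueDiffOn_Icc (lt_of_le_of_lt hy.1 hy.2) y ⟨hy.1, hy.2.le⟩
      rw [(D.hasG y).hasDerivAt.hasDerivWithinAt.derivWithin hu]
      exact D.w0 y hy.2.le
  rw [← h 0 ⟨hx, le_rfl⟩, D.G_zero]

theorem G_one_le {x : ℝ} (hx : 1 ≤ x) : D.G x = D.G 1 := by
  have h : ∀ y ∈ Icc 1 x, D.G y = D.G 1 := by
    apply constant_of_derivWithin_zero
    · intro y _
      exact (D.hasG y).hasDerivAt.differentiableAt.differentiableWithinAt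
    · intro y hy
      have hu : UniqueDiffWithinAt ℝ (Icc 1 x) y :=
        uniqueDiffOn_Icc (lt_of_le_of_lt hy.1 hy.2) y ⟨hy.1, hy.2.le⟩
      rw [(D.hasG y).hasDerivAt.hasDerivWithinAt.derivWithin hu]
      exact D.w1 y hy.1
  exact h x ⟨hx, le_rfl⟩

theorem G_le (x : ℝ) : D.G x ≤ D.G 1 := by
  rcases le_total x 1 with h | h
  · exact D.G_mono h
  · rw [D.G_one_le h]

theorem G_ge (x : ℝ) : 0 ≤ D.G x := by
  rcases le_total 0 x with h | h
  · exact D.G_nonneg h
  · rw [D.G_neg h]

end Dat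

/-- The square of the positive part. -/
theorem hasStrict_posSq (x : ℝ) :
    HasStrictDerivAt (fun x : ℝ => (max x 0) ^ 2) (2 * max x 0) x := by
  have hd : ∀ y : ℝ, HasDerivAt (fun x : ℝ => (max x 0) ^ 2) (2 * max y 0) y := by
    intro y
    rcases lt_trichotomy y 0 with h | h | h
    · have : (fun x : ℝ => (max x 0) ^ 2) =ᶠ[𝓝 y] fun _ => 0 := by
        filter_upwards [gt_mem_nhds h] with z hz
        rw [max_eq_right hz.le]; simp
      rw [max_eq_right h.le]
      simpa using (hasDerivAt_const y (0:ℝ)).congr_of_eventuallyEq this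
    · subst h
      simp only [max_self, mul_zero]
      rw [hasDerivAt_iff_isLittleO]
      simp only [max_self, ne_eq, OfNat.ofNat_ne_zero, not_false_eq_true, zero_pow, sub_zero,
        smul_zero]
      rw [Asymptotics.isLittleO_iff]
      intro c hc
      filter_upwards [Metric.ball_mem_nhds (0:ℝ) hc] with z hz
      rw [Real.norm_eq_abs, Real.norm_eq_abs]
      rw [Metric.mem_ball, Real.dist_eq, sub_zero] at hz
      have h1 : |max z 0| ≤ |z| := by
        rcases le_total z 0 with h | h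
        · rw [max_eq_right h]; simp
        · rw [max_eq_left h]
      rw [abs_pow]
      have h0 : 0 ≤ |max z 0| := abs_nonneg _
      nlinarith [abs_nonneg z]
    · have : (fun x : ℝ => (max x 0) ^ 2) =ᶠ[𝓝 y] fun x => x ^ 2 := by
        filter_upwards [lt_mem_nhds h] with z hz
        rw [max_eq_left hz.le]
      rw [max_eq_left h.le]
      have h2 := (hasDerivAt_pow 2 y).congr_of_eventuallyEq this
      simpa using h2
  exact hasStrictDerivAt_of_hasDerivAt_of_continuousAt (Eventually.of_forall hd)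
    (by fun_prop)

namespace Dat

variable (D : Dat)

/-- `G` continued by `- (T / 8) x ^ 2` for `x < 0`. -/
noncomputable def Gm (x : ℝ) : ℝ := D.G x - D.T / 8 * (max (-x) 0) ^ 2

/-- `G 1 - G` continued by `- (T / 8) (x - 1) ^ 2` for `x > 1`. -/
noncomputable def Gp (x : ℝ) : ℝ := D.G 1 - D.G x - D.T / 8 * (max (x - 1) 0) ^ 2

/-- The derivative of `Gm`. -/
noncomputable def wm (x : ℝ) : ℝ := D.w x + D.T / 4 * max (-x) 0

/-- The derivative of `Gp`. -/
noncomputable def wp (x : ℝ) : ℝ := -D.w x - D.T / 4 * max (x - 1) 0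

theorem hasGm (x : ℝ) : HasStrictDerivAt D.Gm (D.wm x) x := by
  have h1 := (hasStrict_posSq (-x)).comp x (hasStrictDerivAt_id x).neg
  have h2 := (D.hasG x).sub (h1.const_mul (D.T / 8))
  refine h2.congr_deriv ?_
  unfold wm
  ring

theorem hasGp (x : ℝ) : HasStrictDerivAt D.Gp (D.wp x) x := by
  have h1 := (hasStrict_posSq (x - 1)).comp x ((hasStrictDerivAt_id x).sub_const 1)
  have h2 := ((D.hasG x).const_sub (D.G 1)).sub (h1.const_mul (D.T / 8))
  refine h2.congr_deriv ?_
  unfold wp
  ring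

theorem wm_of_nonneg {x : ℝ} (hx : 0 ≤ x) : D.wm x = D.w x := by
  unfold wm
  rw [max_eq_right (by linarith)]; ring

theorem wp_of_le {x : ℝ} (hx : x ≤ 1) : D.wp x = -D.w x := by
  unfold wp
  rw [max_eq_right (by linarith)]; ring

theorem Gm_of_nonneg {x : ℝ} (hx : 0 ≤ x) : D.Gm x = D.G x := by
  unfold Gm
  rw [max_eq_right (by linarith)]; ring

theorem Gp_of_le {x : ℝ} (hx : x ≤ 1) : D.Gp x = D.G 1 - D.G x := by
  unfold Gp
  rw [max_eq_right (by linarith)]; ring

theorem Gm_of_neg {x : ℝ} (hx : x ≤ 0) : D.Gm x = -(D.T / 8 * x ^ 2) := by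
  unfold Gm
  rw [max_eq_left (by linarith), D.G_neg hx]; ring

theorem Gp_of_ge {x : ℝ} (hx : 1 ≤ x) : D.Gp x = -(D.T / 8 * (x - 1) ^ 2) := by
  unfold Gp
  rw [max_eq_left (by linarith), D.G_one_le hx]; ring

theorem Gm_le (x : ℝ) : D.Gm x ≤ D.G x := by
  unfold Gm
  have := D.hT
  have : 0 ≤ D.T / 8 * (max (-x) 0) ^ 2 := by positivity
  linarith

theorem Gp_le (x : ℝ) : D.Gp x ≤ D.G 1 - D.G x := by
  unfold Gp
  have := D.hT
  have : 0 ≤ D.T / 8 * (max (x - 1) 0) ^ 2 := by positivity
  linarith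

theorem contGm : Continuous D.Gm :=
  continuous_iff_continuousAt.2 fun x => (D.hasGm x).hasDerivAt.continuousAt

theorem contGp : Continuous D.Gp :=
  continuous_iff_continuousAt.2 fun x => (D.hasGp x).hasDerivAt.continuousAt

end Dat

/-- The five-dimensional space with the coordinates `m`, `u`, `v`, `ξ`, `η`. -/
abbrev V : Type := ℝ × ℝ × ℝ × ℝ × ℝ

/-- The truncation to the unit interval. -/
noncomputable def cl (t : ℝ) : ℝ := max 0 (min t 1)

/-- The half width of the quadruple of abscissas. -/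
noncomputable def M (y : V) : ℝ := max |y.2.1| |y.2.2.1|

theorem cl_cont : Continuous cl := by unfold cl; fun_prop

theorem M_cont : Continuous M := by unfold M; fun_prop

theorem cl_nonneg (t : ℝ) : 0 ≤ cl t := le_max_left _ _

theorem cl_le_one (t : ℝ) : cl t ≤ 1 := max_le zero_le_one (min_le_right _ _)

theorem cl_of_mem {t : ℝ} (h0 : 0 ≤ t) (h1 : t ≤ 1) : cl t = t := by
  unfold cl; rw [min_eq_left h1, max_eq_right h0]

theorem cl_of_ge {t : ℝ} (h1 : 1 ≤ t) : cl t = 1 := by
  unfold cl; rw [min_eq_right h1, max_eq_right zero_le_one]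

theorem cl_of_le {t : ℝ} (h1 : t ≤ 0) : cl t = 0 := by
  unfold cl; rw [min_eq_left (by linarith), max_eq_left h1]

theorem cl_le_self {t : ℝ} (h0 : 0 ≤ t) : cl t ≤ t := by
  unfold cl; exact max_le h0 (min_le_left _ _)

theorem cl_mono : Monotone cl := by
  intro a b h
  unfold cl
  exact max_le_max le_rfl (min_le_min h le_rfl)

theorem cl_add_le {t s : ℝ} (hs : 0 ≤ s) : cl (t + s) ≤ cl t + s := by
  unfold cl
  apply max_le
  · have := le_max_left 0 (min t 1); linarith
  · have h1 := le_max_right 0 (min t 1)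
    rcases le_total t 1 with h | h
    · rw [min_eq_left h] at h1 ⊢
      have := min_le_left (t + s) 1
      linarith
    · rw [min_eq_right h] at h1 ⊢
      have := min_le_right (t + s) 1
      linarith

namespace Dat

variable (D : Dat)

/-- The smooth part of the base action. -/
noncomputable def Q (y : V) : ℝ :=
  D.F (y.1 - y.2.1) + D.F (y.1 + y.2.1) + -D.F (y.1 - y.2.2.1) + -D.F (y.1 + y.2.2.1)
    + D.T / 2 * (y.2.1 + y.2.2.1) ^ 2 + -(1 / (2 * D.T) * (y.2.1 - y.2.2.1) ^ 2)

/-- The first branch of the base action. -/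
noncomputable def P1 (y : V) : ℝ := D.Q y + (D.G (y.1 + y.2.1) + -D.G (y.1 + y.2.2.1))

/-- The second branch of the base action. -/
noncomputable def P2 (y : V) : ℝ := D.Q y + (D.G (y.1 - y.2.1) + -D.G (y.1 - y.2.2.1))

/-- The base action. -/
noncomputable def P (y : V) : ℝ := max (D.P1 y) (D.P2 y)

/-- The left switch. -/
noncomputable def TL (y : V) : ℝ := cl y.2.2.2.1 * (D.Gm (y.1 - M y) + 1) + -y.2.2.2.1

/-- The right switch. -/
noncomputable def TR (y : V) : ℝ := cl y.2.2.2.2 * (D.Gp (y.1 + M y) + 1) + -y.2.2.2.2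

/-- The five-dimensional action. -/
noncomputable def S (y : V) : ℝ := D.P y + (D.TL y + D.TR y)

theorem contQ : Continuous D.Q := by
  have := D.contF
  unfold Q; fun_prop

theorem contP1 : Continuous D.P1 := by
  have := D.contG; have := D.contQ
  unfold P1; fun_prop

theorem contP2 : Continuous D.P2 := by
  have := D.contG; have := D.contQ
  unfold P2; fun_prop

theorem contP : Continuous D.P := by
  have := D.contP1; have := D.contP2
  unfold P; fun_prop

theorem contTL : Continuous D.TL := by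
  have := D.contGm; have := cl_cont; have := M_cont
  unfold TL; fun_prop

theorem contTR : Continuous D.TR := by
  have := D.contGp; have := cl_cont; have := M_cont
  unfold TR; fun_prop

theorem contS : Continuous D.S := by
  have := D.contP; have := D.contTL; have := D.contTR
  unfold S; fun_prop

theorem P_of_ge {y : V} (h : y.2.2.1 ≤ y.2.1) : D.P y = D.P1 y := by
  unfold P
  apply max_eq_left
  unfold P1 P2
  have h1 : D.G (y.1 + y.2.2.1) ≤ D.G (y.1 + y.2.1) := D.G_mono (by linarith)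
  have h2 : D.G (y.1 - y.2.1) ≤ D.G (y.1 - y.2.2.1) := D.G_mono (by linarith)
  linarith

theorem P_of_le {y : V} (h : y.2.1 ≤ y.2.2.1) : D.P y = D.P2 y := by
  unfold P
  apply max_eq_right
  unfold P1 P2
  have h1 : D.G (y.1 + y.2.1) ≤ D.G (y.1 + y.2.2.1) := D.G_mono (by linarith)
  have h2 : D.G (y.1 - y.2.2.1) ≤ D.G (y.1 - y.2.1) := D.G_mono (by linarith)
  linarith

end Dat

end Pool.Agent.Run7.h118.TG
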