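import Pool.Agent.Run7.h118.TGRates

set_option autoImplicit false

open Set Filter Topology

/-! Descent directions of the action away from rectangles, in the half `v ≤ u`. -/

namespace Pool.Agent.Run7.h118.TG

namespace Dat

variable (D : Dat)

/-- The point `(x, y)` is on one of the two graphs over `[0, 1]`. -/
def On (x y : ℝ) : Prop := 0 ≤ x ∧ x ≤ 1 ∧ (y = D.f x ∨ y = D.f x + D.w x)

/-- There is no rectangle of the given kind on the two graphs. -/
def NoRect : Prop := ∀ m u v yW yZ yA yB : ℝ, ¬(u = 0 ∧ v = 0) → D.On (m - u) yW →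
  D.On (m + u) yZ → D.On (m - v) yA → D.On (m + v) yB → yW + yZ = yA + yB →
  yZ - yW + (D.T * (u + v) - 1 / D.T * (u - v)) = 0 →
  yA - yB + (D.T * (u + v) + 1 / D.T * (u - v)) = 0 → False

/-- There is a descent direction in the base. -/
def Desc (x : V) : Prop := ∃ a b c ρ : ℝ, 0 < ρ ∧ Cl D.S x (a, b, c, 0, 0) (-ρ)

variable {D}

theorem onL {x c : ℝ} (h0 : 0 ≤ x) (h1 : x ≤ 1) (hc : c = 0 ∨ c = 1 ∨ x = 0) :
    D.On x (D.f x + c * D.w x) := by
  refine ⟨h0, h1, ?_⟩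
  rcases hc with h | h | h
  · left; rw [h]; ring
  · right; rw [h]; ring
  · left; rw [D.w0 x (le_of_eq h)]; ring

theorem onR {x c : ℝ} (h0 : 0 ≤ x) (h1 : x ≤ 1) (hc : c = 0 ∨ c = 1 ∨ x = 1) :
    D.On x (D.f x + D.w x - c * D.w x) := by
  refine ⟨h0, h1, ?_⟩
  rcases hc with h | h | h
  · right; rw [h]; ring
  · left; rw [h]; ring
  · left; rw [D.w1 x (le_of_eq h.symm)]; ring

theorem onf {x : ℝ} (h0 : 0 ≤ x) (h1 : x ≤ 1) : D.On x (D.f x) := ⟨h0, h1, Or.inl rfl⟩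

theorem ong {x : ℝ} (h0 : 0 ≤ x) (h1 : x ≤ 1) : D.On x (D.f x + D.w x) := ⟨h0, h1, Or.inr rfl⟩

theorem desc_grad {x : V} {gm gu gv : ℝ} (hg : ¬(gm = 0 ∧ gu = 0 ∧ gv = 0))
    (h : ∀ a b c : ℝ, Cl D.S x (a, b, c, 0, 0) (a * gm + b * gu + c * gv)) : D.Desc x := by
  refine ⟨-gm, -gu, -gv, gm ^ 2 + gu ^ 2 + gv ^ 2, ?_, ?_⟩
  · by_contra hcon
    push Not at hcon
    apply hg
    have h1 := sq_nonneg gm
    have h2 := sq_nonneg gu
    have h3 := sq_nonneg gv
    refine ⟨?_, ?_, ?_⟩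
    · exact pow_eq_zero_iff (two_ne_zero) |>.1 (by linarith)
    · exact pow_eq_zero_iff (two_ne_zero) |>.1 (by linarith)
    · exact pow_eq_zero_iff (two_ne_zero) |>.1 (by linarith)
  · exact (h (-gm) (-gu) (-gv)).mono (le_of_eq (by ring))

theorem desc_E (hno : D.NoRect) {x : V} (h : |x.2.2.1| < x.2.1) (hL : 0 ≤ x.1 - x.2.1)
    (hR : x.1 + x.2.1 ≤ 1)
    (hcL : cl x.2.2.2.1 = 0 ∨ cl x.2.2.2.1 = 1 ∨ x.1 - x.2.1 = 0)
    (hcR : cl x.2.2.2.2 = 0 ∨ cl x.2.2.2.2 = 1 ∨ x.1 + x.2.1 = 1) : D.Desc x := by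
  obtain ⟨hv1, hv2⟩ := abs_lt.1 h
  have hu : 0 < x.2.1 := lt_of_le_of_lt (abs_nonneg _) h
  have hM : M x = x.2.1 := by
    unfold M
    rw [abs_of_pos hu, max_eq_left h.le]
  set m := x.1
  set u := x.2.1
  set v := x.2.2.1
  set cL := cl x.2.2.2.1
  set cR := cl x.2.2.2.2
  refine desc_grad
    (gm := (D.f (m - u) + cL * D.w (m - u)) + (D.f (m + u) + D.w (m + u) - cR * D.w (m + u))
      - D.f (m - v) - (D.f (m + v) + D.w (m + v)))
    (gu := (D.f (m + u) + D.w (m + u) - cR * D.w (m + u)) - (D.f (m - u) + cL * D.w (m - u))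
      + (D.T * (u + v) - 1 / D.T * (u - v)))
    (gv := D.f (m - v) - (D.f (m + v) + D.w (m + v)) + (D.T * (u + v) + 1 / D.T * (u - v)))
    ?_ ?_
  · rintro ⟨h1, h2, h3⟩
    exact hno m u v _ _ _ _ (fun hh => hu.ne' hh.1) (onL hL (by linarith) hcL)
      (onR (by linarith) hR hcR) (onf (by linarith) (by linarith))
      (ong (by linarith) (by linarith)) (by linarith) h2 h3
  · intro a b c
    have k1 := D.cl_P_gt (x := x) (d := (a, b, c, 0, 0)) hv2
    have k2 := D.cl_TL (x := x) (d := (a, b, c, 0, 0)) rfl le_rfl (rtE_L _ h)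
    have k3 := D.cl_TR (x := x) (d := (a, b, c, 0, 0)) rfl le_rfl (rtE_R _ h)
    refine (k1.add (k2.add k3)).mono (le_of_eq ?_)
    rw [hM, D.wm_of_nonneg hL, D.wp_of_le hR]
    unfold r1 rQ
    simp only
    ring

theorem desc_S (hno : D.NoRect) {x : V} (h : |x.2.1| < -x.2.2.1) (hL : 0 ≤ x.1 + x.2.2.1)
    (hR : x.1 - x.2.2.1 ≤ 1)
    (hcL : cl x.2.2.2.1 = 0 ∨ cl x.2.2.2.1 = 1 ∨ x.1 + x.2.2.1 = 0)
    (hcR : cl x.2.2.2.2 = 0 ∨ cl x.2.2.2.2 = 1 ∨ x.1 - x.2.2.1 = 1) : D.Desc x := by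
  obtain ⟨hv1, hv2⟩ := abs_lt.1 h
  have hu : 0 < -x.2.2.1 := lt_of_le_of_lt (abs_nonneg _) h
  have hM : M x = -x.2.2.1 := by
    unfold M
    rw [abs_of_neg (show x.2.2.1 < 0 by linarith), max_eq_right h.le]
  set m := x.1
  set u := x.2.1
  set v := x.2.2.1
  set cL := cl x.2.2.2.1
  set cR := cl x.2.2.2.2
  refine desc_grad
    (gm := D.f (m - u) + (D.f (m + u) + D.w (m + u))
      - (D.f (m - v) + cR * D.w (m - v)) - (D.f (m + v) + D.w (m + v) - cL * D.w (m + v)))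
    (gu := (D.f (m + u) + D.w (m + u)) - D.f (m - u)
      + (D.T * (u + v) - 1 / D.T * (u - v)))
    (gv := (D.f (m - v) + cR * D.w (m - v)) - (D.f (m + v) + D.w (m + v) - cL * D.w (m + v))
      + (D.T * (u + v) + 1 / D.T * (u - v)))
    ?_ ?_
  · rintro ⟨h1, h2, h3⟩
    have o1 : D.On (m - v) (D.f (m - v) + cR * D.w (m - v)) := by
      refine ⟨by linarith, hR, ?_⟩
      rcases hcR with h | h | h
      · left; rw [h]; ring
      · right; rw [h]; ring
      · left; rw [D.w1 _ h.symm.le]; ring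
    have o2 : D.On (m + v) (D.f (m + v) + D.w (m + v) - cL * D.w (m + v)) := by
      refine ⟨hL, by linarith, ?_⟩
      rcases hcL with h | h | h
      · right; rw [h]; ring
      · left; rw [h]; ring
      · left; rw [D.w0 _ h.le]; ring
    exact hno m u v _ _ _ _ (fun hh => by linarith [hh.2]) (onf (by linarith) (by linarith))
      (ong (by linarith) (by linarith)) o1 o2 (by linarith) h2 h3
  · intro a b c
    have k1 := D.cl_P_gt (x := x) (d := (a, b, c, 0, 0)) (by show v < u; linarith)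
    have k2 := D.cl_TL (x := x) (d := (a, b, c, 0, 0)) rfl le_rfl (rtS_L _ h)
    have k3 := D.cl_TR (x := x) (d := (a, b, c, 0, 0)) rfl le_rfl (rtS_R _ h)
    refine (k1.add (k2.add k3)).mono (le_of_eq ?_)
    rw [hM, sub_neg_eq_add, ← sub_eq_add_neg, D.wm_of_nonneg hL, D.wp_of_le hR]
    unfold r1 rQ
    simp only
    ring

/-- Inactive left switch. -/
theorem inL {x d : V} (hd : d.2.2.2.1 = 0) (_ : 0 ≤ x.1 - M x)
    (h : cl x.2.2.2.1 = 0 ∨ x.1 - M x = 0) : Cl D.TL x d 0 := by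
  refine (D.cl_TL hd (by positivity) (rt_L x d)).mono (le_of_eq ?_)
  rcases h with h | h
  · rw [h]; ring
  · rw [h, D.wm_of_nonneg le_rfl, D.w0 0 le_rfl]; simp

/-- Inactive right switch. -/
theorem inR {x d : V} (hd : d.2.2.2.2 = 0) (_ : x.1 + M x ≤ 1)
    (h : cl x.2.2.2.2 = 0 ∨ x.1 + M x = 1) : Cl D.TR x d 0 := by
  refine (D.cl_TR hd (by positivity) (rt_R x d)).mono (le_of_eq ?_)
  rcases h with h | h
  · rw [h]; ring
  · rw [h, D.wp_of_le le_rfl, D.w1 1 le_rfl]; simp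

theorem desc_A (hno : D.NoRect) {x : V} (h0 : 0 < x.2.1) (h1 : x.2.2.1 = -x.2.1)
    (hL : 0 ≤ x.1 - x.2.1) (hR : x.1 + x.2.1 ≤ 1)
    (hcL : cl x.2.2.2.1 = 0 ∨ cl x.2.2.2.1 = 1 ∨ x.1 - x.2.1 = 0)
    (hcR : cl x.2.2.2.2 = 0 ∨ cl x.2.2.2.2 = 1 ∨ x.1 + x.2.1 = 1) : D.Desc x := by
  have hM : M x = x.2.1 := by
    unfold M
    rw [h1, abs_neg, max_self, abs_of_pos h0]
  have hT := D.hT
  have hvu : x.2.2.1 < x.2.1 := by rw [h1]; linarith
  have hv0 : x.2.2.1 < 0 := by rw [h1]; linarith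
  -- the direction (0, 1, -1)
  have anti : ∀ a b : ℝ, Cl D.TL x ((0, 1, -1, 0, 0) : V) a →
      Cl D.TR x ((0, 1, -1, 0, 0) : V) b → D.w (x.1 - x.2.1) + D.w (x.1 + x.2.1) + a + b ≤ 0 →
      D.Desc x := by
    intro a b ha hb hab
    have k1 := D.cl_P_gt (x := x) (d := ((0, 1, -1, 0, 0) : V)) hvu
    refine ⟨0, 1, -1, 4 * x.2.1 / D.T, by positivity, (k1.add (ha.add hb)).mono ?_⟩
    unfold r1 rQ
    simp only [h1]
    rw [show x.1 - -x.2.1 = x.1 + x.2.1 by ring, show x.1 + -x.2.1 = x.1 - x.2.1 by ring]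
    have e : 1 / D.T * (x.2.1 - -x.2.1) * (1 - -1) = 4 * x.2.1 / D.T := by
      field_simp; ring
    linarith
  rcases hcL with hc | hc | hc
  · -- left switch off
    by_cases hin : cl x.2.2.2.2 = 0 ∨ x.1 + x.2.1 = 1
    · -- both inactive
      refine desc_grad
        (gm := D.f (x.1 - x.2.1) + (D.f (x.1 + x.2.1) + D.w (x.1 + x.2.1))
          - D.f (x.1 - x.2.2.1) - (D.f (x.1 + x.2.2.1) + D.w (x.1 + x.2.2.1)))
        (gu := (D.f (x.1 + x.2.1) + D.w (x.1 + x.2.1)) - D.f (x.1 - x.2.1)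
          + (D.T * (x.2.1 + x.2.2.1) - 1 / D.T * (x.2.1 - x.2.2.1)))
        (gv := D.f (x.1 - x.2.2.1) - (D.f (x.1 + x.2.2.1) + D.w (x.1 + x.2.2.1))
          + (D.T * (x.2.1 + x.2.2.1) + 1 / D.T * (x.2.1 - x.2.2.1))) ?_ ?_
      · rintro ⟨g1, g2, g3⟩
        exact hno x.1 x.2.1 x.2.2.1 _ _ _ _ (fun hh => h0.ne' hh.1)
          (onf hL (by linarith)) (ong (by linarith) hR) (onf (by linarith) (by linarith))
          (ong (by linarith) (by linarith)) (by linarith) g2 g3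
      · intro a b c
        have k1 := D.cl_P_gt (x := x) (d := (a, b, c, 0, 0)) hvu
        have k2 : Cl D.TL x (a, b, c, 0, 0) 0 := inL rfl (by rw [hM]; exact hL) (Or.inl hc)
        have k3 : Cl D.TR x (a, b, c, 0, 0) 0 :=
          inR rfl (by rw [hM]; exact hR) (by rw [hM]; exact hin)
        refine (k1.add (k2.add k3)).mono (le_of_eq ?_)
        unfold r1 rQ
        simp only
        ring
    · -- right active, left off: +e_m if 0 < x_L, else (0, 1, -1)
      push Not at hin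
      have hcR1 : cl x.2.2.2.2 = 1 := by
        rcases hcR with h | h | h
        · exact absurd h hin.1
        · exact h
        · exact absurd h hin.2
      rcases hL.eq_or_lt with hl | hl
      · refine anti _ _ (inL rfl (by rw [hM]; exact hL) (Or.inl hc))
          (D.cl_TR rfl le_rfl (rta_R h0 hv0)) ?_
        rw [hM, hcR1, D.wp_of_le hR, D.w0 _ hl.symm.le]
        simp
      · have k1 := D.cl_P_gt (x := x) (d := ((1, 0, 0, 0, 0) : V)) hvu
        have k2 : Cl D.TL x ((1, 0, 0, 0, 0) : V) 0 :=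
          inL rfl (by rw [hM]; exact hL) (Or.inl hc)
        have k3 := D.cl_TR (x := x) (d := ((1, 0, 0, 0, 0) : V)) rfl le_rfl (rtm_R x 1)
        refine ⟨1, 0, 0, D.w (x.1 - x.2.1), D.wpos _ hl (by linarith),
          (k1.add (k2.add k3)).mono (le_of_eq ?_)⟩
        unfold r1 rQ
        rw [hM, hcR1, D.wp_of_le hR]
        simp only [h1]
        rw [show x.1 - -x.2.1 = x.1 + x.2.1 by ring, show x.1 + -x.2.1 = x.1 - x.2.1 by ring]
        ring
  · -- left switch on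
    rcases hcR with hr | hr | hr
    · -- right off
      rcases hL.eq_or_lt with hl | hl
      · -- x_L = 0: both inactive
        refine desc_grad
          (gm := D.f (x.1 - x.2.1) + (D.f (x.1 + x.2.1) + D.w (x.1 + x.2.1))
            - D.f (x.1 - x.2.2.1) - (D.f (x.1 + x.2.2.1) + D.w (x.1 + x.2.2.1)))
          (gu := (D.f (x.1 + x.2.1) + D.w (x.1 + x.2.1)) - D.f (x.1 - x.2.1)
            + (D.T * (x.2.1 + x.2.2.1) - 1 / D.T * (x.2.1 - x.2.2.1)))
          (gv := D.f (x.1 - x.2.2.1) - (D.f (x.1 + x.2.2.1) + D.w (x.1 + x.2.2.1))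
            + (D.T * (x.2.1 + x.2.2.1) + 1 / D.T * (x.2.1 - x.2.2.1))) ?_ ?_
        · rintro ⟨g1, g2, g3⟩
          exact hno x.1 x.2.1 x.2.2.1 _ _ _ _ (fun hh => h0.ne' hh.1)
            (onf hL (by linarith)) (ong (by linarith) hR) (onf (by linarith) (by linarith))
            (ong (by linarith) (by linarith)) (by linarith) g2 g3
        · intro a b c
          have k1 := D.cl_P_gt (x := x) (d := (a, b, c, 0, 0)) hvu
          have k2 : Cl D.TL x (a, b, c, 0, 0) 0 :=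
            inL rfl (by rw [hM]; exact hL) (Or.inr (by rw [hM]; exact hl.symm))
          have k3 : Cl D.TR x (a, b, c, 0, 0) 0 :=
            inR rfl (by rw [hM]; exact hR) (Or.inl hr)
          refine (k1.add (k2.add k3)).mono (le_of_eq ?_)
          unfold r1 rQ
          simp only
          ring
      · rcases hR.eq_or_lt with hr1 | hr1
        · refine anti _ _ (D.cl_TL rfl le_rfl (rta_L h0 hv0))
            (inR rfl (by rw [hM]; exact hR) (Or.inl hr)) ?_
          rw [hM, hc, D.wm_of_nonneg hL, D.w1 _ hr1.symm.le]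
          simp
        · have k1 := D.cl_P_gt (x := x) (d := ((-1, 0, 0, 0, 0) : V)) hvu
          have k2 := D.cl_TL (x := x) (d := ((-1, 0, 0, 0, 0) : V)) rfl le_rfl (rtm_L x (-1))
          have k3 : Cl D.TR x ((-1, 0, 0, 0, 0) : V) 0 :=
            inR rfl (by rw [hM]; exact hR) (Or.inl hr)
          refine ⟨-1, 0, 0, D.w (x.1 + x.2.1), D.wpos _ (by linarith) hr1,
            (k1.add (k2.add k3)).mono (le_of_eq ?_)⟩
          unfold r1 rQ
          rw [hM, hc, D.wm_of_nonneg hL]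
          simp only [h1]
          rw [show x.1 - -x.2.1 = x.1 + x.2.1 by ring, show x.1 + -x.2.1 = x.1 - x.2.1 by ring]
          ring
    · -- both on
      refine anti _ _ (D.cl_TL rfl le_rfl (rta_L h0 hv0)) (D.cl_TR rfl le_rfl (rta_R h0 hv0)) ?_
      rw [hM, hc, hr, D.wm_of_nonneg hL, D.wp_of_le hR]
      simp
    · -- x_R = 1
      refine anti _ _ (D.cl_TL rfl le_rfl (rta_L h0 hv0))
        (inR rfl (by rw [hM]; exact hR) (by rw [hM]; exact Or.inr hr)) ?_
      rw [hM, hc, D.wm_of_nonneg hL, D.w1 _ hr.symm.le]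
      simp
  · -- x_L = 0
    by_cases hin : cl x.2.2.2.2 = 0 ∨ x.1 + x.2.1 = 1
    · refine desc_grad
        (gm := D.f (x.1 - x.2.1) + (D.f (x.1 + x.2.1) + D.w (x.1 + x.2.1))
          - D.f (x.1 - x.2.2.1) - (D.f (x.1 + x.2.2.1) + D.w (x.1 + x.2.2.1)))
        (gu := (D.f (x.1 + x.2.1) + D.w (x.1 + x.2.1)) - D.f (x.1 - x.2.1)
          + (D.T * (x.2.1 + x.2.2.1) - 1 / D.T * (x.2.1 - x.2.2.1)))
        (gv := D.f (x.1 - x.2.2.1) - (D.f (x.1 + x.2.2.1) + D.w (x.1 + x.2.2.1))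
          + (D.T * (x.2.1 + x.2.2.1) + 1 / D.T * (x.2.1 - x.2.2.1))) ?_ ?_
      · rintro ⟨g1, g2, g3⟩
        exact hno x.1 x.2.1 x.2.2.1 _ _ _ _ (fun hh => h0.ne' hh.1)
          (onf hL (by linarith)) (ong (by linarith) hR) (onf (by linarith) (by linarith))
          (ong (by linarith) (by linarith)) (by linarith) g2 g3
      · intro a b c
        have k1 := D.cl_P_gt (x := x) (d := (a, b, c, 0, 0)) hvu
        have k2 : Cl D.TL x (a, b, c, 0, 0) 0 :=
          inL rfl (by rw [hM]; exact hL) (Or.inr (by rw [hM]; exact hc))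
        have k3 : Cl D.TR x (a, b, c, 0, 0) 0 :=
          inR rfl (by rw [hM]; exact hR) (by rw [hM]; exact hin)
        refine (k1.add (k2.add k3)).mono (le_of_eq ?_)
        unfold r1 rQ
        simp only
        ring
    · push Not at hin
      have hcR1 : cl x.2.2.2.2 = 1 := by
        rcases hcR with h | h | h
        · exact absurd h hin.1
        · exact h
        · exact absurd h hin.2
      refine anti _ _ (inL rfl (by rw [hM]; exact hL) (Or.inr (by rw [hM]; exact hc)))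
        (D.cl_TR rfl le_rfl (rta_R h0 hv0)) ?_
      rw [hM, hcR1, D.wp_of_le hR, D.w0 _ hc.le]
      simp

end Dat

end Pool.Agent.Run7.h118.TG
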