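import Pool.Agent.Run7.h118.TGSwitch

set_option autoImplicit false

open Set Filter Topology

/-! The lower bound on the linking set. -/

namespace Pool.Agent.Run7.h118.TG

/-- The function whose zero set, together with `m = 1 / 2`, links the surface. -/
noncomputable def Bd (δ : ℝ) (y : V) : ℝ :=
  max (max (|y.2.1 - y.2.2.1| - δ) (y.2.2.2.1 - 1)) (y.2.2.2.2 - 1)

theorem Bd_cont (δ : ℝ) : Continuous (Bd δ) := by unfold Bd; fun_prop

theorem Bd_sg (δ : ℝ) (y : V) : Bd δ (sg y) = Bd δ y := by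
  unfold Bd sg
  simp only
  rw [show -y.2.1 - -y.2.2.1 = -(y.2.1 - y.2.2.1) by ring, abs_neg]

namespace Dat

variable {D : Dat}

theorem Y_nonneg (D : Dat) : 0 ≤ D.Y := (abs_nonneg _).trans (D.fY 0)

/-- The function with `P1 = hh u - hh v + ...` for `m = 1 / 2`. -/
noncomputable def hh (D : Dat) (t : ℝ) : ℝ :=
  D.F (1 / 2 + t) + D.G (1 / 2 + t) + D.F (1 / 2 - t)

theorem hh_deriv (t : ℝ) : HasDerivAt D.hh (D.f (1 / 2 + t) + D.w (1 / 2 + t) - D.f (1 / 2 - t)) t := by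
  have i1 : HasDerivAt (fun t : ℝ => 1 / 2 + t) 1 t := by
    simpa using (hasDerivAt_id t).const_add (1 / 2 : ℝ)
  have i2 : HasDerivAt (fun t : ℝ => 1 / 2 - t) (-1) t := by
    simpa using (hasDerivAt_id t).const_sub (1 / 2 : ℝ)
  have h1 := (D.hasF (1 / 2 + t)).hasDerivAt.comp t i1
  have h2 := (D.hasG (1 / 2 + t)).hasDerivAt.comp t i1
  have h3 := (D.hasF (1 / 2 - t)).hasDerivAt.comp t i2
  refine ((h1.add h2).add h3).congr_deriv ?_
  ring

theorem P1_half {y : V} (hy : y.1 = 1 / 2) : D.P1 y = D.hh y.2.1 - D.hh y.2.2.1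
    + D.T / 2 * (y.2.1 + y.2.2.1) ^ 2 - 1 / (2 * D.T) * (y.2.1 - y.2.2.1) ^ 2 := by
  unfold P1 Q hh
  rw [hy]
  ring

theorem Gm_lower {x M : ℝ} (hM : 0 ≤ M) (hx : -x ≤ M) : -(D.T / 8 * M ^ 2) ≤ D.Gm x := by
  unfold Gm
  have h1 := D.G_ge x
  have hT := D.hT
  have h2 : (max (-x) 0) ^ 2 ≤ M ^ 2 :=
    pow_le_pow_left₀ (le_max_right _ _) (max_le hx hM) 2
  nlinarith

theorem Gp_lower {x M : ℝ} (hM : 0 ≤ M) (hx : x - 1 ≤ M) : -(D.T / 8 * M ^ 2) ≤ D.Gp x := by
  unfold Gp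
  have h1 := D.G_le x
  have hT := D.hT
  have h2 : (max (x - 1) 0) ^ 2 ≤ M ^ 2 :=
    pow_le_pow_left₀ (le_max_right _ _) (max_le hx hM) 2
  nlinarith

theorem mul_lower {c κ B : ℝ} (c0 : 0 ≤ c) (c1 : c ≤ 1) (hB : 0 ≤ B) (h : -B ≤ κ) :
    -B ≤ c * κ := by
  have h1 : c * -B ≤ c * κ := mul_le_mul_of_nonneg_left h c0
  have h2 : c * B ≤ 1 * B := mul_le_mul_of_nonneg_right c1 hB
  linarith

set_option maxHeartbeats 1000000 in
theorem link_half (D : Dat) : ∃ δ > 0, ∀ y : V, y.2.2.1 ≤ y.2.1 → y.1 = 1 / 2 →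
    0 ≤ y.2.2.2.1 → 0 ≤ y.2.2.2.2 → Bd δ y = 0 → 0 < D.S y := by
  have hT := D.hT
  have hY := D.Y_nonneg
  -- the slope near the middle
  have hw : 0 < D.w (1 / 2) := D.wpos _ (by norm_num) (by norm_num)
  set w0 : ℝ := D.w (1 / 2) / 2 with hw0
  have hw0p : 0 < w0 := by positivity
  obtain ⟨r1, hr1, hr1'⟩ : ∃ r > 0, ∀ t : ℝ, |t| ≤ r →
      w0 ≤ D.f (1 / 2 + t) + D.w (1 / 2 + t) - D.f (1 / 2 - t) := by
    have hc : Continuous (fun t : ℝ => D.f (1 / 2 + t) + D.w (1 / 2 + t) - D.f (1 / 2 - t)) := by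
      have := D.hf; have := D.hw; fun_prop
    have h0 : w0 < D.f (1 / 2 + 0) + D.w (1 / 2 + 0) - D.f (1 / 2 - 0) := by
      rw [add_zero, sub_zero]; linarith
    have hev : ∀ᶠ t : ℝ in 𝓝 0, w0 < D.f (1 / 2 + t) + D.w (1 / 2 + t) - D.f (1 / 2 - t) :=
      hc.continuousAt.eventually (lt_mem_nhds h0)
    obtain ⟨r, hr, hball⟩ := Metric.eventually_nhds_iff.1 hev
    refine ⟨r / 2, by linarith, fun t ht => (hball ?_).le⟩
    rw [Real.dist_eq, sub_zero]
    linarith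
  set r0 : ℝ := min r1 (1 / 4) with hr0
  have hr0p : 0 < r0 := lt_min hr1 (by norm_num)
  have hr01 : r0 ≤ r1 := min_le_left _ _
  have hr04 : r0 ≤ 1 / 4 := min_le_right _ _
  set c : ℝ := 3 * D.Y + 1 / (2 * D.T) + 1 with hc
  have hcp : 0 < c := by positivity
  set δ : ℝ := min (min r0 1) (min (D.T * w0) (D.T / 4 * r0 ^ 2 / c)) with hδ
  have hδ0 : 0 < δ := by
    apply lt_min (lt_min hr0p one_pos) (lt_min (by positivity) (by positivity))
  have hδ1 : δ ≤ r0 := (min_le_left _ _).trans (min_le_left _ _)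
  have hδ2 : δ ≤ 1 := (min_le_left _ _).trans (min_le_right _ _)
  have hδ3 : δ ≤ D.T * w0 := (min_le_right _ _).trans (min_le_left _ _)
  have hδ4 : c * δ ≤ D.T / 4 * r0 ^ 2 := by
    have : δ ≤ D.T / 4 * r0 ^ 2 / c := (min_le_right _ _).trans (min_le_right _ _)
    rw [le_div_iff₀ hcp] at this
    linarith
  refine ⟨δ, hδ0, fun y huv hm a0 b0 hB => ?_⟩
  set u := y.2.1 with hu
  set v := y.2.2.1 with hv
  have hd0 : 0 ≤ u - v := by linarith
  have hB1 : |u - v| - δ ≤ 0 := by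
    rw [← hB]; exact (le_max_left _ _).trans (le_max_left _ _)
  have hB2 : y.2.2.2.1 - 1 ≤ 0 := by
    rw [← hB]; exact (le_max_right _ _).trans (le_max_left _ _)
  have hB3 : y.2.2.2.2 - 1 ≤ 0 := by
    rw [← hB]; exact le_max_right _ _
  rw [abs_of_nonneg hd0] at hB1
  have hS : D.S y = D.hh u - D.hh v + D.T / 2 * (u + v) ^ 2 - 1 / (2 * D.T) * (u - v) ^ 2
      + y.2.2.2.1 * D.Gm (1 / 2 - M y) + y.2.2.2.2 * D.Gp (1 / 2 + M y) := by
    unfold S TL TR
    rw [D.P_of_ge huv, P1_half hm, cl_of_mem a0 (by linarith), cl_of_mem b0 (by linarith), hm]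
    ring
  have hM0 : 0 ≤ M y := (abs_nonneg _).trans (le_max_left _ _)
  have hMle : M y ≤ (|u + v| + (u - v)) / 2 := by
    unfold M
    have e1 := le_abs_self (u + v)
    have e2 := neg_le_abs (u + v)
    apply max_le
    · rw [abs_le]; constructor <;> linarith
    · rw [abs_le]; constructor <;> linarith
  have hdT : 1 / (2 * D.T) * (u - v) ^ 2 ≤ 1 / (2 * D.T) * δ := by
    apply mul_le_mul_of_nonneg_left _ (by positivity)
    nlinarith
  rcases le_or_gt r0 |u + v| with hσ | hσ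
  · -- far from the centre
    have hlow : -(3 * D.Y) * (u - v) ≤ D.hh u - D.hh v := by
      apply mul_sub_le_image_sub_of_le_deriv (f := D.hh)
        (fun t => (D.hh_deriv t).differentiableAt) _ huv
      intro t
      rw [(D.hh_deriv t).deriv]
      have h1 := abs_le.1 (D.fY (1 / 2 + t))
      have h2 := abs_le.1 (D.fY (1 / 2 - t))
      have h3 := D.w_nonneg (1 / 2 + t)
      linarith [h1.1, h2.2]
    have hMσ : M y ≤ |u + v| := by linarith
    have hM2 : M y ^ 2 ≤ (u + v) ^ 2 := by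
      rw [← sq_abs (u + v)]
      exact pow_le_pow_left₀ hM0 hMσ 2
    have hκ1 : -(D.T / 8 * (u + v) ^ 2) ≤ y.2.2.2.1 * D.Gm (1 / 2 - M y) := by
      have h1 := Gm_lower (D := D) (x := 1 / 2 - M y) hM0 (by linarith)
      have h3 : D.T / 8 * M y ^ 2 ≤ D.T / 8 * (u + v) ^ 2 :=
        mul_le_mul_of_nonneg_left hM2 (by positivity)
      exact mul_lower a0 (by linarith) (by positivity) (by linarith)
    have hκ2 : -(D.T / 8 * (u + v) ^ 2) ≤ y.2.2.2.2 * D.Gp (1 / 2 + M y) := by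
      have h1 := Gp_lower (D := D) (x := 1 / 2 + M y) hM0 (by linarith)
      have h3 : D.T / 8 * M y ^ 2 ≤ D.T / 8 * (u + v) ^ 2 :=
        mul_le_mul_of_nonneg_left hM2 (by positivity)
      exact mul_lower b0 (by linarith) (by positivity) (by linarith)
    have hσ2 : r0 ^ 2 ≤ (u + v) ^ 2 := by
      rw [← sq_abs (u + v)]
      exact pow_le_pow_left₀ hr0p.le hσ 2
    have hσ3 : D.T / 4 * r0 ^ 2 ≤ D.T / 4 * (u + v) ^ 2 :=
      mul_le_mul_of_nonneg_left hσ2 (by positivity)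
    have hYd : 3 * D.Y * (u - v) ≤ 3 * D.Y * δ :=
      mul_le_mul_of_nonneg_left (by linarith) (by positivity)
    have e1 : c * δ = 3 * D.Y * δ + 1 / (2 * D.T) * δ + δ := by rw [hc]; ring
    rw [hS]
    linarith
  · -- near the centre
    have hMr : M y ≤ 1 / 4 := by linarith
    have hκ1 : 0 < D.Gm (1 / 2 - M y) := Gm_pos (by linarith)
    have hκ2 : 0 < D.Gp (1 / 2 + M y) := Gp_pos (by linarith)
    obtain ⟨s1, s2⟩ := abs_lt.1 hσ
    have hlow : w0 * (u - v) ≤ D.hh u - D.hh v := by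
      refine (convex_Icc (-r0) r0).mul_sub_le_image_sub_of_le_deriv (f := D.hh)
        (continuousOn_of_forall_continuousAt fun t _ => (D.hh_deriv t).continuousAt)
        (fun t _ => (D.hh_deriv t).differentiableAt.differentiableWithinAt) ?_ v ?_ u ?_ huv
      · intro t ht
        rw [interior_Icc] at ht
        rw [(D.hh_deriv t).deriv]
        exact hr1' t (abs_le.2 ⟨by linarith [ht.1], by linarith [ht.2]⟩)
      · constructor <;> linarith
      · constructor <;> linarith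
    have hq : 1 / (2 * D.T) * (u - v) ^ 2 ≤ w0 / 2 * (u - v) := by
      have h1 : (u - v) ^ 2 ≤ D.T * w0 * (u - v) := by nlinarith
      have h2 : 1 / (2 * D.T) * (u - v) ^ 2 ≤ 1 / (2 * D.T) * (D.T * w0 * (u - v)) :=
        mul_le_mul_of_nonneg_left h1 (by positivity)
      have h3 : 1 / (2 * D.T) * (D.T * w0 * (u - v)) = w0 / 2 * (u - v) := by
        field_simp
      linarith
    have hsq : 0 ≤ D.T / 2 * (u + v) ^ 2 := by positivity
    have hg1 : 0 ≤ y.2.2.2.1 * D.Gm (1 / 2 - M y) := mul_nonneg a0 hκ1.le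
    have hg2 : 0 ≤ y.2.2.2.2 * D.Gp (1 / 2 + M y) := mul_nonneg b0 hκ2.le
    have hwd : 0 ≤ w0 / 2 * (u - v) := mul_nonneg (by positivity) hd0
    have hbase : w0 / 2 * (u - v) + y.2.2.2.1 * D.Gm (1 / 2 - M y)
        + y.2.2.2.2 * D.Gp (1 / 2 + M y) ≤ D.S y := by
      rw [hS]; linarith
    -- one of the three alternatives
    have h3 : u - v = δ ∨ y.2.2.2.1 = 1 ∨ y.2.2.2.2 = 1 := by
      by_contra hcon
      push Not at hcon
      obtain ⟨c1, c2, c3⟩ := hcon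
      have d1 : u - v - δ < 0 := lt_of_le_of_ne hB1 (fun h => c1 (by linarith))
      have d2 : y.2.2.2.1 - 1 < 0 := lt_of_le_of_ne hB2 (fun h => c2 (by linarith))
      have d3 : y.2.2.2.2 - 1 < 0 := lt_of_le_of_ne hB3 (fun h => c3 (by linarith))
      have : Bd δ y < 0 := by
        unfold Bd
        apply max_lt (max_lt _ d2) d3
        rw [abs_of_nonneg hd0]; exact d1
      linarith
    rcases h3 with h3 | h3 | h3
    · rw [h3] at hbase
      have : 0 < w0 / 2 * δ := by positivity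
      linarith
    · rw [h3] at hbase hg1
      linarith
    · rw [h3] at hbase hg2
      linarith

theorem link (D : Dat) : ∃ δ > 0, ∀ y : V, y.1 = 1 / 2 →
    0 ≤ y.2.2.2.1 → 0 ≤ y.2.2.2.2 → Bd δ y = 0 → 0 < D.S y := by
  obtain ⟨δ, hδ, h⟩ := link_half D
  refine ⟨δ, hδ, fun y hm a0 b0 hB => ?_⟩
  rcases le_total y.2.2.1 y.2.1 with h1 | h1
  · exact h y h1 hm a0 b0 hB
  · rw [← S_sg]
    refine h (sg y) ?_ hm a0 b0 (by rw [Bd_sg]; exact hB)
    show -y.2.2.1 ≤ -y.2.1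
    linarith

end Dat

end Pool.Agent.Run7.h118.TG
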