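import Pool.Agent.Run7.h118.TGCl

set_option autoImplicit false

open Set Filter Topology

/-! Pushing a compact set below a level that contains no critical points of a function with upper
rates (a deformation lemma without any smoothness). -/

namespace Pool.Agent.Run7.h118.TG

variable {E : Type*} [NormedAddCommGroup E] [NormedSpace ℝ E]

/-- Self-maps of `K` which decrease `S` wherever they move a point, and fix `S ≤ 0`. -/
structure Good (K : Set E) (S : E → ℝ) (Φ : E → E) : Prop where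
  cont : Continuous Φ
  maps : MapsTo Φ K K
  fix : ∀ y ∈ K, S y ≤ 0 → Φ y = y
  desc : ∀ y ∈ K, Φ y = y ∨ S (Φ y) < S y

theorem Good.id (K : Set E) (S : E → ℝ) : Good K S (fun y => y) :=
  ⟨continuous_id, fun _ h => h, fun _ _ _ => rfl, fun _ _ => Or.inl rfl⟩

theorem Good.le {K : Set E} {S : E → ℝ} {Φ : E → E} (h : Good K S Φ) {y : E} (hy : y ∈ K) :
    S (Φ y) ≤ S y := by
  rcases h.desc y hy with h1 | h1
  · rw [h1]
  · exact h1.le

theorem Good.comp {K : Set E} {S : E → ℝ} {Φ Ψ : E → E} (h : Good K S Φ) (h' : Good K S Ψ) :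
    Good K S (fun y => Ψ (Φ y)) := by
  refine ⟨h'.cont.comp h.cont, fun y hy => h'.maps (h.maps hy), fun y hy h0 => ?_,
    fun y hy => ?_⟩
  · rw [h.fix y hy h0, h'.fix y hy h0]
  · rcases h.desc y hy with h1 | h1
    · rw [h1]; exact h'.desc y hy
    · exact Or.inr ((h'.le (h.maps hy)).trans_lt h1)

theorem Good.cover {K C : Set E} {S : E → ℝ} (hC : IsCompact C) (hCK : C ⊆ K) (hS : Continuous S)
    (h : ∀ x ∈ C, ∃ Φ, Good K S Φ ∧ S (Φ x) < S x) :
    ∃ Ψ, Good K S Ψ ∧ ∀ y ∈ C, S (Ψ y) < S y := by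
  have key : ∃ Ψ, Good K S Ψ ∧ ∀ y ∈ C, y ∈ K → S (Ψ y) < S y := by
    refine hC.induction_on (p := fun s => ∃ Ψ, Good K S Ψ ∧ ∀ y ∈ s, y ∈ K → S (Ψ y) < S y)
      ⟨_, Good.id K S, fun y hy => absurd hy (notMem_empty y)⟩ ?_ ?_ ?_
    · rintro s t hst ⟨Ψ, h1, h2⟩
      exact ⟨Ψ, h1, fun y hy => h2 y (hst hy)⟩
    · rintro s t ⟨Ψ, h1, h2⟩ ⟨Ω, g1, g2⟩
      refine ⟨_, h1.comp g1, ?_⟩
      rintro y (hy | hy) hyK
      · exact (g1.le (h1.maps hyK)).trans_lt (h2 y hy hyK)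
      · rcases h1.desc y hyK with h3 | h3
        · simp only [h3]; exact g2 y hy hyK
        · exact (g1.le (h1.maps hyK)).trans_lt h3
    · intro x hx
      obtain ⟨Φ, h1, h2⟩ := h x hx
      refine ⟨{y | S (Φ y) < S y}, mem_nhdsWithin_of_mem_nhds ?_, Φ, h1, fun y hy _ => hy⟩
      exact (isOpen_lt (hS.comp h1.cont) hS).mem_nhds h2
  obtain ⟨Ψ, h1, h2⟩ := key
  exact ⟨Ψ, h1, fun y hy => h2 y hy (hCK hy)⟩

theorem good_of_dir {K : Set E} {S : E → ℝ} (hS : Continuous S) {x d : E} {ρ : ℝ}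
    (hx : 0 < S x) (hρ : 0 < ρ) (h : Cl S x d (-ρ))
    (hK : ∀ᶠ p : E × ℝ in 𝓝 (x, (0:ℝ)), 0 ≤ p.2 → p.1 ∈ K → p.1 + p.2 • d ∈ K) :
    ∃ Φ, Good K S Φ ∧ S (Φ x) < S x := by
  have h1 := h (ρ / 2) (by linarith)
  have h2 : ∀ᶠ p : E × ℝ in 𝓝 (x, (0:ℝ)), 0 < S p.1 :=
    (tendsto_base x).eventually (hS.continuousAt.eventually (lt_mem_nhds hx))
  obtain ⟨r, hr, hball⟩ := Metric.eventually_nhds_iff.1 ((h1.and hK).and h2)
  set ψ : E → ℝ := fun y => max 0 (r / 2 - dist y x) with hψ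
  have hψ0 : ∀ y, 0 ≤ ψ y := fun y => le_max_left _ _
  have hψr : ∀ y, ψ y < r := fun y => by
    apply max_lt hr
    have : 0 ≤ dist y x := dist_nonneg
    linarith
  have hψc : Continuous ψ := by fun_prop
  have hloc : ∀ y, 0 < ψ y → dist (y, ψ y) (x, (0:ℝ)) < r := by
    intro y hy
    rw [Prod.dist_eq]
    apply max_lt
    · have : 0 < r / 2 - dist y x := by
        by_contra hcon
        push Not at hcon
        have : ψ y = 0 := max_eq_left hcon
        linarith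
      linarith
    · rw [Real.dist_eq, sub_zero, abs_of_nonneg (hψ0 y)]
      exact hψr y
  refine ⟨fun y => y + ψ y • d, ⟨by fun_prop, ?_, ?_, ?_⟩, ?_⟩
  · intro y hy
    rcases (hψ0 y).eq_or_lt with h0 | h0
    · show y + ψ y • d ∈ K
      rw [← h0]; simpa using hy
    · exact (hball (hloc y h0)).1.2 (hψ0 y) hy
  · intro y _ hSy
    rcases (hψ0 y).eq_or_lt with h0 | h0
    · simp [← h0]
    · exact absurd (hball (hloc y h0)).2 (by simpa using hSy)
  · intro y _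
    rcases (hψ0 y).eq_or_lt with h0 | h0
    · left; simp [← h0]
    · right
      have h3 := (hball (hloc y h0)).1.1 (hψ0 y)
      simp only at h3
      nlinarith
  · have h0 : 0 < ψ x := by
      rw [hψ]; simp only [dist_self, sub_zero]
      exact lt_max_of_lt_right (by linarith)
    have h3 := (hball (hloc x h0)).1.1 (hψ0 x)
    simp only at h3
    show S (x + ψ x • d) < S x
    nlinarith

theorem push {K : Set E} (hK : IsCompact K) {S : E → ℝ} (hS : Continuous S) {a b : ℝ}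
    (ha : 0 < a)
    (h : ∀ x ∈ K, a ≤ S x → S x ≤ b → ∃ d : E, ∃ ρ > 0, Cl S x d (-ρ) ∧
      ∀ᶠ p : E × ℝ in 𝓝 (x, (0:ℝ)), 0 ≤ p.2 → p.1 ∈ K → p.1 + p.2 • d ∈ K) :
    ∃ Ψ : E → E, Good K S Ψ ∧ ∀ y ∈ K, S y ≤ b → S (Ψ y) ≤ a := by
  set C : Set E := K ∩ {y | a ≤ S y ∧ S y ≤ b} with hCdef
  have hcl : IsClosed {y : E | a ≤ S y ∧ S y ≤ b} :=
    (isClosed_le continuous_const hS).inter (isClosed_le hS continuous_const)
  have hC : IsCompact C := hK.inter_right hcl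
  obtain ⟨Ψ, hΨ, hlt⟩ := Good.cover (K := K) hC inter_subset_left hS (by
    rintro x ⟨hxK, hxa, hxb⟩
    obtain ⟨d, ρ, hρ, hcl, hin⟩ := h x hxK hxa hxb
    exact good_of_dir hS (by linarith) hρ hcl hin)
  have hδ : ∃ δ > 0, ∀ y ∈ C, S (Ψ y) ≤ S y - δ := by
    rcases C.eq_empty_or_nonempty with h0 | h0
    · exact ⟨1, one_pos, fun y hy => by rw [h0] at hy; exact absurd hy (notMem_empty y)⟩
    · obtain ⟨z, hz, hmin⟩ := hC.exists_isMinOn h0
        (f := fun y => S y - S (Ψ y)) ((hS.sub (hS.comp hΨ.cont)).continuousOn)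
      refine ⟨S z - S (Ψ z), by linarith [hlt z hz], fun y hy => ?_⟩
      have : S z - S (Ψ z) ≤ S y - S (Ψ y) := hmin hy
      linarith
  obtain ⟨δ, hδ0, hδ⟩ := hδ
  have iter : ∀ n : ℕ, ∃ Ω, Good K S Ω ∧ ∀ y ∈ K, S y ≤ b → S (Ω y) ≤ max a (b - n * δ) := by
    intro n
    induction n with
    | zero => exact ⟨_, Good.id K S, fun y _ hy => by simp; exact Or.inr hy⟩
    | succ n ih =>
      obtain ⟨Ω, h1, h2⟩ := ih
      refine ⟨_, h1.comp hΨ, fun y hy hyb => ?_⟩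
      have h3 := h2 y hy hyb
      have h4 := h1.maps hy
      have h5 : S (Ω y) ≤ b := (h1.le hy).trans hyb
      rcases le_total (S (Ω y)) a with h6 | h6
      · exact (hΨ.le h4).trans (h6.trans (le_max_left _ _))
      · have h7 := hδ (Ω y) ⟨h4, h6, h5⟩
        rcases le_total (S (Ω y)) a with h8 | h8
        · exact (hΨ.le h4).trans (h8.trans (le_max_left _ _))
        · rcases le_max_iff.1 h3 with h9 | h9
          · exact (hΨ.le h4).trans (h9.trans (le_max_left _ _))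
          · apply le_max_of_le_right
            push_cast
            linarith
  obtain ⟨n, hn⟩ := exists_nat_gt ((b - a) / δ)
  obtain ⟨Ω, h1, h2⟩ := iter n
  refine ⟨Ω, h1, fun y hy hyb => ?_⟩
  have h3 := h2 y hy hyb
  have h4 : b - n * δ ≤ a := by
    rw [div_lt_iff₀ hδ0] at hn
    linarith
  rwa [max_eq_left h4] at h3

end Pool.Agent.Run7.h118.TG
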