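import Pool.Agent.Run7.h118.TGDefs

set_option autoImplicit false

open Set Filter Topology

/-! Upper rates of the parts of the action. -/

namespace Pool.Agent.Run7.h118.TG

theorem Cl.of_const {E : Type*} [NormedAddCommGroup E] [NormedSpace ℝ E] {φ : E → ℝ} {x d : E}
    (h : ∀ y, ∀ s : ℝ, φ (y + s • d) = φ y) : Cl φ x d 0 := by
  intro ε hε
  refine Eventually.of_forall fun p h0 => ?_
  rw [h]
  have := mul_nonneg h0 hε.le
  linarith

/-- The rate of a linear function. -/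
theorem rt_lin {x d : V} {l : V → ℝ} (hc : Continuous l)
    (h : ∀ y, ∀ s : ℝ, l (y + s • d) = l y + s * l d) : Rt l x d (l d) 0 :=
  Rt.of_eq hc fun y s _ => h y s

namespace Dat

variable (D : Dat)

/-- The rate of `Q`. -/
noncomputable def rQ (x d : V) : ℝ :=
  D.f (x.1 - x.2.1) * (d.1 - d.2.1) + D.f (x.1 + x.2.1) * (d.1 + d.2.1)
    + -D.f (x.1 - x.2.2.1) * (d.1 - d.2.2.1) + -D.f (x.1 + x.2.2.1) * (d.1 + d.2.2.1)
    + D.T * (x.2.1 + x.2.2.1) * (d.2.1 + d.2.2.1)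
    + -(1 / D.T * (x.2.1 - x.2.2.1)) * (d.2.1 - d.2.2.1)

theorem cl_Q (x d : V) : Cl D.Q x d (D.rQ x d) := by
  have h1 : Cl (fun y : V => D.F (y.1 - y.2.1)) x d (D.f (x.1 - x.2.1) * (d.1 - d.2.1)) :=
    chain0 (l := fun y : V => y.1 - y.2.1) (D.hasF _)
      (rt_lin (by fun_prop) (fun y s => by simp; ring))
  have h2 : Cl (fun y : V => D.F (y.1 + y.2.1)) x d (D.f (x.1 + x.2.1) * (d.1 + d.2.1)) :=
    chain0 (l := fun y : V => y.1 + y.2.1) (D.hasF _)
      (rt_lin (by fun_prop) (fun y s => by simp; ring))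
  have h3 : Cl (fun y : V => -D.F (y.1 - y.2.2.1)) x d
      (-D.f (x.1 - x.2.2.1) * (d.1 - d.2.2.1)) :=
    chain0 (Φ := fun t => -D.F t) (l := fun y : V => y.1 - y.2.2.1) (D.hasF _).neg
      (rt_lin (by fun_prop) (fun y s => by simp; ring))
  have h4 : Cl (fun y : V => -D.F (y.1 + y.2.2.1)) x d
      (-D.f (x.1 + x.2.2.1) * (d.1 + d.2.2.1)) :=
    chain0 (Φ := fun t => -D.F t) (l := fun y : V => y.1 + y.2.2.1) (D.hasF _).neg
      (rt_lin (by fun_prop) (fun y s => by simp; ring))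
  have hsq : ∀ c t : ℝ, HasStrictDerivAt (fun t : ℝ => c * t ^ 2) (c * (2 * t)) t := by
    intro c t
    have := (hasStrictDerivAt_pow 2 t).const_mul c
    simpa using this
  have h5 : Cl (fun y : V => D.T / 2 * (y.2.1 + y.2.2.1) ^ 2) x d
      (D.T / 2 * (2 * (x.2.1 + x.2.2.1)) * (d.2.1 + d.2.2.1)) :=
    chain0 (Φ := fun t => D.T / 2 * t ^ 2) (l := fun y : V => y.2.1 + y.2.2.1) (hsq _ _)
      (rt_lin (by fun_prop) (fun y s => by simp; ring))
  have h6 : Cl (fun y : V => -(1 / (2 * D.T) * (y.2.1 - y.2.2.1) ^ 2)) x d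
      (-(1 / (2 * D.T) * (2 * (x.2.1 - x.2.2.1))) * (d.2.1 - d.2.2.1)) :=
    chain0 (Φ := fun t => -(1 / (2 * D.T) * t ^ 2)) (l := fun y : V => y.2.1 - y.2.2.1)
      (hsq _ _).neg (rt_lin (by fun_prop) (fun y s => by simp; ring))
  have h := ((((h1.add h2).add h3).add h4).add h5).add h6
  refine Cl.mono h (le_of_eq ?_)
  have hT := D.hT.ne'
  unfold rQ
  field_simp

/-- The rate of `P1`. -/
noncomputable def r1 (x d : V) : ℝ :=
  D.rQ x d + (D.w (x.1 + x.2.1) * (d.1 + d.2.1) + -D.w (x.1 + x.2.2.1) * (d.1 + d.2.2.1))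

/-- The rate of `P2`. -/
noncomputable def r2 (x d : V) : ℝ :=
  D.rQ x d + (D.w (x.1 - x.2.1) * (d.1 - d.2.1) + -D.w (x.1 - x.2.2.1) * (d.1 - d.2.2.1))

theorem cl_P1 (x d : V) : Cl D.P1 x d (D.r1 x d) := by
  have h2 : Cl (fun y : V => D.G (y.1 + y.2.1)) x d (D.w (x.1 + x.2.1) * (d.1 + d.2.1)) :=
    chain0 (l := fun y : V => y.1 + y.2.1) (D.hasG _)
      (rt_lin (by fun_prop) (fun y s => by simp; ring))
  have h4 : Cl (fun y : V => -D.G (y.1 + y.2.2.1)) x d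
      (-D.w (x.1 + x.2.2.1) * (d.1 + d.2.2.1)) :=
    chain0 (Φ := fun t => -D.G t) (l := fun y : V => y.1 + y.2.2.1) (D.hasG _).neg
      (rt_lin (by fun_prop) (fun y s => by simp; ring))
  exact (D.cl_Q x d).add (h2.add h4)

theorem cl_P2 (x d : V) : Cl D.P2 x d (D.r2 x d) := by
  have h2 : Cl (fun y : V => D.G (y.1 - y.2.1)) x d (D.w (x.1 - x.2.1) * (d.1 - d.2.1)) :=
    chain0 (l := fun y : V => y.1 - y.2.1) (D.hasG _)
      (rt_lin (by fun_prop) (fun y s => by simp; ring))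
  have h4 : Cl (fun y : V => -D.G (y.1 - y.2.2.1)) x d
      (-D.w (x.1 - x.2.2.1) * (d.1 - d.2.2.1)) :=
    chain0 (Φ := fun t => -D.G t) (l := fun y : V => y.1 - y.2.2.1) (D.hasG _).neg
      (rt_lin (by fun_prop) (fun y s => by simp; ring))
  exact (D.cl_Q x d).add (h2.add h4)

theorem cl_P {x d : V} {ρ : ℝ} (h1 : D.r1 x d ≤ ρ) (h2 : D.r2 x d ≤ ρ) : Cl D.P x d ρ :=
  ((D.cl_P1 x d).mono h1).sup ((D.cl_P2 x d).mono h2)

theorem cl_P_gt {x d : V} (h : x.2.2.1 < x.2.1) : Cl D.P x d (D.r1 x d) := by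
  refine (D.cl_P1 x d).congr ?_
  have ho : IsOpen {y : V | y.2.2.1 < y.2.1} := isOpen_lt (by fun_prop) (by fun_prop)
  filter_upwards [ho.mem_nhds h] with y hy
  exact (D.P_of_ge (le_of_lt hy)).symm

/-- The rate of the left switch. -/
theorem cl_TL {x d : V} {r e : ℝ} (hd : d.2.2.2.1 = 0) (he : 0 ≤ e)
    (h : Rt (fun y : V => y.1 - M y) x d r e) :
    Cl D.TL x d (cl x.2.2.2.1 * (D.wm (x.1 - M x) * r + |D.wm (x.1 - M x)| * e)) := by
  have h1 : Cl (fun y : V => D.Gm (y.1 - M y) + 1) x d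
      (D.wm (x.1 - M x) * r + |D.wm (x.1 - M x)| * e) :=
    chain (Φ := fun t => D.Gm t + 1) (l := fun y : V => y.1 - M y)
      ((D.hasGm _).add_const 1) h he
  have h2 := h1.cmul (a := fun y : V => cl y.2.2.2.1)
    (by have := cl_cont; exact Continuous.continuousAt (by fun_prop))
    (fun y => cl_nonneg _) (fun y s => by simp [hd])
  have h3 : Cl (fun y : V => -y.2.2.2.1) x d 0 := Cl.of_const fun y s => by simp [hd]
  have h4 := h2.add h3
  rw [add_zero] at h4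
  exact h4

theorem cl_TR {x d : V} {r e : ℝ} (hd : d.2.2.2.2 = 0) (he : 0 ≤ e)
    (h : Rt (fun y : V => y.1 + M y) x d r e) :
    Cl D.TR x d (cl x.2.2.2.2 * (D.wp (x.1 + M x) * r + |D.wp (x.1 + M x)| * e)) := by
  have h1 : Cl (fun y : V => D.Gp (y.1 + M y) + 1) x d
      (D.wp (x.1 + M x) * r + |D.wp (x.1 + M x)| * e) :=
    chain (Φ := fun t => D.Gp t + 1) (l := fun y : V => y.1 + M y)
      ((D.hasGp _).add_const 1) h he
  have h2 := h1.cmul (a := fun y : V => cl y.2.2.2.2)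
    (by have := cl_cont; exact Continuous.continuousAt (by fun_prop))
    (fun y => cl_nonneg _) (fun y s => by simp [hd])
  have h3 : Cl (fun y : V => -y.2.2.2.2) x d 0 := Cl.of_const fun y s => by simp [hd]
  have h4 := h2.add h3
  rw [add_zero] at h4
  exact h4

end Dat

theorem abs_M_sub (y z : V) : |M y - M z| ≤ |y.2.1 - z.2.1| + |y.2.2.1 - z.2.2.1| := by
  unfold M
  refine (abs_max_sub_max_le_max _ _ _ _).trans ?_
  apply max_le
  · refine (abs_abs_sub_abs_le _ _).trans ?_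
    have := abs_nonneg (y.2.2.1 - z.2.2.1)
    linarith
  · refine (abs_abs_sub_abs_le _ _).trans ?_
    have := abs_nonneg (y.2.1 - z.2.1)
    linarith

theorem rt_L (x d : V) : Rt (fun y : V => y.1 - M y) x d 0 (|d.1| + |d.2.1| + |d.2.2.1|) := by
  refine Rt.of_le (by have := M_cont; fun_prop) fun y s hs => ?_
  have h1 := abs_M_sub (y + s • d) y
  simp only [Prod.fst_add, Prod.snd_add, Prod.smul_fst, Prod.smul_snd, smul_eq_mul,
    add_sub_cancel_left, abs_mul, abs_of_nonneg hs] at h1 ⊢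
  have e1 : y.1 + s * d.1 - M (y + s • d) - (y.1 - M y) - s * 0
      = s * d.1 + -(M (y + s • d) - M y) := by ring
  rw [e1]
  refine (abs_add_le _ _).trans ?_
  rw [abs_neg, abs_mul, abs_of_nonneg hs]
  linarith

theorem rt_R (x d : V) : Rt (fun y : V => y.1 + M y) x d 0 (|d.1| + |d.2.1| + |d.2.2.1|) := by
  refine Rt.of_le (by have := M_cont; fun_prop) fun y s hs => ?_
  have h1 := abs_M_sub (y + s • d) y
  simp only [Prod.fst_add, Prod.snd_add, Prod.smul_fst, Prod.smul_snd, smul_eq_mul,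
    add_sub_cancel_left, abs_mul, abs_of_nonneg hs] at h1 ⊢
  have e1 : y.1 + s * d.1 + M (y + s • d) - (y.1 + M y) - s * 0
      = s * d.1 + (M (y + s • d) - M y) := by ring
  rw [e1]
  refine (abs_add_le _ _).trans ?_
  rw [abs_mul, abs_of_nonneg hs]
  linarith

theorem rtE_L {x : V} (d : V) (h : |x.2.2.1| < x.2.1) :
    Rt (fun y : V => y.1 - M y) x d (d.1 - d.2.1) 0 := by
  have h1 : Rt (fun y : V => y.1 - y.2.1) x d (d.1 - d.2.1) 0 :=
    rt_lin (l := fun y : V => y.1 - y.2.1) (by fun_prop) (fun y s => by simp; ring)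
  refine h1.congr ?_
  have ho : IsOpen {y : V | |y.2.2.1| < y.2.1} := isOpen_lt (by fun_prop) (by fun_prop)
  filter_upwards [ho.mem_nhds h] with y hy
  have hy' : |y.2.2.1| < y.2.1 := hy
  unfold M
  rw [max_eq_left, abs_of_pos (lt_of_le_of_lt (abs_nonneg _) hy')]
  exact hy'.le.trans (le_abs_self _)

theorem rtE_R {x : V} (d : V) (h : |x.2.2.1| < x.2.1) :
    Rt (fun y : V => y.1 + M y) x d (d.1 + d.2.1) 0 := by
  have h1 : Rt (fun y : V => y.1 + y.2.1) x d (d.1 + d.2.1) 0 :=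
    rt_lin (l := fun y : V => y.1 + y.2.1) (by fun_prop) (fun y s => by simp; ring)
  refine h1.congr ?_
  have ho : IsOpen {y : V | |y.2.2.1| < y.2.1} := isOpen_lt (by fun_prop) (by fun_prop)
  filter_upwards [ho.mem_nhds h] with y hy
  have hy' : |y.2.2.1| < y.2.1 := hy
  unfold M
  rw [max_eq_left, abs_of_pos (lt_of_le_of_lt (abs_nonneg _) hy')]
  exact hy'.le.trans (le_abs_self _)

theorem rtS_L {x : V} (d : V) (h : |x.2.1| < -x.2.2.1) :
    Rt (fun y : V => y.1 - M y) x d (d.1 + d.2.2.1) 0 := by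
  have h1 : Rt (fun y : V => y.1 + y.2.2.1) x d (d.1 + d.2.2.1) 0 :=
    rt_lin (l := fun y : V => y.1 + y.2.2.1) (by fun_prop) (fun y s => by simp; ring)
  refine h1.congr ?_
  have ho : IsOpen {y : V | |y.2.1| < -y.2.2.1} := isOpen_lt (by fun_prop) (by fun_prop)
  filter_upwards [ho.mem_nhds h] with y hy
  have hy' : |y.2.1| < -y.2.2.1 := hy
  have h0 := lt_of_le_of_lt (abs_nonneg _) hy'
  unfold M
  rw [max_eq_right, abs_of_neg (by linarith)]
  · ring
  · exact hy'.le.trans (neg_le_abs _)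

theorem rtS_R {x : V} (d : V) (h : |x.2.1| < -x.2.2.1) :
    Rt (fun y : V => y.1 + M y) x d (d.1 - d.2.2.1) 0 := by
  have h1 : Rt (fun y : V => y.1 - y.2.2.1) x d (d.1 - d.2.2.1) 0 :=
    rt_lin (l := fun y : V => y.1 - y.2.2.1) (by fun_prop) (fun y s => by simp; ring)
  refine h1.congr ?_
  have ho : IsOpen {y : V | |y.2.1| < -y.2.2.1} := isOpen_lt (by fun_prop) (by fun_prop)
  filter_upwards [ho.mem_nhds h] with y hy
  have hy' : |y.2.1| < -y.2.2.1 := hy
  have h0 := lt_of_le_of_lt (abs_nonneg _) hy'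
  unfold M
  rw [max_eq_right, abs_of_neg (by linarith)]
  · ring
  · exact hy'.le.trans (neg_le_abs _)

theorem M_em (y : V) (s c : ℝ) : M (y + s • ((c, 0, 0, 0, 0) : V)) = M y := by
  unfold M; simp

theorem rtm_L (x : V) (c : ℝ) : Rt (fun y : V => y.1 - M y) x (c, 0, 0, 0, 0) c 0 := by
  refine Rt.of_eq (by have := M_cont; fun_prop) fun y s _ => ?_
  rw [M_em]; simp; ring

theorem rtm_R (x : V) (c : ℝ) : Rt (fun y : V => y.1 + M y) x (c, 0, 0, 0, 0) c 0 := by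
  refine Rt.of_eq (by have := M_cont; fun_prop) fun y s _ => ?_
  rw [M_em]; simp; ring

theorem rtM_anti {x : V} (h : 0 < x.2.1) (h' : x.2.2.1 < 0) :
    ∀ᶠ p : V × ℝ in 𝓝 (x, (0:ℝ)), 0 ≤ p.2 →
      M (p.1 + p.2 • ((0, 1, -1, 0, 0) : V)) = M p.1 + p.2 := by
  have ho1 : IsOpen {y : V | 0 < y.2.1} := isOpen_lt (by fun_prop) (by fun_prop)
  have ho2 : IsOpen {y : V | y.2.2.1 < 0} := isOpen_lt (by fun_prop) (by fun_prop)
  filter_upwards [(tendsto_base x).eventually (ho1.mem_nhds h),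
    (tendsto_base x).eventually (ho2.mem_nhds h')] with p hp1 hp2 h0
  have h1 : 0 < p.1.2.1 := hp1
  have h2 : p.1.2.2.1 < 0 := hp2
  unfold M
  simp only [Prod.snd_add, Prod.fst_add, Prod.smul_snd, Prod.smul_fst, smul_eq_mul, mul_one,
    mul_neg]
  rw [abs_of_pos h1, abs_of_neg h2, abs_of_pos (by linarith), abs_of_neg (by linarith)]
  rw [show -(p.1.2.2.1 + -p.2) = -p.1.2.2.1 + p.2 by ring, max_add_add_right]

theorem rta_L {x : V} (h : 0 < x.2.1) (h' : x.2.2.1 < 0) :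
    Rt (fun y : V => y.1 - M y) x (0, 1, -1, 0, 0) (-1) 0 := by
  refine ⟨by have := M_cont; exact Continuous.continuousAt (by fun_prop), ?_⟩
  filter_upwards [rtM_anti h h'] with p hp h0
  rw [hp h0]
  simp

theorem rta_R {x : V} (h : 0 < x.2.1) (h' : x.2.2.1 < 0) :
    Rt (fun y : V => y.1 + M y) x (0, 1, -1, 0, 0) 1 0 := by
  refine ⟨by have := M_cont; exact Continuous.continuousAt (by fun_prop), ?_⟩
  filter_upwards [rtM_anti h h'] with p hp h0
  rw [hp h0]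
  simp

end Pool.Agent.Run7.h118.TG
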