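import Pool.Agent.Run7.h118.TGLink
import Pool.Agent.H333.Dim

set_option autoImplicit false

open Set Filter Topology

/-! The surface, and the main theorem for two graphs over the unit interval. -/

namespace Pool.Agent.Run7.h118.TG

/-- The centre abscissa on the surface. -/
noncomputable def sm (p : ℝ × ℝ) : ℝ := -1 + 3 * cl p.1

/-- The interpolation between the two routes. -/
noncomputable def st (p : ℝ × ℝ) : ℝ := cl (4 * sm p - 3 / 2)

/-- The first half of the vertical parameter. -/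
noncomputable def sa (p : ℝ × ℝ) : ℝ := cl (2 * cl p.2)

/-- The second half of the vertical parameter. -/
noncomputable def sb (p : ℝ × ℝ) : ℝ := cl (2 * cl p.2 - 1)

/-- The left switch on the surface. -/
noncomputable def sL (N : ℝ) (p : ℝ × ℝ) : ℝ := N * ((1 - st p) * sa p + st p * sb p)

/-- The right switch on the surface. -/
noncomputable def sR (N : ℝ) (p : ℝ × ℝ) : ℝ := N * ((1 - st p) * sb p + st p * sa p)

/-- The half width on the surface. -/
noncomputable def se (N ε : ℝ) (p : ℝ × ℝ) : ℝ :=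
  ε * (cl (2 - 8 * |sm p - 1 / 2|) * cl (sL N p + sR N p))

/-- The surface. -/
noncomputable def H (N ε : ℝ) (p : ℝ × ℝ) : V := (sm p, se N ε p, se N ε p, sL N p, sR N p)

theorem sm_cont : Continuous sm := by have := cl_cont; unfold sm; fun_prop

theorem st_cont : Continuous st := by have := cl_cont; have := sm_cont; unfold st; fun_prop

theorem sa_cont : Continuous sa := by have := cl_cont; unfold sa; fun_prop

theorem sb_cont : Continuous sb := by have := cl_cont; unfold sb; fun_prop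

theorem sL_cont (N : ℝ) : Continuous (sL N) := by
  have := st_cont; have := sa_cont; have := sb_cont; unfold sL; fun_prop

theorem sR_cont (N : ℝ) : Continuous (sR N) := by
  have := st_cont; have := sa_cont; have := sb_cont; unfold sR; fun_prop

theorem se_cont (N ε : ℝ) : Continuous (se N ε) := by
  have := cl_cont; have := sm_cont; have := sL_cont N; have := sR_cont N; unfold se; fun_prop

theorem H_cont (N ε : ℝ) : Continuous (H N ε) := by
  have := sm_cont; have := sL_cont N; have := sR_cont N; have := se_cont N ε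
  unfold H; fun_prop

theorem H_clamp (N ε : ℝ) (p : ℝ × ℝ) : H N ε p = H N ε (cl p.1, cl p.2) := by
  have h : ∀ t : ℝ, cl (cl t) = cl t := fun t => cl_of_mem (cl_nonneg t) (cl_le_one t)
  unfold H se sL sR st sa sb sm
  simp only [h]

section facts

variable {N ε : ℝ} (hN : 0 < N) (hε : 0 < ε) (hε1 : ε ≤ 1)

theorem st_mem (p : ℝ × ℝ) : 0 ≤ st p ∧ st p ≤ 1 := ⟨cl_nonneg _, cl_le_one _⟩

theorem sa_mem (p : ℝ × ℝ) : 0 ≤ sa p ∧ sa p ≤ 1 := ⟨cl_nonneg _, cl_le_one _⟩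

theorem sb_mem (p : ℝ × ℝ) : 0 ≤ sb p ∧ sb p ≤ 1 := ⟨cl_nonneg _, cl_le_one _⟩

theorem ab_alt (p : ℝ × ℝ) : sb p = 0 ∨ sa p = 1 := by
  rcases le_total (2 * cl p.2) 1 with h | h
  · left; exact cl_of_le (by linarith)
  · right; exact cl_of_ge h

include hN in
theorem sL_mem (p : ℝ × ℝ) : 0 ≤ sL N p ∧ sL N p ≤ N := by
  obtain ⟨t0, t1⟩ := st_mem p
  obtain ⟨a0, a1⟩ := sa_mem p
  obtain ⟨b0, b1⟩ := sb_mem p
  unfold sL
  constructor
  · apply mul_nonneg hN.le
    have := mul_nonneg (by linarith : 0 ≤ 1 - st p) a0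
    have := mul_nonneg t0 b0
    linarith
  · have h1 : (1 - st p) * sa p ≤ (1 - st p) * 1 :=
      mul_le_mul_of_nonneg_left a1 (by linarith)
    have h2 : st p * sb p ≤ st p * 1 := mul_le_mul_of_nonneg_left b1 t0
    have h3 : N * ((1 - st p) * sa p + st p * sb p) ≤ N * 1 :=
      mul_le_mul_of_nonneg_left (by linarith) hN.le
    linarith

include hN in
theorem sR_mem (p : ℝ × ℝ) : 0 ≤ sR N p ∧ sR N p ≤ N := by
  obtain ⟨t0, t1⟩ := st_mem p
  obtain ⟨a0, a1⟩ := sa_mem p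
  obtain ⟨b0, b1⟩ := sb_mem p
  unfold sR
  constructor
  · apply mul_nonneg hN.le
    have := mul_nonneg (by linarith : 0 ≤ 1 - st p) b0
    have := mul_nonneg t0 a0
    linarith
  · have h1 : (1 - st p) * sb p ≤ (1 - st p) * 1 :=
      mul_le_mul_of_nonneg_left b1 (by linarith)
    have h2 : st p * sa p ≤ st p * 1 := mul_le_mul_of_nonneg_left a1 t0
    have h3 : N * ((1 - st p) * sb p + st p * sa p) ≤ N * 1 :=
      mul_le_mul_of_nonneg_left (by linarith) hN.le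
    linarith

theorem sm_mem (p : ℝ × ℝ) : -1 ≤ sm p ∧ sm p ≤ 2 := by
  unfold sm
  have h0 := cl_nonneg p.1
  have h1 := cl_le_one p.1
  constructor <;> linarith

include hε in
theorem se_mem (p : ℝ × ℝ) : 0 ≤ se N ε p ∧ se N ε p ≤ ε := by
  unfold se
  have h0 := cl_nonneg (2 - 8 * |sm p - 1 / 2|)
  have h1 := cl_le_one (2 - 8 * |sm p - 1 / 2|)
  have h2 := cl_nonneg (sL N p + sR N p)
  have h3 := cl_le_one (sL N p + sR N p)
  constructor
  · positivity
  · have h4 : cl (2 - 8 * |sm p - 1 / 2|) * cl (sL N p + sR N p) ≤ 1 := by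
      have := mul_le_mul h1 h3 h2 zero_le_one
      linarith
    have := mul_le_mul_of_nonneg_left h4 hε.le
    linarith

include hN hε hε1 in
theorem H_mem (p : ℝ × ℝ) : H N ε p ∈ Box N := by
  obtain ⟨m0, m1⟩ := sm_mem p
  obtain ⟨e0, e1⟩ := se_mem (N := N) hε p
  refine ⟨?_, ?_, ?_, sL_mem hN p, sR_mem hN p⟩
  · show |sm p| ≤ 3
    rw [abs_le]; constructor <;> linarith
  · show |se N ε p| ≤ 3
    rw [abs_le]; constructor <;> linarith
  · show |se N ε p| ≤ 3
    rw [abs_le]; constructor <;> linarith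

end facts

namespace Dat

variable {D : Dat}

/-- The action on the diagonal. -/
theorem S_surf {x : V} (h : x.2.2.1 = x.2.1) (h0 : 0 ≤ x.2.1) :
    D.S x = 2 * D.T * x.2.1 ^ 2 + (cl x.2.2.2.1 * (D.Gm (x.1 - x.2.1) + 1) - x.2.2.2.1)
      + (cl x.2.2.2.2 * (D.Gp (x.1 + x.2.1) + 1) - x.2.2.2.2) := by
  have hM : M x = x.2.1 := by unfold M; rw [h, max_self, abs_of_nonneg h0]
  unfold S TL TR
  rw [D.P_of_ge h.le, hM]
  unfold P1 Q
  rw [h]
  ring

theorem Gm_le_one (x : ℝ) : D.Gm x ≤ D.G 1 := (D.Gm_le x).trans (D.G_le x)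

theorem Gp_le_one (x : ℝ) : D.Gp x ≤ D.G 1 := by
  have := D.Gp_le x
  have := D.G_ge x
  linarith

/-- The bound of a switch term. -/
theorem sw_le {ξ κ A : ℝ} (h0 : 0 ≤ ξ) (hA : 0 ≤ A) (hκ : κ ≤ A) : cl ξ * (κ + 1) - ξ ≤ A := by
  have h1 := cl_le_self h0
  have h2 := cl_nonneg ξ
  have h3 := cl_le_one ξ
  have h4 : cl ξ * κ ≤ cl ξ * A := mul_le_mul_of_nonneg_left hκ h2
  have h5 : cl ξ * A ≤ 1 * A := mul_le_mul_of_nonneg_right h3 hA
  linarith

theorem sw_le' {ξ κ A : ℝ} (h0 : 0 ≤ ξ) (hA : 0 ≤ A) (hκ : κ ≤ A) :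
    cl ξ * (κ + 1) - ξ ≤ ξ * A := by
  have h1 := cl_le_self h0
  have h2 := cl_nonneg ξ
  have h4 : cl ξ * κ ≤ cl ξ * A := mul_le_mul_of_nonneg_left hκ h2
  have h5 : cl ξ * A ≤ ξ * A := mul_le_mul_of_nonneg_right h1 hA
  linarith

theorem G_one_pos (D : Dat) : 0 < D.G 1 := by
  have := D.G_strict ⟨le_rfl, zero_le_one⟩ ⟨zero_le_one, le_rfl⟩ one_pos
  rwa [D.G_zero] at this

/-- The size of the box. -/
theorem exists_N (D : Dat) : ∃ N > 1, ∀ y ∈ Box N, (y.2.2.2.1 = N ∨ y.2.2.2.2 = N) →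
    D.S y < 0 := by
  obtain ⟨B, hB⟩ : ∃ B : ℝ, ∀ y ∈ Box 0, D.P y ≤ B := by
    obtain ⟨B, hB⟩ := (box_compact 0).bddAbove_image (f := D.P) D.contP.continuousOn
    exact ⟨B, fun y hy => hB (mem_image_of_mem _ hy)⟩
  have hA := G_one_pos D
  refine ⟨max B 0 + 2 * D.G 1 + 2, by linarith [le_max_right B 0], fun y hy h => ?_⟩
  set N := max B 0 + 2 * D.G 1 + 2 with hN
  obtain ⟨g1, g2, g3, ⟨a0, -⟩, ⟨b0, -⟩⟩ := hy
  have hP : D.P y ≤ max B 0 := by
    have h1 : ((y.1, y.2.1, y.2.2.1, 0, 0) : V) ∈ Box 0 :=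
      ⟨g1, g2, g3, ⟨le_rfl, le_rfl⟩, ⟨le_rfl, le_rfl⟩⟩
    have h2 : D.P y = D.P (y.1, y.2.1, y.2.2.1, 0, 0) := rfl
    rw [h2]
    exact (hB _ h1).trans (le_max_left _ _)
  have hL := sw_le a0 hA.le (Gm_le_one (D := D) (y.1 - M y))
  have hR := sw_le b0 hA.le (Gp_le_one (D := D) (y.1 + M y))
  have e : D.S y = D.P y + (cl y.2.2.2.1 * (D.Gm (y.1 - M y) + 1) - y.2.2.2.1)
      + (cl y.2.2.2.2 * (D.Gp (y.1 + M y) + 1) - y.2.2.2.2) := by
    unfold S TL TR; ring
  rw [e]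
  have hN1 : 1 ≤ N := by linarith [le_max_right B 0]
  rcases h with h | h
  · have h4 : cl y.2.2.2.1 * (D.Gm (y.1 - M y) + 1) - y.2.2.2.1 ≤ D.G 1 + 1 - N := by
      rw [h, cl_of_ge hN1]
      linarith [Gm_le_one (D := D) (y.1 - M y)]
    linarith
  · have h4 : cl y.2.2.2.2 * (D.Gp (y.1 + M y) + 1) - y.2.2.2.2 ≤ D.G 1 + 1 - N := by
      rw [h, cl_of_ge hN1]
      linarith [Gp_le_one (D := D) (y.1 + M y)]
    linarith

/-- The width of the surface. -/
theorem exists_eps (D : Dat) : ∃ ε > 0, ε ≤ 1 / 8 ∧ 2 * D.T * ε ^ 2 + D.G (5 / 8) < D.G 1 ∧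
    2 * D.T * ε ^ 2 < D.G (3 / 8) ∧
    ∀ m ∈ Icc (3 / 8 : ℝ) (5 / 8), 2 * D.T * ε ^ 2 < D.G (m + ε) - D.G (m - ε) := by
  have hT := D.hT
  have hA1 : D.G (5 / 8) < D.G 1 := D.G_strict ⟨by norm_num, by norm_num⟩
    ⟨zero_le_one, le_rfl⟩ (by norm_num)
  have hA2 : 0 < D.G (3 / 8) := by
    have := D.G_strict ⟨le_rfl, zero_le_one⟩ (⟨by norm_num, by norm_num⟩ : (3 / 8 : ℝ) ∈ Icc 0 1)
      (by norm_num)
    rwa [D.G_zero] at this
  obtain ⟨w1, hw1, hw1'⟩ : ∃ w1 > 0, ∀ x ∈ Icc (1 / 4 : ℝ) (3 / 4), w1 ≤ D.w x := by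
    obtain ⟨z, hz, hmin⟩ := isCompact_Icc.exists_isMinOn
      (⟨1 / 4, le_rfl, by norm_num⟩ : (Icc (1 / 4 : ℝ) (3 / 4)).Nonempty) D.hw.continuousOn
    exact ⟨D.w z, D.wpos z (by linarith [hz.1]) (by linarith [hz.2]), fun x hx => hmin hx⟩
  set μ : ℝ := min (D.G 1 - D.G (5 / 8)) (D.G (3 / 8)) with hμ
  have hμ0 : 0 < μ := lt_min (by linarith) hA2
  set ε : ℝ := min (1 / 8) (min (μ / (4 * D.T)) (w1 / (2 * D.T))) with hε
  have hε0 : 0 < ε := lt_min (by norm_num) (lt_min (by positivity) (by positivity))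
  have h1 : ε ≤ 1 / 8 := min_le_left _ _
  have h2 : 4 * D.T * ε ≤ μ := by
    have : ε ≤ μ / (4 * D.T) := (min_le_right _ _).trans (min_le_left _ _)
    rw [le_div_iff₀ (by positivity)] at this
    linarith
  have h3 : 2 * D.T * ε ≤ w1 := by
    have : ε ≤ w1 / (2 * D.T) := (min_le_right _ _).trans (min_le_right _ _)
    rw [le_div_iff₀ (by positivity)] at this
    linarith
  have h4 : 2 * D.T * ε ^ 2 < μ := by
    have e1 : 2 * D.T * ε ^ 2 = (4 * D.T * ε) * (ε / 2) := by ring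
    rw [e1]
    have : (4 * D.T * ε) * (ε / 2) ≤ μ * (ε / 2) :=
      mul_le_mul_of_nonneg_right h2 (by positivity)
    nlinarith
  have h5 : μ ≤ D.G 1 - D.G (5 / 8) := min_le_left _ _
  have h6 : μ ≤ D.G (3 / 8) := min_le_right _ _
  refine ⟨ε, hε0, h1, by linarith, by linarith, fun m hm => ?_⟩
  have hlow : w1 * ((m + ε) - (m - ε)) ≤ D.G (m + ε) - D.G (m - ε) := by
    refine (convex_Icc (1 / 4 : ℝ) (3 / 4)).mul_sub_le_image_sub_of_le_deriv (f := D.G)
      D.contG.continuousOn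
      (fun t _ => (D.hasG t).hasDerivAt.differentiableAt.differentiableWithinAt) ?_
      _ ?_ _ ?_ (by linarith)
    · intro t ht
      rw [(D.hasG t).hasDerivAt.deriv]
      exact hw1' t (interior_subset ht)
    · constructor <;> linarith [hm.1, hm.2]
    · constructor <;> linarith [hm.1, hm.2]
  have e1 : w1 * ((m + ε) - (m - ε)) = 2 * w1 * ε := by ring
  rw [e1] at hlow
  have e2 : 2 * D.T * ε ^ 2 = (2 * D.T * ε) * ε := by ring
  have e3 : (2 * D.T * ε) * ε ≤ w1 * ε := mul_le_mul_of_nonneg_right h3 hε0.le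
  have e4 : 0 < w1 * ε := by positivity
  linarith

/-- The action is smaller than `G 1` on the surface. -/
theorem surf_lt {N ε : ℝ} (hN : 1 < N)
    (hNS : ∀ y ∈ Box N, (y.2.2.2.1 = N ∨ y.2.2.2.2 = N) → D.S y < 0)
    (hε : 0 < ε) (hε1 : ε ≤ 1 / 8) (h1 : 2 * D.T * ε ^ 2 + D.G (5 / 8) < D.G 1)
    (h2 : 2 * D.T * ε ^ 2 < D.G (3 / 8))
    (h3 : ∀ m ∈ Icc (3 / 8 : ℝ) (5 / 8), 2 * D.T * ε ^ 2 < D.G (m + ε) - D.G (m - ε))
    (p : ℝ × ℝ) : D.S (H N ε p) < D.G 1 := by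
  have hN0 : 0 < N := by linarith
  have hT := D.hT
  have hA := G_one_pos D
  have hmem := H_mem hN0 hε (by linarith) p
  obtain ⟨e0, e1⟩ := se_mem (N := N) hε p
  obtain ⟨L0, L1⟩ := sL_mem hN0 p
  obtain ⟨R0, R1⟩ := sR_mem hN0 p
  have hsq : 2 * D.T * se N ε p ^ 2 ≤ 2 * D.T * ε ^ 2 :=
    mul_le_mul_of_nonneg_left (pow_le_pow_left₀ e0 e1 2) (by positivity)
  have hS : D.S (H N ε p) = 2 * D.T * se N ε p ^ 2
      + (cl (sL N p) * (D.Gm (sm p - se N ε p) + 1) - sL N p)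
      + (cl (sR N p) * (D.Gp (sm p + se N ε p) + 1) - sR N p) := S_surf rfl e0
  have hκL : D.Gm (sm p - se N ε p) ≤ D.G (sm p) := (D.Gm_le _).trans (D.G_mono (by linarith))
  have hκR : D.Gp (sm p + se N ε p) ≤ D.G 1 - D.G (sm p) :=
    (D.Gp_le _).trans (by linarith [D.G_mono (show sm p ≤ sm p + se N ε p by linarith)])
  rcases le_total (sm p) (3 / 8) with hm | hm
  · -- first route
    have ht : st p = 0 := cl_of_le (by linarith)
    rcases ab_alt p with hb | ha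
    · have eR : sR N p = 0 := by unfold sR; rw [ht, hb]; ring
      rw [hS, eR, cl_of_le le_rfl]
      have := sw_le L0 (D.G_ge (3 / 8)) (hκL.trans (D.G_mono hm))
      have := D.G_mono (show (3 / 8 : ℝ) ≤ 5 / 8 by norm_num)
      linarith
    · have eL : sL N p = N := by unfold sL; rw [ht, ha]; ring
      exact (hNS _ hmem (Or.inl eL)).trans hA
  rcases le_total (5 / 8) (sm p) with hm' | hm'
  · -- second route
    have ht : st p = 1 := cl_of_ge (by linarith)
    rcases ab_alt p with hb | ha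
    · have eL : sL N p = 0 := by unfold sL; rw [ht, hb]; ring
      rw [hS, eL, cl_of_le le_rfl]
      have h4 := D.G_mono hm'
      have h5 := D.G_mono (show (3 / 8 : ℝ) ≤ 5 / 8 by norm_num)
      have := sw_le (A := D.G 1 - D.G (5 / 8)) R0 (by linarith [D.G_le (5 / 8)])
        (hκR.trans (by linarith))
      linarith
    · have eR : sR N p = N := by unfold sR; rw [ht, ha]; ring
      exact (hNS _ hmem (Or.inr eR)).trans hA
  · -- the zone
    have hb : cl (2 - 8 * |sm p - 1 / 2|) = 1 := by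
      apply cl_of_ge
      have : |sm p - 1 / 2| ≤ 1 / 8 := by rw [abs_le]; constructor <;> linarith
      linarith
    rcases le_total 1 (sL N p + sR N p) with hs | hs
    · have he : se N ε p = ε := by
        unfold se; rw [hb, cl_of_ge hs]; ring
      have h4 := h3 (sm p) ⟨hm, hm'⟩
      rw [he] at hS
      have k1 : 0 ≤ D.G (sm p - ε) := D.G_ge _
      have k2 : 0 ≤ D.G 1 - D.G (sm p + ε) := by linarith [D.G_le (sm p + ε)]
      have k3 := sw_le L0 k1 (D.Gm_le (sm p - ε))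
      have k4 := sw_le R0 k2 (D.Gp_le (sm p + ε))
      rw [hS]
      linarith
    · have k0 := D.G_mono hm'
      have k1 := D.G_mono hm
      have k5 := D.G_ge (3 / 8)
      have k6 := D.G_le (5 / 8)
      set A' := max (D.G (5 / 8)) (D.G 1 - D.G (3 / 8)) with hA'
      have k7 : 0 ≤ A' := (D.G_ge (5 / 8)).trans (le_max_left _ _)
      have k3 := sw_le' (A := A') L0 k7 ((hκL.trans k0).trans (le_max_left _ _))
      have k4 := sw_le' (A := A') R0 k7 (hκR.trans ((by linarith :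
        D.G 1 - D.G (sm p) ≤ D.G 1 - D.G (3 / 8)).trans (le_max_right _ _)))
      have k8 : sL N p * A' + sR N p * A' ≤ A' := by
        have : (sL N p + sR N p) * A' ≤ 1 * A' := mul_le_mul_of_nonneg_right hs k7
        linarith
      have k9 : 2 * D.T * ε ^ 2 + A' < D.G 1 := by
        rcases max_choice (D.G (5 / 8)) (D.G 1 - D.G (3 / 8)) with h | h
        · rw [hA', h]; exact h1
        · rw [hA', h]; linarith
      rw [hS]
      linarith

theorem surf_left {N ε : ℝ} (hN : 1 < N)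
    (hNS : ∀ y ∈ Box N, (y.2.2.2.1 = N ∨ y.2.2.2.2 = N) → D.S y < 0)
    (hε : 0 < ε) (hε1 : ε ≤ 1 / 8) (s : ℝ) : D.S (H N ε (0, s)) ≤ 0 := by
  have hN0 : 0 < N := by linarith
  have hmem := H_mem hN0 hε (by linarith) (0, s)
  have hm : sm (0, s) = -1 := by unfold sm; rw [cl_of_le le_rfl]; ring
  have ht : st (0, s) = 0 := by unfold st; rw [hm]; exact cl_of_le (by norm_num)
  have he : se N ε (0, s) = 0 := by
    unfold se
    rw [hm, cl_of_le (show 2 - 8 * |(-1 : ℝ) - 1 / 2| ≤ 0 by norm_num [abs_of_neg])]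
    ring
  rcases ab_alt (0, s) with hb | ha
  · have eR : sR N (0, s) = 0 := by unfold sR; rw [ht, hb]; ring
    have hS : D.S (H N ε (0, s)) = 2 * D.T * se N ε (0, s) ^ 2
        + (cl (sL N (0, s)) * (D.Gm (sm (0, s) - se N ε (0, s)) + 1) - sL N (0, s))
        + (cl (sR N (0, s)) * (D.Gp (sm (0, s) + se N ε (0, s)) + 1) - sR N (0, s)) :=
      S_surf rfl (le_of_eq he.symm)
    rw [hS, eR, he, hm, cl_of_le le_rfl]
    have := sw_le (κ := D.Gm (-1 - 0)) (sL_mem hN0 (0, s)).1 le_rfl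
      (Gm_neg (D := D) (by norm_num)).le
    linarith
  · have eL : sL N (0, s) = N := by unfold sL; rw [ht, ha]; ring
    exact (hNS _ hmem (Or.inl eL)).le

theorem surf_right {N ε : ℝ} (hN : 1 < N)
    (hNS : ∀ y ∈ Box N, (y.2.2.2.1 = N ∨ y.2.2.2.2 = N) → D.S y < 0)
    (hε : 0 < ε) (hε1 : ε ≤ 1 / 8) (s : ℝ) : D.S (H N ε (1, s)) ≤ 0 := by
  have hN0 : 0 < N := by linarith
  have hmem := H_mem hN0 hε (by linarith) (1, s)
  have hm : sm (1, s) = 2 := by unfold sm; rw [cl_of_ge le_rfl]; ring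
  have ht : st (1, s) = 1 := by unfold st; rw [hm]; exact cl_of_ge (by norm_num)
  have he : se N ε (1, s) = 0 := by
    unfold se
    rw [hm, cl_of_le (show 2 - 8 * |(2 : ℝ) - 1 / 2| ≤ 0 by norm_num [abs_of_pos])]
    ring
  rcases ab_alt (1, s) with hb | ha
  · have eL : sL N (1, s) = 0 := by unfold sL; rw [ht, hb]; ring
    have hS : D.S (H N ε (1, s)) = 2 * D.T * se N ε (1, s) ^ 2
        + (cl (sL N (1, s)) * (D.Gm (sm (1, s) - se N ε (1, s)) + 1) - sL N (1, s))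
        + (cl (sR N (1, s)) * (D.Gp (sm (1, s) + se N ε (1, s)) + 1) - sR N (1, s)) :=
      S_surf rfl (le_of_eq he.symm)
    rw [hS, eL, he, hm, cl_of_le le_rfl]
    have := sw_le (κ := D.Gp (2 + 0)) (sR_mem hN0 (1, s)).1 le_rfl
      (Gp_neg (D := D) (by norm_num)).le
    linarith
  · have eR : sR N (1, s) = N := by unfold sR; rw [ht, ha]; ring
    exact (hNS _ hmem (Or.inr eR)).le

theorem H_bot (N ε s : ℝ) : H N ε (s, 0) = (sm (s, 0), 0, 0, 0, 0) := by
  have ha : sa (s, 0) = 0 := by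
    unfold sa; rw [cl_of_le le_rfl]; exact cl_of_le (by norm_num)
  have hb : sb (s, 0) = 0 := by
    unfold sb; rw [cl_of_le le_rfl]; exact cl_of_le (by norm_num)
  have hL : sL N (s, 0) = 0 := by unfold sL; rw [ha, hb]; ring
  have hR : sR N (s, 0) = 0 := by unfold sR; rw [ha, hb]; ring
  have he : se N ε (s, 0) = 0 := by
    unfold se; rw [hL, hR, cl_of_le (show (0:ℝ) + 0 ≤ 0 by norm_num)]; ring
  unfold H
  rw [hL, hR, he]

theorem H_top (N ε s : ℝ) : (H N ε (s, 1)).2.2.2.1 = N ∧ (H N ε (s, 1)).2.2.2.2 = N := by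
  have ha : sa (s, 1) = 1 := by
    unfold sa; rw [cl_of_ge le_rfl]; exact cl_of_ge (by norm_num)
  have hb : sb (s, 1) = 1 := by
    unfold sb; rw [cl_of_ge le_rfl]; exact cl_of_ge (by norm_num)
  constructor
  · show sL N (s, 1) = N
    unfold sL; rw [ha, hb]; ring
  · show sR N (s, 1) = N
    unfold sR; rw [ha, hb]; ring

/-- Two graphs over the unit interval carry a rectangle. -/
theorem main (D : Dat) : ¬ D.NoRect := by
  intro hno
  obtain ⟨δ, hδ, hlink⟩ := link D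
  obtain ⟨N, hN, hNS⟩ := exists_N D
  obtain ⟨ε, hε, hε1, h1, h2, h3⟩ := exists_eps D
  have hN0 : 0 < N := by linarith
  have hHmem := fun p => H_mem hN0 hε (by linarith) p
  have hHc := H_cont N ε
  -- the lower bound on the linking set
  obtain ⟨c0, hc0, hc0'⟩ : ∃ c0 > 0, ∀ y ∈ Box N, y.1 = 1 / 2 → Bd δ y = 0 → c0 ≤ D.S y := by
    set C : Set V := Box N ∩ {y | y.1 = 1 / 2 ∧ Bd δ y = 0} with hC
    have hcl : IsClosed {y : V | y.1 = 1 / 2 ∧ Bd δ y = 0} :=
      (isClosed_eq continuous_fst continuous_const).inter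
        (isClosed_eq (Bd_cont δ) continuous_const)
    have hCc : IsCompact C := (box_compact N).inter_right hcl
    rcases C.eq_empty_or_nonempty with h0 | h0
    · refine ⟨1, one_pos, fun y hy hy1 hy2 => ?_⟩
      have : y ∈ C := ⟨hy, hy1, hy2⟩
      rw [h0] at this
      exact absurd this (notMem_empty y)
    · obtain ⟨z, hz, hmin⟩ := hCc.exists_isMinOn h0 D.contS.continuousOn
      refine ⟨D.S z, hlink z hz.2.1 hz.1.2.2.2.1.1 hz.1.2.2.2.2.1 hz.2.2,
        fun y hy hy1 hy2 => hmin (show y ∈ C from ⟨hy, hy1, hy2⟩)⟩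
  -- the upper bound on the surface
  obtain ⟨b, hb, hb'⟩ : ∃ b < D.G 1, ∀ p, D.S (H N ε p) ≤ b := by
    obtain ⟨z, -, hmax⟩ := (isCompact_Icc.prod isCompact_Icc :
      IsCompact (Icc (0:ℝ) 1 ×ˢ Icc (0:ℝ) 1)).exists_isMaxOn
      ⟨(0, 0), ⟨by simp, by simp⟩⟩ (D.contS.comp hHc).continuousOn
    refine ⟨D.S (H N ε z), surf_lt hN hNS hε hε1 h1 h2 h3 z, fun p => ?_⟩
    rw [H_clamp]
    exact hmax (show (cl p.1, cl p.2) ∈ Icc (0:ℝ) 1 ×ˢ Icc (0:ℝ) 1 from
      ⟨⟨cl_nonneg _, cl_le_one _⟩, ⟨cl_nonneg _, cl_le_one _⟩⟩)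
  obtain ⟨Ψ, hΨ, hΨ'⟩ := push (box_compact N) D.contS (a := c0 / 2) (b := b) (by linarith) (by
    intro x hx hxa hxb
    have hpos : 0 < D.S x := by linarith
    have e1 : x.2.2.2.1 < N := lt_of_le_of_ne hx.2.2.2.1.2 (fun h => by
      have := hNS x hx (Or.inl h); linarith)
    have e2 : x.2.2.2.2 < N := lt_of_le_of_ne hx.2.2.2.2.2 (fun h => by
      have := hNS x hx (Or.inr h); linarith)
    exact descent hno hx e1 e2 hpos (by linarith))
  have hΨc := hΨ.cont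
  have hBc := Bd_cont δ
  set F : ℝ × ℝ → ℂ := fun p => ⟨(Ψ (H N ε p)).1 - 1 / 2, Bd δ (Ψ (H N ε p))⟩ with hF
  have hFc : Continuous F := by
    have e : F = fun p => (((Ψ (H N ε p)).1 - 1 / 2 : ℝ) : ℂ)
        + ((Bd δ (Ψ (H N ε p)) : ℝ) : ℂ) * Complex.I := by
      funext p
      apply Complex.ext <;> simp [hF]
    rw [e]
    fun_prop
  have hNpos : ∀ y ∈ Box N, D.S y ≤ 0 → Ψ y = y := hΨ.fix
  obtain ⟨p, hp⟩ := H333.miranda F hFc
    (by
      intro s _
      show (Ψ (H N ε (0, s))).1 - 1 / 2 < 0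
      rw [hNpos _ (hHmem _) (surf_left hN hNS hε hε1 s)]
      show sm (0, s) - 1 / 2 < 0
      unfold sm; rw [cl_of_le le_rfl]; norm_num)
    (by
      intro s _
      show 0 < (Ψ (H N ε (1, s))).1 - 1 / 2
      rw [hNpos _ (hHmem _) (surf_right hN hNS hε hε1 s)]
      show 0 < sm (1, s) - 1 / 2
      unfold sm; rw [cl_of_ge le_rfl]; norm_num)
    (by
      intro s _
      show Bd δ (Ψ (H N ε (s, 0))) < 0
      have hS0 : D.S (H N ε (s, 0)) ≤ 0 := by
        rw [H_bot, S_surf rfl le_rfl]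
        simp [cl_of_le le_rfl]
      rw [hNpos _ (hHmem _) hS0, H_bot]
      unfold Bd
      simp only [sub_self, abs_zero]
      apply max_lt (max_lt _ _) _ <;> linarith)
    (by
      intro s _
      show 0 < Bd δ (Ψ (H N ε (s, 1)))
      have hS0 : D.S (H N ε (s, 1)) ≤ 0 := (hNS _ (hHmem _) (Or.inl (H_top N ε s).1)).le
      rw [hNpos _ (hHmem _) hS0]
      unfold Bd
      apply lt_max_of_lt_right
      rw [(H_top N ε s).2]
      linarith)
  have hp1 : (Ψ (H N ε p)).1 - 1 / 2 = 0 := congrArg Complex.re hp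
  have hp2 : Bd δ (Ψ (H N ε p)) = 0 := congrArg Complex.im hp
  have hin := hΨ.maps (hHmem p)
  have h4 := hc0' _ hin (by linarith) hp2
  have h5 := hΨ' _ (hHmem p) (hb' p)
  linarith

end Dat

end Pool.Agent.Run7.h118.TG
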