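import Pool.Agent.Run7.h118.TGDiag

set_option autoImplicit false

open Set Filter Topology

/-! The full descent statement on the compact box. -/

namespace Pool.Agent.Run7.h118.TG

/-- The compact box. -/
def Box (N : ℝ) : Set V :=
  {y | |y.1| ≤ 3 ∧ |y.2.1| ≤ 3 ∧ |y.2.2.1| ≤ 3 ∧ (0 ≤ y.2.2.2.1 ∧ y.2.2.2.1 ≤ N) ∧
    (0 ≤ y.2.2.2.2 ∧ y.2.2.2.2 ≤ N)}

theorem box_compact (N : ℝ) : IsCompact (Box N) := by
  have h : IsCompact (Icc (-3:ℝ) 3 ×ˢ (Icc (-3:ℝ) 3 ×ˢ (Icc (-3:ℝ) 3 ×ˢ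
      (Icc (0:ℝ) N ×ˢ Icc (0:ℝ) N)))) :=
    isCompact_Icc.prod (isCompact_Icc.prod (isCompact_Icc.prod
      (isCompact_Icc.prod isCompact_Icc)))
  convert h using 1
  ext y
  simp only [Box, mem_ofPred_eq, mem_prod, mem_Icc, abs_le]

/-- Small steps from `x` in the direction `d` do not leave the box. -/
def Stay (N : ℝ) (x d : V) : Prop :=
  ∀ᶠ p : V × ℝ in 𝓝 (x, (0:ℝ)), 0 ≤ p.2 → p.1 ∈ Box N → p.1 + p.2 • d ∈ Box N

theorem stay_base {N : ℝ} {x : V} (a b c : ℝ) (hL : 0 ≤ x.1 - M x) (hR : x.1 + M x ≤ 1) :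
    Stay N x (a, b, c, 0, 0) := by
  have hM := le_max_left |x.2.1| |x.2.2.1|
  have hM' := le_max_right |x.2.1| |x.2.2.1|
  have hM0 : 0 ≤ M x := (abs_nonneg _).trans hM
  have i1 : |x.1| < 3 := abs_lt.2 ⟨by linarith, by linarith⟩
  have i2 : |x.2.1| < 3 := lt_of_le_of_lt hM (by change M x < 3; linarith)
  have i3 : |x.2.2.1| < 3 := lt_of_le_of_lt hM' (by change M x < 3; linarith)
  have o1 : IsOpen {y : V | |y.1| < 3} := isOpen_lt (by fun_prop) (by fun_prop)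
  have o2 : IsOpen {y : V | |y.2.1| < 3} := isOpen_lt (by fun_prop) (by fun_prop)
  have o3 : IsOpen {y : V | |y.2.2.1| < 3} := isOpen_lt (by fun_prop) (by fun_prop)
  filter_upwards [(tendsto_move x (a, b, c, 0, 0)).eventually (o1.mem_nhds i1),
    (tendsto_move x (a, b, c, 0, 0)).eventually (o2.mem_nhds i2),
    (tendsto_move x (a, b, c, 0, 0)).eventually (o3.mem_nhds i3)] with p h1 h2 h3 _ hp
  obtain ⟨-, -, -, h4, h5⟩ := hp
  exact ⟨le_of_lt h1, le_of_lt h2, le_of_lt h3, by simpa using h4, by simpa using h5⟩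

theorem stay_L {N : ℝ} {x : V} (h : x.2.2.2.1 < N) : Stay N x (0, 0, 0, 1, 0) := by
  have o1 : IsOpen {y : V | y.2.2.2.1 < N} := isOpen_lt (by fun_prop) (by fun_prop)
  filter_upwards [(tendsto_move x (0, 0, 0, 1, 0)).eventually (o1.mem_nhds h)] with p h1 h0 hp
  obtain ⟨g1, g2, g3, g4, g5⟩ := hp
  have h1 : (p.1 + p.2 • ((0, 0, 0, 1, 0) : V)).2.2.2.1 < N := h1
  refine ⟨by simpa using g1, by simpa using g2, by simpa using g3, ⟨?_, h1.le⟩, by simpa using g5⟩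
  simp only [Prod.snd_add, Prod.fst_add, Prod.smul_snd, Prod.smul_fst, smul_eq_mul, mul_one]
  linarith [g4.1]

theorem stay_R {N : ℝ} {x : V} (h : x.2.2.2.2 < N) : Stay N x (0, 0, 0, 0, 1) := by
  have o1 : IsOpen {y : V | y.2.2.2.2 < N} := isOpen_lt (by fun_prop) (by fun_prop)
  filter_upwards [(tendsto_move x (0, 0, 0, 0, 1)).eventually (o1.mem_nhds h)] with p h1 h0 hp
  obtain ⟨g1, g2, g3, g4, g5⟩ := hp
  have h1 : (p.1 + p.2 • ((0, 0, 0, 0, 1) : V)).2.2.2.2 < N := h1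
  refine ⟨by simpa using g1, by simpa using g2, by simpa using g3, by simpa using g4, ⟨?_, h1.le⟩⟩
  simp only [Prod.snd_add, Prod.smul_snd, smul_eq_mul, mul_one]
  linarith [g5.1]

theorem stay_L' {N : ℝ} {x : V} (h : 0 < x.2.2.2.1) : Stay N x (0, 0, 0, -1, 0) := by
  have o1 : IsOpen {y : V | 0 < y.2.2.2.1} := isOpen_lt (by fun_prop) (by fun_prop)
  filter_upwards [(tendsto_move x (0, 0, 0, -1, 0)).eventually (o1.mem_nhds h)] with p h1 h0 hp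
  obtain ⟨g1, g2, g3, g4, g5⟩ := hp
  have h1 : 0 < (p.1 + p.2 • ((0, 0, 0, -1, 0) : V)).2.2.2.1 := h1
  refine ⟨by simpa using g1, by simpa using g2, by simpa using g3, ⟨h1.le, ?_⟩, by simpa using g5⟩
  simp only [Prod.snd_add, Prod.fst_add, Prod.smul_snd, Prod.smul_fst, smul_eq_mul]
  linarith [g4.2]

theorem stay_R' {N : ℝ} {x : V} (h : 0 < x.2.2.2.2) : Stay N x (0, 0, 0, 0, -1) := by
  have o1 : IsOpen {y : V | 0 < y.2.2.2.2} := isOpen_lt (by fun_prop) (by fun_prop)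
  filter_upwards [(tendsto_move x (0, 0, 0, 0, -1)).eventually (o1.mem_nhds h)] with p h1 h0 hp
  obtain ⟨g1, g2, g3, g4, g5⟩ := hp
  have h1 : 0 < (p.1 + p.2 • ((0, 0, 0, 0, -1) : V)).2.2.2.2 := h1
  refine ⟨by simpa using g1, by simpa using g2, by simpa using g3, by simpa using g4, ⟨h1.le, ?_⟩⟩
  simp only [Prod.snd_add, Prod.smul_snd, smul_eq_mul]
  linarith [g5.2]

/-- `M` does not depend on the switches. -/
theorem M_sw (y : V) (s a b : ℝ) : M (y + s • ((0, 0, 0, a, b) : V)) = M y := by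
  unfold M; simp

/-- The function `c (t + 1) - t` of one variable, upwards. -/
theorem sw_up {t s κ k0 : ℝ} (hs : 0 ≤ s) (h1 : k0 ≤ 1) (h : κ ≤ -k0) :
    cl (t + s) * (κ + 1) + -(t + s) ≤ cl t * (κ + 1) + -t - s * k0 := by
  have e1 := cl_add_le (t := t) hs
  have e2 := cl_mono (show t ≤ t + s by linarith)
  rcases le_total 0 (κ + 1) with h2 | h2
  · nlinarith
  · nlinarith

namespace Dat

variable {D : Dat}

theorem P_sw (y : V) (s a b : ℝ) : D.P (y + s • ((0, 0, 0, a, b) : V)) = D.P y := by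
  unfold P P1 P2 Q; simp

theorem cl_S_L {x : V} {a ρ : ℝ} (h : Cl D.TL x (0, 0, 0, a, 0) ρ) :
    Cl D.S x (0, 0, 0, a, 0) ρ := by
  have k1 : Cl D.P x (0, 0, 0, a, 0) 0 := Cl.of_const fun y s => P_sw y s a 0
  have k3 : Cl D.TR x (0, 0, 0, a, 0) 0 := Cl.of_const fun y s => by
    unfold TR; rw [M_sw]; simp
  exact (k1.add (h.add k3)).mono (by linarith)

theorem cl_S_R {x : V} {a ρ : ℝ} (h : Cl D.TR x (0, 0, 0, 0, a) ρ) :
    Cl D.S x (0, 0, 0, 0, a) ρ := by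
  have k1 : Cl D.P x (0, 0, 0, 0, a) 0 := Cl.of_const fun y s => P_sw y s 0 a
  have k3 : Cl D.TL x (0, 0, 0, 0, a) 0 := Cl.of_const fun y s => by
    unfold TL; rw [M_sw]; simp
  exact (k1.add (k3.add h)).mono (by linarith)

theorem upL_neg {x : V} (h : D.Gm (x.1 - M x) < 0) :
    ∃ ρ > 0, Cl D.S x (0, 0, 0, 1, 0) (-ρ) := by
  set κ := D.Gm (x.1 - M x) with hκ
  refine ⟨min 1 (-κ / 2), lt_min one_pos (by linarith), cl_S_L ?_⟩
  intro ε hε
  have hc : Continuous (fun y : V => D.Gm (y.1 - M y)) := by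
    have := D.contGm; have := M_cont; fun_prop
  have ho : IsOpen {y : V | D.Gm (y.1 - M y) < κ / 2} := isOpen_lt hc continuous_const
  filter_upwards [(tendsto_base x).eventually (ho.mem_nhds (show D.Gm (x.1 - M x) < κ / 2 by
    rw [← hκ]; linarith))] with p hp h0
  have hp : D.Gm (p.1.1 - M p.1) < κ / 2 := hp
  have k := sw_up (t := p.1.2.2.2.1) (κ := D.Gm (p.1.1 - M p.1)) h0
    (min_le_left 1 (-κ / 2)) (by
      have := min_le_right 1 (-κ / 2)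
      linarith)
  unfold TL
  rw [M_sw]
  simp only [Prod.snd_add, Prod.fst_add, Prod.smul_snd, Prod.smul_fst, smul_eq_mul, mul_one,
    mul_zero, add_zero]
  have := mul_nonneg h0 hε.le
  linarith

theorem upR_neg {x : V} (h : D.Gp (x.1 + M x) < 0) :
    ∃ ρ > 0, Cl D.S x (0, 0, 0, 0, 1) (-ρ) := by
  set κ := D.Gp (x.1 + M x) with hκ
  refine ⟨min 1 (-κ / 2), lt_min one_pos (by linarith), cl_S_R ?_⟩
  intro ε hε
  have hc : Continuous (fun y : V => D.Gp (y.1 + M y)) := by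
    have := D.contGp; have := M_cont; fun_prop
  have ho : IsOpen {y : V | D.Gp (y.1 + M y) < κ / 2} := isOpen_lt hc continuous_const
  filter_upwards [(tendsto_base x).eventually (ho.mem_nhds (show D.Gp (x.1 + M x) < κ / 2 by
    rw [← hκ]; linarith))] with p hp h0
  have hp : D.Gp (p.1.1 + M p.1) < κ / 2 := hp
  have k := sw_up (t := p.1.2.2.2.2) (κ := D.Gp (p.1.1 + M p.1)) h0
    (min_le_left 1 (-κ / 2)) (by
      have := min_le_right 1 (-κ / 2)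
      linarith)
  unfold TR
  rw [M_sw]
  simp only [Prod.snd_add, Prod.fst_add, Prod.smul_snd, Prod.smul_fst, smul_eq_mul, mul_one,
    mul_zero, add_zero]
  have := mul_nonneg h0 hε.le
  linarith

theorem upL_big {x : V} (h : 1 < x.2.2.2.1) : ∃ ρ > 0, Cl D.S x (0, 0, 0, 1, 0) (-ρ) := by
  refine ⟨1, one_pos, cl_S_L ?_⟩
  intro ε hε
  have ho : IsOpen {y : V | 1 < y.2.2.2.1} := isOpen_lt (by fun_prop) (by fun_prop)
  filter_upwards [(tendsto_base x).eventually (ho.mem_nhds h)] with p hp h0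
  have hp : 1 < p.1.2.2.2.1 := hp
  unfold TL
  rw [M_sw]
  simp only [Prod.snd_add, Prod.fst_add, Prod.smul_snd, Prod.smul_fst, smul_eq_mul, mul_one,
    mul_zero, add_zero]
  rw [cl_of_ge hp.le, cl_of_ge (by linarith : 1 ≤ p.1.2.2.2.1 + p.2)]
  have := mul_nonneg h0 hε.le
  linarith

theorem upR_big {x : V} (h : 1 < x.2.2.2.2) : ∃ ρ > 0, Cl D.S x (0, 0, 0, 0, 1) (-ρ) := by
  refine ⟨1, one_pos, cl_S_R ?_⟩
  intro ε hε
  have ho : IsOpen {y : V | 1 < y.2.2.2.2} := isOpen_lt (by fun_prop) (by fun_prop)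
  filter_upwards [(tendsto_base x).eventually (ho.mem_nhds h)] with p hp h0
  have hp : 1 < p.1.2.2.2.2 := hp
  unfold TR
  rw [M_sw]
  simp only [Prod.snd_add, Prod.fst_add, Prod.smul_snd, Prod.smul_fst, smul_eq_mul, mul_one,
    mul_zero, add_zero]
  rw [cl_of_ge hp.le, cl_of_ge (by linarith : 1 ≤ p.1.2.2.2.2 + p.2)]
  have := mul_nonneg h0 hε.le
  linarith

theorem downL {x : V} (h0 : 0 < x.2.2.2.1) (h1 : x.2.2.2.1 < 1) (h : 0 < D.Gm (x.1 - M x)) :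
    ∃ ρ > 0, Cl D.S x (0, 0, 0, -1, 0) (-ρ) := by
  set κ := D.Gm (x.1 - M x) with hκ
  refine ⟨κ / 2, by linarith, cl_S_L ?_⟩
  intro ε hε
  have hc : Continuous (fun y : V => D.Gm (y.1 - M y)) := by
    have := D.contGm; have := M_cont; fun_prop
  have ho : IsOpen {y : V | κ / 2 < D.Gm (y.1 - M y)} := isOpen_lt continuous_const hc
  have o0 : IsOpen {y : V | 0 < y.2.2.2.1} := isOpen_lt (by fun_prop) (by fun_prop)
  have o1 : IsOpen {y : V | y.2.2.2.1 < 1} := isOpen_lt (by fun_prop) (by fun_prop)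
  filter_upwards [(tendsto_base x).eventually (ho.mem_nhds (show κ / 2 < D.Gm (x.1 - M x) by
    rw [← hκ]; linarith)), (tendsto_base x).eventually (o1.mem_nhds h1),
    (tendsto_move x (0, 0, 0, -1, 0)).eventually (o0.mem_nhds h0)] with p hp hp1 hp0 hs
  have hp : κ / 2 < D.Gm (p.1.1 - M p.1) := hp
  have hp1 : p.1.2.2.2.1 < 1 := hp1
  have hp0 : 0 < (p.1 + p.2 • ((0, 0, 0, -1, 0) : V)).2.2.2.1 := hp0
  unfold TL
  rw [M_sw]
  simp only [Prod.snd_add, Prod.fst_add, Prod.smul_snd, Prod.smul_fst, smul_eq_mul, mul_neg,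
    mul_one, mul_zero, add_zero] at hp0 ⊢
  rw [cl_of_mem (by linarith) hp1.le, cl_of_mem hp0.le (by linarith)]
  have := mul_nonneg hs hε.le
  nlinarith

theorem downR {x : V} (h0 : 0 < x.2.2.2.2) (h1 : x.2.2.2.2 < 1) (h : 0 < D.Gp (x.1 + M x)) :
    ∃ ρ > 0, Cl D.S x (0, 0, 0, 0, -1) (-ρ) := by
  set κ := D.Gp (x.1 + M x) with hκ
  refine ⟨κ / 2, by linarith, cl_S_R ?_⟩
  intro ε hε
  have hc : Continuous (fun y : V => D.Gp (y.1 + M y)) := by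
    have := D.contGp; have := M_cont; fun_prop
  have ho : IsOpen {y : V | κ / 2 < D.Gp (y.1 + M y)} := isOpen_lt continuous_const hc
  have o0 : IsOpen {y : V | 0 < y.2.2.2.2} := isOpen_lt (by fun_prop) (by fun_prop)
  have o1 : IsOpen {y : V | y.2.2.2.2 < 1} := isOpen_lt (by fun_prop) (by fun_prop)
  filter_upwards [(tendsto_base x).eventually (ho.mem_nhds (show κ / 2 < D.Gp (x.1 + M x) by
    rw [← hκ]; linarith)), (tendsto_base x).eventually (o1.mem_nhds h1),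
    (tendsto_move x (0, 0, 0, 0, -1)).eventually (o0.mem_nhds h0)] with p hp hp1 hp0 hs
  have hp : κ / 2 < D.Gp (p.1.1 + M p.1) := hp
  have hp1 : p.1.2.2.2.2 < 1 := hp1
  have hp0 : 0 < (p.1 + p.2 • ((0, 0, 0, 0, -1) : V)).2.2.2.2 := hp0
  unfold TR
  rw [M_sw]
  simp only [Prod.snd_add, Prod.fst_add, Prod.smul_snd, Prod.smul_fst, smul_eq_mul, mul_neg,
    mul_one, mul_zero, add_zero] at hp0 ⊢
  rw [cl_of_mem (by linarith) hp1.le, cl_of_mem hp0.le (by linarith)]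
  have := mul_nonneg hs hε.le
  nlinarith

theorem Gm_neg {x : ℝ} (hx : x < 0) : D.Gm x < 0 := by
  rw [D.Gm_of_neg hx.le]
  have := D.hT
  have h2 : 0 < x ^ 2 := by nlinarith
  have : 0 < D.T / 8 * x ^ 2 := by positivity
  linarith

theorem Gp_neg {x : ℝ} (hx : 1 < x) : D.Gp x < 0 := by
  rw [D.Gp_of_ge hx.le]
  have := D.hT
  have h : 0 < x - 1 := by linarith
  have : 0 < D.T / 8 * (x - 1) ^ 2 := by positivity
  linarith

theorem Gm_pos {x : ℝ} (hx : 0 < x) : 0 < D.Gm x := by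
  rw [D.Gm_of_nonneg hx.le]
  rcases le_total x 1 with h | h
  · have := D.G_strict ⟨le_rfl, zero_le_one⟩ ⟨hx.le, h⟩ hx
    rwa [D.G_zero] at this
  · rw [D.G_one_le h]
    have := D.G_strict ⟨le_rfl, zero_le_one⟩ ⟨zero_le_one, le_rfl⟩ one_pos
    rwa [D.G_zero] at this

theorem Gp_pos {x : ℝ} (hx : x < 1) : 0 < D.Gp x := by
  rw [D.Gp_of_le hx.le]
  rcases le_total 0 x with h | h
  · have := D.G_strict ⟨h, hx.le⟩ ⟨zero_le_one, le_rfl⟩ hx
    linarith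
  · rw [D.G_neg h]
    have := D.G_strict ⟨le_rfl, zero_le_one⟩ ⟨zero_le_one, le_rfl⟩ one_pos
    rw [D.G_zero] at this
    linarith

/-- The full descent statement. -/
theorem descent (hno : D.NoRect) {N : ℝ} {x : V} (hx : x ∈ Box N) (hN1 : x.2.2.2.1 < N)
    (hN2 : x.2.2.2.2 < N) (hS0 : 0 < D.S x) (hS1 : D.S x < D.G 1) :
    ∃ d : V, ∃ ρ > 0, Cl D.S x d (-ρ) ∧ Stay N x d := by
  obtain ⟨-, -, -, ⟨a0, -⟩, ⟨b0, -⟩⟩ := hx
  rcases lt_or_ge 1 x.2.2.2.1 with a1 | a1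
  · obtain ⟨ρ, hρ, h⟩ := upL_big (D := D) a1
    exact ⟨_, ρ, hρ, h, stay_L hN1⟩
  rcases lt_or_ge 1 x.2.2.2.2 with b1 | b1
  · obtain ⟨ρ, hρ, h⟩ := upR_big (D := D) b1
    exact ⟨_, ρ, hρ, h, stay_R hN2⟩
  rcases lt_or_ge (x.1 - M x) 0 with hL | hL
  · obtain ⟨ρ, hρ, h⟩ := upL_neg (D := D) (Gm_neg hL)
    exact ⟨_, ρ, hρ, h, stay_L hN1⟩
  rcases lt_or_ge 1 (x.1 + M x) with hR | hR
  · obtain ⟨ρ, hρ, h⟩ := upR_neg (D := D) (Gp_neg hR)
    exact ⟨_, ρ, hρ, h, stay_R hN2⟩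
  by_cases hcL : x.2.2.2.1 = 0 ∨ x.2.2.2.1 = 1 ∨ x.1 - M x = 0
  · by_cases hcR : x.2.2.2.2 = 0 ∨ x.2.2.2.2 = 1 ∨ x.1 + M x = 1
    · obtain ⟨a, b, c, ρ, hρ, h⟩ := desc_base hno hL hR a0 a1 b0 b1 hcL hcR hS0 hS1
      exact ⟨_, ρ, hρ, h, stay_base a b c hL hR⟩
    · push Not at hcR
      obtain ⟨ρ, hρ, h⟩ := downR (D := D) (lt_of_le_of_ne b0 hcR.1.symm)
        (lt_of_le_of_ne b1 hcR.2.1) (Gp_pos (lt_of_le_of_ne hR hcR.2.2))
      exact ⟨_, ρ, hρ, h, stay_R' (lt_of_le_of_ne b0 hcR.1.symm)⟩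
  · push Not at hcL
    obtain ⟨ρ, hρ, h⟩ := downL (D := D) (lt_of_le_of_ne a0 hcL.1.symm)
      (lt_of_le_of_ne a1 hcL.2.1) (Gm_pos (lt_of_le_of_ne hL hcL.2.2.symm))
    exact ⟨_, ρ, hρ, h, stay_L' (lt_of_le_of_ne a0 hcL.1.symm)⟩

end Dat

end Pool.Agent.Run7.h118.TG
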