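import Pool.Agent.Run7.h118.TMEnds
import Pool.Agent.Run7.h118.TGCurve

set_option autoImplicit false

open Set Filter Topology

/-! Approximation of weakly monotone arcs by graphs. -/

namespace Pool.Agent.Run7.h118.TG.Loc

open Pool.Agent.Run7.h118.TG

/-- Approximate inverses of a weakly increasing function. -/
theorem exists_phi {X : ℝ → ℝ} (hX : Continuous X) {p q : ℝ} (hpq : p < q)
    (hm : MonotoneOn X (Icc p q)) (hp : X p = 0) (hq : X q = 1) {l : ℝ} (hl0 : 0 < l)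
    (hl1 : l ≤ 1) : ∃ φ : ℝ → ℝ, ContinuousOn φ (Icc 0 1) ∧
      (∀ x ∈ Icc (0:ℝ) 1, φ x ∈ Icc p q ∧ |X (φ x) - x| ≤ l) ∧ φ 0 = p ∧ φ 1 = q := by
  have hd : 0 < q - p := by linarith
  set Z : ℝ → ℝ := fun t => (1 - l) * X t + l * ((t - p) / (q - p)) with hZ
  have hZc : Continuous Z := by fun_prop
  have hZp : Z p = 0 := by simp only [hZ]; rw [hp, sub_self, zero_div]; ring
  have hZq : Z q = 1 := by simp only [hZ]; rw [hq, div_self hd.ne']; ring
  have hZm : StrictMonoOn Z (Icc p q) := by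
    intro s hs t ht hst
    have h1 := hm hs ht hst.le
    have h2 : (1 - l) * X s ≤ (1 - l) * X t := mul_le_mul_of_nonneg_left h1 (by linarith)
    have h3 : (s - p) / (q - p) < (t - p) / (q - p) := by
      apply div_lt_div_of_pos_right _ hd; linarith
    have h4 : l * ((s - p) / (q - p)) < l * ((t - p) / (q - p)) :=
      mul_lt_mul_of_pos_left h3 hl0
    simp only [hZ]
    linarith
  have hmaps : MapsTo Z (Icc p q) (Icc 0 1) := by
    intro t ht
    rw [← hZp, ← hZq]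
    exact ⟨hZm.monotoneOn ⟨le_rfl, hpq.le⟩ ht ht.1, hZm.monotoneOn ht ⟨hpq.le, le_rfl⟩ ht.2⟩
  have hsurj : SurjOn Z (Icc p q) (Icc 0 1) := by
    have := intermediate_value_Icc hpq.le hZc.continuousOn
    rw [hZp, hZq] at this
    exact this
  obtain ⟨φ, hφc, hφ⟩ := exists_inv hZc hZm.injOn hmaps hsurj
  refine ⟨φ, hφc, fun x hx => ⟨(hφ x hx).1, ?_⟩, ?_, ?_⟩
  · obtain ⟨h1, h2⟩ := hφ x hx
    have e : X (φ x) - x = l * (X (φ x) - (φ x - p) / (q - p)) := by
      have h3 : (1 - l) * X (φ x) + l * ((φ x - p) / (q - p)) = x := h2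
      linear_combination h3
    rw [e, abs_mul, abs_of_pos hl0]
    have h4 : 0 ≤ X (φ x) := by rw [← hp]; exact hm ⟨le_rfl, hpq.le⟩ h1 h1.1
    have h5 : X (φ x) ≤ 1 := by rw [← hq]; exact hm h1 ⟨hpq.le, le_rfl⟩ h1.2
    have h6 : 0 ≤ (φ x - p) / (q - p) := div_nonneg (by linarith [h1.1]) hd.le
    have h7 : (φ x - p) / (q - p) ≤ 1 := by rw [div_le_one hd]; linarith [h1.2]
    have h8 : |X (φ x) - (φ x - p) / (q - p)| ≤ 1 := by rw [abs_le]; constructor <;> linarith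
    have := mul_le_mul_of_nonneg_left h8 hl0.le
    linarith
  · have h1 := hφ 0 ⟨le_rfl, zero_le_one⟩
    exact hZm.injOn h1.1 ⟨le_rfl, hpq.le⟩ (h1.2.trans hZp.symm)
  · have h1 := hφ 1 ⟨zero_le_one, le_rfl⟩
    exact hZm.injOn h1.1 ⟨hpq.le, le_rfl⟩ (h1.2.trans hZq.symm)

/-- Approximate inverses of a weakly decreasing function. -/
theorem exists_psi {X : ℝ → ℝ} (hX : Continuous X) {p q : ℝ} (hpq : p < q)
    (hm : AntitoneOn X (Icc p q)) (hp : X p = 1) (hq : X q = 0) {l : ℝ} (hl0 : 0 < l)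
    (hl1 : l ≤ 1) : ∃ φ : ℝ → ℝ, ContinuousOn φ (Icc 0 1) ∧
      (∀ x ∈ Icc (0:ℝ) 1, φ x ∈ Icc p q ∧ |X (φ x) - x| ≤ l) ∧ φ 0 = q ∧ φ 1 = p := by
  obtain ⟨φ, h1, h2, h3, h4⟩ := exists_phi (X := fun t => X (p + q - t)) (by fun_prop) hpq
    (by
      intro s hs t ht hst
      exact hm ⟨by linarith [ht.2], by linarith [ht.1]⟩ ⟨by linarith [hs.2], by linarith [hs.1]⟩
        (by linarith))
    (by show X (p + q - p) = 0; rw [show p + q - p = q by ring]; exact hq)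
    (by show X (p + q - q) = 1; rw [show p + q - q = p by ring]; exact hp) hl0 hl1
  refine ⟨fun x => p + q - φ x, by fun_prop, fun x hx => ⟨?_, (h2 x hx).2⟩, ?_, ?_⟩
  · have := (h2 x hx).1
    exact ⟨by linarith [this.2], by linarith [this.1]⟩
  · simp only; rw [h3]; ring
  · simp only; rw [h4]; ring

/-- Near an abscissa with only one ordinate. -/
theorem near_fiber {X Y : ℝ → ℝ} (hX : Continuous X) (hY : Continuous Y) {p q μ y : ℝ}
    (h : ∀ t ∈ Icc p q, X t = μ → Y t = y) {ε : ℝ} (hε : 0 < ε) :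
    ∃ η > 0, ∀ t ∈ Icc p q, |X t - μ| < η → |Y t - y| < ε := by
  set K : Set ℝ := Icc p q ∩ {t | ε ≤ |Y t - y|} with hK
  have hKc : IsCompact K := isCompact_Icc.inter_right (isClosed_le continuous_const (by fun_prop))
  rcases K.eq_empty_or_nonempty with h0 | h0
  · refine ⟨1, one_pos, fun t ht _ => ?_⟩
    by_contra hcon
    have : t ∈ K := ⟨ht, not_lt.1 hcon⟩
    rw [h0] at this
    exact absurd this (notMem_empty t)
  · obtain ⟨z, hz, hmin⟩ := hKc.exists_isMinOn h0 (f := fun t => |X t - μ|)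
      (by fun_prop : Continuous (fun t => |X t - μ|)).continuousOn
    refine ⟨|X z - μ|, ?_, fun t ht hlt => ?_⟩
    · rw [gt_iff_lt, abs_pos]
      intro h1
      have h2 := h z hz.1 (by linarith)
      have h3 : ε ≤ |Y z - y| := hz.2
      rw [h2, sub_self, abs_zero] at h3
      linarith
    · by_contra hcon
      have h1 : t ∈ K := ⟨ht, not_lt.1 hcon⟩
      have h2 : |X z - μ| ≤ |X t - μ| := hmin h1
      linarith

/-- The distance of the two arcs away from the ends. -/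
theorem arcs_dist {c : ℝ → ℂ} (hc : Continuous c) {p q r : ℝ}
    (h : ∀ s ∈ Icc p q, ∀ t ∈ Icc q r, 0 < (c s).re → (c s).re < 1 → c s ≠ c t) {ρ : ℝ}
    (hρ : 0 < ρ) :
    ∃ η > 0, ∀ s ∈ Icc p q, ∀ t ∈ Icc q r, ρ ≤ (c s).re → (c s).re ≤ 1 - ρ →
      η ≤ dist (c s) (c t) := by
  set K : Set (ℝ × ℝ) := (Icc p q ×ˢ Icc q r) ∩ {z | ρ ≤ (c z.1).re ∧ (c z.1).re ≤ 1 - ρ}
    with hK
  have hre : Continuous (fun z : ℝ × ℝ => (c z.1).re) :=
    Complex.continuous_re.comp (hc.comp continuous_fst)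
  have hcl : IsClosed {z : ℝ × ℝ | ρ ≤ (c z.1).re ∧ (c z.1).re ≤ 1 - ρ} :=
    (isClosed_le continuous_const hre).inter (isClosed_le hre continuous_const)
  have hKc : IsCompact K := (isCompact_Icc.prod isCompact_Icc).inter_right hcl
  rcases K.eq_empty_or_nonempty with h0 | h0
  · refine ⟨1, one_pos, fun s hs t ht h1 h2 => ?_⟩
    have : (s, t) ∈ K := ⟨⟨hs, ht⟩, h1, h2⟩
    rw [h0] at this
    exact absurd this (notMem_empty _)
  · obtain ⟨z, hz, hmin⟩ := hKc.exists_isMinOn h0 (f := fun z => dist (c z.1) (c z.2))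
      ((hc.comp continuous_fst).dist (hc.comp continuous_snd)).continuousOn
    refine ⟨dist (c z.1) (c z.2), ?_, fun s hs t ht h1 h2 =>
      hmin (show (s, t) ∈ K from ⟨⟨hs, ht⟩, h1, h2⟩)⟩
    exact dist_pos.2 (h z.1 hz.1.1 z.2 hz.1.2 (by linarith [hz.2.1]) (by linarith [hz.2.2]))

end Pool.Agent.Run7.h118.TG.Loc
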