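import Pool.Agent.Run7.h118.TMArcs

set_option autoImplicit false

open Set Filter Topology

/-! Jordan curves with two weakly monotone arcs. -/

namespace Pool.Agent.Run7.h118.TG.Loc

open Pool.Agent.Run7.h118.TG

/-- From coordinates to complex numbers. -/
theorem rect_complex {θ : ℝ} (h0 : 0 < θ) (hπ : θ < Real.pi) {T : ℝ}
    (hT : T = (1 - Real.cos θ) / Real.sin θ) {m u v yW yZ yA yB : ℝ} (huv : ¬(u = 0 ∧ v = 0))
    (e1 : yW + yZ = yA + yB) (e2 : yZ - yW + (T * (u + v) - 1 / T * (u - v)) = 0)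
    (e3 : yA - yB + (T * (u + v) + 1 / T * (u - v)) = 0) :
    ∃ z d : ℂ, d ≠ 0 ∧ z + d = ⟨m + u, yZ⟩ ∧ z - d = ⟨m - u, yW⟩ ∧
      z + Complex.exp (θ * Complex.I) * d = ⟨m + v, yB⟩ ∧
      z - Complex.exp (θ * Complex.I) * d = ⟨m - v, yA⟩ := by
  have hsin : 0 < Real.sin θ := Real.sin_pos_of_pos_of_lt_pi h0 hπ
  have hcos : Real.cos θ < 1 := by
    have h1 := Real.sin_sq_add_cos_sq θ
    nlinarith [Real.neg_one_le_cos θ, Real.cos_le_one θ]
  have hT0 : 0 < T := by rw [hT]; exact div_pos (by linarith) hsin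
  have hTs : T * Real.sin θ = 1 - Real.cos θ := by rw [hT]; field_simp
  have hTc : (1 / T) * Real.sin θ = 1 + Real.cos θ := by
    have hcs := Real.sin_sq_add_cos_sq θ
    have hne : (1 - Real.cos θ) ≠ 0 := by linarith
    have h1 : (1 / T) * (T * Real.sin θ) * Real.sin θ
        = (1 + Real.cos θ) * (1 - Real.cos θ) := by
      have : (1 / T) * (T * Real.sin θ) = Real.sin θ := by field_simp
      rw [this]; nlinarith
    rw [hTs] at h1
    have h2 : (1 / T * Real.sin θ) * (1 - Real.cos θ)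
        = (1 + Real.cos θ) * (1 - Real.cos θ) := by linarith
    exact mul_right_cancel₀ hne h2
  set d : ℂ := ⟨u, (yZ - yW) / 2⟩ with hd
  set z : ℂ := ⟨m, (yZ + yW) / 2⟩ with hz
  have hrot : Complex.exp (θ * Complex.I) * d = ⟨v, (yB - yA) / 2⟩ := by
    have e4 : yZ - yW = 1 / T * (u - v) - T * (u + v) := by linarith
    have e5 : yB - yA = 1 / T * (u - v) + T * (u + v) := by linarith
    rw [Complex.exp_mul_I, ← Complex.ofReal_cos, ← Complex.ofReal_sin]
    apply Complex.ext
    · simp only [hd, Complex.mul_re, Complex.add_re, Complex.ofReal_re, Complex.ofReal_im,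
        Complex.I_re, Complex.I_im, Complex.add_im, Complex.mul_im, e4]
      linear_combination ((u + v) / 2 * hTs - (u - v) / 2 * hTc)
    · simp only [hd, Complex.mul_re, Complex.add_re, Complex.ofReal_re, Complex.ofReal_im,
        Complex.I_re, Complex.I_im, Complex.add_im, Complex.mul_im, e4, e5]
      have hs1 : Real.sin θ = T * (1 + Real.cos θ) := by
        have : T * ((1 / T) * Real.sin θ) = T * (1 + Real.cos θ) := by rw [hTc]
        have h2 : T * ((1 / T) * Real.sin θ) = Real.sin θ := by field_simp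
        linarith
      have hs2 : Real.sin θ = 1 / T * (1 - Real.cos θ) := by
        rw [← hTs]; field_simp
      linear_combination ((u + v) / 2 * hs1 + (u - v) / 2 * hs2)
  refine ⟨z, d, ?_, ?_, ?_, ?_, ?_⟩
  · intro hd0
    have h1 : u = 0 := congrArg Complex.re hd0
    have h2 : (⟨v, (yB - yA) / 2⟩ : ℂ) = 0 := by rw [← hrot, hd0, mul_zero]
    have h3 : v = 0 := congrArg Complex.re h2
    exact huv ⟨h1, h3⟩
  · apply Complex.ext
    · simp only [hz, hd, Complex.add_re]
    · simp only [hz, hd, Complex.add_im]; ring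
  · apply Complex.ext
    · simp only [hz, hd, Complex.sub_re]
    · simp only [hz, hd, Complex.sub_im]; ring
  · rw [hrot]
    apply Complex.ext
    · simp only [hz, Complex.add_re]
    · simp only [hz, Complex.add_im]; linear_combination (1 / 2) * e1
  · rw [hrot]
    apply Complex.ext
    · simp only [hz, Complex.sub_re]
    · simp only [hz, Complex.sub_im]; linear_combination (1 / 2) * e1

/-- The fibres of a monotone function with more than one point are countably many. -/
theorem countable_mono {X : ℝ → ℝ} {p q : ℝ} (hm : MonotoneOn X (Icc p q)) :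
    {x : ℝ | ∃ s ∈ Icc p q, ∃ t ∈ Icc p q, s < t ∧ X s = x ∧ X t = x}.Countable := by
  apply Set.PairwiseDisjoint.countable_of_nonempty_interior (s := fun x => Icc p q ∩ X ⁻¹' {x})
  · intro x _ y _ hxy
    rw [Function.onFun, Set.disjoint_left]
    rintro t ⟨_, h1⟩ ⟨_, h2⟩
    exact hxy (h1.symm.trans h2)
  · rintro x ⟨s, hs, t, ht, hst, h1, h2⟩
    have hsub : Ioo s t ⊆ Icc p q ∩ X ⁻¹' {x} := by
      intro r hr
      have hr' : r ∈ Icc p q := ⟨by linarith [hs.1, hr.1], by linarith [ht.2, hr.2]⟩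
      refine ⟨hr', ?_⟩
      have k1 := hm hs hr' hr.1.le
      have k2 := hm hr' ht hr.2.le
      show X r = x
      linarith
    exact (nonempty_Ioo.2 hst).mono (interior_maximal hsub isOpen_Ioo)

theorem countable_anti {X : ℝ → ℝ} {p q : ℝ} (hm : AntitoneOn X (Icc p q)) :
    {x : ℝ | ∃ s ∈ Icc p q, ∃ t ∈ Icc p q, s < t ∧ X s = x ∧ X t = x}.Countable := by
  have h1 : MonotoneOn (fun t => -X t) (Icc p q) := fun s hs t ht hst =>
    neg_le_neg (hm hs ht hst)
  have h2 := (countable_mono h1).image (fun x => -x)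
  refine h2.mono ?_
  rintro x ⟨s, hs, t, ht, hst, k1, k2⟩
  exact ⟨-x, ⟨s, hs, t, ht, hst, by rw [k1], by rw [k2]⟩, neg_neg x⟩

/-- The normalised form of the curve. -/
structure Nc (c : ℝ → ℂ) (s0 s1 : ℝ) : Prop where
  cont : Continuous c
  h01 : s0 < s1
  h11 : s1 < s0 + 1
  hend : c (s0 + 1) = c s0
  inj : ∀ s ∈ Ico s0 (s0 + 1), ∀ t ∈ Ico s0 (s0 + 1), c s = c t → s = t
  mono : MonotoneOn (fun t => (c t).re) (Icc s0 s1)
  anti : AntitoneOn (fun t => (c t).re) (Icc s1 (s0 + 1))
  re0 : (c s0).re = 0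
  re1 : (c s1).re = 1

/-- The two arcs are disjoint away from the ends. -/
theorem Nc.disj {c : ℝ → ℂ} {s0 s1 : ℝ} (h : Nc c s0 s1) : ∀ s ∈ Icc s0 s1,
    ∀ t ∈ Icc s1 (s0 + 1), 0 < (c s).re → (c s).re < 1 → c s ≠ c t := by
  intro s hs t ht h1 h2 heq
  have hs1 : s < s1 := by
    rcases hs.2.eq_or_lt with h3 | h3
    · rw [h3, h.re1] at h2; exact absurd h2 (lt_irrefl _)
    · exact h3
  have ht1 : t < s0 + 1 := by
    rcases ht.2.eq_or_lt with h3 | h3
    · rw [heq, h3, h.hend, h.re0] at h1; exact absurd h1 (lt_irrefl _)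
    · exact h3
  have := h.inj s ⟨hs.1, by linarith [h.h11]⟩ t ⟨by linarith [h.h01, ht.1], ht1⟩ heq
  linarith [ht.1]

/-- A good middle abscissa. -/
theorem Nc.exists_mu {c : ℝ → ℂ} {s0 s1 : ℝ} (h : Nc c s0 s1) :
    ∃ μ y1 y2 : ℝ, 0 < μ ∧ μ < 1 ∧ y1 ≠ y2 ∧
      (∀ t ∈ Icc s0 s1, (c t).re = μ → (c t).im = y1) ∧
      (∀ t ∈ Icc s1 (s0 + 1), (c t).re = μ → (c t).im = y2) := by
  have hre : Continuous (fun t => (c t).re) := Complex.continuous_re.comp h.cont
  have hc := (countable_mono h.mono).union (countable_anti h.anti)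
  obtain ⟨μ, hμ, hμn⟩ := (hc.dense_compl ℝ).inter_open_nonempty (Ioo (0:ℝ) 1) isOpen_Ioo
    (nonempty_Ioo.2 one_pos)
  have hμn' := not_or.1 hμn
  obtain ⟨t1, ht1, e1⟩ := intermediate_value_Icc h.h01.le hre.continuousOn
    (by simp only; rw [h.re0, h.re1]; exact ⟨hμ.1.le, hμ.2.le⟩ :
      μ ∈ Icc ((fun t => (c t).re) s0) ((fun t => (c t).re) s1))
  obtain ⟨t2, ht2, e2⟩ := intermediate_value_Icc' h.h11.le hre.continuousOn
    (by simp only; rw [h.hend, h.re0, h.re1]; exact ⟨hμ.1.le, hμ.2.le⟩ :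
      μ ∈ Icc ((fun t => (c t).re) (s0 + 1)) ((fun t => (c t).re) s1))
  simp only at e1 e2
  refine ⟨μ, (c t1).im, (c t2).im, hμ.1, hμ.2, fun hy => ?_, fun t ht hte => ?_,
    fun t ht hte => ?_⟩
  · exact h.disj t1 ht1 t2 ht2 (by rw [e1]; exact hμ.1) (by rw [e1]; exact hμ.2)
      (Complex.ext (e1.trans e2.symm) hy)
  · have : t = t1 := by
      by_contra hne
      apply hμn'.1
      rcases lt_or_gt_of_ne hne with h3 | h3
      · exact ⟨t, ht, t1, ht1, h3, hte, e1⟩
      · exact ⟨t1, ht1, t, ht, h3, e1, hte⟩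
    rw [this]
  · have : t = t2 := by
      by_contra hne
      apply hμn'.2
      rcases lt_or_gt_of_ne hne with h3 | h3
      · exact ⟨t, ht, t2, ht2, h3, hte, e2⟩
      · exact ⟨t2, ht2, t, ht, h3, e2, hte⟩
    rw [this]

/-- The data built from two functions on the unit interval. -/
theorem exists_dat {h1 h2 : ℝ → ℝ} (hc1 : ContinuousOn h1 (Icc 0 1))
    (hc2 : ContinuousOn h2 (Icc 0 1)) (e0 : h1 0 = h2 0) (e1 : h1 1 = h2 1) {Y0 l T : ℝ}
    (hb1 : ∀ x ∈ Icc (0:ℝ) 1, |h1 x| ≤ Y0) (hb2 : ∀ x ∈ Icc (0:ℝ) 1, |h2 x| ≤ Y0)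
    (hl0 : 0 < l) (hl1 : l ≤ 1) (hT : 0 < T) :
    ∃ D : Dat, D.T = T ∧ D.Y = 2 * Y0 + 1 ∧ (∀ x ∈ Icc (0:ℝ) 1, D.f x = min (h1 x) (h2 x) ∧
      D.f x + D.w x = max (h1 x) (h2 x) + l * (x * (1 - x))) := by
  have hk : ∀ x, cl x ∈ Icc (0:ℝ) 1 := fun x => ⟨cl_nonneg x, cl_le_one x⟩
  have c1 : Continuous (fun x => h1 (cl x)) := hc1.comp_continuous cl_cont hk
  have c2 : Continuous (fun x => h2 (cl x)) := hc2.comp_continuous cl_cont hk
  have cc := cl_cont
  have hY0 : 0 ≤ Y0 := (abs_nonneg _).trans (hb1 0 ⟨le_rfl, zero_le_one⟩)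
  refine ⟨{ f := fun x => min (h1 (cl x)) (h2 (cl x))
            w := fun x => |h1 (cl x) - h2 (cl x)| + l * (cl x * (1 - cl x))
            T := T
            Y := 2 * Y0 + 1
            hf := c1.min c2
            hw := (c1.sub c2).abs.add (continuous_const.mul (cc.mul (continuous_const.sub cc)))
            hT := hT
            w0 := fun x hx => by rw [cl_of_le hx, e0]; simp
            w1 := fun x hx => by rw [cl_of_ge hx, e1]; simp
            wpos := fun x hx0 hx1 => by
              rw [cl_of_mem hx0.le hx1.le]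
              have : 0 < l * (x * (1 - x)) := mul_pos hl0 (mul_pos hx0 (by linarith))
              have := abs_nonneg (h1 x - h2 x)
              linarith
            fY := fun x => by
              have a1 := abs_le.1 (hb1 _ (hk x))
              have a2 := abs_le.1 (hb2 _ (hk x))
              rw [abs_le]
              constructor
              · apply le_min <;> linarith
              · exact (min_le_left _ _).trans (by linarith)
            wY := fun x => by
              have a1 := abs_le.1 (hb1 _ (hk x))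
              have a2 := abs_le.1 (hb2 _ (hk x))
              have a3 := cl_nonneg x
              have a4 := cl_le_one x
              have a5 : cl x * (1 - cl x) ≤ 1 := by nlinarith
              have a6 : 0 ≤ cl x * (1 - cl x) := mul_nonneg a3 (by linarith)
              have a7 : l * (cl x * (1 - cl x)) ≤ 1 := by nlinarith
              have a8 : 0 ≤ l * (cl x * (1 - cl x)) := mul_nonneg hl0.le a6
              have a9 : |h1 (cl x) - h2 (cl x)| ≤ 2 * Y0 := by
                rw [abs_le]; constructor <;> linarith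
              have a10 := abs_nonneg (h1 (cl x) - h2 (cl x))
              rw [abs_of_nonneg (by linarith)]
              linarith }, rfl, rfl, fun x hx => ?_⟩
  show min (h1 (cl x)) (h2 (cl x)) = min (h1 x) (h2 x) ∧
    min (h1 (cl x)) (h2 (cl x)) + (|h1 (cl x) - h2 (cl x)| + l * (cl x * (1 - cl x)))
      = max (h1 x) (h2 x) + l * (x * (1 - x))
  rw [cl_of_mem hx.1 hx.2]
  refine ⟨rfl, ?_⟩
  rcases le_total (h1 x) (h2 x) with h | h
  · rw [min_eq_left h, max_eq_right h, abs_of_nonpos (by linarith)]; ring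
  · rw [min_eq_right h, max_eq_left h, abs_of_nonneg (by linarith)]; ring

end Pool.Agent.Run7.h118.TG.Loc
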