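import Pool.Agent.Run7.h118.TMDesc

set_option autoImplicit false

open Set Filter Topology

/-! Descent directions of the action: the diagonal and the symmetry, local version. -/

namespace Pool.Agent.Run7.h118.TG.Loc

open Pool.Agent.Run7.h118.TG

variable {D : Dat}

/-- The smooth branch that is minimal when both switches are on. -/
noncomputable def R1 (D : Dat) (y : V) : ℝ :=
  D.Q y + (D.G (y.1 - y.2.1) + -D.G (y.1 + y.2.2.1)) + D.G 1

theorem cl_R1 (x d : V) : Cl (R1 D) x d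
    (D.rQ x d + (D.w (x.1 - x.2.1) * (d.1 - d.2.1) + -D.w (x.1 + x.2.2.1) * (d.1 + d.2.2.1))) := by
  have h2 : Cl (fun y : V => D.G (y.1 - y.2.1)) x d (D.w (x.1 - x.2.1) * (d.1 - d.2.1)) :=
    chain0 (l := fun y : V => y.1 - y.2.1) (D.hasG _)
      (rt_lin (by fun_prop) (fun y s => by simp; ring))
  have h4 : Cl (fun y : V => -D.G (y.1 + y.2.2.1)) x d
      (-D.w (x.1 + x.2.2.1) * (d.1 + d.2.2.1)) :=
    chain0 (Φ := fun t => -D.G t) (l := fun y : V => y.1 + y.2.2.1) (D.hasG _).neg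
      (rt_lin (by fun_prop) (fun y s => by simp; ring))
  have h5 : Cl (fun _ : V => D.G 1) x d 0 := Cl.of_const fun y s => rfl
  have h := ((D.cl_Q x d).add (h2.add h4)).add h5
  rw [add_zero] at h
  exact h

theorem cl_off_L {x d : V} (hd : d.2.2.2.1 = 0) (h : cl x.2.2.2.1 = 1) :
    Cl (fun y : V => (1 - cl y.2.2.2.1) * -D.Gm (y.1 - M y)) x d 0 := by
  have h1 : Cl (fun y : V => -D.Gm (y.1 - M y)) x d _ :=
    chain (Φ := fun t => -D.Gm t) (l := fun y : V => y.1 - M y) (D.hasGm _).neg (rt_L x d)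
      (by positivity)
  have h2 := h1.cmul (a := fun y : V => 1 - cl y.2.2.2.1)
    (by have := cl_cont; exact Continuous.continuousAt (by fun_prop))
    (fun y => by linarith [cl_le_one y.2.2.2.1]) (fun y s => by simp [hd])
  rw [h] at h2
  simpa using h2

theorem cl_off_R {x d : V} (hd : d.2.2.2.2 = 0) (h : cl x.2.2.2.2 = 1) :
    Cl (fun y : V => (1 - cl y.2.2.2.2) * -D.Gp (y.1 + M y)) x d 0 := by
  have h1 : Cl (fun y : V => -D.Gp (y.1 + M y)) x d _ :=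
    chain (Φ := fun t => -D.Gp t) (l := fun y : V => y.1 + M y) (D.hasGp _).neg (rt_R x d)
      (by positivity)
  have h2 := h1.cmul (a := fun y : V => 1 - cl y.2.2.2.2)
    (by have := cl_cont; exact Continuous.continuousAt (by fun_prop))
    (fun y => by linarith [cl_le_one y.2.2.2.2]) (fun y s => by simp [hd])
  rw [h] at h2
  simpa using h2

theorem desc_D_on {x : V} (hno : ¬ RectAt D x.1 x.2.1 x.2.2.1) (h : x.2.2.1 = x.2.1) (h0 : 0 < x.2.1)
    (hL : 0 < x.1 - x.2.1) (hR : x.1 + x.2.1 < 1) (hcL : cl x.2.2.2.1 = 1)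
    (hcR : cl x.2.2.2.2 = 1) : Desc D x := by
  refine desc_grad
    (gm := (D.f (x.1 - x.2.1) + D.w (x.1 - x.2.1)) + D.f (x.1 + x.2.1)
      - D.f (x.1 - x.2.2.1) - (D.f (x.1 + x.2.2.1) + D.w (x.1 + x.2.2.1)))
    (gu := D.f (x.1 + x.2.1) - (D.f (x.1 - x.2.1) + D.w (x.1 - x.2.1))
      + (D.T * (x.2.1 + x.2.2.1) - 1 / D.T * (x.2.1 - x.2.2.1)))
    (gv := D.f (x.1 - x.2.2.1) - (D.f (x.1 + x.2.2.1) + D.w (x.1 + x.2.2.1))
      + (D.T * (x.2.1 + x.2.2.1) + 1 / D.T * (x.2.1 - x.2.2.1))) ?_ ?_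
  · rintro ⟨g1, g2, g3⟩
    exact hno ⟨fun hh => h0.ne' hh.1, _, _, _, _, ong hL.le (by linarith),
      onf (by linarith) hR.le, onf (by linarith) (by linarith),
      ong (by linarith) (by linarith), by linarith, g2, g3, Or.inl ⟨rfl, rfl⟩⟩
  · intro a b c
    have k1 := cl_R1 (D := D) x (a, b, c, 0, 0)
    have k2 := cl_off_L (D := D) (x := x) (d := (a, b, c, 0, 0)) rfl hcL
    have k3 := cl_off_R (D := D) (x := x) (d := (a, b, c, 0, 0)) rfl hcR
    have k4 : Cl (fun y : V => (cl y.2.2.2.1 - y.2.2.2.1) + (cl y.2.2.2.2 - y.2.2.2.2)) x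
        (a, b, c, 0, 0) 0 := Cl.of_const fun y s => by simp
    have k := ((k1.add k2).add k3).add k4
    have hS : (fun y : V => R1 D y + (1 - cl y.2.2.2.1) * -D.Gm (y.1 - M y)
        + (1 - cl y.2.2.2.2) * -D.Gp (y.1 + M y)
        + ((cl y.2.2.2.1 - y.2.2.2.1) + (cl y.2.2.2.2 - y.2.2.2.2))) =ᶠ[𝓝 x] D.S := by
      have o1 : IsOpen {y : V | 0 < y.2.1} := isOpen_lt (by fun_prop) (by fun_prop)
      have o2 : IsOpen {y : V | 0 < y.2.2.1} := isOpen_lt (by fun_prop) (by fun_prop)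
      have hMc := M_cont
      have o3 : IsOpen {y : V | 0 < y.1 - M y} := isOpen_lt (by fun_prop) (by fun_prop)
      have o4 : IsOpen {y : V | y.1 + M y < 1} := isOpen_lt (by fun_prop) (by fun_prop)
      have hMx : M x = x.2.1 := by unfold M; rw [h, max_self, abs_of_pos h0]
      filter_upwards [o1.mem_nhds h0, o2.mem_nhds (show 0 < x.2.2.1 by rw [h]; exact h0),
        o3.mem_nhds (show 0 < x.1 - M x by rw [hMx]; exact hL),
        o4.mem_nhds (show x.1 + M x < 1 by rw [hMx]; exact hR)] with y hy1 hy2 hy3 hy4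
      have hy1 : 0 < y.2.1 := hy1
      have hy2 : 0 < y.2.2.1 := hy2
      have hy3 : 0 < y.1 - M y := hy3
      have hy4 : y.1 + M y < 1 := hy4
      have key : R1 D y = D.P y + D.Gm (y.1 - M y) + D.Gp (y.1 + M y) := by
        rw [D.Gm_of_nonneg hy3.le, D.Gp_of_le hy4.le]
        rcases le_total y.2.2.1 y.2.1 with h5 | h5
        · have hM : M y = y.2.1 := by
            unfold M; rw [abs_of_pos hy1, abs_of_pos hy2, max_eq_left h5]
          rw [D.P_of_ge h5, hM]; unfold R1 Dat.P1; ring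
        · have hM : M y = y.2.2.1 := by
            unfold M; rw [abs_of_pos hy1, abs_of_pos hy2, max_eq_right h5]
          rw [D.P_of_le h5, hM]; unfold R1 Dat.P2; ring
      unfold Dat.S Dat.TL Dat.TR
      rw [key]
      ring
    refine (k.congr hS).mono (le_of_eq ?_)
    unfold Dat.rQ
    simp only
    ring

theorem S_diag {x : V} (h : x.2.2.1 = x.2.1) (h0 : 0 ≤ x.2.1) (hL : 0 ≤ x.1 - x.2.1)
    (hR : x.1 + x.2.1 ≤ 1) (a0 : 0 ≤ x.2.2.2.1) (a1 : x.2.2.2.1 ≤ 1) (b0 : 0 ≤ x.2.2.2.2)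
    (b1 : x.2.2.2.2 ≤ 1) : D.S x = 2 * D.T * x.2.1 ^ 2 + x.2.2.2.1 * D.G (x.1 - x.2.1)
      + x.2.2.2.2 * (D.G 1 - D.G (x.1 + x.2.1)) := by
  have hM : M x = x.2.1 := by unfold M; rw [h, max_self, abs_of_nonneg h0]
  unfold Dat.S Dat.TL Dat.TR
  rw [D.P_of_ge h.le, hM, cl_of_mem a0 a1, cl_of_mem b0 b1, D.Gm_of_nonneg hL, D.Gp_of_le hR]
  unfold Dat.P1 Dat.Q
  rw [h]
  ring

theorem desc_D {x : V} (hno : ¬ RectAt D x.1 x.2.1 x.2.2.1) (h : x.2.2.1 = x.2.1) (h0 : 0 ≤ x.2.1)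
    (hL : 0 ≤ x.1 - x.2.1) (hR : x.1 + x.2.1 ≤ 1) (a0 : 0 ≤ x.2.2.2.1) (a1 : x.2.2.2.1 ≤ 1)
    (b0 : 0 ≤ x.2.2.2.2) (b1 : x.2.2.2.2 ≤ 1)
    (hcL : x.2.2.2.1 = 0 ∨ x.2.2.2.1 = 1 ∨ x.1 - x.2.1 = 0)
    (hcR : x.2.2.2.2 = 0 ∨ x.2.2.2.2 = 1 ∨ x.1 + x.2.1 = 1)
    (hS0 : 0 < D.S x) (hS1 : D.S x < D.G 1) : Desc D x := by
  have hM : M x = x.2.1 := by unfold M; rw [h, max_self, abs_of_nonneg h0]
  have hSx := S_diag (D := D) h h0 hL hR a0 a1 b0 b1
  have eL := cl_of_mem a0 a1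
  have eR := cl_of_mem b0 b1
  have hT := D.hT
  have z1 : D.r1 x ((1, 0, 0, 0, 0) : V) ≤ 0 := by
    unfold Dat.r1 Dat.rQ; rw [h]; simp only; apply le_of_eq; ring
  have z2 : D.r2 x ((1, 0, 0, 0, 0) : V) ≤ 0 := by
    unfold Dat.r2 Dat.rQ; rw [h]; simp only; apply le_of_eq; ring
  have z3 : D.r1 x ((-1, 0, 0, 0, 0) : V) ≤ 0 := by
    unfold Dat.r1 Dat.rQ; rw [h]; simp only; apply le_of_eq; ring
  have z4 : D.r2 x ((-1, 0, 0, 0, 0) : V) ≤ 0 := by
    unfold Dat.r2 Dat.rQ; rw [h]; simp only; apply le_of_eq; ring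
  by_cases inl : x.2.2.2.1 = 0 ∨ x.1 - x.2.1 = 0
  · by_cases inr : x.2.2.2.2 = 0 ∨ x.1 + x.2.1 = 1
    · -- both inactive
      have hpos : 0 < x.2.1 := by
        rcases h0.eq_or_lt with hs | hs
        · exfalso
          have e1 : x.2.2.2.1 * D.G (x.1 - x.2.1) = 0 := by
            rcases inl with hh | hh
            · rw [hh, zero_mul]
            · rw [hh, D.G_zero, mul_zero]
          have e2 : x.2.2.2.2 * (D.G 1 - D.G (x.1 + x.2.1)) = 0 := by
            rcases inr with hh | hh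
            · rw [hh, zero_mul]
            · rw [hh, sub_self, mul_zero]
          rw [hSx, e1, e2, ← hs] at hS0
          simp at hS0
        · exact hs
      have k1 : Cl D.P x ((0, -1, -1, 0, 0) : V) (-(4 * D.T * x.2.1)) := by
        apply D.cl_P
        · unfold Dat.r1 Dat.rQ; rw [h]; simp only; apply le_of_eq; ring
        · unfold Dat.r2 Dat.rQ; rw [h]; simp only; apply le_of_eq; ring
      have k2 : Cl D.TL x ((0, -1, -1, 0, 0) : V) 0 :=
        inL rfl (by rw [hM]; exact hL) (by rw [hM, eL]; exact inl)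
      have k3 : Cl D.TR x ((0, -1, -1, 0, 0) : V) 0 :=
        inR rfl (by rw [hM]; exact hR) (by rw [hM, eR]; exact inr)
      exact ⟨0, -1, -1, 4 * D.T * x.2.1, by positivity, (k1.add (k2.add k3)).mono (by linarith)⟩
    · -- right active
      push Not at inr
      have hr1 : x.2.2.2.2 = 1 := by
        rcases hcR with hh | hh | hh
        · exact absurd hh inr.1
        · exact hh
        · exact absurd hh inr.2
      have hxR1 : x.1 + x.2.1 < 1 := lt_of_le_of_ne hR inr.2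
      have hxR0 : 0 < x.1 + x.2.1 := by
        rcases h0.eq_or_lt with hs | hs
        · rcases hL.eq_or_lt with hl | hl
          · exfalso
            have e1 : x.1 - x.2.1 = 0 := hl.symm
            have e2 : x.1 + x.2.1 = 0 := by linarith
            rw [hSx, e1, e2, D.G_zero, hr1, ← hs] at hS1
            simp at hS1
          · linarith
        · linarith
      have k1 : Cl D.P x ((1, 0, 0, 0, 0) : V) 0 := D.cl_P z1 z2
      have k2 : Cl D.TL x ((1, 0, 0, 0, 0) : V) 0 :=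
        inL rfl (by rw [hM]; exact hL) (by rw [hM, eL]; exact inl)
      have k3 := D.cl_TR (x := x) (d := ((1, 0, 0, 0, 0) : V)) rfl le_rfl (rtm_R x 1)
      refine ⟨1, 0, 0, D.w (x.1 + x.2.1), D.wpos _ hxR0 hxR1,
        (k1.add (k2.add k3)).mono (le_of_eq ?_)⟩
      rw [hM, eR, hr1, D.wp_of_le hR]
      ring
  · push Not at inl
    have hl1 : x.2.2.2.1 = 1 := by
      rcases hcL with hh | hh | hh
      · exact absurd hh inl.1
      · exact hh
      · exact absurd hh inl.2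
    have hxL0 : 0 < x.1 - x.2.1 := lt_of_le_of_ne hL (Ne.symm inl.2)
    by_cases inr : x.2.2.2.2 = 0 ∨ x.1 + x.2.1 = 1
    · have hxL1 : x.1 - x.2.1 < 1 := by
        rcases h0.eq_or_lt with hs | hs
        · rcases hR.eq_or_lt with hr | hr
          · exfalso
            have e2 : x.1 - x.2.1 = 1 := by linarith
            rw [hSx, e2, hr, hl1, ← hs] at hS1
            simp at hS1
          · linarith
        · linarith
      have k1 : Cl D.P x ((-1, 0, 0, 0, 0) : V) 0 := D.cl_P z3 z4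
      have k2 := D.cl_TL (x := x) (d := ((-1, 0, 0, 0, 0) : V)) rfl le_rfl (rtm_L x (-1))
      have k3 : Cl D.TR x ((-1, 0, 0, 0, 0) : V) 0 :=
        inR rfl (by rw [hM]; exact hR) (by rw [hM, eR]; exact inr)
      refine ⟨-1, 0, 0, D.w (x.1 - x.2.1), D.wpos _ hxL0 hxL1,
        (k1.add (k2.add k3)).mono (le_of_eq ?_)⟩
      rw [hM, eL, hl1, D.wm_of_nonneg hL]
      ring
    · push Not at inr
      have hr1 : x.2.2.2.2 = 1 := by
        rcases hcR with hh | hh | hh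
        · exact absurd hh inr.1
        · exact hh
        · exact absurd hh inr.2
      have hxR1 : x.1 + x.2.1 < 1 := lt_of_le_of_ne hR inr.2
      rcases h0.eq_or_lt with hs | hs
      · exfalso
        rw [hSx, hl1, hr1, ← hs] at hS1
        simp at hS1
      · exact desc_D_on hno h hs hxL0 hxR1 (by rw [eL]; exact hl1) (by rw [eR]; exact hr1)

/-- All base points with `v ≤ u`. -/
theorem desc_half {x : V} (hno : ¬ RectAt D x.1 x.2.1 x.2.2.1)
    (huv : x.2.2.1 < x.2.1 ∨ (x.2.2.1 = x.2.1 ∧ 0 ≤ x.2.1))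
    (hL : 0 ≤ x.1 - M x) (hR : x.1 + M x ≤ 1) (a0 : 0 ≤ x.2.2.2.1) (a1 : x.2.2.2.1 ≤ 1)
    (b0 : 0 ≤ x.2.2.2.2) (b1 : x.2.2.2.2 ≤ 1)
    (hcL : x.2.2.2.1 = 0 ∨ x.2.2.2.1 = 1 ∨ x.1 - M x = 0)
    (hcR : x.2.2.2.2 = 0 ∨ x.2.2.2.2 = 1 ∨ x.1 + M x = 1)
    (hS0 : 0 < D.S x) (hS1 : D.S x < D.G 1) : Desc D x := by
  have eL := cl_of_mem a0 a1
  have eR := cl_of_mem b0 b1
  rcases huv with h | ⟨h, h0⟩
  · rcases lt_trichotomy (-x.2.1) x.2.2.1 with h2 | h2 | h2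
    · have hv : |x.2.2.1| < x.2.1 := abs_lt.2 ⟨h2, h⟩
      have hM : M x = x.2.1 := by
        unfold M
        rw [abs_of_pos (lt_of_le_of_lt (abs_nonneg _) hv), max_eq_left hv.le]
      rw [hM] at hL hR hcL hcR
      exact desc_E hno hv hL hR (by rw [eL]; exact hcL) (by rw [eR]; exact hcR)
    · have h0 : 0 < x.2.1 := by linarith
      have hM : M x = x.2.1 := by
        unfold M
        rw [← h2, abs_neg, max_self, abs_of_pos h0]
      rw [hM] at hL hR hcL hcR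
      exact desc_A hno h0 h2.symm hL hR (by rw [eL]; exact hcL) (by rw [eR]; exact hcR)
    · have hv : |x.2.1| < -x.2.2.1 := abs_lt.2 ⟨by linarith, by linarith⟩
      have hM : M x = -x.2.2.1 := by
        unfold M
        have := lt_of_le_of_lt (abs_nonneg _) hv
        rw [abs_of_neg (show x.2.2.1 < 0 by linarith), max_eq_right hv.le]
      rw [hM, sub_neg_eq_add] at hL hcL
      rw [hM, ← sub_eq_add_neg] at hR hcR
      exact desc_S hno hv hL hR (by rw [eL]; exact hcL) (by rw [eR]; exact hcR)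
  · have hM : M x = x.2.1 := by unfold M; rw [h, max_self, abs_of_nonneg h0]
    rw [hM] at hL hR hcL hcR
    exact desc_D hno h h0 hL hR a0 a1 b0 b1 hcL hcR hS0 hS1

/-- The symmetry. -/
def sg (y : V) : V := (y.1, -y.2.1, -y.2.2.1, y.2.2.2)

theorem sg_cont : Continuous sg := by unfold sg; fun_prop

theorem sg_sg (y : V) : sg (sg y) = y := by unfold sg; simp

theorem sg_add (y d : V) (s : ℝ) : sg (y + s • d) = sg y + s • sg d := by
  unfold sg
  ext <;> simp <;> ring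

theorem M_sg (y : V) : M (sg y) = M y := by unfold M sg; simp

theorem Q_sg (y : V) : D.Q (sg y) = D.Q y := by
  show D.F (y.1 - -y.2.1) + D.F (y.1 + -y.2.1) + -D.F (y.1 - -y.2.2.1) + -D.F (y.1 + -y.2.2.1)
    + D.T / 2 * (-y.2.1 + -y.2.2.1) ^ 2 + -(1 / (2 * D.T) * (-y.2.1 - -y.2.2.1) ^ 2) = D.Q y
  unfold Dat.Q
  rw [show y.1 - -y.2.1 = y.1 + y.2.1 by ring, show y.1 + -y.2.1 = y.1 - y.2.1 by ring,
    show y.1 - -y.2.2.1 = y.1 + y.2.2.1 by ring, show y.1 + -y.2.2.1 = y.1 - y.2.2.1 by ring]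
  ring

theorem S_sg (y : V) : D.S (sg y) = D.S y := by
  have hP : D.P (sg y) = D.P y := by
    unfold Dat.P Dat.P1 Dat.P2
    rw [Q_sg, max_comm]
    unfold sg
    simp only [sub_neg_eq_add]
    simp only [← sub_eq_add_neg]
  have hL : D.TL (sg y) = D.TL y := by
    unfold Dat.TL; rw [M_sg]; rfl
  have hR : D.TR (sg y) = D.TR y := by
    unfold Dat.TR; rw [M_sg]; rfl
  unfold Dat.S
  rw [hP, hL, hR]

theorem Cl_sg {x d : V} {ρ : ℝ} (h : Cl D.S (sg x) d ρ) : Cl D.S x (sg d) ρ := by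
  intro ε hε
  have ht : Tendsto (fun p : V × ℝ => (sg p.1, p.2)) (𝓝 (x, (0:ℝ))) (𝓝 (sg x, (0:ℝ))) := by
    have hc : Continuous (fun p : V × ℝ => (sg p.1, p.2)) := by
      have := sg_cont; fun_prop
    exact hc.tendsto (x, (0:ℝ))
  filter_upwards [ht.eventually (h ε hε)] with p hp h0
  have h1 := hp h0
  rw [S_sg] at h1
  rw [← S_sg, sg_add, sg_sg]
  exact h1

theorem rectAt_sg {x : V} (h : RectAt D (sg x).1 (sg x).2.1 (sg x).2.2.1) :
    RectAt D x.1 x.2.1 x.2.2.1 := by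
  obtain ⟨huv, yW, yZ, yA, yB, oW, oZ, oA, oB, e1, e2, e3, h⟩ := h
  have e5 : x.1 - -x.2.1 = x.1 + x.2.1 := by ring
  have e6 : x.1 + -x.2.1 = x.1 - x.2.1 := by ring
  have e7 : x.1 - -x.2.2.1 = x.1 + x.2.2.1 := by ring
  have e8 : x.1 + -x.2.2.1 = x.1 - x.2.2.1 := by ring
  change On D (x.1 - -x.2.1) yW at oW
  change On D (x.1 + -x.2.1) yZ at oZ
  change On D (x.1 - -x.2.2.1) yA at oA
  change On D (x.1 + -x.2.2.1) yB at oB
  change yZ - yW + (D.T * (-x.2.1 + -x.2.2.1) - 1 / D.T * (-x.2.1 - -x.2.2.1)) = 0 at e2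
  change yA - yB + (D.T * (-x.2.1 + -x.2.2.1) + 1 / D.T * (-x.2.1 - -x.2.2.1)) = 0 at e3
  change ((yA = D.f (x.1 - -x.2.2.1) ∧ yB = D.f (x.1 + -x.2.2.1) + D.w (x.1 + -x.2.2.1)) ∨
   (yW = D.f (x.1 - -x.2.1) ∧ yZ = D.f (x.1 + -x.2.1) + D.w (x.1 + -x.2.1)) ∨
   (yB = D.f (x.1 + -x.2.2.1) ∧ yA = D.f (x.1 - -x.2.2.1) + D.w (x.1 - -x.2.2.1)) ∨
   (yZ = D.f (x.1 + -x.2.1) ∧ yW = D.f (x.1 - -x.2.1) + D.w (x.1 - -x.2.1))) at h
  rw [e5] at oW h
  rw [e6] at oZ h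
  rw [e7] at oA h
  rw [e8] at oB h
  refine ⟨fun hh => huv ⟨?_, ?_⟩, yZ, yW, yB, yA, oZ, oW, oB, oA, by linarith, by linarith,
    by linarith, ?_⟩
  · show -x.2.1 = 0
    rw [hh.1, neg_zero]
  · show -x.2.2.1 = 0
    rw [hh.2, neg_zero]
  · rcases h with h | h | h | h
    · exact Or.inr (Or.inr (Or.inl h))
    · exact Or.inr (Or.inr (Or.inr h))
    · exact Or.inl h
    · exact Or.inr (Or.inl h)

theorem desc_base {x : V} (hno : ¬ RectAt D x.1 x.2.1 x.2.2.1)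
    (hL : 0 ≤ x.1 - M x) (hR : x.1 + M x ≤ 1) (a0 : 0 ≤ x.2.2.2.1) (a1 : x.2.2.2.1 ≤ 1)
    (b0 : 0 ≤ x.2.2.2.2) (b1 : x.2.2.2.2 ≤ 1)
    (hcL : x.2.2.2.1 = 0 ∨ x.2.2.2.1 = 1 ∨ x.1 - M x = 0)
    (hcR : x.2.2.2.2 = 0 ∨ x.2.2.2.2 = 1 ∨ x.1 + M x = 1)
    (hS0 : 0 < D.S x) (hS1 : D.S x < D.G 1) : Desc D x := by
  by_cases huv : x.2.2.1 < x.2.1 ∨ (x.2.2.1 = x.2.1 ∧ 0 ≤ x.2.1)
  · exact desc_half hno huv hL hR a0 a1 b0 b1 hcL hcR hS0 hS1
  · have h' : (sg x).2.2.1 < (sg x).2.1 ∨ ((sg x).2.2.1 = (sg x).2.1 ∧ 0 ≤ (sg x).2.1) := by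
      push Not at huv
      unfold sg
      simp only
      rcases huv.1.eq_or_lt with h1 | h1
      · right
        have := huv.2 h1.symm
        exact ⟨by rw [h1], by linarith⟩
      · left; linarith
    obtain ⟨a, b, c, ρ, hρ, h⟩ := desc_half (x := sg x) (fun h => hno (rectAt_sg h)) h' (by rw [M_sg]; exact hL)
      (by rw [M_sg]; exact hR) a0 a1 b0 b1 (by rw [M_sg]; exact hcL) (by rw [M_sg]; exact hcR)
      (by rw [S_sg]; exact hS0) (by rw [S_sg]; exact hS1)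
    have e : ((a, -b, -c, 0, 0) : V) = sg ((a, b, c, 0, 0) : V) := rfl
    refine ⟨a, -b, -c, ρ, hρ, ?_⟩
    rw [e]
    exact Cl_sg h

end Pool.Agent.Run7.h118.TG.Loc
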