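import Pool.Agent.Run7.h118.TMSurf

set_option autoImplicit false

open Set Filter Topology

/-! Critical points near the two ends have trivial levels. -/

namespace Pool.Agent.Run7.h118.TG.Loc

open Pool.Agent.Run7.h118.TG Pool.Agent.Run7.h118.TG.Dat

variable {D : Dat}

theorem F_lip (a b : ℝ) : |D.F a - D.F b| ≤ D.Y * |a - b| := by
  have := Convex.norm_image_sub_le_of_norm_deriv_le (f := D.F) (C := D.Y) (s := univ) (x := b)
    (y := a) (fun x _ => (D.hasF x).hasDerivAt.differentiableAt)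
    (fun x _ => by rw [(D.hasF x).hasDerivAt.deriv]; exact D.fY x) convex_univ trivial trivial
  simpa using this

theorem G_lip (a b : ℝ) : |D.G a - D.G b| ≤ D.Y * |a - b| := by
  have := Convex.norm_image_sub_le_of_norm_deriv_le (f := D.G) (C := D.Y) (s := univ) (x := b)
    (y := a) (fun x _ => (D.hasG x).hasDerivAt.differentiableAt)
    (fun x _ => by rw [(D.hasG x).hasDerivAt.deriv]; exact D.wY x) convex_univ trivial trivial
  simpa using this

/-- The error bound. -/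
noncomputable def err (T Y ρ : ℝ) : ℝ := 8 * Y * ρ + (2 * T + 2 / T) * ρ ^ 2

theorem P_small {x : V} {ρ : ℝ} (h : M x ≤ ρ) :
    |D.P x| ≤ 6 * D.Y * ρ + (2 * D.T + 2 / D.T) * ρ ^ 2 := by
  have hT := D.hT
  have hY := D.Y_nonneg
  have hu : |x.2.1| ≤ ρ := (le_max_left _ _).trans h
  have hv : |x.2.2.1| ≤ ρ := (le_max_right _ _).trans h
  have hρ : 0 ≤ ρ := (abs_nonneg _).trans hu
  obtain ⟨u1, u2⟩ := abs_le.1 hu
  obtain ⟨v1, v2⟩ := abs_le.1 hv
  have d1 : |x.1 - x.2.1 - (x.1 - x.2.2.1)| ≤ 2 * ρ := by rw [abs_le]; constructor <;> linarith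
  have d2 : |x.1 + x.2.1 - (x.1 + x.2.2.1)| ≤ 2 * ρ := by rw [abs_le]; constructor <;> linarith
  have f1 := (F_lip (D := D) (x.1 - x.2.1) (x.1 - x.2.2.1)).trans
    (mul_le_mul_of_nonneg_left d1 hY)
  have f2 := (F_lip (D := D) (x.1 + x.2.1) (x.1 + x.2.2.1)).trans
    (mul_le_mul_of_nonneg_left d2 hY)
  have g1 := (G_lip (D := D) (x.1 + x.2.1) (x.1 + x.2.2.1)).trans
    (mul_le_mul_of_nonneg_left d2 hY)
  have g2 := (G_lip (D := D) (x.1 - x.2.1) (x.1 - x.2.2.1)).trans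
    (mul_le_mul_of_nonneg_left d1 hY)
  have q1 : D.T / 2 * (x.2.1 + x.2.2.1) ^ 2 ≤ 2 * D.T * ρ ^ 2 := by
    have : (x.2.1 + x.2.2.1) ^ 2 ≤ (2 * ρ) ^ 2 :=
      sq_le_sq' (by linarith) (by linarith)
    have := mul_le_mul_of_nonneg_left this (show 0 ≤ D.T / 2 by positivity)
    linarith
  have q2 : 1 / (2 * D.T) * (x.2.1 - x.2.2.1) ^ 2 ≤ 2 / D.T * ρ ^ 2 := by
    have h1 : (x.2.1 - x.2.2.1) ^ 2 ≤ (2 * ρ) ^ 2 :=
      sq_le_sq' (by linarith) (by linarith)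
    have h2 := mul_le_mul_of_nonneg_left h1 (show 0 ≤ 1 / (2 * D.T) by positivity)
    have h3 : 1 / (2 * D.T) * (2 * ρ) ^ 2 = 2 / D.T * ρ ^ 2 := by field_simp
    linarith
  have q3 : 0 ≤ D.T / 2 * (x.2.1 + x.2.2.1) ^ 2 := by positivity
  have q4 : 0 ≤ 1 / (2 * D.T) * (x.2.1 - x.2.2.1) ^ 2 := by positivity
  obtain ⟨f1a, f1b⟩ := abs_le.1 f1
  obtain ⟨f2a, f2b⟩ := abs_le.1 f2
  obtain ⟨g1a, g1b⟩ := abs_le.1 g1
  obtain ⟨g2a, g2b⟩ := abs_le.1 g2
  have q5 : 0 ≤ 2 * D.T * ρ ^ 2 := by positivity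
  have q6 : 0 ≤ 2 / D.T * ρ ^ 2 := by positivity
  have e : (2 * D.T + 2 / D.T) * ρ ^ 2 = 2 * D.T * ρ ^ 2 + 2 / D.T * ρ ^ 2 := by ring
  unfold Dat.P
  rw [e]
  rcases max_choice (D.P1 x) (D.P2 x) with h1 | h1
  · rw [h1]
    unfold Dat.P1 Dat.Q
    rw [abs_le]
    constructor <;> linarith
  · rw [h1]
    unfold Dat.P2 Dat.Q
    rw [abs_le]
    constructor <;> linarith

theorem Crit.level {x : V} (h : Crit D x) : D.S x = D.P x + x.2.2.2.1 * D.G (x.1 - M x)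
    + x.2.2.2.2 * (D.G 1 - D.G (x.1 + M x)) := by
  unfold Dat.S Dat.TL Dat.TR
  rw [cl_of_mem h.a0 h.a1, cl_of_mem h.b0 h.b1, D.Gm_of_nonneg h.hL, D.Gp_of_le h.hR]
  ring

theorem M_nonneg (x : V) : 0 ≤ M x := (abs_nonneg _).trans (le_max_left _ _)

theorem ends_left {x : V} (h : Crit D x) {ρ : ℝ} (hM : M x ≤ ρ) (hm : x.1 ≤ ρ)
    (hρ : 2 * ρ < 1) : D.S x ≤ err D.T D.Y ρ ∨ D.G 1 - err D.T D.Y ρ ≤ D.S x := by
  have hP := abs_le.1 (P_small (D := D) hM)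
  have hM0 := M_nonneg x
  have hY := D.Y_nonneg
  have hL := h.hL
  have h1 : D.G (x.1 - M x) ≤ D.Y * ρ := by
    have h2 := (abs_le.1 (G_lip (D := D) (x.1 - M x) 0)).2
    rw [D.G_zero, sub_zero, sub_zero, abs_of_nonneg hL] at h2
    have := mul_le_mul_of_nonneg_left (show x.1 - M x ≤ ρ by linarith) hY
    linarith
  have h3 : D.G (x.1 + M x) ≤ 2 * D.Y * ρ := by
    have h2 := (abs_le.1 (G_lip (D := D) (x.1 + M x) 0)).2
    rw [D.G_zero, sub_zero, sub_zero, abs_of_nonneg (by linarith)] at h2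
    have := mul_le_mul_of_nonneg_left (show x.1 + M x ≤ 2 * ρ by linarith) hY
    linarith
  have h4 : x.2.2.2.1 * D.G (x.1 - M x) ≤ D.Y * ρ := by
    have := mul_le_mul_of_nonneg_right h.a1 (D.G_ge (x.1 - M x))
    linarith
  have h5 : 0 ≤ x.2.2.2.1 * D.G (x.1 - M x) := mul_nonneg h.a0 (D.G_ge _)
  rw [h.level]
  unfold err
  rcases h.cR with hR | hR | hR
  · left
    rw [hR]
    have : 0 ≤ D.Y * ρ := mul_nonneg hY (hM0.trans hM)
    linarith
  · right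
    rw [hR]
    linarith
  · exfalso
    linarith

theorem ends_right {x : V} (h : Crit D x) {ρ : ℝ} (hM : M x ≤ ρ) (hm : 1 - ρ ≤ x.1)
    (hρ : 2 * ρ < 1) : D.S x ≤ err D.T D.Y ρ ∨ D.G 1 - err D.T D.Y ρ ≤ D.S x := by
  have hP := abs_le.1 (P_small (D := D) hM)
  have hM0 := M_nonneg x
  have hY := D.Y_nonneg
  have hR := h.hR
  have h1 : D.G 1 - D.G (x.1 + M x) ≤ D.Y * ρ := by
    have h2 := (abs_le.1 (G_lip (D := D) 1 (x.1 + M x))).2
    rw [abs_of_nonneg (by linarith)] at h2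
    have := mul_le_mul_of_nonneg_left (show 1 - (x.1 + M x) ≤ ρ by linarith) hY
    linarith
  have h3 : D.G 1 - D.G (x.1 - M x) ≤ 2 * D.Y * ρ := by
    have h2 := (abs_le.1 (G_lip (D := D) 1 (x.1 - M x))).2
    rw [abs_of_nonneg (by linarith)] at h2
    have := mul_le_mul_of_nonneg_left (show 1 - (x.1 - M x) ≤ 2 * ρ by linarith) hY
    linarith
  have h0 : 0 ≤ D.G 1 - D.G (x.1 + M x) := by linarith [D.G_le (x.1 + M x)]
  have h4 : x.2.2.2.2 * (D.G 1 - D.G (x.1 + M x)) ≤ D.Y * ρ := by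
    have := mul_le_mul_of_nonneg_right h.b1 h0
    linarith
  have h5 : 0 ≤ x.2.2.2.2 * (D.G 1 - D.G (x.1 + M x)) := mul_nonneg h.b0 h0
  rw [h.level]
  unfold err
  rcases h.cL with hL | hL | hL
  · left
    rw [hL]
    have : 0 ≤ D.Y * ρ := mul_nonneg hY (hM0.trans hM)
    linarith
  · right
    rw [hL]
    linarith
  · exfalso
    linarith

/-- Smallness of the error. -/
theorem exists_rho {T Y c : ℝ} (hT : 0 < T) (hY : 0 ≤ Y) (hc : 0 < c) :
    ∃ ρ > 0, 2 * ρ < 1 ∧ err T Y ρ < c := by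
  set k : ℝ := 8 * Y + (2 * T + 2 / T) with hk
  have hk0 : 0 < k := by positivity
  refine ⟨min (1 / 4) (c / (2 * k)), lt_min (by norm_num) (by positivity), ?_, ?_⟩
  · have := min_le_left (1 / 4) (c / (2 * k)); linarith
  · set ρ := min (1 / 4) (c / (2 * k)) with hρ
    have hρ0 : 0 < ρ := lt_min (by norm_num) (by positivity)
    have h1 : ρ ≤ 1 / 4 := min_le_left _ _
    have h2 : k * ρ ≤ c / 2 := by
      have : ρ ≤ c / (2 * k) := min_le_right _ _
      rw [le_div_iff₀ (by positivity)] at this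
      linarith
    have h3 : ρ ^ 2 ≤ ρ := by nlinarith
    have h4 : (2 * T + 2 / T) * ρ ^ 2 ≤ (2 * T + 2 / T) * ρ :=
      mul_le_mul_of_nonneg_left h3 (by positivity)
    unfold err
    have e : k * ρ = 8 * Y * ρ + (2 * T + 2 / T) * ρ := by rw [hk]; ring
    linarith

/-- A critical point with a nontrivial level is wide, or its middle is away from the ends. -/
theorem not_ends {x : V} (h : Crit D x) {ρ c : ℝ} (hM : M x ≤ ρ) (hρ : 2 * ρ < 1)
    (he : err D.T D.Y ρ < c) (h1 : c ≤ D.S x) (h2 : D.S x ≤ D.G 1 - c) :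
    ρ < x.1 ∧ x.1 < 1 - ρ := by
  constructor
  · by_contra hcon
    push Not at hcon
    rcases ends_left h hM hcon hρ with h3 | h3 <;> linarith
  · by_contra hcon
    push Not at hcon
    rcases ends_right h hM hcon hρ with h3 | h3 <;> linarith

end Pool.Agent.Run7.h118.TG.Loc
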