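import Pool.Agent.Run7.h118.TMMain

set_option autoImplicit false

open Set Filter Topology

/-! The theorem for Jordan curves with two weakly monotone arcs. -/

namespace Pool.Agent.Run7.h118.TG.Loc

open Pool.Agent.Run7.h118.TG

/-- The seven coordinates of a configuration. -/
abbrev P7 : Type := ℝ × ℝ × ℝ × ℝ × ℝ × ℝ × ℝ

theorem cont_mk {X : Type*} [TopologicalSpace X] {a b : X → ℝ} (ha : Continuous a)
    (hb : Continuous b) : Continuous (fun x => (⟨a x, b x⟩ : ℂ)) := by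
  have h : (fun x => (⟨a x, b x⟩ : ℂ)) = fun x => (a x : ℂ) + (b x : ℂ) * Complex.I := by
    funext x
    apply Complex.ext <;> simp
  rw [h]
  fun_prop

theorem limit {c : ℝ → ℂ} {s0 s1 : ℝ} (h : Nc c s0 s1) {T : ℝ} (hT : 0 < T) :
    ∃ m u v yW yZ yA yB : ℝ, ¬(u = 0 ∧ v = 0) ∧ yW + yZ = yA + yB ∧
      yZ - yW + (T * (u + v) - 1 / T * (u - v)) = 0 ∧
      yA - yB + (T * (u + v) + 1 / T * (u - v)) = 0 ∧
      (⟨m - u, yW⟩ : ℂ) ∈ range c ∧ (⟨m + u, yZ⟩ : ℂ) ∈ range c ∧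
      (⟨m - v, yA⟩ : ℂ) ∈ range c ∧ (⟨m + v, yB⟩ : ℂ) ∈ range c := by
  obtain ⟨ρ, hρ, L, hL, B, hstep⟩ := step h hT
  set C : Set ℂ := c '' Icc s0 (s0 + 1) with hC
  have hCc : IsCompact C := isCompact_Icc.image h.cont
  have hCne : C.Nonempty := ⟨c s0, s0, ⟨le_rfl, by linarith⟩, rfl⟩
  set R : Set P7 := Icc (-1:ℝ) 1 ×ˢ Icc (-1:ℝ) 1 ×ˢ Icc (-1:ℝ) 1 ×ˢ Icc (-B) B ×ˢ
    Icc (-B) B ×ˢ Icc (-B) B ×ˢ Icc (-B) B with hR
  have hRc : IsCompact R := isCompact_Icc.prod (isCompact_Icc.prod (isCompact_Icc.prod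
    (isCompact_Icc.prod (isCompact_Icc.prod (isCompact_Icc.prod isCompact_Icc)))))
  set E : Set P7 := {z | ρ ≤ max |z.2.1| |z.2.2.1|} ∩
    ({z | z.2.2.2.1 + z.2.2.2.2.1 = z.2.2.2.2.2.1 + z.2.2.2.2.2.2} ∩
    ({z | z.2.2.2.2.1 - z.2.2.2.1 + (T * (z.2.1 + z.2.2.1) - 1 / T * (z.2.1 - z.2.2.1)) = 0} ∩
    {z | z.2.2.2.2.2.1 - z.2.2.2.2.2.2 + (T * (z.2.1 + z.2.2.1)
      + 1 / T * (z.2.1 - z.2.2.1)) = 0})) with hE
  have hEc : IsClosed E := by
    refine IsClosed.inter ?_ (IsClosed.inter ?_ (IsClosed.inter ?_ ?_))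
    · exact isClosed_le continuous_const (by fun_prop)
    · exact isClosed_eq (by fun_prop) (by fun_prop)
    · exact isClosed_eq (by fun_prop) (by fun_prop)
    · exact isClosed_eq (by fun_prop) (by fun_prop)
  have hK : IsCompact (R ∩ E) := hRc.inter_right hEc
  set Δ : P7 → ℝ := fun z => Metric.infDist (⟨z.1 - z.2.1, z.2.2.2.1⟩ : ℂ) C
    + Metric.infDist (⟨z.1 + z.2.1, z.2.2.2.2.1⟩ : ℂ) C
    + Metric.infDist (⟨z.1 - z.2.2.1, z.2.2.2.2.2.1⟩ : ℂ) C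
    + Metric.infDist (⟨z.1 + z.2.2.1, z.2.2.2.2.2.2⟩ : ℂ) C with hΔ
  have hΔc : Continuous Δ := by
    have i : Continuous (fun z : ℂ => Metric.infDist z C) := Metric.continuous_infDist_pt C
    refine Continuous.add (Continuous.add (Continuous.add ?_ ?_) ?_) ?_
    · exact i.comp (cont_mk (by fun_prop) (by fun_prop))
    · exact i.comp (cont_mk (by fun_prop) (by fun_prop))
    · exact i.comp (cont_mk (by fun_prop) (by fun_prop))
    · exact i.comp (cont_mk (by fun_prop) (by fun_prop))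
  have hsmall : ∀ l, 0 < l → l ≤ L → ∃ z ∈ R ∩ E, Δ z ≤ 8 * l := by
    intro l hl0 hl1
    obtain ⟨m, u, v, yW, yZ, yA, yB, b1, b2, b3, b4, b5, b6, b7, b8, e1, e2, e3,
      ⟨t1, ht1, d1⟩, ⟨t2, ht2, d2⟩, ⟨t3, ht3, d3⟩, ⟨t4, ht4, d4⟩⟩ := hstep l hl0 hl1
    refine ⟨(m, u, v, yW, yZ, yA, yB), ⟨⟨abs_le.1 b1, abs_le.1 b2, abs_le.1 b3, abs_le.1 b4,
      abs_le.1 b5, abs_le.1 b6, abs_le.1 b7⟩, b8, e1, e2, e3⟩, ?_⟩
    have k : ∀ z : ℂ, ∀ t ∈ Icc s0 (s0 + 1), dist z (c t) ≤ 2 * l →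
        Metric.infDist z C ≤ 2 * l := fun z t ht hd =>
      (Metric.infDist_le_dist_of_mem (mem_image_of_mem c ht)).trans hd
    have k1 := k _ t1 ht1 d1
    have k2 := k _ t2 ht2 d2
    have k3 := k _ t3 ht3 d3
    have k4 := k _ t4 ht4 d4
    show Metric.infDist (⟨m - u, yW⟩ : ℂ) C + Metric.infDist (⟨m + u, yZ⟩ : ℂ) C
      + Metric.infDist (⟨m - v, yA⟩ : ℂ) C + Metric.infDist (⟨m + v, yB⟩ : ℂ) C ≤ 8 * l
    linarith
  obtain ⟨z0, hz0, -⟩ := hsmall L hL le_rfl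
  obtain ⟨z, hz, hmin⟩ := hK.exists_isMinOn ⟨z0, hz0⟩ hΔc.continuousOn
  have hnn : ∀ w : ℂ, 0 ≤ Metric.infDist w C := fun w => Metric.infDist_nonneg
  have hz0' : Δ z ≤ 0 := by
    by_contra hcon
    push Not at hcon
    obtain ⟨y, hy, hy'⟩ := hsmall (min L (Δ z / 16)) (lt_min hL (by positivity))
      (min_le_left _ _)
    have h1 : Δ z ≤ Δ y := hmin hy
    have h2 : min L (Δ z / 16) ≤ Δ z / 16 := min_le_right _ _
    linarith
  obtain ⟨m, u, v, yW, yZ, yA, yB⟩ := z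
  obtain ⟨-, h8, e1, e2, e3⟩ := hz
  have h1 := hnn (⟨m - u, yW⟩ : ℂ)
  have h2 := hnn (⟨m + u, yZ⟩ : ℂ)
  have h3 := hnn (⟨m - v, yA⟩ : ℂ)
  have h4 := hnn (⟨m + v, yB⟩ : ℂ)
  change Metric.infDist (⟨m - u, yW⟩ : ℂ) C + Metric.infDist (⟨m + u, yZ⟩ : ℂ) C
      + Metric.infDist (⟨m - v, yA⟩ : ℂ) C + Metric.infDist (⟨m + v, yB⟩ : ℂ) C ≤ 0 at hz0'
  have fin : ∀ w : ℂ, Metric.infDist w C ≤ 0 → w ∈ range c := by
    intro w hw
    have h5 : w ∈ C := (hCc.isClosed.mem_iff_infDist_zero hCne).2 (le_antisymm hw (hnn w))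
    exact image_subset_range _ _ h5
  refine ⟨m, u, v, yW, yZ, yA, yB, ?_, e1, e2, e3, fin _ (by linarith), fin _ (by linarith),
    fin _ (by linarith), fin _ (by linarith)⟩
  rintro ⟨hu, hv⟩
  change ρ ≤ max |u| |v| at h8
  rw [hu, hv] at h8
  simp at h8
  linarith

/-- A Jordan curve is not contained in a line. -/
theorem not_const {c : ℝ → ℂ} (hc : Continuous c) {s0 : ℝ}
    (hinj : InjOn c (Ico s0 (s0 + 1))) (hend : c (s0 + 1) = c s0) {w : ℂ} (hw : w ≠ 0) {a : ℝ}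
    (hconst : ∀ t ∈ Icc s0 (s0 + 1), (w * c t).re = a) : False := by
  have him : Continuous (fun t => (w * c t).im) := Complex.continuous_im.comp (by fun_prop)
  have key : ∀ s ∈ Ico s0 (s0 + 1), ∀ t ∈ Ico s0 (s0 + 1), (w * c s).im = (w * c t).im →
      s = t := by
    intro s hs t ht hst
    apply hinj hs ht
    apply mul_left_cancel₀ hw
    exact Complex.ext ((hconst s ⟨hs.1, hs.2.le⟩).trans (hconst t ⟨ht.1, ht.2.le⟩).symm) hst
  set g : ℝ → ℝ := fun t => (w * c t).im with hg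
  have hm : s0 ∈ Ico s0 (s0 + 1) := ⟨le_rfl, by linarith⟩
  have hh : s0 + 1 / 2 ∈ Ico s0 (s0 + 1) := ⟨by linarith, by linarith⟩
  have hne : g s0 ≠ g (s0 + 1 / 2) := fun h => by
    have := key _ hm _ hh h
    linarith
  have hge : g (s0 + 1) = g s0 := by simp only [hg]; rw [hend]
  set x : ℝ := (g s0 + g (s0 + 1 / 2)) / 2 with hx
  obtain ⟨p, hp, hpx⟩ : ∃ p ∈ Ioo s0 (s0 + 1 / 2), g p = x := by
    rcases lt_or_gt_of_ne hne with h | h
    · obtain ⟨p, hp, hpx⟩ := intermediate_value_Ioo (by linarith : s0 ≤ s0 + 1 / 2)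
        him.continuousOn (⟨by linarith, by linarith⟩ : x ∈ Ioo (g s0) (g (s0 + 1 / 2)))
      exact ⟨p, hp, hpx⟩
    · obtain ⟨p, hp, hpx⟩ := intermediate_value_Ioo' (by linarith : s0 ≤ s0 + 1 / 2)
        him.continuousOn (⟨by linarith, by linarith⟩ : x ∈ Ioo (g (s0 + 1 / 2)) (g s0))
      exact ⟨p, hp, hpx⟩
  obtain ⟨q, hq, hqx⟩ : ∃ q ∈ Ioo (s0 + 1 / 2) (s0 + 1), g q = x := by
    rcases lt_or_gt_of_ne hne with h | h
    · obtain ⟨p, hp, hpx⟩ := intermediate_value_Ioo' (by linarith : s0 + 1 / 2 ≤ s0 + 1)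
        him.continuousOn (⟨by change g (s0 + 1) < x; rw [hge]; linarith,
          by change x < g (s0 + 1 / 2); linarith⟩ :
          x ∈ Ioo ((fun t => (w * c t).im) (s0 + 1)) ((fun t => (w * c t).im) (s0 + 1 / 2)))
      exact ⟨p, hp, hpx⟩
    · obtain ⟨p, hp, hpx⟩ := intermediate_value_Ioo (by linarith : s0 + 1 / 2 ≤ s0 + 1)
        him.continuousOn (⟨by change g (s0 + 1 / 2) < x; linarith,
          by change x < g (s0 + 1); rw [hge]; linarith⟩ :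
          x ∈ Ioo ((fun t => (w * c t).im) (s0 + 1 / 2)) ((fun t => (w * c t).im) (s0 + 1)))
      exact ⟨p, hp, hpx⟩
  have := key p ⟨hp.1.le, by linarith [hp.2]⟩ q ⟨by linarith [hq.1], hq.2⟩ (hpx.trans hqx.symm)
  linarith [hp.2, hq.1]

/-- The theorem for two weakly monotone arcs. -/
theorem weak {c : ℝ → ℂ} (hc : Continuous c) (hper : ∀ t, c (t + 1) = c t)
    (hinj : InjOn c (Ico 0 1)) {w : ℂ} (hw : w ≠ 0) {s0 s1 : ℝ} (h01 : s0 ≤ s1)
    (h11 : s1 ≤ s0 + 1) (hm : MonotoneOn (fun t => (w * c t).re) (Icc s0 s1))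
    (ha : AntitoneOn (fun t => (w * c t).re) (Icc s1 (s0 + 1))) {θ : ℝ} (h0 : 0 < θ)
    (hπ : θ < Real.pi) :
    ∃ z d : ℂ, d ≠ 0 ∧ z + d ∈ range c ∧ z - d ∈ range c ∧
      z + Complex.exp (θ * Complex.I) * d ∈ range c ∧
      z - Complex.exp (θ * Complex.I) * d ∈ range c := by
  have hinj' := inj_shift hper hinj s0
  have hend := hper s0
  set a : ℝ := (w * c s0).re with haa
  set b : ℝ := (w * c s1).re with hbb
  have hlow : ∀ t ∈ Icc s0 (s0 + 1), a ≤ (w * c t).re ∧ (w * c t).re ≤ b := by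
    intro t ht
    rcases le_total t s1 with h | h
    · exact ⟨hm ⟨le_rfl, h01⟩ ⟨ht.1, h⟩ ht.1, hm ⟨ht.1, h⟩ ⟨h01, le_rfl⟩ h⟩
    · have h2 := ha ⟨h, ht.2⟩ ⟨h11, le_rfl⟩ ht.2
      simp only [hend] at h2
      exact ⟨h2, ha ⟨le_rfl, h11⟩ ⟨h, ht.2⟩ h⟩
  have hab : a < b := by
    rcases (hlow s0 ⟨le_rfl, by linarith⟩).2.eq_or_lt with h | h
    · exfalso
      refine not_const hc hinj' hend hw (a := a) (fun t ht => ?_)
      exact le_antisymm ((hlow t ht).2.trans (le_of_eq h.symm)) (hlow t ht).1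
    · exact h
  have hba : 0 < b - a := by linarith
  have hbaC : ((b - a : ℝ) : ℂ) ≠ 0 := by exact_mod_cast hba.ne'
  set e : ℝ → ℂ := fun t => (w * c t - a) / ((b - a : ℝ) : ℂ) with he
  have hre : ∀ t, (e t).re = ((w * c t).re - a) / (b - a) := by
    intro t
    simp only [he]
    rw [Complex.div_ofReal_re, Complex.sub_re, Complex.ofReal_re]
  have hs01 : s0 < s1 := by
    rcases h01.eq_or_lt with h | h
    · rw [haa, hbb, h] at hab; exact absurd hab (lt_irrefl _)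
    · exact h
  have hs11 : s1 < s0 + 1 := by
    rcases h11.eq_or_lt with h | h
    · rw [haa, hbb, h, hend] at hab; exact absurd hab (lt_irrefl _)
    · exact h
  have hN : Nc e s0 s1 :=
    { cont := by simp only [he]; fun_prop
      h01 := hs01
      h11 := hs11
      hend := by simp only [he]; rw [hend]
      inj := fun s hs t ht hst => by
        apply hinj' hs ht
        apply mul_left_cancel₀ hw
        simp only [he] at hst
        have := (div_left_inj' hbaC).1 hst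
        exact sub_left_inj.1 this
      mono := fun s hs t ht hst => by
        simp only [hre]
        have := hm hs ht hst
        simp only at this
        exact div_le_div_of_nonneg_right (by linarith) hba.le
      anti := fun s hs t ht hst => by
        simp only [hre]
        have := ha hs ht hst
        simp only at this
        exact div_le_div_of_nonneg_right (by linarith) hba.le
      re0 := by rw [hre, ← haa, sub_self, zero_div]
      re1 := by rw [hre, ← hbb, div_self hba.ne'] }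
  have hsin : 0 < Real.sin θ := Real.sin_pos_of_pos_of_lt_pi h0 hπ
  have hcos : Real.cos θ < 1 := by
    have h1 := Real.sin_sq_add_cos_sq θ
    nlinarith [Real.neg_one_le_cos θ, Real.cos_le_one θ]
  obtain ⟨m, u, v, yW, yZ, yA, yB, huv, e1, e2, e3, ⟨t1, k1⟩, ⟨t2, k2⟩, ⟨t3, k3⟩, ⟨t4, k4⟩⟩ :=
    limit hN (T := (1 - Real.cos θ) / Real.sin θ) (div_pos (by linarith) hsin)
  obtain ⟨z, d, hd, r1, r2, r3, r4⟩ := rect_complex h0 hπ rfl (m := m) huv e1 e2 e3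
  have back : ∀ t (p : ℂ), e t = p → c t = (((b - a : ℝ) : ℂ) * p + a) / w := by
    intro t p hp
    rw [← hp]
    simp only [he]
    field_simp
    ring
  refine ⟨(((b - a : ℝ) : ℂ) * z + a) / w, ((b - a : ℝ) : ℂ) * d / w,
    div_ne_zero (mul_ne_zero hbaC hd) hw, ⟨t2, ?_⟩, ⟨t1, ?_⟩, ⟨t4, ?_⟩, ⟨t3, ?_⟩⟩
  · rw [back t2 _ k2, ← r1]; ring
  · rw [back t1 _ k1, ← r2]; ring
  · rw [back t4 _ k4, ← r3]; ring
  · rw [back t3 _ k3, ← r4]; ring

end Pool.Agent.Run7.h118.TG.Loc
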