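import Pool.Agent.Run7.h118.TMSwitch
import Pool.Agent.Run7.h118.TGLink

set_option autoImplicit false

open Set Filter Topology

/-! The lower bound on the linking set, with uniform constants. -/

namespace Pool.Agent.Run7.h118.TG.Loc

open Pool.Agent.Run7.h118.TG Pool.Agent.Run7.h118.TG.Dat

variable {D : Dat}

/-- The function with `P1 = hk u - hk v + ...` for `m = μ`. -/
noncomputable def hk (D : Dat) (μ t : ℝ) : ℝ := D.F (μ + t) + D.G (μ + t) + D.F (μ - t)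

theorem hk_deriv (μ t : ℝ) :
    HasDerivAt (hk D μ) (D.f (μ + t) + D.w (μ + t) - D.f (μ - t)) t := by
  have i1 : HasDerivAt (fun t : ℝ => μ + t) 1 t := by
    simpa using (hasDerivAt_id t).const_add μ
  have i2 : HasDerivAt (fun t : ℝ => μ - t) (-1) t := by
    simpa using (hasDerivAt_id t).const_sub μ
  have h1 := (D.hasF (μ + t)).hasDerivAt.comp t i1
  have h2 := (D.hasG (μ + t)).hasDerivAt.comp t i1
  have h3 := (D.hasF (μ - t)).hasDerivAt.comp t i2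
  refine ((h1.add h2).add h3).congr_deriv ?_
  ring

theorem P1_mu {μ : ℝ} {y : V} (hy : y.1 = μ) : D.P1 y = hk D μ y.2.1 - hk D μ y.2.2.1
    + D.T / 2 * (y.2.1 + y.2.2.1) ^ 2 - 1 / (2 * D.T) * (y.2.1 - y.2.2.1) ^ 2 := by
  unfold Dat.P1 Dat.Q hk
  rw [hy]
  ring

/-- Far from the centre. -/
theorem far_arith {T Y r0 δ u v h κ1 κ2 : ℝ} (hT : 0 < T) (hY : 0 ≤ Y) (hδ2 : δ ≤ 1)
    (hδ4 : (3 * Y + 1 / (2 * T) + 1) * δ ≤ T / 4 * r0 ^ 2)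
    (d0 : 0 ≤ u - v) (d1 : u - v ≤ δ) (hσ : r0 ^ 2 ≤ (u + v) ^ 2)
    (hlow : -(3 * Y) * (u - v) ≤ h) (k1 : -(T / 8 * (u + v) ^ 2) ≤ κ1)
    (k2 : -(T / 8 * (u + v) ^ 2) ≤ κ2) :
    δ ≤ h + T / 2 * (u + v) ^ 2 - 1 / (2 * T) * (u - v) ^ 2 + κ1 + κ2 := by
  have h1 : (u - v) ^ 2 ≤ δ := by nlinarith
  have h2 : 1 / (2 * T) * (u - v) ^ 2 ≤ 1 / (2 * T) * δ :=
    mul_le_mul_of_nonneg_left h1 (by positivity)
  have h3 : T / 4 * r0 ^ 2 ≤ T / 4 * (u + v) ^ 2 :=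
    mul_le_mul_of_nonneg_left hσ (by positivity)
  have h4 : 3 * Y * (u - v) ≤ 3 * Y * δ := mul_le_mul_of_nonneg_left d1 (by positivity)
  have e1 : (3 * Y + 1 / (2 * T) + 1) * δ = 3 * Y * δ + 1 / (2 * T) * δ + δ := by ring
  have e2 : T / 2 * (u + v) ^ 2 = T / 4 * (u + v) ^ 2 + T / 8 * (u + v) ^ 2
      + T / 8 * (u + v) ^ 2 := by ring
  have e3 : -(3 * Y) * (u - v) = -(3 * Y * (u - v)) := by ring
  rw [e1] at hδ4
  rw [e3] at hlow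
  rw [e2]
  linarith

/-- Near the centre. -/
theorem near_arith {T w0 δ u v h κ1 κ2 : ℝ} (hT : 0 < T) (hδ3 : δ ≤ T * w0)
    (d0 : 0 ≤ u - v) (d1 : u - v ≤ δ) (hlow : w0 * (u - v) ≤ h) :
    w0 / 2 * (u - v) + κ1 + κ2
      ≤ h + T / 2 * (u + v) ^ 2 - 1 / (2 * T) * (u - v) ^ 2 + κ1 + κ2 := by
  have h1 : (u - v) ^ 2 ≤ T * w0 * (u - v) := by nlinarith
  have h2 : 1 / (2 * T) * (u - v) ^ 2 ≤ 1 / (2 * T) * (T * w0 * (u - v)) :=
    mul_le_mul_of_nonneg_left h1 (by positivity)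
  have h3 : 1 / (2 * T) * (T * w0 * (u - v)) = w0 / 2 * (u - v) := by field_simp
  have h4 : 0 ≤ T / 2 * (u + v) ^ 2 := by positivity
  linarith

theorem low_far {μ : ℝ} {u v : ℝ} (huv : v ≤ u) :
    -(3 * D.Y) * (u - v) ≤ hk D μ u - hk D μ v := by
  apply mul_sub_le_image_sub_of_le_deriv (f := hk D μ)
    (fun t => (hk_deriv μ t).differentiableAt) _ huv
  intro t
  rw [(hk_deriv μ t).deriv]
  have h1 := abs_le.1 (D.fY (μ + t))
  have h2 := abs_le.1 (D.fY (μ - t))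
  have h3 := D.w_nonneg (μ + t)
  have h4 := D.Y_nonneg
  linarith [h1.1, h2.2]

theorem low_near {μ w0 r0 : ℝ} {u v : ℝ} (huv : v ≤ u) (hu : u ≤ r0) (hv : -r0 ≤ v)
    (hw : ∀ t : ℝ, |t| ≤ r0 → w0 ≤ D.f (μ + t) + D.w (μ + t) - D.f (μ - t)) :
    w0 * (u - v) ≤ hk D μ u - hk D μ v := by
  refine (convex_Icc (-r0) r0).mul_sub_le_image_sub_of_le_deriv (f := hk D μ)
    (continuousOn_of_forall_continuousAt fun t _ => (hk_deriv μ t).continuousAt)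
    (fun t _ => (hk_deriv μ t).differentiableAt.differentiableWithinAt) ?_ v ?_ u ?_ huv
  · intro t ht
    rw [interior_Icc] at ht
    rw [(hk_deriv μ t).deriv]
    exact hw t (abs_le.2 ⟨by linarith [ht.1], by linarith [ht.2]⟩)
  · constructor <;> linarith
  · constructor <;> linarith

theorem M_le_half {y : V} (huv : y.2.2.1 ≤ y.2.1) :
    M y ≤ (|y.2.1 + y.2.2.1| + (y.2.1 - y.2.2.1)) / 2 := by
  unfold M
  have e1 := le_abs_self (y.2.1 + y.2.2.1)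
  have e2 := neg_le_abs (y.2.1 + y.2.2.1)
  apply max_le
  · rw [abs_le]; constructor <;> linarith
  · rw [abs_le]; constructor <;> linarith

theorem S_mu {μ : ℝ} {y : V} (huv : y.2.2.1 ≤ y.2.1) (hm : y.1 = μ) (a0 : 0 ≤ y.2.2.2.1)
    (a1 : y.2.2.2.1 ≤ 1) (b0 : 0 ≤ y.2.2.2.2) (b1 : y.2.2.2.2 ≤ 1) :
    D.S y = (hk D μ y.2.1 - hk D μ y.2.2.1) + D.T / 2 * (y.2.1 + y.2.2.1) ^ 2
      - 1 / (2 * D.T) * (y.2.1 - y.2.2.1) ^ 2
      + y.2.2.2.1 * D.Gm (μ - M y) + y.2.2.2.2 * D.Gp (μ + M y) := by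
  unfold Dat.S Dat.TL Dat.TR
  rw [D.P_of_ge huv, P1_mu hm, cl_of_mem a0 a1, cl_of_mem b0 b1, hm]
  ring

theorem link_half {T Y w0 r0 γ : ℝ} (hT : 0 < T) (hY : 0 ≤ Y) (hw0 : 0 < w0) (hr0 : 0 < r0)
    (hγ : 0 < γ) : ∃ δ > 0, ∃ c > 0, ∀ (D : Dat) (μ : ℝ), D.T = T → D.Y = Y → 0 ≤ μ → μ ≤ 1 →
    (∀ t : ℝ, |t| ≤ r0 → w0 ≤ D.f (μ + t) + D.w (μ + t) - D.f (μ - t)) →
    (∀ t : ℝ, 0 ≤ t → t ≤ r0 → γ ≤ D.Gm (μ - t) ∧ γ ≤ D.Gp (μ + t)) →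
    ∀ y : V, y.2.2.1 ≤ y.2.1 → y.1 = μ →
    0 ≤ y.2.2.2.1 → 0 ≤ y.2.2.2.2 → Bd δ y = 0 → c ≤ D.S y := by
  set k : ℝ := 3 * Y + 1 / (2 * T) + 1 with hk'
  have hkp : 0 < k := by positivity
  set δ : ℝ := min (min r0 1) (min (T * w0) (T / 4 * r0 ^ 2 / k)) with hδ
  have hδ0 : 0 < δ := by
    apply lt_min (lt_min hr0 one_pos) (lt_min (by positivity) (by positivity))
  have hδ1 : δ ≤ r0 := (min_le_left _ _).trans (min_le_left _ _)
  have hδ2 : δ ≤ 1 := (min_le_left _ _).trans (min_le_right _ _)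
  have hδ3 : δ ≤ T * w0 := (min_le_right _ _).trans (min_le_left _ _)
  have hδ4 : k * δ ≤ T / 4 * r0 ^ 2 := by
    have : δ ≤ T / 4 * r0 ^ 2 / k := (min_le_right _ _).trans (min_le_right _ _)
    rw [le_div_iff₀ hkp] at this
    linarith
  refine ⟨δ, hδ0, min δ (min (w0 / 2 * δ) γ), lt_min hδ0 (lt_min (by positivity) hγ), ?_⟩
  intro D μ hDT hDY hμ0 hμ1 hw hG y huv hm a0 b0 hB
  have hd0 : 0 ≤ y.2.1 - y.2.2.1 := by linarith
  have hB1 : |y.2.1 - y.2.2.1| - δ ≤ 0 := by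
    rw [← hB]; exact (le_max_left _ _).trans (le_max_left _ _)
  have hB2 : y.2.2.2.1 - 1 ≤ 0 := by
    rw [← hB]; exact (le_max_right _ _).trans (le_max_left _ _)
  have hB3 : y.2.2.2.2 - 1 ≤ 0 := by
    rw [← hB]; exact le_max_right _ _
  rw [abs_of_nonneg hd0] at hB1
  have hS := S_mu (D := D) huv hm a0 (by linarith) b0 (by linarith)
  have hM0 : 0 ≤ M y := (abs_nonneg _).trans (le_max_left _ _)
  have hMle := M_le_half huv
  rcases le_or_gt r0 |y.2.1 + y.2.2.1| with hσ | hσ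
  · refine (min_le_left _ _).trans ?_
    have hMσ : M y ≤ |y.2.1 + y.2.2.1| := by linarith
    have hM2 : M y ^ 2 ≤ (y.2.1 + y.2.2.1) ^ 2 := by
      rw [← sq_abs (y.2.1 + y.2.2.1)]
      exact pow_le_pow_left₀ hM0 hMσ 2
    have hσ2 : r0 ^ 2 ≤ (y.2.1 + y.2.2.1) ^ 2 := by
      rw [← sq_abs (y.2.1 + y.2.2.1)]
      exact pow_le_pow_left₀ hr0.le hσ 2
    have h3 : D.T / 8 * M y ^ 2 ≤ D.T / 8 * (y.2.1 + y.2.2.1) ^ 2 :=
      mul_le_mul_of_nonneg_left hM2 (by have := D.hT; positivity)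
    have h4 : 0 ≤ D.T / 8 * (y.2.1 + y.2.2.1) ^ 2 := by have := D.hT; positivity
    have h1 := Gm_lower (D := D) (x := μ - M y) hM0 (by linarith)
    have h2 := Gp_lower (D := D) (x := μ + M y) hM0 (by linarith)
    have k1 := mul_lower (κ := D.Gm (μ - M y)) a0 (by linarith) h4 (by linarith)
    have k2 := mul_lower (κ := D.Gp (μ + M y)) b0 (by linarith) h4 (by linarith)
    rw [hS]
    have hlf := low_far (D := D) (μ := μ) huv
    rw [hDY] at hlf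
    rw [hDT] at k1 k2 ⊢
    exact far_arith hT hY hδ2 hδ4 hd0 (by linarith) hσ2 hlf k1 k2
  · refine (min_le_right _ _).trans ?_
    have hMr : M y ≤ r0 := by linarith
    obtain ⟨hκ1, hκ2⟩ := hG (M y) hM0 hMr
    obtain ⟨s1, s2⟩ := abs_lt.1 hσ
    have hlow := low_near (D := D) (μ := μ) huv (by linarith) (by linarith) hw
    have hbase := near_arith (T := T) (w0 := w0) (δ := δ)
      (κ1 := y.2.2.2.1 * D.Gm (μ - M y)) (κ2 := y.2.2.2.2 * D.Gp (μ + M y)) hT hδ3 hd0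
      (by linarith) hlow
    rw [← hDT, ← hS] at hbase
    have hg1 : 0 ≤ y.2.2.2.1 * D.Gm (μ - M y) := mul_nonneg a0 (by linarith)
    have hg2 : 0 ≤ y.2.2.2.2 * D.Gp (μ + M y) := mul_nonneg b0 (by linarith)
    have hwd : 0 ≤ w0 / 2 * (y.2.1 - y.2.2.1) := mul_nonneg (by positivity) hd0
    have h3 : y.2.1 - y.2.2.1 = δ ∨ y.2.2.2.1 = 1 ∨ y.2.2.2.2 = 1 := by
      by_contra hcon
      push Not at hcon
      obtain ⟨c1, c2, c3⟩ := hcon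
      have d1 : y.2.1 - y.2.2.1 - δ < 0 := lt_of_le_of_ne hB1 (fun h => c1 (by linarith))
      have d2 : y.2.2.2.1 - 1 < 0 := lt_of_le_of_ne hB2 (fun h => c2 (by linarith))
      have d3 : y.2.2.2.2 - 1 < 0 := lt_of_le_of_ne hB3 (fun h => c3 (by linarith))
      have : Bd δ y < 0 := by
        unfold Bd
        apply max_lt (max_lt _ d2) d3
        rw [abs_of_nonneg hd0]; exact d1
      linarith
    rcases h3 with h3 | h3 | h3
    · refine (min_le_left _ _).trans ?_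
      rw [h3] at hbase
      linarith
    · refine (min_le_right _ _).trans ?_
      rw [h3] at hbase hg1
      linarith
    · refine (min_le_right _ _).trans ?_
      rw [h3] at hbase hg2
      linarith

theorem link {T Y w0 r0 γ : ℝ} (hT : 0 < T) (hY : 0 ≤ Y) (hw0 : 0 < w0) (hr0 : 0 < r0)
    (hγ : 0 < γ) : ∃ δ > 0, ∃ c > 0, ∀ (D : Dat) (μ : ℝ), D.T = T → D.Y = Y → 0 ≤ μ → μ ≤ 1 →
    (∀ t : ℝ, |t| ≤ r0 → w0 ≤ D.f (μ + t) + D.w (μ + t) - D.f (μ - t)) →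
    (∀ t : ℝ, 0 ≤ t → t ≤ r0 → γ ≤ D.Gm (μ - t) ∧ γ ≤ D.Gp (μ + t)) →
    ∀ y : V, y.1 = μ → 0 ≤ y.2.2.2.1 → 0 ≤ y.2.2.2.2 → Bd δ y = 0 → c ≤ D.S y := by
  obtain ⟨δ, hδ, c, hc, h⟩ := link_half hT hY hw0 hr0 hγ
  refine ⟨δ, hδ, c, hc, fun D μ h1 h2 h3 h4 h5 h6 y hm a0 b0 hB => ?_⟩
  rcases le_total y.2.2.1 y.2.1 with h7 | h7
  · exact h D μ h1 h2 h3 h4 h5 h6 y h7 hm a0 b0 hB
  · rw [← TG.Dat.S_sg]
    refine h D μ h1 h2 h3 h4 h5 h6 (TG.sg y) ?_ hm a0 b0 (by rw [Bd_sg]; exact hB)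
    show -y.2.2.1 ≤ -y.2.1
    linarith

end Pool.Agent.Run7.h118.TG.Loc
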