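import Pool.Agent.Run7.h118.TMCurve

set_option autoImplicit false

open Set Filter Topology

/-! The limit argument. -/

namespace Pool.Agent.Run7.h118.TG.Loc

open Pool.Agent.Run7.h118.TG

theorem dist_le_re_im (z w : ℂ) : dist z w ≤ |z.re - w.re| + |z.im - w.im| := by
  rw [Complex.dist_eq]
  have := Complex.norm_le_abs_re_add_abs_im (z - w)
  rwa [Complex.sub_re, Complex.sub_im] at this

/-- Two nearby points on the two graphs, away from the ends, do not exist. -/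
theorem mixed {c : ℝ → ℂ} {s0 s1 : ℝ} (h : Nc c s0 s1) {ρ η l δ κ : ℝ}
    (hdist : ∀ s ∈ Icc s0 s1, ∀ t ∈ Icc s1 (s0 + 1), ρ / 2 ≤ (c s).re →
      (c s).re ≤ 1 - ρ / 2 → η ≤ dist (c s) (c t))
    {φ ψ : ℝ → ℝ} (hφc : ContinuousOn φ (Icc 0 1)) (hψc : ContinuousOn ψ (Icc 0 1))
    (hφ : ∀ x ∈ Icc (0:ℝ) 1, φ x ∈ Icc s0 s1 ∧ |(c (φ x)).re - x| ≤ l)
    (hψ : ∀ x ∈ Icc (0:ℝ) 1, ψ x ∈ Icc s1 (s0 + 1) ∧ |(c (ψ x)).re - x| ≤ l)
    (hl : 0 < l) (hlρ : l ≤ ρ / 4) {a b y y' : ℝ} (ha : a ∈ Icc (3 * ρ / 4) (1 - 3 * ρ / 4))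
    (hb : b ∈ Icc (3 * ρ / 4) (1 - 3 * ρ / 4)) (hab : |a - b| ≤ δ)
    (hy : y = min (c (φ a)).im (c (ψ a)).im)
    (hy' : y' = max (c (φ b)).im (c (ψ b)).im + l * (b * (1 - b)))
    (hyy : |y - y'| ≤ κ) (hsmall : 3 * l + δ + κ < η) : False := by
  have hsub : Icc (3 * ρ / 4) (1 - 3 * ρ / 4) ⊆ Icc (0:ℝ) 1 :=
    Icc_subset_Icc (by linarith) (by linarith)
  have ha1 := hsub ha
  have hb1 := hsub hb
  obtain ⟨φa, φa'⟩ := hφ a ha1
  obtain ⟨φb, φb'⟩ := hφ b hb1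
  obtain ⟨ψa, ψa'⟩ := hψ a ha1
  obtain ⟨ψb, ψb'⟩ := hψ b hb1
  have hδ : 0 ≤ δ := (abs_nonneg _).trans hab
  have hκ : 0 ≤ κ := (abs_nonneg _).trans hyy
  obtain ⟨ab1, ab2⟩ := abs_le.1 hab
  obtain ⟨y1, y2⟩ := abs_le.1 hyy
  have hlb0 : 0 ≤ l * (b * (1 - b)) :=
    mul_nonneg hl.le (mul_nonneg hb1.1 (by linarith [hb1.2]))
  have hlb : l * (b * (1 - b)) ≤ l := by
    have : b * (1 - b) ≤ 1 := by nlinarith [hb1.1, hb1.2]
    nlinarith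
  have in1 : ∀ x ∈ Icc (3 * ρ / 4) (1 - 3 * ρ / 4), ∀ z : ℝ, |z - x| ≤ l →
      ρ / 2 ≤ z ∧ z ≤ 1 - ρ / 2 := by
    intro x hx z hz
    obtain ⟨z1, z2⟩ := abs_le.1 hz
    exact ⟨by linarith [hx.1], by linarith [hx.2]⟩
  -- crossing
  have cross : ∀ r ∈ Icc (3 * ρ / 4) (1 - 3 * ρ / 4), (c (φ r)).im = (c (ψ r)).im → False := by
    intro r hr heq
    obtain ⟨k1, k1'⟩ := hφ r (hsub hr)
    obtain ⟨k2, k2'⟩ := hψ r (hsub hr)
    obtain ⟨i1, i2⟩ := in1 r hr _ k1'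
    have k3 := hdist _ k1 _ k2 i1 i2
    have k4 := dist_le_re_im (c (φ r)) (c (ψ r))
    rw [heq, sub_self, abs_zero, add_zero] at k4
    have k5 : |(c (φ r)).re - (c (ψ r)).re| ≤ 2 * l := by
      obtain ⟨p1, p2⟩ := abs_le.1 k1'
      obtain ⟨q1, q2⟩ := abs_le.1 k2'
      rw [abs_le]; constructor <;> linarith
    linarith
  have hgc : ContinuousOn (fun x => (c (φ x)).im - (c (ψ x)).im) (uIcc a b) := by
    have h1 : ContinuousOn (fun x => (c (φ x)).im) (Icc 0 1) :=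
      (Complex.continuous_im.comp h.cont).comp_continuousOn hφc
    have h2 : ContinuousOn (fun x => (c (ψ x)).im) (Icc 0 1) :=
      (Complex.continuous_im.comp h.cont).comp_continuousOn hψc
    exact (h1.sub h2).mono (uIcc_subset_Icc ha1 hb1)
  have ivt : (0:ℝ) ∈ uIcc ((c (φ a)).im - (c (ψ a)).im) ((c (φ b)).im - (c (ψ b)).im) →
      False := by
    intro h0
    obtain ⟨r, hr, hr0⟩ := intermediate_value_uIcc hgc h0
    exact cross r (uIcc_subset_Icc ha hb hr) (by simp only at hr0; linarith)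
  rcases le_total (c (φ a)).im (c (ψ a)).im with h1 | h1
  · rw [min_eq_left h1] at hy
    rcases le_total (c (φ b)).im (c (ψ b)).im with h2 | h2
    · -- `φ a` and `ψ b`
      rw [max_eq_right h2] at hy'
      obtain ⟨i1, i2⟩ := in1 a ha _ φa'
      have k3 := hdist _ φa _ ψb i1 i2
      have k4 := dist_le_re_im (c (φ a)) (c (ψ b))
      obtain ⟨p1, p2⟩ := abs_le.1 φa'
      obtain ⟨q1, q2⟩ := abs_le.1 ψb'
      have k5 : |(c (φ a)).re - (c (ψ b)).re| ≤ 2 * l + δ := by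
        rw [abs_le]; constructor <;> linarith
      have k6 : |(c (φ a)).im - (c (ψ b)).im| ≤ l + κ := by
        rw [abs_le]; constructor <;> linarith
      linarith
    · apply ivt
      rw [mem_uIcc]
      left
      constructor <;> linarith
  · rw [min_eq_right h1] at hy
    rcases le_total (c (φ b)).im (c (ψ b)).im with h2 | h2
    · apply ivt
      rw [mem_uIcc]
      right
      constructor <;> linarith
    · -- `ψ a` and `φ b`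
      rw [max_eq_left h2] at hy'
      obtain ⟨i1, i2⟩ := in1 b hb _ φb'
      have k3 := hdist _ φb _ ψa i1 i2
      have k4 := dist_le_re_im (c (φ b)) (c (ψ a))
      obtain ⟨p1, p2⟩ := abs_le.1 φb'
      obtain ⟨q1, q2⟩ := abs_le.1 ψa'
      have k5 : |(c (φ b)).re - (c (ψ a)).re| ≤ 2 * l + δ := by
        rw [abs_le]; constructor <;> linarith
      have k6 : |(c (φ b)).im - (c (ψ a)).im| ≤ l + κ := by
        rw [abs_le]; constructor <;> linarith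
      linarith

/-- Vertices are near the curve. -/
theorem near_curve {c : ℝ → ℂ} {s0 Y0 l : ℝ} {φ ψ : ℝ → ℝ} {D : Dat}
    (hφ : ∀ x ∈ Icc (0:ℝ) 1, φ x ∈ Icc s0 (s0 + 1) ∧ |(c (φ x)).re - x| ≤ l)
    (hψ : ∀ x ∈ Icc (0:ℝ) 1, ψ x ∈ Icc s0 (s0 + 1) ∧ |(c (ψ x)).re - x| ≤ l)
    (hY0 : ∀ t ∈ Icc s0 (s0 + 1), |(c t).im| ≤ Y0) (hl0 : 0 < l) (hl5 : l ≤ 1)
    (hD : ∀ x ∈ Icc (0:ℝ) 1, D.f x = min (c (φ x)).im (c (ψ x)).im ∧
      D.f x + D.w x = max (c (φ x)).im (c (ψ x)).im + l * (x * (1 - x))) {a y : ℝ}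
    (ho : On D a y) : (∃ t ∈ Icc s0 (s0 + 1), dist (⟨a, y⟩ : ℂ) (c t) ≤ 2 * l) ∧
      |y| ≤ 3 * Y0 + 1 := by
  obtain ⟨a0, a1, hy⟩ := ho
  have ham : a ∈ Icc (0:ℝ) 1 := ⟨a0, a1⟩
  obtain ⟨k1, k2⟩ := hD a ham
  obtain ⟨m1, m1'⟩ := hφ a ham
  obtain ⟨m2, m2'⟩ := hψ a ham
  have b1 := hY0 _ m1
  have b2 := hY0 _ m2
  have hY00 : 0 ≤ Y0 := (abs_nonneg _).trans b1
  have k4 : 0 ≤ l * (a * (1 - a)) := mul_nonneg hl0.le (mul_nonneg a0 (by linarith))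
  have k5 : l * (a * (1 - a)) ≤ l := by
    have h1 : a * (1 - a) ≤ 1 := by nlinarith
    have := mul_le_mul_of_nonneg_left h1 hl0.le
    linarith
  have fin : ∀ t ∈ Icc s0 (s0 + 1), |(c t).re - a| ≤ l → |(c t).im| ≤ Y0 →
      ∀ e, 0 ≤ e → e ≤ l → y = (c t).im + e →
      (∃ t ∈ Icc s0 (s0 + 1), dist (⟨a, y⟩ : ℂ) (c t) ≤ 2 * l) ∧ |y| ≤ 3 * Y0 + 1 := by
    intro t ht h1 h3 e he0 he1 hye
    obtain ⟨h3a, h3b⟩ := abs_le.1 h3
    refine ⟨⟨t, ht, (dist_le_re_im _ _).trans ?_⟩, ?_⟩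
    · show |a - (c t).re| + |y - (c t).im| ≤ 2 * l
      rw [abs_sub_comm a, hye, add_sub_cancel_left, abs_of_nonneg he0]
      linarith
    · rw [hye, abs_le]; constructor <;> linarith
  rcases hy with hy | hy
  · rcases le_total (c (φ a)).im (c (ψ a)).im with h1 | h1
    · rw [min_eq_left h1] at k1
      exact fin _ m1 m1' b1 0 le_rfl hl0.le (by rw [hy, k1, add_zero])
    · rw [min_eq_right h1] at k1
      exact fin _ m2 m2' b2 0 le_rfl hl0.le (by rw [hy, k1, add_zero])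
  · rcases le_total (c (φ a)).im (c (ψ a)).im with h1 | h1
    · rw [max_eq_right h1] at k2
      exact fin _ m2 m2' b2 _ k4 k5 (by rw [hy, k2])
    · rw [max_eq_left h1] at k2
      exact fin _ m1 m1' b1 _ k4 k5 (by rw [hy, k2])

/-- The values near the middle abscissa. -/
theorem mid_values {p1 p2 q1 q2 y1 y2 ε e : ℝ} (hp1 : |p1 - y1| < ε) (hp2 : |p2 - y2| < ε)
    (hq1 : |q1 - y1| < ε) (hq2 : |q2 - y2| < ε) (hε : ε = |y1 - y2| / 4) (he : 0 ≤ e) :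
    2 * ε ≤ max p1 p2 + e - min q1 q2 := by
  obtain ⟨a1, a2⟩ := abs_lt.1 hp1
  obtain ⟨a3, a4⟩ := abs_lt.1 hp2
  obtain ⟨a5, a6⟩ := abs_lt.1 hq1
  obtain ⟨a7, a8⟩ := abs_lt.1 hq2
  have e3 : 4 * ε = |y1 - y2| := by rw [hε]; ring
  rcases le_total y1 y2 with hy | hy
  · rw [abs_of_nonpos (by linarith)] at e3
    have b1 := le_max_right p1 p2
    have b2 := min_le_left q1 q2
    linarith
  · rw [abs_of_nonneg (by linarith)] at e3
    have b1 := le_max_left p1 p2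
    have b2 := min_le_right q1 q2
    linarith

/-- Approximate rectangles of a definite size. -/
theorem step {c : ℝ → ℂ} {s0 s1 : ℝ} (h : Nc c s0 s1) {T : ℝ} (hT : 0 < T) :
    ∃ ρ' > 0, ∃ L > 0, ∃ B : ℝ, ∀ l, 0 < l → l ≤ L → ∃ m u v yW yZ yA yB : ℝ,
      |m| ≤ 1 ∧ |u| ≤ 1 ∧ |v| ≤ 1 ∧ |yW| ≤ B ∧ |yZ| ≤ B ∧ |yA| ≤ B ∧ |yB| ≤ B ∧
      ρ' ≤ max |u| |v| ∧ yW + yZ = yA + yB ∧
      yZ - yW + (T * (u + v) - 1 / T * (u - v)) = 0 ∧
      yA - yB + (T * (u + v) + 1 / T * (u - v)) = 0 ∧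
      (∃ t ∈ Icc s0 (s0 + 1), dist (⟨m - u, yW⟩ : ℂ) (c t) ≤ 2 * l) ∧
      (∃ t ∈ Icc s0 (s0 + 1), dist (⟨m + u, yZ⟩ : ℂ) (c t) ≤ 2 * l) ∧
      (∃ t ∈ Icc s0 (s0 + 1), dist (⟨m - v, yA⟩ : ℂ) (c t) ≤ 2 * l) ∧
      (∃ t ∈ Icc s0 (s0 + 1), dist (⟨m + v, yB⟩ : ℂ) (c t) ≤ 2 * l) := by
  obtain ⟨μ, y1, y2, hμ0, hμ1, hne, hf1, hf2⟩ := h.exists_mu
  have hre : Continuous (fun t => (c t).re) := Complex.continuous_re.comp h.cont
  have him : Continuous (fun t => (c t).im) := Complex.continuous_im.comp h.cont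
  obtain ⟨Y0, hY0⟩ : ∃ Y0 : ℝ, ∀ t ∈ Icc s0 (s0 + 1), |(c t).im| ≤ Y0 := by
    obtain ⟨Y, hY⟩ := isCompact_Icc.exists_bound_of_continuousOn
      (him.continuousOn (s := Icc s0 (s0 + 1)))
    exact ⟨Y, fun t ht => hY t ht⟩
  have hY00 : 0 ≤ Y0 := (abs_nonneg _).trans (hY0 s0 ⟨le_rfl, by linarith⟩)
  have hd : 0 < |y1 - y2| := abs_pos.2 (sub_ne_zero.2 hne)
  set ε : ℝ := |y1 - y2| / 4 with hε
  have hε0 : 0 < ε := by positivity
  obtain ⟨η1, hη1, hn1⟩ := near_fiber hre him hf1 hε0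
  obtain ⟨η2, hη2, hn2⟩ := near_fiber hre him hf2 hε0
  set r0 : ℝ := min (min (η1 / 4) (η2 / 4)) (min μ (1 - μ)) with hr0
  have hr00 : 0 < r0 := lt_min (lt_min (by positivity) (by positivity))
    (lt_min hμ0 (by linarith))
  have hr1 : r0 ≤ η1 / 4 := (min_le_left _ _).trans (min_le_left _ _)
  have hr2 : r0 ≤ η2 / 4 := (min_le_left _ _).trans (min_le_right _ _)
  have hr3 : r0 ≤ μ := (min_le_right _ _).trans (min_le_left _ _)
  have hr4 : r0 ≤ 1 - μ := (min_le_right _ _).trans (min_le_right _ _)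
  obtain ⟨c0, hc0, hcrit⟩ := exists_crit (T := T) (Y := 2 * Y0 + 1) (w0 := 2 * ε) (r0 := r0)
    hT (by linarith) (by positivity) hr00 (by linarith)
  obtain ⟨ρ, hρ, hρ1, hρ2⟩ := exists_rho (T := T) (Y := 2 * Y0 + 1) (c := c0) hT (by linarith)
    hc0
  obtain ⟨η3, hη3, hdist⟩ := arcs_dist h.cont h.disj (ρ := ρ / 2) (by positivity)
  set κ : ℝ := 2 + 2 * (T + 1 / T) with hκ
  have hκ0 : 0 < κ := by positivity
  set ρ' : ℝ := min (ρ / 4) (η3 / (2 * κ)) with hρ'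
  have hρ'0 : 0 < ρ' := lt_min (by positivity) (by positivity)
  have hρ'1 : ρ' ≤ ρ / 4 := min_le_left _ _
  have hρ'2 : κ * ρ' ≤ η3 / 2 := by
    have : ρ' ≤ η3 / (2 * κ) := min_le_right _ _
    rw [le_div_iff₀ (by positivity)] at this
    linarith
  set L : ℝ := min (min (η1 / 4) (η2 / 4)) (min (min (ρ / 4) (η3 / 8)) 1) with hL
  have hL0 : 0 < L := lt_min (lt_min (by positivity) (by positivity))
    (lt_min (lt_min (by positivity) (by positivity)) one_pos)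
  refine ⟨ρ', hρ'0, L, hL0, 3 * Y0 + 1, fun l hl0 hlL => ?_⟩
  have hl1 : l ≤ η1 / 4 := hlL.trans ((min_le_left _ _).trans (min_le_left _ _))
  have hl2 : l ≤ η2 / 4 := hlL.trans ((min_le_left _ _).trans (min_le_right _ _))
  have hl3 : l ≤ ρ / 4 := hlL.trans ((min_le_right _ _).trans
    ((min_le_left _ _).trans (min_le_left _ _)))
  have hl4 : l ≤ η3 / 8 := hlL.trans ((min_le_right _ _).trans
    ((min_le_left _ _).trans (min_le_right _ _)))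
  have hl5 : l ≤ 1 := hlL.trans ((min_le_right _ _).trans (min_le_right _ _))
  obtain ⟨φ, hφc, hφ, hφ0, hφ1⟩ := exists_phi hre h.h01 h.mono h.re0 h.re1 hl0 hl5
  obtain ⟨ψ, hψc, hψ, hψ0, hψ1⟩ := exists_psi hre h.h11 h.anti h.re1
    (by rw [h.hend]; exact h.re0) hl0 hl5
  have hφm : ∀ x ∈ Icc (0:ℝ) 1, φ x ∈ Icc s0 (s0 + 1) := fun x hx =>
    ⟨(hφ x hx).1.1, by linarith [(hφ x hx).1.2, h.h11]⟩
  have hψm : ∀ x ∈ Icc (0:ℝ) 1, ψ x ∈ Icc s0 (s0 + 1) := fun x hx =>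
    ⟨by linarith [(hψ x hx).1.1, h.h01], (hψ x hx).1.2⟩
  obtain ⟨D, hDT, hDY, hD⟩ := exists_dat (h1 := fun x => (c (φ x)).im)
    (h2 := fun x => (c (ψ x)).im) (him.comp_continuousOn hφc) (him.comp_continuousOn hψc)
    (by rw [hφ0, hψ0, h.hend]) (by rw [hφ1, hψ1])
    (fun x hx => hY0 _ (hφm x hx)) (fun x hx => hY0 _ (hψm x hx)) hl0 hl5 hT
  -- the values near the middle
  have near1 : ∀ x, |x - μ| ≤ r0 → |(c (φ x)).im - y1| < ε ∧ |(c (ψ x)).im - y2| < ε := by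
    intro x hx
    obtain ⟨x1, x2⟩ := abs_le.1 hx
    have hx01 : x ∈ Icc (0:ℝ) 1 := ⟨by linarith, by linarith⟩
    obtain ⟨k1, k2⟩ := hφ x hx01
    obtain ⟨k3, k4⟩ := hψ x hx01
    obtain ⟨p1, p2⟩ := abs_le.1 k2
    obtain ⟨q1, q2⟩ := abs_le.1 k4
    exact ⟨hn1 _ k1 (abs_lt.2 ⟨by linarith, by linarith⟩),
      hn2 _ k3 (abs_lt.2 ⟨by linarith, by linarith⟩)⟩
  obtain ⟨x, hx, hS1, hS2⟩ := hcrit D μ hDT hDY hr3 (by linarith) (by
    intro s t hs ht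
    have e1 : |μ + s - μ| ≤ r0 := by rw [add_sub_cancel_left]; exact hs
    have e2 : |μ - t - μ| ≤ r0 := by
      rw [show μ - t - μ = -t by ring, abs_neg]; exact ht
    obtain ⟨n1, n2⟩ := near1 _ e1
    obtain ⟨n3, n4⟩ := near1 _ e2
    obtain ⟨s1', s2'⟩ := abs_le.1 hs
    obtain ⟨t1', t2'⟩ := abs_le.1 ht
    obtain ⟨-, k2⟩ := hD (μ + s) ⟨by linarith, by linarith⟩
    obtain ⟨k3, -⟩ := hD (μ - t) ⟨by linarith, by linarith⟩
    have k4 : 0 ≤ l * ((μ + s) * (1 - (μ + s))) :=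
      mul_nonneg hl0.le (mul_nonneg (by linarith) (by linarith))
    rw [k2, k3]
    exact mid_values n1 n2 n3 n4 hε k4)
  -- vertices are near the curve
  have hnear : ∀ a y, On D a y → (∃ t ∈ Icc s0 (s0 + 1), dist (⟨a, y⟩ : ℂ) (c t) ≤ 2 * l) ∧
      |y| ≤ 3 * Y0 + 1 := fun a y ho => near_curve (fun x hx => ⟨hφm x hx, (hφ x hx).2⟩)
    (fun x hx => ⟨hψm x hx, (hψ x hx).2⟩) hY0 hl0 hl5 hD ho
  obtain ⟨huv, yW, yZ, yA, yB, oW, oZ, oA, oB, e1, e2, e3, hmix⟩ := hx.rect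
  rw [hDT] at e2 e3
  have hM0 := M_nonneg x
  have hxL := hx.hL
  have hxR := hx.hR
  have huM : |x.2.1| ≤ M x := le_max_left _ _
  have hvM : |x.2.2.1| ≤ M x := le_max_right _ _
  refine ⟨x.1, x.2.1, x.2.2.1, yW, yZ, yA, yB, abs_le.2 ⟨by linarith, by linarith⟩,
    by linarith, by linarith, (hnear _ _ oW).2, (hnear _ _ oZ).2, (hnear _ _ oA).2,
    (hnear _ _ oB).2, ?_, e1, e2, e3, (hnear _ _ oW).1, (hnear _ _ oZ).1, (hnear _ _ oA).1,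
    (hnear _ _ oB).1⟩
  change ρ' ≤ M x
  by_contra hcon
  push Not at hcon
  obtain ⟨hm1, hm2⟩ := not_ends hx (ρ := ρ) (c := c0) (by linarith) hρ1
    (by rw [hDT, hDY]; exact hρ2) hS1 hS2
  obtain ⟨u1, u2⟩ := abs_le.1 huM
  obtain ⟨v1, v2⟩ := abs_le.1 hvM
  have hTT : 0 ≤ 1 / T := by positivity
  have hsum : |x.2.1 + x.2.2.1| ≤ 2 * ρ' := abs_le.2 ⟨by linarith, by linarith⟩
  have hdif : |x.2.1 - x.2.2.1| ≤ 2 * ρ' := abs_le.2 ⟨by linarith, by linarith⟩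
  have t1 : |T * (x.2.1 + x.2.2.1)| ≤ 2 * T * ρ' := by
    rw [abs_mul, abs_of_pos hT]
    have := mul_le_mul_of_nonneg_left hsum hT.le
    linarith
  have t2 : |1 / T * (x.2.1 - x.2.2.1)| ≤ 2 * (1 / T) * ρ' := by
    rw [abs_mul, abs_of_nonneg hTT]
    have := mul_le_mul_of_nonneg_left hdif hTT
    linarith
  obtain ⟨t1a, t1b⟩ := abs_le.1 t1
  obtain ⟨t2a, t2b⟩ := abs_le.1 t2
  have hκe : κ * ρ' = 2 * ρ' + (2 * T * ρ' + 2 * (1 / T) * ρ') := by rw [hκ]; ring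
  have hsm : 3 * l + 2 * ρ' + (2 * T * ρ' + 2 * (1 / T) * ρ') < η3 := by
    rw [hκe] at hρ'2
    linarith
  have hm : ∀ a b y y' : ℝ, a ∈ Icc (3 * ρ / 4) (1 - 3 * ρ / 4) →
      b ∈ Icc (3 * ρ / 4) (1 - 3 * ρ / 4) → |a - b| ≤ 2 * ρ' → y = D.f a →
      y' = D.f b + D.w b → |y - y'| ≤ 2 * T * ρ' + 2 * (1 / T) * ρ' → False := by
    intro a b y y' ha hb hab hy hy' hyy
    refine mixed h hdist hφc hψc hφ hψ hl0 hl3 ha hb hab ?_ ?_ hyy hsm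
    · rw [hy]
      exact (hD a ⟨by linarith [ha.1], by linarith [ha.2]⟩).1
    · rw [hy']
      exact (hD b ⟨by linarith [hb.1], by linarith [hb.2]⟩).2
  rcases hmix with ⟨k1, k2⟩ | ⟨k1, k2⟩ | ⟨k1, k2⟩ | ⟨k1, k2⟩
  · exact hm _ _ _ _ ⟨by linarith, by linarith⟩ ⟨by linarith, by linarith⟩
      (abs_le.2 ⟨by linarith, by linarith⟩) k1 k2 (abs_le.2 ⟨by linarith, by linarith⟩)
  · exact hm _ _ _ _ ⟨by linarith, by linarith⟩ ⟨by linarith, by linarith⟩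
      (abs_le.2 ⟨by linarith, by linarith⟩) k1 k2 (abs_le.2 ⟨by linarith, by linarith⟩)
  · exact hm _ _ _ _ ⟨by linarith, by linarith⟩ ⟨by linarith, by linarith⟩
      (abs_le.2 ⟨by linarith, by linarith⟩) k1 k2 (abs_le.2 ⟨by linarith, by linarith⟩)
  · exact hm _ _ _ _ ⟨by linarith, by linarith⟩ ⟨by linarith, by linarith⟩
      (abs_le.2 ⟨by linarith, by linarith⟩) k1 k2 (abs_le.2 ⟨by linarith, by linarith⟩)

end Pool.Agent.Run7.h118.TG.Loc
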