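import Pool.Agent.Run7.h118.TMLink
import Pool.Agent.Run7.h118.TGSurf

set_option autoImplicit false

open Set Filter Topology

/-! The surface around an arbitrary middle abscissa, and critical points with a level away from the
two trivial levels, with uniform constants. -/

namespace Pool.Agent.Run7.h118.TG.Loc

open Pool.Agent.Run7.h118.TG Pool.Agent.Run7.h118.TG.Dat

/-- The interpolation between the two routes. -/
noncomputable def st (μ ζ : ℝ) (p : ℝ × ℝ) : ℝ := cl ((sm p - (μ - ζ)) / (2 * ζ))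

/-- The left switch on the surface. -/
noncomputable def sL (μ ζ N : ℝ) (p : ℝ × ℝ) : ℝ :=
  N * ((1 - st μ ζ p) * sa p + st μ ζ p * sb p)

/-- The right switch on the surface. -/
noncomputable def sR (μ ζ N : ℝ) (p : ℝ × ℝ) : ℝ :=
  N * ((1 - st μ ζ p) * sb p + st μ ζ p * sa p)

/-- The half width on the surface. -/
noncomputable def se (μ ζ N ε : ℝ) (p : ℝ × ℝ) : ℝ :=
  ε * (cl (2 - |sm p - μ| / ζ) * cl (sL μ ζ N p + sR μ ζ N p))

/-- The surface. -/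
noncomputable def H (μ ζ N ε : ℝ) (p : ℝ × ℝ) : V :=
  (sm p, se μ ζ N ε p, se μ ζ N ε p, sL μ ζ N p, sR μ ζ N p)

theorem st_cont (μ ζ : ℝ) : Continuous (st μ ζ) := by
  have := cl_cont; have := sm_cont; unfold st; fun_prop

theorem sL_cont (μ ζ N : ℝ) : Continuous (sL μ ζ N) := by
  have := st_cont μ ζ; have := sa_cont; have := sb_cont; unfold sL; fun_prop

theorem sR_cont (μ ζ N : ℝ) : Continuous (sR μ ζ N) := by
  have := st_cont μ ζ; have := sa_cont; have := sb_cont; unfold sR; fun_prop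

theorem se_cont (μ ζ N ε : ℝ) : Continuous (se μ ζ N ε) := by
  have := cl_cont; have := sm_cont; have := sL_cont μ ζ N; have := sR_cont μ ζ N
  unfold se; fun_prop

theorem H_cont (μ ζ N ε : ℝ) : Continuous (H μ ζ N ε) := by
  have := sm_cont; have := sL_cont μ ζ N; have := sR_cont μ ζ N; have := se_cont μ ζ N ε
  unfold H; fun_prop

theorem H_clamp (μ ζ N ε : ℝ) (p : ℝ × ℝ) :
    H μ ζ N ε p = H μ ζ N ε (cl p.1, cl p.2) := by
  have h : ∀ t : ℝ, cl (cl t) = cl t := fun t => cl_of_mem (cl_nonneg t) (cl_le_one t)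
  unfold H se sL sR st sa sb sm
  simp only [h]

theorem st_mem (μ ζ : ℝ) (p : ℝ × ℝ) : 0 ≤ st μ ζ p ∧ st μ ζ p ≤ 1 :=
  ⟨cl_nonneg _, cl_le_one _⟩

theorem sL_mem (μ ζ : ℝ) {N : ℝ} (hN : 0 < N) (p : ℝ × ℝ) :
    0 ≤ sL μ ζ N p ∧ sL μ ζ N p ≤ N := by
  obtain ⟨t0, t1⟩ := st_mem μ ζ p
  obtain ⟨a0, a1⟩ := sa_mem p
  obtain ⟨b0, b1⟩ := sb_mem p
  unfold sL
  constructor
  · apply mul_nonneg hN.le
    have := mul_nonneg (by linarith : 0 ≤ 1 - st μ ζ p) a0
    have := mul_nonneg t0 b0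
    linarith
  · have h1 : (1 - st μ ζ p) * sa p ≤ (1 - st μ ζ p) * 1 :=
      mul_le_mul_of_nonneg_left a1 (by linarith)
    have h2 : st μ ζ p * sb p ≤ st μ ζ p * 1 := mul_le_mul_of_nonneg_left b1 t0
    have h3 : N * ((1 - st μ ζ p) * sa p + st μ ζ p * sb p) ≤ N * 1 :=
      mul_le_mul_of_nonneg_left (by linarith) hN.le
    linarith

theorem sR_mem (μ ζ : ℝ) {N : ℝ} (hN : 0 < N) (p : ℝ × ℝ) :
    0 ≤ sR μ ζ N p ∧ sR μ ζ N p ≤ N := by
  obtain ⟨t0, t1⟩ := st_mem μ ζ p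
  obtain ⟨a0, a1⟩ := sa_mem p
  obtain ⟨b0, b1⟩ := sb_mem p
  unfold sR
  constructor
  · apply mul_nonneg hN.le
    have := mul_nonneg (by linarith : 0 ≤ 1 - st μ ζ p) b0
    have := mul_nonneg t0 a0
    linarith
  · have h1 : (1 - st μ ζ p) * sb p ≤ (1 - st μ ζ p) * 1 :=
      mul_le_mul_of_nonneg_left b1 (by linarith)
    have h2 : st μ ζ p * sa p ≤ st μ ζ p * 1 := mul_le_mul_of_nonneg_left a1 t0
    have h3 : N * ((1 - st μ ζ p) * sb p + st μ ζ p * sa p) ≤ N * 1 :=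
      mul_le_mul_of_nonneg_left (by linarith) hN.le
    linarith

theorem se_mem (μ ζ N : ℝ) {ε : ℝ} (hε : 0 < ε) (p : ℝ × ℝ) :
    0 ≤ se μ ζ N ε p ∧ se μ ζ N ε p ≤ ε := by
  unfold se
  have h0 := cl_nonneg (2 - |sm p - μ| / ζ)
  have h1 := cl_le_one (2 - |sm p - μ| / ζ)
  have h2 := cl_nonneg (sL μ ζ N p + sR μ ζ N p)
  have h3 := cl_le_one (sL μ ζ N p + sR μ ζ N p)
  constructor
  · positivity
  · have h4 : cl (2 - |sm p - μ| / ζ) * cl (sL μ ζ N p + sR μ ζ N p) ≤ 1 := by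
      have := mul_le_mul h1 h3 h2 zero_le_one
      linarith
    have := mul_le_mul_of_nonneg_left h4 hε.le
    linarith

theorem H_mem (μ ζ : ℝ) {N ε : ℝ} (hN : 0 < N) (hε : 0 < ε) (hε1 : ε ≤ 1) (p : ℝ × ℝ) :
    H μ ζ N ε p ∈ Box N := by
  obtain ⟨m0, m1⟩ := sm_mem p
  obtain ⟨e0, e1⟩ := se_mem μ ζ N hε p
  refine ⟨?_, ?_, ?_, sL_mem μ ζ hN p, sR_mem μ ζ hN p⟩
  · show |sm p| ≤ 3
    rw [abs_le]; constructor <;> linarith
  · show |se μ ζ N ε p| ≤ 3
    rw [abs_le]; constructor <;> linarith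
  · show |se μ ζ N ε p| ≤ 3
    rw [abs_le]; constructor <;> linarith

/-- The width of the surface and the distance of its levels from `G 1`. -/
theorem exists_eps {T w1 ζ : ℝ} (hT : 0 < T) (hw1 : 0 < w1) (hζ : 0 < ζ) :
    ∃ ε > 0, ∃ gap > 0, ε ≤ ζ ∧ ε ≤ 1 ∧ ∀ (D : Dat) (μ : ℝ), D.T = T →
      (∀ x ∈ Icc (μ - 2 * ζ) (μ + 2 * ζ), w1 ≤ D.w x) →
      2 * D.T * ε ^ 2 + D.G (μ + ζ) + gap ≤ D.G 1 ∧
      2 * D.T * ε ^ 2 + gap ≤ D.G (μ - ζ) ∧
      ∀ m ∈ Icc (μ - ζ) (μ + ζ), 2 * D.T * ε ^ 2 + gap ≤ D.G (m + ε) - D.G (m - ε) := by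
  set ε : ℝ := min (min ζ 1) (w1 / (4 * T)) with hε
  have hε0 : 0 < ε := lt_min (lt_min hζ one_pos) (by positivity)
  have h1 : ε ≤ ζ := (min_le_left _ _).trans (min_le_left _ _)
  have h2 : ε ≤ 1 := (min_le_left _ _).trans (min_le_right _ _)
  have h3 : 4 * T * ε ≤ w1 := by
    have : ε ≤ w1 / (4 * T) := min_le_right _ _
    rw [le_div_iff₀ (by positivity)] at this
    linarith
  refine ⟨ε, hε0, w1 * ε / 2, by positivity, h1, h2, fun D μ hDT hw => ?_⟩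
  have h4 : 2 * D.T * ε ^ 2 ≤ w1 * ε / 2 := by
    rw [hDT]
    have e : 2 * T * ε ^ 2 = (4 * T * ε) * ε / 2 := by ring
    rw [e]
    have := mul_le_mul_of_nonneg_right h3 hε0.le
    linarith
  have h5 : w1 * ε ≤ w1 * ζ := mul_le_mul_of_nonneg_left h1 hw1.le
  have hlow : ∀ a b : ℝ, μ - 2 * ζ ≤ a → b ≤ μ + 2 * ζ → a ≤ b →
      w1 * (b - a) ≤ D.G b - D.G a := by
    intro a b ha hb hab
    refine (convex_Icc (μ - 2 * ζ) (μ + 2 * ζ)).mul_sub_le_image_sub_of_le_deriv (f := D.G)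
      D.contG.continuousOn
      (fun t _ => (D.hasG t).hasDerivAt.differentiableAt.differentiableWithinAt) ?_
      _ ?_ _ ?_ hab
    · intro t ht
      rw [(D.hasG t).hasDerivAt.deriv]
      exact hw t (interior_subset ht)
    · constructor <;> linarith
    · constructor <;> linarith
  refine ⟨?_, ?_, fun m hm => ?_⟩
  · have h6 := hlow (μ + ζ) (μ + 2 * ζ) (by linarith) le_rfl (by linarith)
    have h7 := D.G_le (μ + 2 * ζ)
    have e : w1 * (μ + 2 * ζ - (μ + ζ)) = w1 * ζ := by ring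
    linarith
  · have h6 := hlow (μ - 2 * ζ) (μ - ζ) le_rfl (by linarith) (by linarith)
    have h7 := D.G_ge (μ - 2 * ζ)
    have e : w1 * (μ - ζ - (μ - 2 * ζ)) = w1 * ζ := by ring
    linarith
  · have h6 := hlow (m - ε) (m + ε) (by linarith [hm.1]) (by linarith [hm.2]) (by linarith)
    have e : w1 * (m + ε - (m - ε)) = 2 * (w1 * ε) := by ring
    have : 0 < w1 * ε := by positivity
    linarith

variable {D : Dat}

/-- The action on the surface stays away from `G 1`. -/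
theorem surf_le {μ ζ N ε gap : ℝ} (hζ : 0 < ζ) (hN : 1 < N)
    (hNS : ∀ y ∈ Box N, (y.2.2.2.1 = N ∨ y.2.2.2.2 = N) → D.S y < 0)
    (hε : 0 < ε) (hε1 : ε ≤ 1)
    (h1 : 2 * D.T * ε ^ 2 + D.G (μ + ζ) + gap ≤ D.G 1)
    (h2 : 2 * D.T * ε ^ 2 + gap ≤ D.G (μ - ζ))
    (h3 : ∀ m ∈ Icc (μ - ζ) (μ + ζ), 2 * D.T * ε ^ 2 + gap ≤ D.G (m + ε) - D.G (m - ε))
    (p : ℝ × ℝ) : D.S (H μ ζ N ε p) ≤ D.G 1 - gap := by
  have hN0 : 0 < N := by linarith
  have hT := D.hT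
  have hsq0 : 0 ≤ 2 * D.T * ε ^ 2 := by positivity
  have hgapA : 0 ≤ D.G 1 - gap := by
    have := D.G_ge (μ + ζ)
    linarith
  have hmem := H_mem μ ζ hN0 hε hε1 p
  obtain ⟨e0, e1⟩ := se_mem μ ζ N hε p
  obtain ⟨L0, L1⟩ := sL_mem μ ζ hN0 p
  obtain ⟨R0, R1⟩ := sR_mem μ ζ hN0 p
  have hsq : 2 * D.T * se μ ζ N ε p ^ 2 ≤ 2 * D.T * ε ^ 2 :=
    mul_le_mul_of_nonneg_left (pow_le_pow_left₀ e0 e1 2) (by positivity)
  have hS : D.S (H μ ζ N ε p) = 2 * D.T * se μ ζ N ε p ^ 2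
      + (cl (sL μ ζ N p) * (D.Gm (sm p - se μ ζ N ε p) + 1) - sL μ ζ N p)
      + (cl (sR μ ζ N p) * (D.Gp (sm p + se μ ζ N ε p) + 1) - sR μ ζ N p) := S_surf rfl e0
  have hκL : D.Gm (sm p - se μ ζ N ε p) ≤ D.G (sm p) :=
    (D.Gm_le _).trans (D.G_mono (by linarith))
  have hκR : D.Gp (sm p + se μ ζ N ε p) ≤ D.G 1 - D.G (sm p) :=
    (D.Gp_le _).trans (by linarith [D.G_mono (show sm p ≤ sm p + se μ ζ N ε p by linarith)])
  have hmono : D.G (μ - ζ) ≤ D.G (μ + ζ) := D.G_mono (by linarith)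
  rcases le_total (sm p) (μ - ζ) with hm | hm
  · -- first route
    have ht : st μ ζ p = 0 := cl_of_le (by
      apply div_nonpos_of_nonpos_of_nonneg <;> linarith)
    rcases ab_alt p with hb | ha
    · have eR : sR μ ζ N p = 0 := by unfold sR; rw [ht, hb]; ring
      rw [hS, eR, cl_of_le le_rfl]
      have := sw_le L0 (D.G_ge (μ - ζ)) (hκL.trans (D.G_mono hm))
      linarith
    · have eL : sL μ ζ N p = N := by unfold sL; rw [ht, ha]; ring
      exact (hNS _ hmem (Or.inl eL)).le.trans hgapA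
  rcases le_total (μ + ζ) (sm p) with hm' | hm'
  · -- second route
    have ht : st μ ζ p = 1 := cl_of_ge (by
      rw [le_div_iff₀ (by linarith)]; linarith)
    rcases ab_alt p with hb | ha
    · have eL : sL μ ζ N p = 0 := by unfold sL; rw [ht, hb]; ring
      rw [hS, eL, cl_of_le le_rfl]
      have h4 := D.G_mono hm'
      have := sw_le (A := D.G 1 - D.G (μ + ζ)) R0 (by linarith [D.G_le (μ + ζ)])
        (hκR.trans (by linarith))
      linarith
    · have eR : sR μ ζ N p = N := by unfold sR; rw [ht, ha]; ring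
      exact (hNS _ hmem (Or.inr eR)).le.trans hgapA
  · -- the zone
    have hb : cl (2 - |sm p - μ| / ζ) = 1 := by
      apply cl_of_ge
      have h4 : |sm p - μ| ≤ ζ := by rw [abs_le]; constructor <;> linarith
      have h5 : |sm p - μ| / ζ ≤ 1 := by rw [div_le_one hζ]; exact h4
      linarith
    rcases le_total 1 (sL μ ζ N p + sR μ ζ N p) with hs | hs
    · have he : se μ ζ N ε p = ε := by
        unfold se; rw [hb, cl_of_ge hs]; ring
      have h4 := h3 (sm p) ⟨hm, hm'⟩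
      rw [he] at hS
      have k1 : 0 ≤ D.G (sm p - ε) := D.G_ge _
      have k2 : 0 ≤ D.G 1 - D.G (sm p + ε) := by linarith [D.G_le (sm p + ε)]
      have k3 := sw_le L0 k1 (D.Gm_le (sm p - ε))
      have k4 := sw_le R0 k2 (D.Gp_le (sm p + ε))
      rw [hS]
      linarith
    · have k0 := D.G_mono hm'
      have k1 := D.G_mono hm
      set A' := max (D.G (μ + ζ)) (D.G 1 - D.G (μ - ζ)) with hA'
      have k7 : 0 ≤ A' := (D.G_ge (μ + ζ)).trans (le_max_left _ _)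
      have k3 := sw_le' (A := A') L0 k7 ((hκL.trans k0).trans (le_max_left _ _))
      have k4 := sw_le' (A := A') R0 k7 (hκR.trans ((by linarith :
        D.G 1 - D.G (sm p) ≤ D.G 1 - D.G (μ - ζ)).trans (le_max_right _ _)))
      have k8 : sL μ ζ N p * A' + sR μ ζ N p * A' ≤ A' := by
        have : (sL μ ζ N p + sR μ ζ N p) * A' ≤ 1 * A' := mul_le_mul_of_nonneg_right hs k7
        linarith
      have k9 : 2 * D.T * ε ^ 2 + A' ≤ D.G 1 - gap := by
        rcases max_choice (D.G (μ + ζ)) (D.G 1 - D.G (μ - ζ)) with h | h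
        · rw [hA', h]; linarith
        · rw [hA', h]; linarith
      rw [hS]
      linarith

theorem surf_left {μ ζ N ε : ℝ} (hμ : 0 ≤ μ) (hζ : 0 < ζ) (hζ1 : ζ ≤ 1 / 2) (hN : 1 < N)
    (hNS : ∀ y ∈ Box N, (y.2.2.2.1 = N ∨ y.2.2.2.2 = N) → D.S y < 0)
    (hε : 0 < ε) (hε1 : ε ≤ 1) (s : ℝ) : D.S (H μ ζ N ε (0, s)) ≤ 0 := by
  have hN0 : 0 < N := by linarith
  have hmem := H_mem μ ζ hN0 hε hε1 (0, s)
  have hm : sm (0, s) = -1 := by unfold sm; rw [cl_of_le le_rfl]; ring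
  have ht : st μ ζ (0, s) = 0 := by
    unfold st; rw [hm]
    exact cl_of_le (by apply div_nonpos_of_nonpos_of_nonneg <;> linarith)
  have he : se μ ζ N ε (0, s) = 0 := by
    unfold se
    rw [hm, cl_of_le (show 2 - |(-1 : ℝ) - μ| / ζ ≤ 0 by
      have : 2 ≤ |(-1 : ℝ) - μ| / ζ := by
        rw [le_div_iff₀ hζ, abs_of_nonpos (by linarith)]; linarith
      linarith)]
    ring
  rcases ab_alt (0, s) with hb | ha
  · have eR : sR μ ζ N (0, s) = 0 := by unfold sR; rw [ht, hb]; ring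
    have hS : D.S (H μ ζ N ε (0, s)) = 2 * D.T * se μ ζ N ε (0, s) ^ 2
        + (cl (sL μ ζ N (0, s)) * (D.Gm (sm (0, s) - se μ ζ N ε (0, s)) + 1)
          - sL μ ζ N (0, s))
        + (cl (sR μ ζ N (0, s)) * (D.Gp (sm (0, s) + se μ ζ N ε (0, s)) + 1)
          - sR μ ζ N (0, s)) :=
      S_surf rfl (le_of_eq he.symm)
    rw [hS, eR, he, hm, cl_of_le le_rfl]
    have := sw_le (κ := D.Gm (-1 - 0)) (sL_mem μ ζ hN0 (0, s)).1 le_rfl
      (Gm_neg (D := D) (by norm_num)).le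
    linarith
  · have eL : sL μ ζ N (0, s) = N := by unfold sL; rw [ht, ha]; ring
    exact (hNS _ hmem (Or.inl eL)).le

theorem surf_right {μ ζ N ε : ℝ} (hμ : μ ≤ 1) (hζ : 0 < ζ) (hζ1 : ζ ≤ 1 / 2) (hN : 1 < N)
    (hNS : ∀ y ∈ Box N, (y.2.2.2.1 = N ∨ y.2.2.2.2 = N) → D.S y < 0)
    (hε : 0 < ε) (hε1 : ε ≤ 1) (s : ℝ) : D.S (H μ ζ N ε (1, s)) ≤ 0 := by
  have hN0 : 0 < N := by linarith
  have hmem := H_mem μ ζ hN0 hε hε1 (1, s)
  have hm : sm (1, s) = 2 := by unfold sm; rw [cl_of_ge le_rfl]; ring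
  have ht : st μ ζ (1, s) = 1 := by
    unfold st; rw [hm]
    exact cl_of_ge (by rw [le_div_iff₀ (by linarith)]; linarith)
  have he : se μ ζ N ε (1, s) = 0 := by
    unfold se
    rw [hm, cl_of_le (show 2 - |(2 : ℝ) - μ| / ζ ≤ 0 by
      have : 2 ≤ |(2 : ℝ) - μ| / ζ := by
        rw [le_div_iff₀ hζ, abs_of_nonneg (by linarith)]; linarith
      linarith)]
    ring
  rcases ab_alt (1, s) with hb | ha
  · have eL : sL μ ζ N (1, s) = 0 := by unfold sL; rw [ht, hb]; ring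
    have hS : D.S (H μ ζ N ε (1, s)) = 2 * D.T * se μ ζ N ε (1, s) ^ 2
        + (cl (sL μ ζ N (1, s)) * (D.Gm (sm (1, s) - se μ ζ N ε (1, s)) + 1)
          - sL μ ζ N (1, s))
        + (cl (sR μ ζ N (1, s)) * (D.Gp (sm (1, s) + se μ ζ N ε (1, s)) + 1)
          - sR μ ζ N (1, s)) :=
      S_surf rfl (le_of_eq he.symm)
    rw [hS, eL, he, hm, cl_of_le le_rfl]
    have := sw_le (κ := D.Gp (2 + 0)) (sR_mem μ ζ hN0 (1, s)).1 le_rfl
      (Gp_neg (D := D) (by norm_num)).le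
    linarith
  · have eR : sR μ ζ N (1, s) = N := by unfold sR; rw [ht, ha]; ring
    exact (hNS _ hmem (Or.inr eR)).le

theorem H_bot (μ ζ N ε s : ℝ) : H μ ζ N ε (s, 0) = (sm (s, 0), 0, 0, 0, 0) := by
  have ha : sa (s, 0) = 0 := by
    unfold sa; rw [cl_of_le le_rfl]; exact cl_of_le (by norm_num)
  have hb : sb (s, 0) = 0 := by
    unfold sb; rw [cl_of_le le_rfl]; exact cl_of_le (by norm_num)
  have hL : sL μ ζ N (s, 0) = 0 := by unfold sL; rw [ha, hb]; ring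
  have hR : sR μ ζ N (s, 0) = 0 := by unfold sR; rw [ha, hb]; ring
  have he : se μ ζ N ε (s, 0) = 0 := by
    unfold se; rw [hL, hR, cl_of_le (show (0:ℝ) + 0 ≤ 0 by norm_num)]; ring
  unfold H
  rw [hL, hR, he]

theorem H_top (μ ζ N ε s : ℝ) :
    (H μ ζ N ε (s, 1)).2.2.2.1 = N ∧ (H μ ζ N ε (s, 1)).2.2.2.2 = N := by
  have ha : sa (s, 1) = 1 := by
    unfold sa; rw [cl_of_ge le_rfl]; exact cl_of_ge (by norm_num)
  have hb : sb (s, 1) = 1 := by
    unfold sb; rw [cl_of_ge le_rfl]; exact cl_of_ge (by norm_num)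
  constructor
  · show sL μ ζ N (s, 1) = N
    unfold sL; rw [ha, hb]; ring
  · show sR μ ζ N (s, 1) = N
    unfold sR; rw [ha, hb]; ring

/-- Critical points with a level away from the trivial levels `0` and `G 1`, uniformly for all data
with the given constants near the middle abscissa `μ`. -/
theorem exists_crit {T Y w0 r0 : ℝ} (hT : 0 < T) (hY : 0 ≤ Y) (hw0 : 0 < w0) (hr0 : 0 < r0)
    (hr1 : r0 ≤ 1) :
    ∃ c > 0, ∀ (D : Dat) (μ : ℝ), D.T = T → D.Y = Y → r0 ≤ μ → μ ≤ 1 - r0 →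
    (∀ s t : ℝ, |s| ≤ r0 → |t| ≤ r0 → w0 ≤ D.f (μ + s) + D.w (μ + s) - D.f (μ - t)) →
    ∃ x : V, Crit D x ∧ c ≤ D.S x ∧ D.S x ≤ D.G 1 - c := by
  set γ : ℝ := w0 * (r0 / 2) with hγ
  have hγ0 : 0 < γ := by positivity
  set ζ : ℝ := r0 / 2 with hζ
  have hζ0 : 0 < ζ := by positivity
  obtain ⟨δ, hδ, c1, hc1, hlink⟩ := link hT hY hw0 (show 0 < r0 / 2 by positivity) hγ0
  obtain ⟨ε, hε, gap, hgap, hεζ, hε1, hsurf⟩ := exists_eps hT hw0 hζ0
  refine ⟨min (c1 / 2) gap, lt_min (by positivity) hgap, ?_⟩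
  intro D μ hDT hDY hμ0 hμ1 hw
  have hww : ∀ x ∈ Icc (μ - r0) (μ + r0), w0 ≤ D.w x := by
    intro x hx
    have h1 := hw (x - μ) (-(x - μ)) (abs_le.2 ⟨by linarith [hx.1], by linarith [hx.2]⟩)
      (abs_le.2 ⟨by linarith [hx.2], by linarith [hx.1]⟩)
    have e1 : μ + (x - μ) = x := by ring
    have e2 : μ - -(x - μ) = x := by ring
    rw [e1, e2] at h1
    linarith
  have hGd : ∀ a b : ℝ, μ - r0 ≤ a → b ≤ μ + r0 → a ≤ b → w0 * (b - a) ≤ D.G b - D.G a := by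
    intro a b ha hb hab
    refine (convex_Icc (μ - r0) (μ + r0)).mul_sub_le_image_sub_of_le_deriv (f := D.G)
      D.contG.continuousOn
      (fun t _ => (D.hasG t).hasDerivAt.differentiableAt.differentiableWithinAt) ?_
      _ ?_ _ ?_ hab
    · intro t ht
      rw [(D.hasG t).hasDerivAt.deriv]
      exact hww t (interior_subset ht)
    · constructor <;> linarith
    · constructor <;> linarith
  have hγL : ∀ t : ℝ, 0 ≤ t → t ≤ r0 / 2 → γ ≤ D.Gm (μ - t) ∧ γ ≤ D.Gp (μ + t) := by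
    intro t ht0 ht1
    rw [D.Gm_of_nonneg (by linarith), D.Gp_of_le (by linarith)]
    constructor
    · have h1 := hGd (μ - r0) (μ - t) le_rfl (by linarith) (by linarith)
      have h2 := D.G_ge (μ - r0)
      have h3 : γ ≤ w0 * (μ - t - (μ - r0)) := by
        rw [hγ]; exact mul_le_mul_of_nonneg_left (by linarith) hw0.le
      linarith
    · have h1 := hGd (μ + t) (μ + r0) (by linarith) le_rfl (by linarith)
      have h2 := D.G_le (μ + r0)
      have h3 : γ ≤ w0 * (μ + r0 - (μ + t)) := by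
        rw [hγ]; exact mul_le_mul_of_nonneg_left (by linarith) hw0.le
      linarith
  obtain ⟨N, hN, hNS⟩ := exists_N D
  have hN0 : 0 < N := by linarith
  obtain ⟨h1, h2, h3⟩ := hsurf D μ hDT (fun x hx => hww x (by
    rw [hζ] at hx
    constructor
    · linarith [hx.1]
    · linarith [hx.2]))
  have hlk := hlink D μ hDT hDY (by linarith) (by linarith) (fun t ht => hw t t
    (by linarith) (by linarith)) hγL
  by_contra hcon
  push Not at hcon
  have hHmem := fun p => H_mem μ ζ hN0 hε hε1 p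
  have hHc := H_cont μ ζ N ε
  have hb' : ∀ p, D.S (H μ ζ N ε p) ≤ D.G 1 - gap :=
    fun p => surf_le hζ0 hN hNS hε hε1 h1 h2 h3 p
  obtain ⟨Ψ, hΨ, hΨ'⟩ := push (box_compact N) D.contS (a := c1 / 2) (b := D.G 1 - gap)
    (by linarith) (by
    intro x hx hxa hxb
    have hpos : 0 < D.S x := by linarith
    have e1 : x.2.2.2.1 < N := lt_of_le_of_ne hx.2.2.2.1.2 (fun h => by
      have := hNS x hx (Or.inl h); linarith)
    have e2 : x.2.2.2.2 < N := lt_of_le_of_ne hx.2.2.2.2.2 (fun h => by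
      have := hNS x hx (Or.inr h); linarith)
    refine descent (fun hcr => ?_) hx e1 e2 hpos (by linarith)
    have h5 := hcon x hcr ((min_le_left _ _).trans hxa)
    have h6 : min (c1 / 2) gap ≤ gap := min_le_right _ _
    linarith)
  have hΨc := hΨ.cont
  have hBc := Bd_cont δ
  set F : ℝ × ℝ → ℂ := fun p => ⟨(Ψ (H μ ζ N ε p)).1 - μ, Bd δ (Ψ (H μ ζ N ε p))⟩ with hF
  have hFc : Continuous F := by
    have e : F = fun p => (((Ψ (H μ ζ N ε p)).1 - μ : ℝ) : ℂ)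
        + ((Bd δ (Ψ (H μ ζ N ε p)) : ℝ) : ℂ) * Complex.I := by
      funext p
      apply Complex.ext <;> simp [hF]
    rw [e]
    fun_prop
  have hNpos : ∀ y ∈ Box N, D.S y ≤ 0 → Ψ y = y := hΨ.fix
  obtain ⟨p, hp⟩ := H333.miranda F hFc
    (by
      intro s _
      show (Ψ (H μ ζ N ε (0, s))).1 - μ < 0
      rw [hNpos _ (hHmem _) (surf_left (by linarith) hζ0 (by linarith) hN hNS hε hε1 s)]
      show sm (0, s) - μ < 0
      unfold sm; rw [cl_of_le le_rfl]; linarith)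
    (by
      intro s _
      show 0 < (Ψ (H μ ζ N ε (1, s))).1 - μ
      rw [hNpos _ (hHmem _) (surf_right (by linarith) hζ0 (by linarith) hN hNS hε hε1 s)]
      show 0 < sm (1, s) - μ
      unfold sm; rw [cl_of_ge le_rfl]; linarith)
    (by
      intro s _
      show Bd δ (Ψ (H μ ζ N ε (s, 0))) < 0
      have hS0 : D.S (H μ ζ N ε (s, 0)) ≤ 0 := by
        rw [H_bot, S_surf rfl le_rfl]
        simp [cl_of_le le_rfl]
      rw [hNpos _ (hHmem _) hS0, H_bot]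
      unfold Bd
      simp only [sub_self, abs_zero]
      apply max_lt (max_lt _ _) _ <;> linarith)
    (by
      intro s _
      show 0 < Bd δ (Ψ (H μ ζ N ε (s, 1)))
      have hS0 : D.S (H μ ζ N ε (s, 1)) ≤ 0 :=
        (hNS _ (hHmem _) (Or.inl (H_top μ ζ N ε s).1)).le
      rw [hNpos _ (hHmem _) hS0]
      unfold Bd
      apply lt_max_of_lt_right
      rw [(H_top μ ζ N ε s).2]
      linarith)
  have hp1 : (Ψ (H μ ζ N ε p)).1 - μ = 0 := congrArg Complex.re hp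
  have hp2 : Bd δ (Ψ (H μ ζ N ε p)) = 0 := congrArg Complex.im hp
  have hin := hΨ.maps (hHmem p)
  have h4 := hlk _ (by linarith) hin.2.2.2.1.1 hin.2.2.2.2.1 hp2
  have h5 := hΨ' _ (hHmem p) (hb' p)
  linarith

end Pool.Agent.Run7.h118.TG.Loc
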