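import Pool.Agent.Run7.h118.TGSwitch
import Pool.Agent.Run7.h118.TMDiag

set_option autoImplicit false

open Set Filter Topology

/-! The full descent statement on the compact box, local version. -/

namespace Pool.Agent.Run7.h118.TG.Loc

open Pool.Agent.Run7.h118.TG Pool.Agent.Run7.h118.TG.Dat

variable {D : Dat}

/-- The critical points of the action: nondegenerate rectangles on the two graphs. -/
structure Crit (D : Dat) (x : V) : Prop where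
  rect : RectAt D x.1 x.2.1 x.2.2.1
  hL : 0 ≤ x.1 - M x
  hR : x.1 + M x ≤ 1
  a0 : 0 ≤ x.2.2.2.1
  a1 : x.2.2.2.1 ≤ 1
  b0 : 0 ≤ x.2.2.2.2
  b1 : x.2.2.2.2 ≤ 1
  cL : x.2.2.2.1 = 0 ∨ x.2.2.2.1 = 1 ∨ x.1 - M x = 0
  cR : x.2.2.2.2 = 0 ∨ x.2.2.2.2 = 1 ∨ x.1 + M x = 1

/-- The full descent statement. -/
theorem descent {N : ℝ} {x : V} (hno : ¬ Crit D x) (hx : x ∈ Box N) (hN1 : x.2.2.2.1 < N)
    (hN2 : x.2.2.2.2 < N) (hS0 : 0 < D.S x) (hS1 : D.S x < D.G 1) :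
    ∃ d : V, ∃ ρ > 0, Cl D.S x d (-ρ) ∧ Stay N x d := by
  obtain ⟨-, -, -, ⟨a0, -⟩, ⟨b0, -⟩⟩ := hx
  rcases lt_or_ge 1 x.2.2.2.1 with a1 | a1
  · obtain ⟨ρ, hρ, h⟩ := upL_big (D := D) a1
    exact ⟨_, ρ, hρ, h, stay_L hN1⟩
  rcases lt_or_ge 1 x.2.2.2.2 with b1 | b1
  · obtain ⟨ρ, hρ, h⟩ := upR_big (D := D) b1
    exact ⟨_, ρ, hρ, h, stay_R hN2⟩
  rcases lt_or_ge (x.1 - M x) 0 with hL | hL
  · obtain ⟨ρ, hρ, h⟩ := upL_neg (D := D) (Gm_neg hL)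
    exact ⟨_, ρ, hρ, h, stay_L hN1⟩
  rcases lt_or_ge 1 (x.1 + M x) with hR | hR
  · obtain ⟨ρ, hρ, h⟩ := upR_neg (D := D) (Gp_neg hR)
    exact ⟨_, ρ, hρ, h, stay_R hN2⟩
  by_cases hcL : x.2.2.2.1 = 0 ∨ x.2.2.2.1 = 1 ∨ x.1 - M x = 0
  · by_cases hcR : x.2.2.2.2 = 0 ∨ x.2.2.2.2 = 1 ∨ x.1 + M x = 1
    · obtain ⟨a, b, c, ρ, hρ, h⟩ := Loc.desc_base
        (fun hr => hno ⟨hr, hL, hR, a0, a1, b0, b1, hcL, hcR⟩) hL hR a0 a1 b0 b1 hcL hcR hS0 hS1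
      exact ⟨_, ρ, hρ, h, stay_base a b c hL hR⟩
    · push Not at hcR
      obtain ⟨ρ, hρ, h⟩ := downR (D := D) (lt_of_le_of_ne b0 hcR.1.symm)
        (lt_of_le_of_ne b1 hcR.2.1) (Gp_pos (lt_of_le_of_ne hR hcR.2.2))
      exact ⟨_, ρ, hρ, h, stay_R' (lt_of_le_of_ne b0 hcR.1.symm)⟩
  · push Not at hcL
    obtain ⟨ρ, hρ, h⟩ := downL (D := D) (lt_of_le_of_ne a0 hcL.1.symm)
      (lt_of_le_of_ne a1 hcL.2.1) (Gm_pos (lt_of_le_of_ne hL hcL.2.2.symm))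
    exact ⟨_, ρ, hρ, h, stay_L' (lt_of_le_of_ne a0 hcL.1.symm)⟩

end Pool.Agent.Run7.h118.TG.Loc
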